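import Pool.Agent.CDZ.StW
import Pool.Agent.CU.LinG

/-!
# CDZ, module AllWin: all primes in short windows
-/

set_option autoImplicit false

open Finset Filter Topology

namespace Pool.Agent.CDZ

/-- (W2) Upper bound for all primes in short windows, uniformly in the window. -/
theorem thm_AllWin : AllWin := by
  intro a0 ρ ha0 ha1 hρ
  set τ : ℝ := min (a0 / 2) (ρ * a0 ^ 2 / 8) with hτ
  have hτ0 : 0 < τ := lt_min (by positivity) (by positivity)
  have hτ1 : τ ≤ a0 / 2 := min_le_left _ _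
  have hτ2 : τ ≤ ρ * a0 ^ 2 / 8 := min_le_right _ _
  have hlogt : Tendsto (fun n : ℕ => Real.log n) atTop atTop :=
    Real.tendsto_log_atTop.comp tendsto_natCast_atTop_atTop
  have hpow : Tendsto (fun X : ℕ => (X : ℝ) ^ (a0 / 2)) atTop atTop :=
    (tendsto_rpow_atTop (by positivity)).comp tendsto_natCast_atTop_atTop
  filter_upwards [Pool.Agent.CU.ling_mert1 (a0 / 2) (ρ / 2) (by positivity) (by positivity),
    hlogt.eventually_ge_atTop (Real.log 2 / τ), hpow.eventually_ge_atTop 2, eventually_ge_atTop 3]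
    with X hM hL hP hX3
  intro α β Q hα hαβ hβ hQ
  have hX1 : (1 : ℝ) < X := by
    have : (3 : ℝ) ≤ X := by exact_mod_cast hX3
    linarith
  have hX0 : (0 : ℝ) < X := by linarith
  have hlog : 0 < Real.log X := Real.log_pos hX1
  have hlog2 : 0 < Real.log 2 := Real.log_pos (by norm_num)
  have hL2 : Real.log 2 ≤ τ * Real.log X := by
    rw [div_le_iff₀ hτ0] at hL
    linarith
  rcases Q.eq_empty_or_nonempty with hQe | hQne
  · rw [hQe, Finset.sum_empty]
    have : 0 ≤ (β - α) / a0 := div_nonneg (by linarith) ha0.le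
    linarith
  -- the extreme primes
  set a : ℕ := Q.min' hQne with ha
  set v : ℕ := Q.max' hQne with hv
  have haQ : a ∈ Q := Finset.min'_mem _ _
  have hvQ : v ∈ Q := Finset.max'_mem _ _
  have hap := hQ a haQ
  have hvp := hQ v hvQ
  have ha2 : 2 ≤ a := hap.1.two_le
  have hav : a ≤ v := Finset.min'_le _ _ hvQ
  have haR : (0 : ℝ) < a := by exact_mod_cast hap.1.pos
  have hvR : (0 : ℝ) < v := by exact_mod_cast hvp.1.pos
  have hla : α * Real.log X ≤ Real.log a := by
    have := hap.2.1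
    unfold lg at this
    rwa [le_div_iff₀ hlog] at this
  have hlv : Real.log v ≤ β * Real.log X := by
    have := hvp.2.2
    unfold lg at this
    rwa [div_le_iff₀ hlog] at this
  have hvX : v ≤ X := by
    have h1 : Real.log v ≤ Real.log X := by
      refine hlv.trans ?_
      nlinarith
    have h2 := (Real.log_le_log_iff hvR hX0).1 h1
    exact_mod_cast h2
  have haX : (X : ℝ) ^ (a0 / 2) ≤ (a : ℝ) - 1 := by
    have h1 : (X : ℝ) ^ a0 ≤ a := by
      rw [← Real.log_le_log_iff (by positivity) haR, Real.log_rpow hX0]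
      refine le_trans ?_ hla
      exact mul_le_mul_of_nonneg_right hα hlog.le
    have h2 : (X : ℝ) ^ a0 = (X : ℝ) ^ (a0 / 2) * (X : ℝ) ^ (a0 / 2) := by
      rw [← Real.rpow_add hX0]
      congr 1
      ring
    nlinarith
  have hu1 : ⌊(X : ℝ) ^ (a0 / 2)⌋₊ ≤ a - 1 := by
    have h1 : ((⌊(X : ℝ) ^ (a0 / 2)⌋₊ : ℕ) : ℝ) ≤ ((a - 1 : ℕ) : ℝ) := by
      rw [Nat.cast_sub (by omega), Nat.cast_one]
      exact (Nat.floor_le (by positivity)).trans haX
    exact_mod_cast h1
  have h1 := hM (a - 1) v hu1 (by omega) hvX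
  have h2 := (abs_le.1 h1).2
  have hsub : ∑ q ∈ Q, (1 : ℝ) / q ≤ ∑ p ∈ (Ioc (a - 1) v).filter Nat.Prime, 1 / (p : ℝ) := by
    refine Finset.sum_le_sum_of_subset_of_nonneg ?_ (fun _ _ _ => by positivity)
    intro q hq
    rw [Finset.mem_filter, Finset.mem_Ioc]
    have h3 : a ≤ q := Finset.min'_le _ _ hq
    have h4 : q ≤ v := Finset.le_max' _ _ hq
    exact ⟨⟨by omega, h4⟩, (hQ q hq).1⟩
  -- the logarithms
  have hucast : (((a - 1 : ℕ) : ℕ) : ℝ) = (a : ℝ) - 1 := by
    rw [Nat.cast_sub (by omega), Nat.cast_one]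
  have hau : (a : ℝ) / 2 ≤ (a : ℝ) - 1 := by
    have : (2 : ℝ) ≤ a := by exact_mod_cast ha2
    linarith
  have hlu : (α - τ) * Real.log X ≤ Real.log ((a - 1 : ℕ) : ℝ) := by
    rw [hucast]
    have h3 : Real.log ((a : ℝ) / 2) ≤ Real.log ((a : ℝ) - 1) :=
      Real.log_le_log (by positivity) hau
    rw [Real.log_div haR.ne' (by norm_num)] at h3
    linarith
  have hαt : 0 < a0 - τ := by linarith
  have hlu0 : (a0 - τ) * Real.log X ≤ Real.log ((a - 1 : ℕ) : ℝ) := by
    refine le_trans ?_ hlu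
    exact mul_le_mul_of_nonneg_right (by linarith) hlog.le
  have hlupos : 0 < Real.log ((a - 1 : ℕ) : ℝ) := lt_of_lt_of_le (by positivity) hlu0
  have hlvpos : 0 < Real.log v := by
    have : (2 : ℝ) ≤ v := by exact_mod_cast ha2.trans hav
    exact Real.log_pos (by linarith)
  have h5 : Real.log (Real.log v / Real.log ((a - 1 : ℕ) : ℝ)) ≤
      Real.log v / Real.log ((a - 1 : ℕ) : ℝ) - 1 :=
    Real.log_le_sub_one_of_pos (by positivity)
  have h6 : Real.log v / Real.log ((a - 1 : ℕ) : ℝ) - 1 ≤ (β - α + τ) / (a0 - τ) := by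
    rw [div_sub_one hlupos.ne', div_le_div_iff₀ hlupos hαt]
    calc (Real.log v - Real.log ((a - 1 : ℕ) : ℝ)) * (a0 - τ) ≤
        ((β - α + τ) * Real.log X) * (a0 - τ) := by
          refine mul_le_mul_of_nonneg_right ?_ hαt.le
          linarith
      _ = (β - α + τ) * ((a0 - τ) * Real.log X) := by ring
      _ ≤ (β - α + τ) * Real.log ((a - 1 : ℕ) : ℝ) :=
        mul_le_mul_of_nonneg_left hlu0 (by linarith)
  have h7 : (β - α + τ) / (a0 - τ) ≤ (β - α) / a0 + ρ / 2 := by
    rw [div_le_iff₀ hαt]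
    have h8 : (β - α) / a0 * a0 = β - α := div_mul_cancel₀ _ ha0.ne'
    have h9 : (β - α) / a0 ≤ 1 / a0 := by
      have : β - α ≤ 1 := by linarith
      gcongr
    have h10 : τ * ((β - α) / a0) ≤ τ / a0 := by
      calc τ * ((β - α) / a0) ≤ τ * (1 / a0) := mul_le_mul_of_nonneg_left h9 hτ0.le
        _ = τ / a0 := by ring
    have h11 : τ ≤ τ / a0 := by
      rw [le_div_iff₀ ha0]
      nlinarith
    have h12 : τ / a0 ≤ ρ * a0 / 8 := by
      rw [div_le_iff₀ ha0]
      calc τ ≤ ρ * a0 ^ 2 / 8 := hτ2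
        _ = ρ * a0 / 8 * a0 := by ring
    have h13 : ρ / 2 * (a0 / 2) ≤ ρ / 2 * (a0 - τ) := by
      apply mul_le_mul_of_nonneg_left <;> linarith
    nlinarith
  linarith

end Pool.Agent.CDZ
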