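import Pool.Agent.CDZ.GoodOne

/-!
# CDZ / BadCount: the numbers which are bad for a given `lam` (helper82)
-/

set_option autoImplicit false

open Finset Filter Topology

namespace Pool.Agent.CDZ

private lemma BadCount_union {ι : Type*} {S : Set ℕ} (I : Finset ι) (T : ι → Set ℕ) (c : ι → ℝ)
    (hf : ∀ i ∈ I, (T i).Finite ∧ ((T i).ncard : ℝ) ≤ c i) (h : ∀ b ∈ S, ∃ i ∈ I, b ∈ T i) :
    S.Finite ∧ (S.ncard : ℝ) ≤ ∑ i ∈ I, c i := by
  classical
  induction I using Finset.induction_on generalizing S with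
  | empty =>
    have : S = ∅ := by
      ext b
      constructor
      · intro hb
        obtain ⟨i, hi, -⟩ := h b hb
        exact absurd hi (Finset.notMem_empty i)
      · intro hb
        exact absurd hb (Set.notMem_empty b)
    subst this
    simp
  | insert a I ha ih =>
    have h1 := ih (S := {b ∈ S | ∃ i ∈ I, b ∈ T i}) (fun i hi => hf i (Finset.mem_insert_of_mem hi))
      (fun b hb => hb.2)
    have h2 : S ⊆ T a ∪ {b ∈ S | ∃ i ∈ I, b ∈ T i} := by
      intro b hb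
      obtain ⟨i, hi, hbi⟩ := h b hb
      rcases Finset.mem_insert.1 hi with rfl | hi
      · exact Or.inl hbi
      · exact Or.inr ⟨hb, i, hi, hbi⟩
    obtain ⟨h3, h4⟩ := hf a (Finset.mem_insert_self a I)
    refine ⟨(h3.union h1.1).subset h2, ?_⟩
    rw [Finset.sum_insert ha]
    have h5 : S.ncard ≤ (T a).ncard + {b ∈ S | ∃ i ∈ I, b ∈ T i}.ncard :=
      (Set.ncard_le_ncard h2 (h3.union h1.1)).trans (Set.ncard_union_le _ _)
    have h6 : (S.ncard : ℝ) ≤ ((T a).ncard : ℝ) + ({b ∈ S | ∃ i ∈ I, b ∈ T i}.ncard : ℝ) := by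
      exact_mod_cast h5
    linarith [h1.2]

private lemma BadCount_dvd (X d : ℕ) :
    {N : ℕ | N ∈ Set.Icc 1 X ∧ d ∣ N}.Finite ∧
      (({N : ℕ | N ∈ Set.Icc 1 X ∧ d ∣ N}.ncard : ℕ) : ℝ) ≤ X / d := by
  have h1 : {N : ℕ | N ∈ Set.Icc 1 X ∧ d ∣ N} =
      ((((Ioc 0 X).filter fun N => d ∣ N) : Finset ℕ) : Set ℕ) := by
    ext N
    simp only [Set.mem_setOf_eq, Finset.coe_filter, Finset.mem_Ioc, Set.mem_Icc]
    constructor
    · rintro ⟨⟨h1, h2⟩, h3⟩
      exact ⟨⟨by omega, h2⟩, h3⟩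
    · rintro ⟨⟨h1, h2⟩, h3⟩
      exact ⟨⟨by omega, h2⟩, h3⟩
  rw [h1]
  refine ⟨Finset.finite_toSet _, ?_⟩
  rw [Set.ncard_coe_finset, Nat.Ioc_filter_dvd_card_eq_div]
  exact Nat.cast_div_le

/-- Second stage: primes from the sets `R j`. -/
private lemma BadCount_H (X : ℕ) (R : ℕ → Finset ℕ) (B : Finset ℕ) :
    (∀ j ∈ B, ∀ r ∈ R j, r.Prime) →
    (∀ j ∈ B, ∀ j' ∈ B, j ≠ j' → ∀ r ∈ R j, r ∉ R j') → ∀ d : ℕ, 0 < d →
    (∀ j ∈ B, ∀ r ∈ R j, ¬ r ∣ d) →
    {N : ℕ | N ∈ Set.Icc 1 X ∧ d ∣ N ∧ ∃ q : ℕ → ℕ, ∀ j ∈ B, q j ∈ R j ∧ q j ∣ N}.Finite ∧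
    (({N : ℕ | N ∈ Set.Icc 1 X ∧ d ∣ N ∧ ∃ q : ℕ → ℕ, ∀ j ∈ B, q j ∈ R j ∧ q j ∣ N}.ncard : ℕ) : ℝ) ≤
      (X : ℝ) / d * ∏ j ∈ B, ∑ r ∈ R j, (1 : ℝ) / r := by
  classical
  induction B using Finset.induction_on with
  | empty =>
    intro _ _ d hd _
    rw [Finset.prod_empty, mul_one]
    obtain ⟨h1, h2⟩ := BadCount_dvd X d
    have hsub : {N : ℕ | N ∈ Set.Icc 1 X ∧ d ∣ N ∧ ∃ q : ℕ → ℕ, ∀ j ∈ (∅ : Finset ℕ),
        q j ∈ R j ∧ q j ∣ N} ⊆ {N : ℕ | N ∈ Set.Icc 1 X ∧ d ∣ N} := fun N hN => ⟨hN.1, hN.2.1⟩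
    refine ⟨h1.subset hsub, le_trans ?_ h2⟩
    exact_mod_cast Set.ncard_le_ncard hsub h1
  | insert j B hj ih =>
    intro hpr hdis d hd hnd
    have hd0 : (0 : ℝ) < d := by exact_mod_cast hd
    have key := BadCount_union (S := {N : ℕ | N ∈ Set.Icc 1 X ∧ d ∣ N ∧ ∃ q : ℕ → ℕ,
        ∀ j' ∈ insert j B, q j' ∈ R j' ∧ q j' ∣ N}) (R j)
      (fun r => {N : ℕ | N ∈ Set.Icc 1 X ∧ d * r ∣ N ∧ ∃ q : ℕ → ℕ, ∀ j' ∈ B, q j' ∈ R j' ∧ q j' ∣ N})
      (fun r => (X : ℝ) / ((d * r : ℕ) : ℝ) * ∏ j' ∈ B, ∑ r ∈ R j', (1 : ℝ) / r) (by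
        intro r hr
        have hrp := hpr j (Finset.mem_insert_self j B) r hr
        refine ih (fun j' hj' => hpr j' (Finset.mem_insert_of_mem hj'))
          (fun j1 h1 j2 h2 => hdis j1 (Finset.mem_insert_of_mem h1) j2 (Finset.mem_insert_of_mem h2))
          (d * r) (Nat.mul_pos hd hrp.pos) ?_
        intro j' hj' r' hr' hdvd
        have hrp' := hpr j' (Finset.mem_insert_of_mem hj') r' hr'
        rcases (Nat.Prime.dvd_mul hrp').1 hdvd with h | h
        · exact hnd j' (Finset.mem_insert_of_mem hj') r' hr' h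
        · have he := (Nat.prime_dvd_prime_iff_eq hrp' hrp).1 h
          subst he
          refine hdis j (Finset.mem_insert_self j B) j' (Finset.mem_insert_of_mem hj') ?_ r' hr hr'
          rintro rfl
          exact hj hj') (by
        rintro N ⟨hN, hdN, q, hq⟩
        obtain ⟨h1, h2⟩ := hq j (Finset.mem_insert_self j B)
        have hrp := hpr j (Finset.mem_insert_self j B) (q j) h1
        refine ⟨q j, h1, hN, ?_, q, fun j' hj' => hq j' (Finset.mem_insert_of_mem hj')⟩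
        refine Nat.Coprime.mul_dvd_of_dvd_of_dvd ?_ hdN h2
        exact ((Nat.Prime.coprime_iff_not_dvd hrp).2
          (hnd j (Finset.mem_insert_self j B) (q j) h1)).symm)
    refine ⟨key.1, key.2.trans (le_of_eq ?_)⟩
    rw [Finset.prod_insert hj, Finset.sum_mul, Finset.mul_sum]
    refine Finset.sum_congr rfl fun r hr => ?_
    have hrp := hpr j (Finset.mem_insert_self j B) r hr
    have hr0 : (0 : ℝ) < r := by exact_mod_cast hrp.pos
    push_cast
    field_simp

/-- First stage: primes from the windows `W i`, the count may depend on them. -/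
private lemma BadCount_K (W : ℕ → Finset ℕ) (A : Finset ℕ) :
    ∀ (T : (ℕ → ℕ) → Set ℕ) (c : ℝ), 0 ≤ c → (∀ i ∈ A, ∀ p ∈ W i, 0 < p) →
    (∀ p p' : ℕ → ℕ, (∀ i ∈ A, p i = p' i) → T p = T p') →
    (∀ p : ℕ → ℕ, (∀ i ∈ A, p i ∈ W i) → (T p).Finite ∧
      ((T p).ncard : ℝ) ≤ c * ∏ i ∈ A, (1 : ℝ) / (p i : ℝ)) →
    {N : ℕ | ∃ p : ℕ → ℕ, (∀ i ∈ A, p i ∈ W i) ∧ N ∈ T p}.Finite ∧
    (({N : ℕ | ∃ p : ℕ → ℕ, (∀ i ∈ A, p i ∈ W i) ∧ N ∈ T p}.ncard : ℕ) : ℝ) ≤
      c * ∏ i ∈ A, ∑ p ∈ W i, (1 : ℝ) / p := by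
  classical
  induction A using Finset.induction_on with
  | empty =>
    intro T c hc _ hT hcount
    obtain ⟨h1, h2⟩ := hcount (fun _ => 0) (by simp)
    have hset : {N : ℕ | ∃ p : ℕ → ℕ, (∀ i ∈ (∅ : Finset ℕ), p i ∈ W i) ∧ N ∈ T p} =
        T (fun _ => 0) := by
      ext N
      constructor
      · rintro ⟨p, -, hN⟩
        rwa [hT p (fun _ => 0) (by simp)] at hN
      · intro hN
        exact ⟨fun _ => 0, by simp, hN⟩
    rw [hset]
    rw [Finset.prod_empty] at h2 ⊢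
    exact ⟨h1, h2⟩
  | insert i A hi ih =>
    intro T c hc hW hT hcount
    have key := BadCount_union (S := {N : ℕ | ∃ p : ℕ → ℕ, (∀ i' ∈ insert i A, p i' ∈ W i') ∧
        N ∈ T p}) (W i)
      (fun r => {N : ℕ | ∃ p : ℕ → ℕ, (∀ i' ∈ A, p i' ∈ W i') ∧ N ∈ T (Function.update p i r)})
      (fun r => c / r * ∏ i' ∈ A, ∑ p ∈ W i', (1 : ℝ) / p) (by
        intro r hr
        have hr0 : (0 : ℝ) < r := by exact_mod_cast hW i (Finset.mem_insert_self i A) r hr
        refine ih (fun p => T (Function.update p i r)) (c / r) (by positivity)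
          (fun i' hi' => hW i' (Finset.mem_insert_of_mem hi')) ?_ ?_
        · intro p p' hpp
          refine hT _ _ fun i' hi' => ?_
          by_cases h : i' = i
          · subst h; simp
          · rw [Function.update_of_ne h, Function.update_of_ne h]
            exact hpp i' ((Finset.mem_insert.1 hi').resolve_left h)
        · intro p hp
          have h1 := hcount (Function.update p i r) (by
            intro i' hi'
            by_cases h : i' = i
            · subst h; simpa using hr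
            · rw [Function.update_of_ne h]
              exact hp i' ((Finset.mem_insert.1 hi').resolve_left h))
          refine ⟨h1.1, h1.2.trans (le_of_eq ?_)⟩
          rw [Finset.prod_insert hi, Function.update_self]
          have h2 : ∏ i' ∈ A, (1 : ℝ) / ((Function.update p i r i' : ℕ) : ℝ) =
              ∏ i' ∈ A, (1 : ℝ) / (p i' : ℝ) := by
            refine Finset.prod_congr rfl fun i' hi' => ?_
            rw [Function.update_of_ne]
            rintro rfl
            exact hi hi'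
          rw [h2]
          ring) (by
        rintro N ⟨p, hp, hN⟩
        refine ⟨p i, hp i (Finset.mem_insert_self i A), p,
          fun i' hi' => hp i' (Finset.mem_insert_of_mem hi'), ?_⟩
        rwa [Function.update_eq_self])
    refine ⟨key.1, key.2.trans (le_of_eq ?_)⟩
    rw [Finset.prod_insert hi, Finset.sum_mul, Finset.mul_sum]
    refine Finset.sum_congr rfl fun r _ => ?_
    ring

theorem thm_BadCount (h1 : AllWin) (h2 : SigB) : BadCount := by
  classical
  intro M J m hM hJ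
  have hM1 : (32 : ℝ) ≤ M := by exact_mod_cast hM
  have hM0 : (1 : ℝ) ≤ M := by linarith
  have hMpos : (0 : ℝ) < M := by linarith
  have hx0 : ∀ i, 0 < aU M J i / M := fun i => by unfold aU; positivity
  have hx1 : ∀ i, aU M J i < 1 := fun i => by
    unfold aU
    rw [div_lt_one (by positivity)]
    exact one_lt_pow₀ (by linarith) (by omega)
  have hle : ∀ i, aU M J i / M ≤ aU M J i := fun i =>
    div_le_self (by unfold aU; positivity) hM0
  have hev : ∀ᶠ X : ℕ in atTop, ∀ i ∈ range J, ∀ (α β : ℝ) (Q : Finset ℕ),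
      aU M J i / M ≤ α → α ≤ β → β ≤ 1 → (∀ q ∈ Q, q.Prime ∧ α ≤ lg X q ∧ lg X q ≤ β) →
      ∑ q ∈ Q, (1 : ℝ) / q ≤ (β - α) / (aU M J i / M) + 1 := by
    rw [Filter.eventually_all_finset]
    intro i _
    exact h1 (aU M J i / M) 1 (hx0 i) (lt_of_le_of_lt (hle i) (hx1 i)) one_pos
  filter_upwards [hev, h2 M J m hM hJ, eventually_ge_atTop 2] with X hXev hXsig hX
  intro lam hlam1 hlam2
  have hX0 : (0 : ℝ) < X := by exact_mod_cast (by omega : 0 < X)
  have hsumA : ∀ i ∈ range J, ∑ p ∈ WA M J X i, (1 : ℝ) / p ≤ M := by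
    intro i hi
    have e := hXev i hi (aU M J i / M) (aU M J i) (WA M J X i) le_rfl (hle i) (hx1 i).le (by
      intro q hq
      obtain ⟨e1, e2⟩ := GoodOne_lg hX hq
      exact ⟨(GoodOne_pw hq).1, e1.le, e2⟩)
    refine e.trans (le_of_eq ?_)
    have e3 : aU M J i ≠ 0 := by
      have : 0 < aU M J i := by unfold aU; positivity
      exact this.ne'
    field_simp
    ring
  -- the bound for a pair `(A, B)`
  set PP := powersetCard m (range J) ×ˢ powersetCard m (range J) with hPP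
  set c0 : ℝ := (M * (3 / 4) ^ m) ^ m with hc0
  have hc00 : 0 ≤ c0 := by positivity
  have hAB : ∀ AB ∈ PP, {N : ℕ | ∃ p : ℕ → ℕ, (∀ i ∈ AB.1, p i ∈ WA M J X i) ∧
      N ∈ {N : ℕ | N ∈ Set.Icc 1 X ∧ (∏ i ∈ AB.1, p i) ∣ N ∧ ∃ q : ℕ → ℕ, ∀ j ∈ AB.2,
        q j ∈ (WB M J X j).filter (fun r => ∀ i ∈ AB.1,
          BadR (1 / 40) (lam / (lg X (p i) + lg X r))) ∧ q j ∣ N}}.Finite ∧
      (({N : ℕ | ∃ p : ℕ → ℕ, (∀ i ∈ AB.1, p i ∈ WA M J X i) ∧
      N ∈ {N : ℕ | N ∈ Set.Icc 1 X ∧ (∏ i ∈ AB.1, p i) ∣ N ∧ ∃ q : ℕ → ℕ, ∀ j ∈ AB.2,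
        q j ∈ (WB M J X j).filter (fun r => ∀ i ∈ AB.1,
          BadR (1 / 40) (lam / (lg X (p i) + lg X r))) ∧ q j ∣ N}}.ncard : ℕ) : ℝ) ≤
        X * c0 * (M : ℝ) ^ m := by
    rintro ⟨A, B⟩ hAB
    obtain ⟨hA, hB⟩ := Finset.mem_product.1 hAB
    obtain ⟨hAJ, hAc⟩ := Finset.mem_powersetCard.1 hA
    obtain ⟨hBJ, hBc⟩ := Finset.mem_powersetCard.1 hB
    have hAlt : ∀ i ∈ A, i < J := fun i hi => Finset.mem_range.1 (hAJ hi)
    have hBlt : ∀ j ∈ B, j < J := fun j hj => Finset.mem_range.1 (hBJ hj)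
    have hK := BadCount_K (fun i => WA M J X i) A
      (fun p => {N : ℕ | N ∈ Set.Icc 1 X ∧ (∏ i ∈ A, p i) ∣ N ∧ ∃ q : ℕ → ℕ, ∀ j ∈ B,
        q j ∈ (WB M J X j).filter (fun r => ∀ i ∈ A,
          BadR (1 / 40) (lam / (lg X (p i) + lg X r))) ∧ q j ∣ N}) (X * c0) (by positivity)
      (fun i _ p hp => (GoodOne_pw hp).1.pos) (by
        intro p p' hpp
        have e1 : ∏ i ∈ A, p i = ∏ i ∈ A, p' i := Finset.prod_congr rfl hpp
        have e2 : ∀ j, (WB M J X j).filter (fun r => ∀ i ∈ A,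
            BadR (1 / 40) (lam / (lg X (p i) + lg X r))) = (WB M J X j).filter (fun r => ∀ i ∈ A,
            BadR (1 / 40) (lam / (lg X (p' i) + lg X r))) := by
          intro j
          refine Finset.filter_congr fun r _ => ?_
          constructor
          · intro h i hi
            rw [← hpp i hi]
            exact h i hi
          · intro h i hi
            rw [hpp i hi]
            exact h i hi
        simp only [e1, e2]) (by
        intro p hp
        have hpp : ∀ i ∈ A, (p i).Prime := fun i hi => (GoodOne_pw (hp i hi)).1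
        have hH := BadCount_H X (fun j => (WB M J X j).filter (fun r => ∀ i ∈ A,
            BadR (1 / 40) (lam / (lg X (p i) + lg X r)))) B
          (fun j _ r hr => (GoodOne_pw (Finset.mem_filter.1 hr).1).1)
          (fun j _ j' _ hne r hr hr' => GoodOne_B hM hX hne (Finset.mem_filter.1 hr).1
            (Finset.mem_filter.1 hr').1 rfl)
          (∏ i ∈ A, p i) (Finset.prod_pos fun i hi => (hpp i hi).pos) (by
            intro j _ r hr hdvd
            have hr1 := (Finset.mem_filter.1 hr).1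
            have hrp := (GoodOne_pw hr1).1
            obtain ⟨i, hi, hri⟩ := (Prime.dvd_finsetProd_iff hrp.prime _).1 hdvd
            have he := (Nat.prime_dvd_prime_iff_eq hrp (hpp i hi)).1 hri
            exact GoodOne_AB hM hX (hAlt i hi) (hp i hi) hr1 he.symm)
        refine ⟨hH.1, hH.2.trans ?_⟩
        have e1 : ∏ j ∈ B, ∑ r ∈ (WB M J X j).filter (fun r => ∀ i ∈ A,
            BadR (1 / 40) (lam / (lg X (p i) + lg X r))), (1 : ℝ) / r ≤ c0 := by
          calc _ ≤ ∏ _j ∈ B, ((M : ℝ) * (3 / 4) ^ m) := by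
                refine Finset.prod_le_prod (fun j _ => Finset.sum_nonneg fun r _ => by positivity)
                  fun j hj => ?_
                exact hXsig lam A p j _ hlam1 hlam2 hAJ hAc hp (hBlt j hj)
                  (Finset.filter_subset _ _) fun r hr => (Finset.mem_filter.1 hr).2
            _ = c0 := by rw [Finset.prod_const, hBc]
        have e2 : (X : ℝ) / ((∏ i ∈ A, p i : ℕ) : ℝ) = X * ∏ i ∈ A, (1 : ℝ) / (p i : ℝ) := by
          rw [Finset.prod_div_distrib, Finset.prod_const_one, Nat.cast_prod]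
          ring
        rw [e2]
        have e3 : 0 ≤ X * ∏ i ∈ A, (1 : ℝ) / (p i : ℝ) :=
          mul_nonneg hX0.le (Finset.prod_nonneg fun i _ => by positivity)
        calc _ ≤ (X * ∏ i ∈ A, (1 : ℝ) / (p i : ℝ)) * c0 := mul_le_mul_of_nonneg_left e1 e3
          _ = _ := by ring)
    refine ⟨hK.1, hK.2.trans ?_⟩
    refine mul_le_mul_of_nonneg_left ?_ (by positivity)
    calc _ ≤ ∏ _i ∈ A, (M : ℝ) := Finset.prod_le_prod
          (fun i _ => Finset.sum_nonneg fun r _ => by positivity) fun i hi => hsumA i (hAJ hi)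
      _ = (M : ℝ) ^ m := by rw [Finset.prod_const, hAc]
  have key := BadCount_union (S := {N ∈ Set.Icc 1 X | BadN M J m X lam N}) PP _ _ hAB (by
    rintro N ⟨hN, A, B, p, q, hAJ, hBJ, hAc, hBc, hp, hq, hbad⟩
    refine ⟨(A, B), Finset.mem_product.2 ⟨Finset.mem_powersetCard.2 ⟨hAJ, hAc⟩,
      Finset.mem_powersetCard.2 ⟨hBJ, hBc⟩⟩, p, fun i hi => (hp i hi).1, hN, ?_, q, ?_⟩
    · -- the product of the `p i` divides `N`
      have hpp : ∀ i ∈ A, (p i).Prime := fun i hi => (GoodOne_pw (hp i hi).1).1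
      show (∏ i ∈ A, p i) ∣ N
      have hinj : Set.InjOn p (A : Set ℕ) := by
        intro i hi i' hi' he
        by_contra hne
        exact GoodOne_A hM hX hne (hp i (Finset.mem_coe.1 hi)).1 (hp i' (Finset.mem_coe.1 hi')).1 he
      have himg : ∏ i ∈ A, p i = ∏ x ∈ A.image p, x := by
        rw [Finset.prod_image hinj]
      rw [himg]
      apply Finset.prod_primes_dvd
      · intro x hx
        obtain ⟨i, hi, rfl⟩ := Finset.mem_image.1 hx
        exact (hpp i hi).prime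
      · intro x hx
        obtain ⟨i, hi, rfl⟩ := Finset.mem_image.1 hx
        exact (hp i hi).2
    · intro j hj
      exact ⟨Finset.mem_filter.2 ⟨(hq j hj).1, fun i hi => hbad i hi j hj⟩, (hq j hj).2⟩)
  refine key.2.trans ?_
  rw [Finset.sum_const, nsmul_eq_mul]
  have hcard : (PP.card : ℝ) ≤ 4 ^ J := by
    have e1 : PP.card ≤ 4 ^ J := by
      rw [hPP, Finset.card_product]
      have e2 : (powersetCard m (range J)).card ≤ 2 ^ J := by
        rw [Finset.card_powersetCard, Finset.card_range]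
        exact Nat.choose_le_two_pow J m
      calc _ ≤ 2 ^ J * 2 ^ J := Nat.mul_le_mul e2 e2
        _ = 4 ^ J := (mul_pow 2 2 J).symm
    exact_mod_cast e1
  have hval : (X : ℝ) * c0 * (M : ℝ) ^ m = (M : ℝ) ^ (2 * m) * (3 / 4) ^ (m * m) * X := by
    rw [hc0, mul_pow, ← pow_mul, two_mul, pow_add]
    ring
  rw [hval]
  calc (PP.card : ℝ) * ((M : ℝ) ^ (2 * m) * (3 / 4) ^ (m * m) * X)
      ≤ 4 ^ J * ((M : ℝ) ^ (2 * m) * (3 / 4) ^ (m * m) * X) :=
        mul_le_mul_of_nonneg_right hcard (by positivity)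
    _ = _ := by ring

end Pool.Agent.CDZ
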