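import Pool.Agent.CDZ.StK
import Pool.Agent.Helper88.MD.Div

/-!
# CDZ Cell: the count in one cell
-/

set_option autoImplicit false

open Finset Filter Topology

namespace Pool.Agent.CDZ

private theorem Cell_div (ε : ℝ) (hε : 0 < ε) : ∃ C : ℝ, 1 ≤ C ∧ ∀ n x : ℕ, 1 ≤ x → x ≤ n →
    (x.divisors.card : ℝ) ≤ C * (n : ℝ) ^ ε := by
  obtain ⟨C, hC⟩ := Pool.Agent.Helper88.MD.divisorBound ε hε
  refine ⟨max C 1, le_max_right _ _, fun n x hx hxn => ?_⟩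
  have hx0 : (0 : ℝ) < x := by exact_mod_cast hx
  have h1 : (x : ℝ) ^ ε ≤ (n : ℝ) ^ ε :=
    Real.rpow_le_rpow hx0.le (by exact_mod_cast hxn) hε.le
  calc (x.divisors.card : ℝ) ≤ C * (x : ℝ) ^ ε := hC x hx
    _ ≤ max C 1 * (x : ℝ) ^ ε := mul_le_mul_of_nonneg_right (le_max_left _ _) (by positivity)
    _ ≤ max C 1 * (n : ℝ) ^ ε := mul_le_mul_of_nonneg_left h1 (by positivity)

/-- lower bounds for `E` -/
private theorem Cell_low {l L0 : ℕ} {κ u E : ℝ} (hl : 1 ≤ l) (hlL : l ≤ L0) (hκ0 : 0 < κ)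
    (hκ1 : κ < 1) (hu : 1 ≤ u) (hE : 1 ≤ E) (h : u ≤ E ^ (2 * (l : ℝ) - κ)) :
    u ^ (1 / 2 + κ / (4 * L0)) ≤ E ^ l ∧ u ^ (1 / (2 * (L0 : ℝ))) ≤ E := by
  have hl' : (1 : ℝ) ≤ l := by exact_mod_cast hl
  have hlL' : (l : ℝ) ≤ L0 := by exact_mod_cast hlL
  have hL0 : (1 : ℝ) ≤ L0 := hl'.trans hlL'
  have hpos : 0 < 2 * (l : ℝ) - κ := by linarith
  have hE0 : 0 ≤ E := by linarith
  have hu0 : 0 ≤ u := by linarith
  constructor
  · have h1 : E ^ l = (E ^ (2 * (l : ℝ) - κ)) ^ ((l : ℝ) / (2 * l - κ)) := by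
      rw [← Real.rpow_mul hE0, mul_div_cancel₀ _ hpos.ne', Real.rpow_natCast]
    rw [h1]
    have h2 : u ^ ((l : ℝ) / (2 * l - κ)) ≤ (E ^ (2 * (l : ℝ) - κ)) ^ ((l : ℝ) / (2 * l - κ)) :=
      Real.rpow_le_rpow hu0 h (by positivity)
    refine le_trans ?_ h2
    apply Real.rpow_le_rpow_of_exponent_le hu
    rw [le_div_iff₀ hpos]
    have h3 : κ / (4 * L0) * (2 * (l : ℝ)) ≤ κ / 2 := by
      rw [div_mul_eq_mul_div, div_le_div_iff₀ (by positivity) (by norm_num)]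
      nlinarith
    have h4 : 0 ≤ κ / (4 * L0) * κ := by positivity
    nlinarith
  · have h1 : u ≤ E ^ (2 * (L0 : ℝ)) := by
      refine h.trans (Real.rpow_le_rpow_of_exponent_le hE (by linarith))
    calc u ^ (1 / (2 * (L0 : ℝ))) ≤ (E ^ (2 * (L0 : ℝ))) ^ (1 / (2 * (L0 : ℝ))) :=
          Real.rpow_le_rpow hu0 h1 (by positivity)
      _ = E := by
          rw [← Real.rpow_mul hE0, mul_one_div_cancel (by positivity), Real.rpow_one]

/-- upper bounds for `D` -/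
private theorem Cell_up {l L0 : ℕ} {κ u D : ℝ} (hl : 1 ≤ l) (hlL : l ≤ L0) (hκ0 : 0 < κ)
    (hκ1 : κ < 1) (hD : 1 ≤ D) (h : D ^ (2 * (l : ℝ) - 1 + κ) ≤ u) :
    D ^ (2 * l - 1) ≤ u ^ (1 - κ / (2 * L0)) ∧ D ≤ u := by
  have hl' : (1 : ℝ) ≤ l := by exact_mod_cast hl
  have hlL' : (l : ℝ) ≤ L0 := by exact_mod_cast hlL
  have hL0 : (1 : ℝ) ≤ L0 := hl'.trans hlL'
  have hpos : 0 < 2 * (l : ℝ) - 1 + κ := by linarith
  have hD0 : 0 ≤ D := by linarith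
  have hu1 : 1 ≤ u := le_trans (Real.one_le_rpow hD hpos.le) h
  have hu0 : 0 ≤ u := by linarith
  constructor
  · have hc : ((2 * l - 1 : ℕ) : ℝ) = 2 * (l : ℝ) - 1 := by
      rw [Nat.cast_sub (by omega)]
      push_cast
      ring
    have h1 : D ^ (2 * l - 1) = (D ^ (2 * (l : ℝ) - 1 + κ)) ^ ((2 * (l : ℝ) - 1) / (2 * l - 1 + κ)) := by
      rw [← Real.rpow_mul hD0, mul_div_cancel₀ _ hpos.ne', ← hc, Real.rpow_natCast]
    rw [h1]
    have hnn : 0 ≤ (2 * (l : ℝ) - 1) / (2 * l - 1 + κ) := div_nonneg (by linarith) hpos.le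
    refine (Real.rpow_le_rpow (by positivity) h hnn).trans ?_
    apply Real.rpow_le_rpow_of_exponent_le hu1
    have h2 : (2 * (l : ℝ) - 1) / (2 * l - 1 + κ) = 1 - κ / (2 * l - 1 + κ) := by
      field_simp
      ring
    rw [h2]
    have h3 : κ / (2 * (L0 : ℝ)) ≤ κ / (2 * l - 1 + κ) :=
      div_le_div_of_nonneg_left hκ0.le hpos (by linarith)
    linarith
  · refine le_trans ?_ h
    calc D = D ^ (1 : ℝ) := (Real.rpow_one D).symm
      _ ≤ _ := Real.rpow_le_rpow_of_exponent_le hD (by linarith)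

/-- residue classes in intervals -/
private theorem Cell_res (D P x0 v : ℕ) (hP : 1 ≤ P) :
    (((Ico D (2 * D)).filter fun x => Nat.Coprime x v ∧ x % P = x0).card : ℝ) ≤ (D : ℝ) / P + 1 := by
  have hsub : ((Ico D (2 * D)).filter fun x => Nat.Coprime x v ∧ x % P = x0) ⊆
      (Ico D (2 * D)).filter fun x => x ≡ x0 [MOD P] := by
    intro x hx
    rw [mem_filter] at hx ⊢
    refine ⟨hx.1, ?_⟩
    unfold Nat.ModEq
    rw [← hx.2.2, Nat.mod_mod]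
  have h1 := Nat.Ico_filter_modEq_card D (2 * D) (r := P) (by omega) x0
  have hPq : (0 : ℚ) < P := by exact_mod_cast hP
  have h2 : ((((Ico D (2 * D)).filter fun x => x ≡ x0 [MOD P]).card : ℤ) : ℚ) ≤ (D : ℚ) / P + 1 := by
    rw [h1]
    push_cast
    apply max_le
    · have h3 := Int.ceil_lt_add_one ((2 * (D : ℚ) - x0) / P)
      have h4 := Int.le_ceil (((D : ℚ) - x0) / P)
      have h5 : (2 * (D : ℚ) - x0) / P - ((D : ℚ) - x0) / P = D / P := by ring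
      linarith
    · positivity
  have h3 : ((((Ico D (2 * D)).filter fun x => x ≡ x0 [MOD P]).card : ℕ) : ℝ) ≤ (D : ℝ) / P + 1 := by
    have h4 : ((((Ico D (2 * D)).filter fun x => x ≡ x0 [MOD P]).card : ℚ)) ≤ (D : ℚ) / P + 1 := by
      exact_mod_cast h2
    have h5 : (((((Ico D (2 * D)).filter fun x => x ≡ x0 [MOD P]).card : ℚ)) : ℝ) ≤
        (((D : ℚ) / P + 1 : ℚ) : ℝ) := Rat.cast_le.mpr h4
    push_cast at h5
    exact h5
  refine le_trans ?_ h3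
  exact_mod_cast card_le_card hsub

/-- the bound for the exponential sum -/
private theorem Cell_W {C κ ε η X u v D1 D2 W : ℝ} {L0 l1 l2 : ℕ} (hC : 1 ≤ C) (hκ0 : 0 < κ)
    (hκ1 : κ < 1)
    (hε : ε = κ / (40 * L0)) (hη : η = κ / (40 * (L0 : ℝ) ^ 3)) (hX : 1 ≤ X) (hXu : X ^ (2 / 5 : ℝ) ≤ u)
    (huX : u ≤ X) (hvu : v ≤ u) (hv : 0 ≤ v)
    (hl1 : 1 ≤ l1) (hl1L : l1 ≤ L0) (hl2 : 1 ≤ l2) (hl2L : l2 ≤ L0) (hD1 : 1 ≤ D1) (hD2 : 1 ≤ D2)
    (hD1u : D1 ≤ u) (hD2u : D2 ≤ u)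
    (h1 : u ^ (1 / 2 + κ / (4 * L0)) ≤ (2 * D1) ^ l1)
    (h2 : u ^ (1 / 2 + κ / (4 * L0)) ≤ (2 * D2) ^ l2)
    (_hW0 : 0 ≤ W)
    (hW : W ^ (2 * l1 * l2) ≤ C * ((2 * D1) * (2 * D2)) ^ (((2 * l1 * l2 : ℕ) : ℝ) + ε) * v /
      ((2 * D1) ^ l1 * (2 * D2) ^ l2)) :
    W ≤ (C * 4 ^ ε * 4) * (D1 * D2) * X ^ (-(3 * η)) := by
  have hl1' : (1 : ℝ) ≤ l1 := by exact_mod_cast hl1
  have hl2' : (1 : ℝ) ≤ l2 := by exact_mod_cast hl2
  have hl1L' : (l1 : ℝ) ≤ L0 := by exact_mod_cast hl1L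
  have hl2L' : (l2 : ℝ) ≤ L0 := by exact_mod_cast hl2L
  have hL0 : (1 : ℝ) ≤ L0 := hl1'.trans hl1L'
  have hX0 : 0 < X := by linarith
  have hu1 : 1 ≤ u := le_trans (Real.one_le_rpow hX (by norm_num)) hXu
  have hu0 : 0 < u := by linarith
  have hε0 : 0 < ε := by rw [hε]; positivity
  have hη0 : 0 < η := by rw [hη]; positivity
  have hDD : 0 < (2 * D1) * (2 * D2) := by positivity
  -- denominators
  have hden : u * X ^ (κ / (5 * L0)) ≤ (2 * D1) ^ l1 * (2 * D2) ^ l2 := by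
    have e1 : u ^ (1 / 2 + κ / (4 * L0)) * u ^ (1 / 2 + κ / (4 * L0)) ≤
        (2 * D1) ^ l1 * (2 * D2) ^ l2 :=
      mul_le_mul h1 h2 (by positivity) (by positivity)
    have e2 : u ^ (1 / 2 + κ / (4 * L0)) * u ^ (1 / 2 + κ / (4 * L0)) = u * u ^ (κ / (2 * L0)) := by
      rw [← Real.rpow_add hu0]
      have : (1 / 2 + κ / (4 * (L0 : ℝ)) + (1 / 2 + κ / (4 * L0))) = 1 + κ / (2 * L0) := by
        field_simp
        ring
      rw [this, Real.rpow_add hu0, Real.rpow_one]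
    have e3 : X ^ (κ / (5 * L0)) ≤ u ^ (κ / (2 * L0)) := by
      calc X ^ (κ / (5 * L0)) = (X ^ (2 / 5 : ℝ)) ^ (κ / (2 * L0)) := by
            rw [← Real.rpow_mul hX0.le]
            congr 1
            field_simp
        _ ≤ u ^ (κ / (2 * L0)) := Real.rpow_le_rpow (by positivity) hXu (by positivity)
    calc u * X ^ (κ / (5 * L0)) ≤ u * u ^ (κ / (2 * L0)) := mul_le_mul_of_nonneg_left e3 hu0.le
      _ ≤ _ := by rw [← e2]; exact e1
  have hnum : ((2 * D1) * (2 * D2)) ^ (((2 * l1 * l2 : ℕ) : ℝ) + ε) ≤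
      ((2 * D1) * (2 * D2)) ^ (2 * l1 * l2) * (4 ^ ε * X ^ (κ / (20 * L0))) := by
    rw [Real.rpow_add hDD, Real.rpow_natCast]
    apply mul_le_mul_of_nonneg_left _ (by positivity)
    calc ((2 * D1) * (2 * D2)) ^ ε ≤ (4 * (X * X)) ^ ε := by
          apply Real.rpow_le_rpow hDD.le _ hε0.le
          have e1 : D1 * D2 ≤ X * X :=
            mul_le_mul (hD1u.trans huX) (hD2u.trans huX) (by linarith) hX0.le
          nlinarith
      _ = 4 ^ ε * X ^ (κ / (20 * L0)) := by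
          rw [Real.mul_rpow (by norm_num) (by positivity), Real.mul_rpow hX0.le hX0.le,
            ← Real.rpow_add hX0]
          congr 2
          rw [hε]
          field_simp
          ring
  have hmain : W ^ (2 * l1 * l2) ≤ (C * 4 ^ ε) * ((2 * D1) * (2 * D2)) ^ (2 * l1 * l2) *
      X ^ (-(3 * κ / (20 * L0))) := by
    refine hW.trans ?_
    rw [div_le_iff₀ (by positivity)]
    have e1 : C * ((2 * D1) * (2 * D2)) ^ (((2 * l1 * l2 : ℕ) : ℝ) + ε) * v ≤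
        C * (((2 * D1) * (2 * D2)) ^ (2 * l1 * l2) * (4 ^ ε * X ^ (κ / (20 * L0)))) * u :=
      mul_le_mul (mul_le_mul_of_nonneg_left hnum (by linarith)) hvu hv (by positivity)
    refine e1.trans ?_
    have e2 : (C * 4 ^ ε) * ((2 * D1) * (2 * D2)) ^ (2 * l1 * l2) *
      X ^ (-(3 * κ / (20 * L0))) * (u * X ^ (κ / (5 * L0))) ≤
      (C * 4 ^ ε) * ((2 * D1) * (2 * D2)) ^ (2 * l1 * l2) *
      X ^ (-(3 * κ / (20 * L0))) * ((2 * D1) ^ l1 * (2 * D2) ^ l2) :=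
      mul_le_mul_of_nonneg_left hden (by positivity)
    refine le_trans (le_of_eq ?_) e2
    have e3 : X ^ (-(3 * κ / (20 * L0))) * X ^ (κ / (5 * L0)) = X ^ (κ / (20 * L0)) := by
      rw [← Real.rpow_add hX0]
      congr 1
      field_simp
      ring
    rw [← e3]
    ring
  have hpow : W ^ (2 * l1 * l2) ≤ ((C * 4 ^ ε * 4) * (D1 * D2) * X ^ (-(3 * η))) ^ (2 * l1 * l2) := by
    refine hmain.trans ?_
    have hC4 : 1 ≤ C * 4 ^ ε := by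
      have : (1 : ℝ) ≤ 4 ^ ε := Real.one_le_rpow (by norm_num) hε0.le
      nlinarith
    have e0 : 1 ≤ 2 * l1 * l2 := by
      have : 1 ≤ l1 * l2 := Nat.mul_pos (by omega) (by omega)
      nlinarith
    have e1 : C * 4 ^ ε ≤ (C * 4 ^ ε) ^ (2 * l1 * l2) := le_self_pow₀ hC4 (by omega)
    have e2 : X ^ (-(3 * κ / (20 * L0))) ≤ (X ^ (-(3 * η))) ^ (2 * l1 * l2) := by
      rw [← Real.rpow_natCast, ← Real.rpow_mul hX0.le]
      apply Real.rpow_le_rpow_of_exponent_le hX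
      push_cast
      rw [hη]
      have e3 : (l1 : ℝ) * l2 ≤ L0 ^ 2 := by nlinarith
      have e4 : 3 * (κ / (40 * (L0 : ℝ) ^ 3)) * (2 * l1 * l2) ≤ 3 * κ / (20 * L0) := by
        have e5 : 3 * (κ / (40 * (L0 : ℝ) ^ 3)) * (2 * l1 * l2) =
            (3 * κ / (20 * (L0 : ℝ) ^ 3)) * (l1 * l2) := by ring
        have e6 : 3 * κ / (20 * (L0 : ℝ)) = (3 * κ / (20 * (L0 : ℝ) ^ 3)) * L0 ^ 2 := by
          field_simp
        rw [e5, e6]
        exact mul_le_mul_of_nonneg_left e3 (by positivity)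
      linarith
    have e7 : ((C * 4 ^ ε * 4) * (D1 * D2) * X ^ (-(3 * η))) ^ (2 * l1 * l2) =
        (C * 4 ^ ε) ^ (2 * l1 * l2) * ((2 * D1) * (2 * D2)) ^ (2 * l1 * l2) *
          (X ^ (-(3 * η))) ^ (2 * l1 * l2) := by
      rw [← mul_pow, ← mul_pow]
      congr 1
      ring
    rw [e7]
    exact mul_le_mul (mul_le_mul_of_nonneg_right e1 (by positivity)) e2 (by positivity)
      (by positivity)
  have hne : 2 * l1 * l2 ≠ 0 := by
    have : 1 ≤ l1 * l2 := Nat.mul_pos (by omega) (by omega)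
    nlinarith
  exact le_of_pow_le_pow_left₀ hne (by positivity) hpow

private theorem Cell_ev (a : ℝ) (ha : 0 < a) (c : ℝ) : ∀ᶠ X : ℕ in atTop, c < (X : ℝ) ^ a := by
  have h1 : Tendsto (fun X : ℕ => (X : ℝ) ^ a) atTop atTop :=
    (tendsto_rpow_atTop ha).comp tendsto_natCast_atTop_atTop
  exact h1.eventually_gt_atTop c

private theorem Cell_evlog (a : ℝ) (ha : 0 < a) (c : ℝ) : ∀ᶠ X : ℕ in atTop,
    (1 + Real.log X) * c ≤ (X : ℝ) ^ a := by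
  have h1 : (fun x : ℝ => (1 + Real.log x) * c) =o[atTop] fun x : ℝ => x ^ a := by
    have h2 : (fun x : ℝ => Real.log x) =o[atTop] fun x : ℝ => x ^ a := isLittleO_log_rpow_atTop ha
    have h3 : (fun _ : ℝ => (1 : ℝ)) =o[atTop] fun x : ℝ => x ^ a := by
      rw [Asymptotics.isLittleO_const_left]
      right
      exact tendsto_norm_atTop_atTop.comp (tendsto_rpow_atTop ha)
    have h4 := (h3.add h2).const_mul_left c
    refine h4.congr_left fun x => ?_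
    ring
  have h5 := h1.bound (c := 1) (by norm_num)
  have h6 := tendsto_natCast_atTop_atTop (R := ℝ) |>.eventually h5
  filter_upwards [h6] with X hX
  rw [one_mul, Real.norm_of_nonneg (by positivity : (0 : ℝ) ≤ (X : ℝ) ^ a)] at hX
  exact (le_abs_self _).trans hX

theorem thm_Cell (h1 : KarH) (h2 : Fou) : Cell := by
  intro n L0 κ hn hL0 hκ0 hκ1
  have hL0' : (1 : ℝ) ≤ L0 := by exact_mod_cast hL0
  have hL00 : (0 : ℝ) < L0 := by linarith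
  have hn' : (1 : ℝ) ≤ n := by exact_mod_cast hn
  obtain ⟨ε, hε⟩ : ∃ ε : ℝ, ε = κ / (40 * L0) := ⟨_, rfl⟩
  have hε0 : 0 < ε := by rw [hε]; positivity
  obtain ⟨η, hη⟩ : ∃ η : ℝ, η = κ / (40 * (L0 : ℝ) ^ 3) := ⟨_, rfl⟩
  have hη0 : 0 < η := by rw [hη]; positivity
  have hL3 : (1 : ℝ) ≤ (L0 : ℝ) ^ 3 := one_le_pow₀ hL0'
  have hL2 : (1 : ℝ) ≤ (L0 : ℝ) ^ 2 := one_le_pow₀ hL0'
  have hηκ : η ≤ κ / (40 * L0) := by
    rw [hη]
    apply div_le_div_of_nonneg_left hκ0.le (by positivity)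
    have e0 : (L0 : ℝ) ≤ (L0 : ℝ) ^ 3 := le_self_pow₀ hL0' (by norm_num)
    linarith
  have hη5 : η < 1 / (5 * L0) := by
    refine lt_of_le_of_lt hηκ ?_
    rw [div_lt_div_iff₀ (by positivity) (by positivity)]
    nlinarith
  have hη25 : η ≤ 2 / 5 := by
    refine hηκ.trans ?_
    rw [div_le_div_iff₀ (by positivity) (by norm_num)]
    nlinarith
  obtain ⟨C, hC, hK⟩ := h1 L0 ε hε0
  obtain ⟨C3, hC3, hdiv⟩ := Cell_div (κ / (80 * L0)) (by positivity)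
  obtain ⟨C2, hC2⟩ : ∃ C2 : ℝ, C2 = C * 4 ^ ε * 4 := ⟨_, rfl⟩
  have hC20 : 0 < C2 := by rw [hC2]; positivity
  refine ⟨η, hη0, ?_⟩
  filter_upwards [eventually_ge_atTop 2, Cell_ev (1 / (5 * L0) - η) (by linarith) 2,
    Cell_ev (κ / (5 * L0) - κ / (10 * L0)) (by
      rw [sub_pos]
      apply div_lt_div_of_pos_left hκ0 (by positivity)
      linarith) (L0 * 2 ^ (2 * L0) * n),
    Cell_ev (2 / 5) (by norm_num) n, Cell_evlog (2 * η) (by positivity) (C2 + 4 * C3)]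
    with X hX2 hE2 hE4 hE6 hE5
  intro u v P s D1 D2 l1 l2 x0 y0 m0 g hXu huX hvu hunv hs hP1 hPX hPv hl1 hl1L hl2 hl2L hD1a hD1b
    hD2a hD2b hg
  have hX : (1 : ℝ) ≤ X := by exact_mod_cast (by omega : 1 ≤ X)
  have hX0 : (0 : ℝ) < X := by linarith
  have huX' : (u : ℝ) ≤ X := by exact_mod_cast huX
  have hu1 : (1 : ℝ) ≤ u := le_trans (Real.one_le_rpow hX (by norm_num)) hXu
  have hu1n : 1 ≤ u := by exact_mod_cast hu1
  have hvpos : 0 < v := Nat.pos_of_dvd_of_pos hvu hu1n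
  have : NeZero v := ⟨hvpos.ne'⟩
  have hvule : v ≤ u := Nat.le_of_dvd hu1n hvu
  have hv0 : (0 : ℝ) < v := by exact_mod_cast hvpos
  have hvu' : (v : ℝ) ≤ u := by exact_mod_cast hvule
  have hunv' : (u : ℝ) ≤ n * v := by exact_mod_cast hunv
  have hv2 : 2 ≤ v := by
    by_contra hcon
    have hv1 : v = 1 := by omega
    rw [hv1] at hunv'
    push_cast at hunv'
    linarith
  -- `D1`, `D2`
  have hDge : ∀ (D l : ℕ), 1 ≤ l → l ≤ L0 → (u : ℝ) ≤ (2 * (D : ℝ)) ^ (2 * (l : ℝ) - κ) → 1 ≤ D := by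
    intro D l hl _ h
    by_contra hcon
    have hD0 : D = 0 := by omega
    have hl' : (1 : ℝ) ≤ l := by exact_mod_cast hl
    rw [hD0] at h
    push_cast at h
    rw [mul_zero, Real.zero_rpow (by linarith)] at h
    linarith
  have hD1n := hDge D1 l1 hl1 hl1L hD1b
  have hD2n := hDge D2 l2 hl2 hl2L hD2b
  have hD1 : (1 : ℝ) ≤ D1 := by exact_mod_cast hD1n
  have hD2 : (1 : ℝ) ≤ D2 := by exact_mod_cast hD2n
  obtain ⟨a1, a2⟩ := Cell_low hl1 hl1L hκ0 hκ1 hu1 (by linarith) hD1b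
  obtain ⟨b1, b2⟩ := Cell_low hl2 hl2L hκ0 hκ1 hu1 (by linarith) hD2b
  obtain ⟨c1, c2⟩ := Cell_up hl1 hl1L hκ0 hκ1 hD1 hD1a
  obtain ⟨d1, d2⟩ := Cell_up hl2 hl2L hκ0 hκ1 hD2 hD2a
  have hP0 : (0 : ℝ) < P := by exact_mod_cast hP1
  have hP1' : (1 : ℝ) ≤ P := by exact_mod_cast hP1
  have hPD : ∀ D : ℝ, (u : ℝ) ^ (1 / (2 * (L0 : ℝ))) ≤ 2 * D → (P : ℝ) ≤ D := by
    intro D hD
    have e1 : (X : ℝ) ^ (1 / (5 * (L0 : ℝ))) ≤ (u : ℝ) ^ (1 / (2 * (L0 : ℝ))) := by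
      calc (X : ℝ) ^ (1 / (5 * (L0 : ℝ))) = ((X : ℝ) ^ (2 / 5 : ℝ)) ^ (1 / (2 * (L0 : ℝ))) := by
            rw [← Real.rpow_mul hX0.le]
            congr 1
            field_simp
        _ ≤ _ := Real.rpow_le_rpow (by positivity) hXu (by positivity)
    have e2 : 2 * (X : ℝ) ^ η ≤ (X : ℝ) ^ (1 / (5 * (L0 : ℝ))) := by
      have e3 : (X : ℝ) ^ (1 / (5 * (L0 : ℝ))) = (X : ℝ) ^ (1 / (5 * (L0 : ℝ)) - η) * (X : ℝ) ^ η := by
        rw [← Real.rpow_add hX0, sub_add_cancel]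
      rw [e3]
      exact mul_le_mul_of_nonneg_right hE2.le (by positivity)
    linarith
  have hPD1 := hPD D1 a2
  have hPD2 := hPD D2 b2
  -- the sets
  obtain ⟨I1, hI1⟩ : ∃ I1 : Finset ℕ, I1 = (Ico D1 (2 * D1)).filter fun x =>
    Nat.Coprime x v ∧ x % P = x0 := ⟨_, rfl⟩
  obtain ⟨I2, hI2⟩ : ∃ I2 : Finset ℕ, I2 = (Ico D2 (2 * D2)).filter fun x =>
    Nat.Coprime x v ∧ x % P = y0 := ⟨_, rfl⟩
  obtain ⟨E0, hE0⟩ : ∃ E0 : ℝ, E0 = (X : ℝ) ^ (κ / (10 * L0)) := ⟨_, rfl⟩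
  have hE00 : 0 < E0 := by rw [hE0]; positivity
  obtain ⟨W0, hW0⟩ : ∃ W0 : ℝ, W0 = C2 * ((D1 : ℝ) * D2) * (X : ℝ) ^ (-(3 * η)) := ⟨_, rfl⟩
  have hW00 : 0 ≤ W0 := by rw [hW0]; positivity
  -- the size condition of `KarH`
  have hsize : ∀ (D l : ℕ) (h : ZMod v), 1 ≤ l → l ≤ L0 →
      (D : ℝ) ^ (2 * l - 1) ≤ (u : ℝ) ^ (1 - κ / (2 * L0)) → (Nat.gcd h.val v : ℝ) ≤ E0 →
      l * (2 * D) ^ (2 * l - 1) * Nat.gcd h.val v < v := by
    intro D l h hl hlL hD hgcd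
    have e0 : (l : ℝ) * (2 * D) ^ (2 * l - 1) * (Nat.gcd h.val v : ℝ) < v := by
      have hl' : (l : ℝ) ≤ L0 := by exact_mod_cast hlL
      have e1 : (l : ℝ) * (2 * D) ^ (2 * l - 1) ≤ L0 * (2 ^ (2 * L0) * (u : ℝ) ^ (1 - κ / (2 * L0))) := by
        apply mul_le_mul hl' _ (by positivity) (by positivity)
        rw [mul_pow]
        apply mul_le_mul _ hD (by positivity) (by positivity)
        exact pow_le_pow_right₀ (by norm_num) (by omega)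
      have e2 : (l : ℝ) * (2 * D) ^ (2 * l - 1) * (Nat.gcd h.val v : ℝ) ≤
          L0 * (2 ^ (2 * L0) * (u : ℝ) ^ (1 - κ / (2 * L0))) * E0 :=
        mul_le_mul e1 hgcd (by positivity) (by positivity)
      have e3 : n * (L0 * (2 ^ (2 * L0) * (u : ℝ) ^ (1 - κ / (2 * L0))) * E0) < n * v := by
        refine lt_of_lt_of_le ?_ hunv'
        have e4 : (X : ℝ) ^ (κ / (5 * L0)) ≤ (u : ℝ) ^ (κ / (2 * L0)) := by
          calc (X : ℝ) ^ (κ / (5 * (L0 : ℝ))) = ((X : ℝ) ^ (2 / 5 : ℝ)) ^ (κ / (2 * (L0 : ℝ))) := by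
                rw [← Real.rpow_mul hX0.le]
                congr 1
                field_simp
            _ ≤ _ := Real.rpow_le_rpow (by positivity) hXu (by positivity)
        have e5 : (L0 : ℝ) * 2 ^ (2 * L0) * n * E0 < (X : ℝ) ^ (κ / (5 * L0)) := by
          have e6 : (X : ℝ) ^ (κ / (5 * L0)) = (X : ℝ) ^ (κ / (5 * L0) - κ / (10 * L0)) * E0 := by
            rw [hE0, ← Real.rpow_add hX0, sub_add_cancel]
          rw [e6]
          exact mul_lt_mul_of_pos_right hE4 hE00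
        have hu0 : (0 : ℝ) < u := by linarith
        have e7 : (u : ℝ) = (u : ℝ) ^ (κ / (2 * L0)) * (u : ℝ) ^ (1 - κ / (2 * L0)) := by
          rw [← Real.rpow_add hu0]
          have : κ / (2 * (L0 : ℝ)) + (1 - κ / (2 * L0)) = 1 := by ring
          rw [this, Real.rpow_one]
        have e8 : (L0 : ℝ) * 2 ^ (2 * L0) * n * E0 * (u : ℝ) ^ (1 - κ / (2 * L0)) <
            (u : ℝ) ^ (κ / (2 * L0)) * (u : ℝ) ^ (1 - κ / (2 * L0)) :=
          mul_lt_mul_of_pos_right (lt_of_lt_of_le e5 e4) (by positivity)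
        rw [← e7] at e8
        linarith
      have e9 := lt_of_mul_lt_mul_left e3 (by positivity)
      linarith
    exact_mod_cast e0
  have hmem1 : ∀ x ∈ I1, 1 ≤ x ∧ x ≤ 2 * D1 ∧ Nat.Coprime x v := by
    intro x hx
    rw [hI1, mem_filter, mem_Ico] at hx
    exact ⟨by omega, by omega, hx.2.1⟩
  have hmem2 : ∀ x ∈ I2, 1 ≤ x ∧ x ≤ 2 * D2 ∧ Nat.Coprime x v := by
    intro x hx
    rw [hI2, mem_filter, mem_Ico] at hx
    exact ⟨by omega, by omega, hx.2.1⟩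
  have hWb : ∀ h : ZMod v, h ≠ 0 → (Nat.gcd h.val v : ℝ) ≤ E0 →
      ‖∑ q ∈ I1 ×ˢ I2, ZMod.stdAddChar (h * (g * ((q.1 : ℕ) : ZMod v)⁻¹ * ((q.2 : ℕ) : ZMod v)⁻¹))‖
        ≤ W0 := by
    intro h hh hgcd
    rw [sum_product]
    have e1 := hK v l1 l2 (2 * D1) (2 * D2) hl1 hl1L hl2 hl2L (by omega) (by omega) h hh
      (hsize D1 l1 h hl1 hl1L c1 hgcd) (hsize D2 l2 h hl2 hl2L d1 hgcd) I1 I2 hmem1 hmem2 g hg
    rw [hW0, hC2]
    refine Cell_W (u := u) (v := v) hC hκ0 hκ1 hε hη hX hXu huX' hvu' hv0.le hl1 hl1L hl2 hl2L hD1 hD2 c2 d2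
      a1 b1 (norm_nonneg _) ?_
    refine e1.trans (le_of_eq ?_)
    push_cast
    rfl
  have hF := h2 v P (s ^ 2 * u) m0 hv2 hP1 hPv (I1 ×ˢ I2)
    (fun q => g * ((q.1 : ℕ) : ZMod v)⁻¹ * ((q.2 : ℕ) : ZMod v)⁻¹) W0 E0 hW00 hE00 hWb
  -- comparison of the sets
  have hcard : ((((Ico D1 (2 * D1) ×ˢ Ico D2 (2 * D2)) ×ˢ range (s ^ 2 * u)).filter fun z =>
        Nat.Coprime z.1.1 v ∧ Nat.Coprime z.1.2 v ∧ z.1.1 % P = x0 ∧ z.1.2 % P = y0 ∧
        z.2 % P = m0 ∧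
        ((z.2 : ℕ) : ZMod v) = g * ((z.1.1 : ℕ) : ZMod v)⁻¹ * ((z.1.2 : ℕ) : ZMod v)⁻¹).card : ℝ) ≤
      ((((I1 ×ˢ I2) ×ˢ range (s ^ 2 * u)).filter fun z => z.2 % P = m0 ∧ ((z.2 : ℕ) : ZMod v) =
        g * ((z.1.1 : ℕ) : ZMod v)⁻¹ * ((z.1.2 : ℕ) : ZMod v)⁻¹).card : ℝ) := by
    have hsub : (((Ico D1 (2 * D1) ×ˢ Ico D2 (2 * D2)) ×ˢ range (s ^ 2 * u)).filter fun z =>
        Nat.Coprime z.1.1 v ∧ Nat.Coprime z.1.2 v ∧ z.1.1 % P = x0 ∧ z.1.2 % P = y0 ∧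
        z.2 % P = m0 ∧
        ((z.2 : ℕ) : ZMod v) = g * ((z.1.1 : ℕ) : ZMod v)⁻¹ * ((z.1.2 : ℕ) : ZMod v)⁻¹) ⊆
      (((I1 ×ˢ I2) ×ˢ range (s ^ 2 * u)).filter fun z => z.2 % P = m0 ∧ ((z.2 : ℕ) : ZMod v) =
        g * ((z.1.1 : ℕ) : ZMod v)⁻¹ * ((z.1.2 : ℕ) : ZMod v)⁻¹) := by
      intro z hz
      rw [mem_filter, mem_product, mem_product] at hz
      obtain ⟨⟨⟨q1, q2⟩, q3⟩, q4, q5, q6, q7, q8, q9⟩ := hz
      rw [mem_filter, mem_product, mem_product, hI1, hI2, mem_filter, mem_filter]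
      exact ⟨⟨⟨⟨q1, q4, q6⟩, ⟨q2, q5, q7⟩⟩, q3⟩, q8, q9⟩
    exact_mod_cast card_le_card hsub
  refine hcard.trans (hF.trans ?_)
  -- sizes
  have hI1c : (I1.card : ℝ) ≤ 2 * D1 / P := by
    have e1 := Cell_res D1 P x0 v hP1
    rw [← hI1] at e1
    have e2 : (1 : ℝ) ≤ D1 / P := by rw [le_div_iff₀ hP0]; linarith
    have e3 : 2 * (D1 : ℝ) / P = D1 / P + D1 / P := by ring
    linarith
  have hI2c : (I2.card : ℝ) ≤ 2 * D2 / P := by
    have e1 := Cell_res D2 P y0 v hP1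
    rw [← hI2] at e1
    have e2 : (1 : ℝ) ≤ D2 / P := by rw [le_div_iff₀ hP0]; linarith
    have e3 : 2 * (D2 : ℝ) / P = D2 / P + D2 / P := by ring
    linarith
  have hQ : (((I1 ×ˢ I2).card : ℕ) : ℝ) ≤ 4 * ((D1 : ℝ) * D2) / (P : ℝ) ^ 2 := by
    rw [card_product, Nat.cast_mul]
    calc (I1.card : ℝ) * I2.card ≤ (2 * D1 / P) * (2 * D2 / P) :=
          mul_le_mul hI1c hI2c (by positivity) (by positivity)
      _ = _ := by field_simp; ring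
  have hQ' : (((I1 ×ˢ I2).card : ℕ) : ℝ) ≤ 4 * ((D1 : ℝ) * D2) := by
    refine hQ.trans (div_le_self (by positivity) (one_le_pow₀ hP1'))
  have hs1 : (1 : ℝ) ≤ s := by exact_mod_cast hs
  have hmain : (((s ^ 2 * u : ℕ) : ℝ) / P + 1) * ((I1 ×ˢ I2).card : ℕ) / v ≤
      8 * (s : ℝ) ^ 2 * n * ((D1 : ℝ) * D2) / (P : ℝ) ^ 3 := by
    have hPu : (P : ℝ) ≤ u := hPX.trans ((Real.rpow_le_rpow_of_exponent_le hX hη25).trans hXu)
    have hss : (1 : ℝ) ≤ (s : ℝ) ^ 2 := one_le_pow₀ hs1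
    have e1 : ((s ^ 2 * u : ℕ) : ℝ) / P + 1 ≤ 2 * (s : ℝ) ^ 2 * u / P := by
      rw [div_add_one hP0.ne', div_le_div_iff_of_pos_right hP0]
      push_cast
      have e0 : (u : ℝ) ≤ (s : ℝ) ^ 2 * u := le_mul_of_one_le_left (by positivity) hss
      linarith
    have e2 : (((s ^ 2 * u : ℕ) : ℝ) / P + 1) * ((I1 ×ˢ I2).card : ℕ) ≤
        (2 * (s : ℝ) ^ 2 * u / P) * (4 * ((D1 : ℝ) * D2) / (P : ℝ) ^ 2) :=
      mul_le_mul e1 hQ (by positivity) (by positivity)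
    rw [div_le_iff₀ hv0]
    refine e2.trans ?_
    have e3 : (2 * (s : ℝ) ^ 2 * u / P) * (4 * ((D1 : ℝ) * D2) / (P : ℝ) ^ 2) =
        (8 * (s : ℝ) ^ 2 * ((D1 : ℝ) * D2) / (P : ℝ) ^ 3) * u := by field_simp; ring
    have e4 : 8 * (s : ℝ) ^ 2 * n * ((D1 : ℝ) * D2) / (P : ℝ) ^ 3 * v =
        (8 * (s : ℝ) ^ 2 * ((D1 : ℝ) * D2) / (P : ℝ) ^ 3) * (n * v) := by ring
    rw [e3, e4]
    exact mul_le_mul_of_nonneg_left hunv' (by positivity)
  have herr : (1 + Real.log v) * (W0 + ((I1 ×ˢ I2).card : ℕ) * v.divisors.card / E0) ≤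
      (D1 : ℝ) * D2 * (X : ℝ) ^ (-η) := by
    have e1 : ((v.divisors.card : ℕ) : ℝ) ≤ C3 * (X : ℝ) ^ (κ / (80 * L0)) :=
      hdiv X v hvpos (hvule.trans huX)
    have e2 : (((I1 ×ˢ I2).card : ℕ) : ℝ) * v.divisors.card / E0 ≤
        4 * C3 * ((D1 : ℝ) * D2) * (X : ℝ) ^ (-(3 * η)) := by
      rw [div_le_iff₀ hE00]
      have e3 : (((I1 ×ˢ I2).card : ℕ) : ℝ) * v.divisors.card ≤
          4 * ((D1 : ℝ) * D2) * (C3 * (X : ℝ) ^ (κ / (80 * L0))) :=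
        mul_le_mul hQ' e1 (by positivity) (by positivity)
      refine e3.trans ?_
      have e4 : (X : ℝ) ^ (κ / (80 * L0)) ≤ (X : ℝ) ^ (-(3 * η)) * E0 := by
        rw [hE0, ← Real.rpow_add hX0]
        apply Real.rpow_le_rpow_of_exponent_le hX
        have e5 : κ / (10 * (L0 : ℝ)) = 8 * (κ / (80 * L0)) := by field_simp; norm_num
        have e6 : κ / (40 * (L0 : ℝ)) = 2 * (κ / (80 * L0)) := by field_simp; norm_num
        have e7 : 0 < κ / (80 * (L0 : ℝ)) := by positivity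
        rw [e5]
        linarith
      have e8 : 4 * C3 * ((D1 : ℝ) * D2) * (X : ℝ) ^ (-(3 * η)) * E0 =
          4 * ((D1 : ℝ) * D2) * (C3 * ((X : ℝ) ^ (-(3 * η)) * E0)) := by ring
      rw [e8]
      apply mul_le_mul_of_nonneg_left _ (by positivity)
      exact mul_le_mul_of_nonneg_left e4 (by linarith)
    have e9 : W0 + (((I1 ×ˢ I2).card : ℕ) : ℝ) * v.divisors.card / E0 ≤
        (C2 + 4 * C3) * ((D1 : ℝ) * D2) * (X : ℝ) ^ (-(3 * η)) := by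
      rw [hW0]
      linarith
    have hlog0 : 0 ≤ Real.log v := Real.log_nonneg (by exact_mod_cast hvpos)
    have hlogX : Real.log v ≤ Real.log X := Real.log_le_log hv0 (hvu'.trans huX')
    calc (1 + Real.log v) * (W0 + ((I1 ×ˢ I2).card : ℕ) * v.divisors.card / E0) ≤
        (1 + Real.log X) * ((C2 + 4 * C3) * ((D1 : ℝ) * D2) * (X : ℝ) ^ (-(3 * η))) :=
          mul_le_mul (by linarith) e9 (by positivity) (by linarith)
      _ = ((1 + Real.log X) * (C2 + 4 * C3)) * (((D1 : ℝ) * D2) * (X : ℝ) ^ (-(3 * η))) := by ring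
      _ ≤ (X : ℝ) ^ (2 * η) * (((D1 : ℝ) * D2) * (X : ℝ) ^ (-(3 * η))) :=
          mul_le_mul_of_nonneg_right hE5 (by positivity)
      _ = (D1 : ℝ) * D2 * (X : ℝ) ^ (-η) := by
          have : (X : ℝ) ^ (-η) = (X : ℝ) ^ (2 * η) * (X : ℝ) ^ (-(3 * η)) := by
            rw [← Real.rpow_add hX0]
            congr 1
            ring
          rw [this]
          ring
  exact add_le_add hmain herr

end Pool.Agent.CDZ
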