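import Pool.Agent.CDZ.StC

/-!
# CDZ, module C1: residue classes
-/

set_option autoImplicit false

open Finset Filter Topology

namespace Pool.Agent.CDZ

open Classical in
/-- the number of squares in `ZMod p` -/
private theorem CharC_sq (p : ℕ) [Fact p.Prime] (hp : 3 ≤ p) :
    (univ.filter fun x : ZMod p => IsSquare x).card * 3 ≤ 2 * p := by
  have h1 : (univ.filter fun x : ZMod p => IsSquare x) ⊆
      insert 0 ((univ.filter fun x : ZMod p => x ≠ 0).image fun x => x ^ 2) := by
    intro x hx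
    obtain ⟨y, hy⟩ := (mem_filter.1 hx).2
    by_cases h0 : y = 0
    · rw [h0, mul_zero] at hy
      rw [hy]
      exact mem_insert_self _ _
    · refine mem_insert_of_mem (mem_image.2 ⟨y, by simp [h0], ?_⟩)
      rw [hy, sq]
  set S := univ.filter fun x : ZMod p => x ≠ 0 with hS
  have hScard : S.card = p - 1 := by
    have h2 : S = univ.erase 0 := by
      ext x; simp [hS]
    rw [h2, card_erase_of_mem (mem_univ _), card_univ, ZMod.card]
  have hfib : ∀ y ∈ S.image (fun x : ZMod p => x ^ 2),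
      2 ≤ (S.filter fun x : ZMod p => x ^ 2 = y).card := by
    intro y hy
    obtain ⟨x, hx, rfl⟩ := mem_image.1 hy
    have hx0 : x ≠ 0 := (mem_filter.1 hx).2
    have hne : x ≠ -x := by
      intro h
      have h2 : (2 : ZMod p) * x = 0 := by
        rw [two_mul]
        nth_rewrite 2 [h]
        exact add_neg_cancel x
      rcases mul_eq_zero.1 h2 with h3 | h3
      · have h4 : ((2 : ℕ) : ZMod p) = 0 := by exact_mod_cast h3
        rw [ZMod.natCast_eq_zero_iff] at h4
        have := Nat.le_of_dvd (by norm_num) h4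
        omega
      · exact hx0 h3
    have hsub : ({x, -x} : Finset (ZMod p)) ⊆ S.filter fun z : ZMod p => z ^ 2 = x ^ 2 := by
      intro z hz
      rw [mem_insert, mem_singleton] at hz
      rcases hz with rfl | rfl
      · simp [hS, hx0]
      · simp [hS, hx0]
    calc 2 = ({x, -x} : Finset (ZMod p)).card := (card_pair hne).symm
      _ ≤ _ := card_le_card hsub
  have h3 : 2 * (S.image fun x : ZMod p => x ^ 2).card ≤ S.card :=
    mul_card_image_le_card S 2 hfib
  have h4 := (card_le_card h1).trans (card_insert_le _ _)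
  omega

private theorem CharC_pow (p n : ℕ) [Fact p.Prime] (hn : 1 ≤ n) (hco : Nat.Coprime (p - 1) n)
    (x y : ZMod p) (h : x ^ n = y ^ n) : x = y := by
  by_cases hy : y = 0
  · rw [hy, zero_pow (by omega)] at h
    rw [hy]
    exact pow_eq_zero_iff (by omega) |>.1 h
  · have hx : x ≠ 0 := by
      rintro rfl
      rw [zero_pow (by omega)] at h
      exact hy (pow_eq_zero_iff (by omega) |>.1 h.symm)
    have h1 : (x / y) ^ n = 1 := by
      rw [div_pow, h, div_self (pow_ne_zero _ hy)]
    have h2 : (x / y) ^ (p - 1) = 1 := ZMod.pow_card_sub_one_eq_one (div_ne_zero hx hy)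
    have h3 : orderOf (x / y) ∣ Nat.gcd (p - 1) n :=
      Nat.dvd_gcd (orderOf_dvd_of_pow_eq_one h2) (orderOf_dvd_of_pow_eq_one h1)
    rw [hco] at h3
    have h4 : orderOf (x / y) = 1 := Nat.dvd_one.1 h3
    rw [orderOf_eq_one_iff] at h4
    exact (div_eq_one_iff_eq hy).1 h4

private def CharC_P (n c q p r : ℕ) : Prop := IsSquare ((((c * r + 1 : ℕ) : ZMod p) ^ n - 1) *
      (((c * q + 1 : ℕ) : ZMod p) ^ n - 1))

open Classical in
private theorem CharC_res (n p c q : ℕ) (hn : 1 ≤ n) (hp : p.Prime) (hp3 : 3 ≤ p)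
    (hco : Nat.Coprime (p - 1) n) (hcq : ¬ p ∣ c * q) :
    ((range p).filter fun r : ℕ => CharC_P n c q p r).card * 3 ≤ 2 * p := by
  have hF : Fact p.Prime := ⟨hp⟩
  refine le_trans (Nat.mul_le_mul_right 3 ?_) (CharC_sq p hp3)
  have hc : ((c : ℕ) : ZMod p) ≠ 0 := by
    rw [Ne, ZMod.natCast_eq_zero_iff]
    exact fun h => hcq (Dvd.dvd.mul_right h q)
  have hcq' : ((c * q : ℕ) : ZMod p) ≠ 0 := by
    rw [Ne, ZMod.natCast_eq_zero_iff]
    exact hcq
  have ht : (((c * q + 1 : ℕ) : ZMod p) ^ n - 1) ≠ 0 := by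
    intro h
    have h1 : ((c * q + 1 : ℕ) : ZMod p) ^ n = 1 ^ n := by
      rw [one_pow]; exact sub_eq_zero.1 h
    have h2 := CharC_pow p n hn hco _ _ h1
    rw [Nat.cast_add, Nat.cast_one, add_eq_right] at h2
    exact hcq' h2
  refine card_le_card_of_injOn (fun r : ℕ => (((c * r + 1 : ℕ) : ZMod p) ^ n - 1) *
      (((c * q + 1 : ℕ) : ZMod p) ^ n - 1)) ?_ ?_
  · intro r hr
    have hr' := (mem_filter.1 (mem_coe.1 hr)).2
    exact mem_coe.2 (mem_filter.2 ⟨mem_univ _, hr'⟩)
  · intro r hr r' hr' h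
    have h1 := mem_range.1 (mem_filter.1 (mem_coe.1 hr)).1
    have h2 := mem_range.1 (mem_filter.1 (mem_coe.1 hr')).1
    have h3 := mul_right_cancel₀ ht h
    have h4 := CharC_pow p n hn hco _ _ (sub_left_injective h3)
    push_cast at h4
    have h5 : (c : ZMod p) * r = c * r' := add_right_cancel h4
    have h6 : (r : ZMod p) = r' := mul_left_cancel₀ hc h5
    rw [ZMod.natCast_eq_natCast_iff] at h6
    have h7 : r % p = r' % p := h6
    rwa [Nat.mod_eq_of_lt h1, Nat.mod_eq_of_lt h2] at h7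

theorem thm_CharC : CharC := by
  classical
  intro n PS hn hPS c q hhalf
  set L := ∏ p ∈ PS, p with hL
  have hLpos : 0 < L := Finset.prod_pos fun p hp => (hPS p hp).1.pos
  let R : ℕ → Finset ℕ := fun p => if p ∣ c * q then range p else
    (range p).filter fun r : ℕ => CharC_P n c q p r
  have hcount := Pool.Agent.Cohn.crt_count PS (fun p => p) (fun p hp => (hPS p hp).1.pos)
    (fun p hp p' hp' hne => (Nat.coprime_primes (hPS p hp).1 (hPS p' hp').1).2 hne) R L
  rw [Nat.div_self hLpos] at hcount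
  -- the set is mapped into the set counted there
  set T : Set ℕ := {m : ℕ | m < L ∧ ∀ p ∈ PS, ¬ p ∣ c * q →
        IsSquare ((((c * m + 1 : ℕ) : ZMod p) ^ n - 1) *
          (((c * q + 1 : ℕ) : ZMod p) ^ n - 1))} with hT
  have hle : T.ncard ≤ ((Icc 1 L).filter fun c => ∀ p ∈ PS, c % p ∈ R p).card := by
    rw [← Set.ncard_coe_finset]
    refine Set.ncard_le_ncard_of_injOn (fun m => if m = 0 then L else m) ?_ ?_ (finite_toSet _)
    · intro m hm
      obtain ⟨hm1, hm2⟩ := hm
      have hmod : ∀ p ∈ PS, (if m = 0 then L else m) % p = m % p := by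
        intro p hp
        split_ifs with h0
        · rw [h0, Nat.zero_mod]
          exact Nat.mod_eq_zero_of_dvd (Finset.dvd_prod_of_mem _ hp)
        · rfl
      refine mem_coe.2 (mem_filter.2 ⟨mem_Icc.2 ?_, fun p hp => ?_⟩)
      · split_ifs with h0 <;> omega
      · rw [hmod p hp]
        show m % p ∈ R p
        have hpp := (hPS p hp).1.pos
        by_cases hd : p ∣ c * q
        · have e : R p = range p := if_pos hd
          rw [e, mem_range]
          exact Nat.mod_lt _ hpp
        · have e : R p = (range p).filter fun r : ℕ => CharC_P n c q p r := if_neg hd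
          rw [e, mem_filter, mem_range]
          refine ⟨Nat.mod_lt _ hpp, ?_⟩
          have h5 := hm2 p hp hd
          have h6 : ((c * (m % p) + 1 : ℕ) : ZMod p) = ((c * m + 1 : ℕ) : ZMod p) := by
            push_cast
            rw [ZMod.natCast_mod]
          unfold CharC_P
          rw [h6]
          exact h5
    · intro m hm m' hm' h
      have h1 : m < L := hm.1
      have h2 : m' < L := hm'.1
      simp only at h
      split_ifs at h with h3 h4 h4 <;> omega
  have hprod : ((∏ p ∈ PS, (R p).card : ℕ) : ℝ) ≤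
      (L : ℝ) * (2 / 3 : ℝ) ^ (PS.filter fun p => ¬ p ∣ c * q).card := by
    have e1 : (L : ℝ) * (2 / 3 : ℝ) ^ (PS.filter fun p => ¬ p ∣ c * q).card =
        ∏ p ∈ PS, ((p : ℝ) * if ¬ p ∣ c * q then (2 / 3 : ℝ) else 1) := by
      rw [Finset.prod_mul_distrib, hL, Nat.cast_prod, Finset.prod_ite, Finset.prod_const,
        Finset.prod_const_one, mul_one]
    rw [e1, Nat.cast_prod]
    refine Finset.prod_le_prod (fun p _ => Nat.cast_nonneg _) fun p hp => ?_
    by_cases hd : p ∣ c * q
    · have e : R p = range p := if_pos hd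
      rw [e, card_range, if_neg (not_not.2 hd), mul_one]
    · have e : R p = (range p).filter fun r : ℕ => CharC_P n c q p r := if_neg hd
      rw [e, if_pos hd]
      have h := CharC_res n p c q hn (hPS p hp).1 (hPS p hp).2.1 (hPS p hp).2.2 hd
      have h' : ((((range p).filter fun r : ℕ => CharC_P n c q p r).card : ℕ) : ℝ) * 3 ≤
          2 * p := by
        exact_mod_cast h
      linarith
  have hcard : (PS.filter fun p => p ∣ c * q).card + (PS.filter fun p => ¬ p ∣ c * q).card =
      PS.card := card_filter_add_card_filter_not _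
  have hk : (PS.card : ℝ) / 2 ≤ (PS.filter fun p => ¬ p ∣ c * q).card := by
    have h5 : PS.card ≤ 2 * (PS.filter fun p => ¬ p ∣ c * q).card := by omega
    have h6 : (PS.card : ℝ) ≤ 2 * (PS.filter fun p => ¬ p ∣ c * q).card := by exact_mod_cast h5
    linarith
  have hpow : (2 / 3 : ℝ) ^ (PS.filter fun p => ¬ p ∣ c * q).card ≤
      (2 / 3 : ℝ) ^ ((PS.card : ℝ) / 2) := by
    rw [← Real.rpow_natCast]
    exact Real.rpow_le_rpow_of_exponent_ge (by norm_num) (by norm_num) hk
  have h1 : ((T.ncard : ℕ) : ℝ) ≤ 2 * ((∏ p ∈ PS, (R p).card : ℕ) : ℝ) := by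
    have := hle.trans hcount
    exact_mod_cast this
  calc ((T.ncard : ℕ) : ℝ) ≤ 2 * ((∏ p ∈ PS, (R p).card : ℕ) : ℝ) := h1
    _ ≤ 2 * ((L : ℝ) * (2 / 3 : ℝ) ^ (PS.filter fun p => ¬ p ∣ c * q).card) := by
        linarith
    _ ≤ 2 * ((L : ℝ) * (2 / 3 : ℝ) ^ ((PS.card : ℝ) / 2)) := by
        gcongr
    _ = 2 * (L : ℝ) * (2 / 3 : ℝ) ^ ((PS.card : ℝ) / 2) := by ring

end Pool.Agent.CDZ
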