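import Pool.Agent.CDZ.StE

/-!
# CDZ (E2): `T_l` for odd `l`
-/

set_option autoImplicit false

open Finset Filter Topology

namespace Pool.Agent.CDZ

private theorem ChebProp_rec (k : ℕ) (y : ℤ) : Tv (k + 2) y = 2 * y * Tv (k + 1) y - Tv k y := by
  unfold Tv
  push_cast
  rw [Polynomial.Chebyshev.T_add_two]
  simp

private theorem ChebProp_zero (y : ℤ) : Tv 0 y = 1 := by
  unfold Tv
  simp

private theorem ChebProp_one (y : ℤ) : Tv 1 y = y := by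
  unfold Tv
  simp

private theorem ChebProp_mono (y : ℤ) (hy : 1 ≤ y) : ∀ k : ℕ,
    1 ≤ Tv k y ∧ y * Tv k y ≤ Tv (k + 1) y := by
  intro k
  induction k with
  | zero =>
    rw [ChebProp_zero, ChebProp_one]
    exact ⟨le_refl _, by linarith⟩
  | succ k ih =>
    obtain ⟨h1, h2⟩ := ih
    have h3 : Tv k y ≤ Tv (k + 1) y := by nlinarith
    have h4 : 1 ≤ Tv (k + 1) y := h1.trans h3
    refine ⟨h4, ?_⟩
    rw [ChebProp_rec]
    nlinarith

private theorem ChebProp_pow (y : ℤ) (hy : 1 ≤ y) : ∀ k : ℕ, y ^ k ≤ Tv k y := by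
  intro k
  induction k with
  | zero => rw [ChebProp_zero]; simp
  | succ k ih =>
    calc y ^ (k + 1) = y * y ^ k := by ring
      _ ≤ y * Tv k y := mul_le_mul_of_nonneg_left ih (by linarith)
      _ ≤ _ := (ChebProp_mono y hy k).2

private theorem ChebProp_form (y : ℤ) : ∀ j : ℕ,
    (∃ c : ℤ, Tv (2 * j) y = (-1) ^ j + y ^ 2 * c) ∧
    ∃ d : ℤ, Tv (2 * j + 1) y = (-1) ^ j * (2 * j + 1) * y + y ^ 3 * d := by
  intro j
  induction j with
  | zero =>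
    refine ⟨⟨0, ?_⟩, ⟨0, ?_⟩⟩
    · rw [mul_zero, ChebProp_zero]; simp
    · rw [mul_zero, zero_add, ChebProp_one]; simp
  | succ j ih =>
    obtain ⟨⟨c, hc⟩, ⟨d, hd⟩⟩ := ih
    have h1 : Tv (2 * (j + 1)) y =
        (-1) ^ (j + 1) + y ^ 2 * (2 * (-1) ^ j * (2 * j + 1) + 2 * y ^ 2 * d - c) := by
      have e : 2 * (j + 1) = 2 * j + 2 := by ring
      rw [e, ChebProp_rec, hc, hd]
      ring
    refine ⟨⟨_, h1⟩, ⟨2 * (2 * (-1) ^ j * (2 * j + 1) + 2 * y ^ 2 * d - c) - d, ?_⟩⟩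
    have e : 2 * (j + 1) + 1 = (2 * j + 1) + 2 := by ring
    have e' : 2 * j + 1 + 1 = 2 * (j + 1) := by ring
    rw [e, ChebProp_rec, hd, e', h1]
    push_cast
    ring

theorem thm_ChebProp : ChebProp := by
  intro l y hl hy
  have hy1 : (1 : ℤ) ≤ y := by exact_mod_cast (by omega : 1 ≤ y)
  refine ⟨ChebProp_pow y hy1 l, ?_⟩
  obtain ⟨j, rfl⟩ := hl
  obtain ⟨d, hd⟩ := (ChebProp_form y j).2
  refine ⟨(-1) ^ j * (2 * j + 1) + (y : ℤ) ^ 2 * d, ?_, ?_⟩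
  · rw [hd]
    ring
  · intro p hp hpy hpU
    have h1 : (p : ℤ) ∣ (y : ℤ) ^ 2 * d :=
      Dvd.dvd.mul_right (dvd_pow (Int.natCast_dvd_natCast.2 hpy) (by norm_num)) _
    have h2 : (p : ℤ) ∣ (-1) ^ j * (2 * (j : ℤ) + 1) := (dvd_add_left h1).1 hpU
    have h3 : (p : ℤ) ∣ 2 * (j : ℤ) + 1 := by
      have h4 : (p : ℤ) ∣ (-1) ^ j * ((-1) ^ j * (2 * (j : ℤ) + 1)) := h2.mul_left _
      rw [← mul_assoc, ← mul_pow] at h4
      simpa using h4
    exact_mod_cast h3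

end Pool.Agent.CDZ
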