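import Pool.Agent.Cohn.Final

/-!
# Cohn's equation: density zero (project CDZ, MP_4ba7fc_nt).  Definitions

Target: for every `n ≥ 2` the set of `b` which occur in a solution of
`(a ^ n - 1) (b ^ n - 1) = x ^ 2` with `2 ≤ a < b` has density zero.
The library `Pool.Agent.Cohn` (structure `Sol`, theorems `A_bound`, `B_bound`, `C_bound`) settles the
solutions in which the part `u` of `b - 1` is at most `X ^ (1 / 2 - δ)`.
-/

set_option autoImplicit false

open Finset Filter Topology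

namespace Pool.Agent.CDZ

/-- Number of pairs `(x, y)` of `l`-tuples from `A` with `∑ x = ∑ y`. -/
def En (v l : ℕ) (A : Finset (ZMod v)) : ℕ :=
  (((Fintype.piFinset fun _ : Fin l => A) ×ˢ (Fintype.piFinset fun _ : Fin l => A)).filter
    fun q => ∑ i, q.1 i = ∑ i, q.2 i).card

/-- `r` lies near one of the intervals `[2 t, 2 t + 1]`. -/
def BadR (κ r : ℝ) : Prop := ∃ t : ℤ, 2 * (t : ℝ) - κ ≤ r ∧ r ≤ 2 * (t : ℝ) + 1 + κ

/-- `log p / log X`. -/
noncomputable def lg (X p : ℕ) : ℝ := Real.log p / Real.log X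

/-- The primes `p` with `X ^ a < p ≤ X ^ b`. -/
noncomputable def pw (X : ℕ) (a b : ℝ) : Finset ℕ :=
  (Ioc ⌊(X : ℝ) ^ a⌋₊ ⌊(X : ℝ) ^ b⌋₊).filter Nat.Prime

/-- Upper ends of the first family of windows, `M` the ratio, `J` the number of windows. -/
noncomputable def aU (M J i : ℕ) : ℝ := 1 / (M : ℝ) ^ (4 * J + 1 + 2 * i)

/-- Upper ends of the second family of windows. -/
noncomputable def bU (M J j : ℕ) : ℝ := 1 / (M : ℝ) ^ (6 * J + 2 + 2 * j)

/-- First family of windows: exponents in `(aU / M, aU]`. -/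
noncomputable def WA (M J X i : ℕ) : Finset ℕ := pw X (aU M J i / M) (aU M J i)

/-- Second family of windows. -/
noncomputable def WB (M J X j : ℕ) : Finset ℕ := pw X (bU M J j / M) (bU M J j)

/-- `N` is bad for `lam`: there are `m` windows of each family with prime factors `p i`, `q j` of `N`
such that the ratio `lam / (log (p i q j) / log X)` is near an interval `[2 t, 2 t + 1]` for all
`i, j`. -/
def BadN (M J m X : ℕ) (lam : ℝ) (N : ℕ) : Prop :=
  ∃ (A B : Finset ℕ) (p q : ℕ → ℕ), A ⊆ range J ∧ B ⊆ range J ∧ A.card = m ∧ B.card = m ∧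
    (∀ i ∈ A, p i ∈ WA M J X i ∧ p i ∣ N) ∧ (∀ j ∈ B, q j ∈ WB M J X j ∧ q j ∣ N) ∧
    ∀ i ∈ A, ∀ j ∈ B, BadR (1 / 40) (lam / (lg X (p i) + lg X (q j)))

/-- The primes which are `2` modulo `n` (for odd `n ≥ 3` they satisfy `gcd (p - 1, n) = 1`). -/
def Gp (n p : ℕ) : Prop := p.Prime ∧ p % n = 2 % n

instance (n : ℕ) : DecidablePred (Gp n) := fun _ => inferInstanceAs (Decidable (_ ∧ _))

/-- `log u / log d` lies in `[2 l - 1 + κ, 2 l - κ]`. -/
def Adm (κ : ℝ) (l u d : ℕ) : Prop :=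
  (d : ℝ) ^ (2 * (l : ℝ) - 1 + κ) ≤ u ∧ (u : ℝ) ≤ (d : ℝ) ^ (2 * (l : ℝ) - κ)

/-- Two coprime divisors of `N` with prime factors `2` modulo `n`, larger than `S`, both admissible
for `u`. -/
def GoodDiv (n S L : ℕ) (κ : ℝ) (N u : ℕ) : Prop :=
  ∃ d1 d2 l1 l2 : ℕ, d1 * d2 ∣ N ∧ (∀ p : ℕ, p.Prime → p ∣ d1 * d2 → Gp n p ∧ S < p) ∧
    1 ≤ l1 ∧ l1 ≤ L ∧ 1 ≤ l2 ∧ l2 ≤ L ∧ Adm κ l1 u d1 ∧ Adm κ l2 u d2

/-- The Chebyshev polynomial `T_l` at the integer `y`. -/
noncomputable def Tv (l : ℕ) (y : ℤ) : ℤ := (Polynomial.Chebyshev.T ℤ (l : ℤ)).eval y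

end Pool.Agent.CDZ
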