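import Pool.Agent.CDZ.StE

/-!
# CDZ (E5): even exponents
-/

set_option autoImplicit false

open Finset Filter Topology

namespace Pool.Agent.CDZ

theorem thm_EvenCase (h1 : PellChain) (h2 : OddCount) (h3 : TwoCount) : EvenCase := by
  intro n ε hn heven hε
  obtain ⟨m, rfl⟩ := heven
  have hm : 1 ≤ m := by omega
  filter_upwards [h2 m (ε / 2) hm (by linarith), h3 m (ε / 2) hm (by linarith)] with X hX1 hX2
  set A : Set ℕ := {b ∈ Set.Icc 2 X | ∃ l y : ℕ, l.Prime ∧ Odd l ∧ 2 ≤ y ∧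
    ((b ^ m : ℕ) : ℤ) = Tv l y} with hA
  set B : Set ℕ := {b ∈ Set.Icc 2 X | ∃ y : ℕ, b ^ m + 1 = 2 * y ^ 2} with hB
  have hsub : {b ∈ Set.Icc 2 X | ∃ a x : ℕ, 2 ≤ a ∧ a < b ∧
      (a ^ (m + m) - 1) * (b ^ (m + m) - 1) = x ^ 2} ⊆ A ∪ B := by
    rintro b ⟨hb, a, x, ha, hab, hx⟩
    have e1 : 2 ≤ a ^ m := ha.trans (Nat.le_self_pow (by omega) a)
    have e2 : a ^ m < b ^ m := Nat.pow_lt_pow_left hab (by omega)
    have e3 : ((a ^ m) ^ 2 - 1) * ((b ^ m) ^ 2 - 1) = x ^ 2 := by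
      rw [← hx, ← pow_mul, ← pow_mul, mul_two]
    obtain ⟨l, y, hl, hy, hT⟩ := h1 _ _ x e1 e2 e3
    rcases hl.eq_two_or_odd' with rfl | hodd
    · right
      refine ⟨hb, y, ?_⟩
      have e4 : Tv 2 y = 2 * (y : ℤ) ^ 2 - 1 := by
        unfold Tv
        rw [Nat.cast_ofNat, Polynomial.Chebyshev.T_two]
        simp
      rw [e4] at hT
      have e5 : ((b ^ m : ℕ) : ℤ) + 1 = 2 * (y : ℤ) ^ 2 := by linarith
      exact_mod_cast e5
    · left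
      exact ⟨hb, l, y, hl, hodd, hy, hT⟩
  have hfinA : A.Finite := (Set.finite_Icc 2 X).subset fun N hN => hN.1
  have hfinB : B.Finite := (Set.finite_Icc 2 X).subset fun N hN => hN.1
  have hle := (Set.ncard_le_ncard hsub (hfinA.union hfinB)).trans (Set.ncard_union_le A B)
  have hle' : ((({b ∈ Set.Icc 2 X | ∃ a x : ℕ, 2 ≤ a ∧ a < b ∧
      (a ^ (m + m) - 1) * (b ^ (m + m) - 1) = x ^ 2}).ncard : ℕ) : ℝ) ≤
      (A.ncard : ℝ) + B.ncard := by exact_mod_cast hle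
  refine hle'.trans ?_
  have e1 : (A.ncard : ℝ) ≤ ε / 2 * X := hX1
  have e2 : (B.ncard : ℝ) ≤ ε / 2 * X := hX2
  linarith

end Pool.Agent.CDZ
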