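import Pool.Agent.CDZ.StE

/-!
# CDZ (F2): the final theorem
-/

set_option autoImplicit false

open Finset Filter Topology

namespace Pool.Agent.CDZ

theorem thm_Final (h1 : EvenCase) (h2 : OddCase) : Final := by
  intro n hn
  have key : ∀ ε : ℝ, 0 < ε → ∀ᶠ X : ℕ in atTop,
    (({b ∈ Set.Icc 2 X | ∃ a x : ℕ, 2 ≤ a ∧ a < b ∧ (a ^ n - 1) * (b ^ n - 1) = x ^ 2}.ncard : ℕ) : ℝ)
      ≤ ε * X := by
    intro ε hε
    rcases Nat.even_or_odd n with h | h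
    · exact h1 n ε hn h hε
    · refine h2 n ε ?_ h hε
      obtain ⟨k, hk⟩ := h
      omega
  rw [Metric.tendsto_atTop']
  intro ε hε
  obtain ⟨X₀, hX₀⟩ := eventually_atTop.1 ((key (ε / 2) (by linarith)).and
    (eventually_ge_atTop 1))
  refine ⟨X₀, fun X hX => ?_⟩
  obtain ⟨hX1, hX2⟩ := hX₀ X hX.le
  have hXpos : (0 : ℝ) < X := by exact_mod_cast hX2
  have hsub : {b : ℕ | b ≤ X ∧ ∃ a x : ℕ, 2 ≤ a ∧ a < b ∧ 1 ≤ x ∧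
      (a ^ n - 1) * (b ^ n - 1) = x ^ 2} ⊆
      {b ∈ Set.Icc 2 X | ∃ a x : ℕ, 2 ≤ a ∧ a < b ∧ (a ^ n - 1) * (b ^ n - 1) = x ^ 2} := by
    rintro b ⟨hb, a, x, ha, hab, _, hx⟩
    exact ⟨⟨by omega, hb⟩, a, x, ha, hab, hx⟩
  have hfin : ({b ∈ Set.Icc 2 X | ∃ a x : ℕ, 2 ≤ a ∧ a < b ∧
      (a ^ n - 1) * (b ^ n - 1) = x ^ 2}).Finite :=
    (Set.finite_Icc 2 X).subset fun N hN => hN.1
  have hle : ((({b : ℕ | b ≤ X ∧ ∃ a x : ℕ, 2 ≤ a ∧ a < b ∧ 1 ≤ x ∧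
      (a ^ n - 1) * (b ^ n - 1) = x ^ 2} : Set ℕ).ncard : ℕ) : ℝ) ≤ ε / 2 * X :=
    le_trans (by exact_mod_cast Set.ncard_le_ncard hsub hfin) hX1
  rw [Real.dist_eq, sub_zero, abs_of_nonneg (by positivity), div_lt_iff₀ hXpos]
  nlinarith

end Pool.Agent.CDZ
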