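import Pool.Agent.CDZ.StK

/-!
# CDZ, module Fou (K6): counting by finite Fourier analysis
-/

set_option autoImplicit false

open Finset Filter Topology

namespace Pool.Agent.CDZ

/-- the bound for the geometric sums -/
private noncomputable def fouF (v r : ℕ) : ℝ := (v : ℝ) / 2 * (1 / (r : ℝ) + 1 / ((v : ℝ) - r))

private theorem Fou_sin {t : ℝ} (h0 : 0 < t) (h1 : t < 1) :
    1 / |Real.sin (Real.pi * t)| ≤ 1 / (2 * t) + 1 / (2 * (1 - t)) := by
  have hpi := Real.pi_pos
  have hs : 0 < Real.sin (Real.pi * t) :=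
    Real.sin_pos_of_pos_of_lt_pi (mul_pos hpi h0) (by nlinarith)
  rw [abs_of_pos hs]
  have h2 : 0 < 1 - t := by linarith
  rcases le_total t (1 / 2) with h | h
  · have h3 : 2 * t ≤ Real.sin (Real.pi * t) := by
      have h4 := Real.mul_le_sin (x := Real.pi * t) (mul_pos hpi h0).le (by nlinarith)
      have h5 : 2 / Real.pi * (Real.pi * t) = 2 * t := by field_simp
      rw [h5] at h4
      exact h4
    have h4 : 1 / Real.sin (Real.pi * t) ≤ 1 / (2 * t) :=
      one_div_le_one_div_of_le (by positivity) h3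
    have h5 : 0 ≤ 1 / (2 * (1 - t)) := by positivity
    linarith
  · have h3 : 2 * (1 - t) ≤ Real.sin (Real.pi * t) := by
      have h4 := Real.mul_le_sin (x := Real.pi * (1 - t)) (mul_pos hpi h2).le (by nlinarith)
      have h5 : 2 / Real.pi * (Real.pi * (1 - t)) = 2 * (1 - t) := by field_simp
      rw [h5] at h4
      have h6 : Real.pi * (1 - t) = Real.pi - Real.pi * t := by ring
      rw [h6, Real.sin_pi_sub] at h4
      exact h4
    have h4 : 1 / Real.sin (Real.pi * t) ≤ 1 / (2 * (1 - t)) :=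
      one_div_le_one_div_of_le (by positivity) h3
    have h5 : 0 ≤ 1 / (2 * t) := by positivity
    linarith

private theorem Fou_val_pos {v : ℕ} [NeZero v] {z : ZMod v} (hz : z ≠ 0) : 1 ≤ z.val := by
  rcases Nat.eq_zero_or_pos z.val with h | h
  · exact absurd ((ZMod.val_eq_zero z).1 h) hz
  · exact h

private theorem Fou_sub_one {v : ℕ} [NeZero v] (z : ZMod v) :
    ‖ZMod.stdAddChar z - 1‖ = 2 * |Real.sin (Real.pi * ((z.val : ℝ) / v))| := by
  have h1 : z = (((z.val : ℕ) : ℤ) : ZMod v) := by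
    rw [Int.cast_natCast, ZMod.natCast_zmod_val]
  have h2 : ZMod.stdAddChar z = Complex.exp (Complex.I * ((2 * (Real.pi * ((z.val : ℝ) / v)) : ℝ) : ℂ)) := by
    rw [h1, ZMod.stdAddChar_coe]
    rw [← h1]
    congr 1
    push_cast
    ring
  rw [h2, Complex.norm_exp_I_mul_ofReal_sub_one, Real.norm_eq_abs, abs_mul]
  congr 1
  · norm_num
  · congr 2
    ring

private theorem Fou_geom {v : ℕ} [NeZero v] {z : ZMod v} (hz : z ≠ 0) (J : ℕ) :
    ‖∑ j ∈ range J, (ZMod.stdAddChar z) ^ j‖ ≤ fouF v z.val := by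
  have hv : 0 < v := Nat.pos_of_ne_zero (NeZero.ne v)
  have hv' : (0 : ℝ) < v := by exact_mod_cast hv
  have hr1 := Fou_val_pos hz
  have hr2 := ZMod.val_lt z
  have hr1' : (0 : ℝ) < (z.val : ℝ) := by exact_mod_cast hr1
  have hr2' : (z.val : ℝ) < v := by exact_mod_cast hr2
  have ht0 : 0 < (z.val : ℝ) / v := div_pos hr1' hv'
  have ht1 : (z.val : ℝ) / v < 1 := (div_lt_one hv').2 hr2'
  have hs : 0 < |Real.sin (Real.pi * ((z.val : ℝ) / v))| := by
    apply abs_pos.2
    exact (Real.sin_pos_of_pos_of_lt_pi (mul_pos Real.pi_pos ht0)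
      (by nlinarith [Real.pi_pos])).ne'
  have h2 : (∑ j ∈ range J, (ZMod.stdAddChar z) ^ j) * (ZMod.stdAddChar z - 1) =
      (ZMod.stdAddChar z) ^ J - 1 := geom_sum_mul _ _
  have hn : ‖ZMod.stdAddChar z‖ = 1 := by
    rw [ZMod.stdAddChar_apply, Circle.norm_coe]
  have h3 : ‖∑ j ∈ range J, (ZMod.stdAddChar z) ^ j‖ *
      (2 * |Real.sin (Real.pi * ((z.val : ℝ) / v))|) ≤ 2 := by
    rw [← Fou_sub_one, ← norm_mul, h2]
    calc ‖(ZMod.stdAddChar z) ^ J - 1‖ ≤ ‖(ZMod.stdAddChar z) ^ J‖ + ‖(1 : ℂ)‖ := norm_sub_le _ _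
      _ = 2 := by rw [norm_pow, hn]; norm_num
  have h4 : ‖∑ j ∈ range J, (ZMod.stdAddChar z) ^ j‖ ≤
      1 / |Real.sin (Real.pi * ((z.val : ℝ) / v))| := by
    rw [le_div_iff₀ hs]
    linarith
  refine h4.trans ((Fou_sin ht0 ht1).trans (le_of_eq ?_))
  unfold fouF
  have h5 : (v : ℝ) - z.val ≠ 0 := by linarith
  have h6 : 1 - (z.val : ℝ) / v = ((v : ℝ) - z.val) / v := by
    field_simp
  rw [h6]
  field_simp

private theorem fouF_nonneg {v r : ℕ} (h : r < v) : 0 ≤ fouF v r := by
  unfold fouF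
  have h1 : (0 : ℝ) < (v : ℝ) - r := by
    have : (r : ℝ) < v := by exact_mod_cast h
    linarith
  positivity

private theorem Fou_harm (n v : ℕ) (hn : n ≤ v) (hv : 1 ≤ v) :
    ∑ r ∈ Ico 1 n, (1 : ℝ) / r ≤ 1 + Real.log v := by
  have hlog : 0 ≤ Real.log v := Real.log_nonneg (by exact_mod_cast hv)
  rcases Nat.lt_or_ge 1 n with h | h
  · have h1 : ∑ r ∈ Ico 1 n, (1 : ℝ) / r = ((harmonic (n - 1) : ℚ) : ℝ) := by
      rw [harmonic_eq_sum_Icc]
      push_cast
      have h2 : Ico 1 n = Icc 1 (n - 1) := by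
        ext x
        rw [mem_Ico, mem_Icc]
        omega
      rw [h2]
      exact sum_congr rfl fun x _ => by rw [one_div]
    rw [h1]
    have h3 := harmonic_le_one_add_log (n - 1)
    have h4 : Real.log ((n - 1 : ℕ) : ℝ) ≤ Real.log v := by
      apply Real.log_le_log
      · have : 1 ≤ n - 1 := by omega
        exact_mod_cast this
      · exact_mod_cast (Nat.sub_le n 1).trans hn
    linarith
  · have h2 : Ico 1 n = ∅ := by
      ext x
      rw [mem_Ico]
      constructor
      · rintro ⟨h3, h4⟩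
        omega
      · intro h3
        exact absurd h3 (notMem_empty x)
    rw [h2, sum_empty]
    linarith

/-- the sum over the multiples of `e` -/
private theorem Fou_mult (v e : ℕ) (hv : 1 ≤ v) (he : e ∣ v) :
    ∑ r ∈ (Ico 1 v).filter (fun r => e ∣ r), fouF v r ≤ (v : ℝ) / e * (1 + Real.log v) := by
  obtain ⟨k, rfl⟩ := he
  have he0 : 0 < e := Nat.pos_of_mul_pos_right hv |> fun h => by
    rcases Nat.eq_zero_or_pos e with h1 | h1
    · rw [h1, zero_mul] at hv
      omega
    · exact h1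
  have hk0 : 0 < k := by
    rcases Nat.eq_zero_or_pos k with h1 | h1
    · rw [h1, mul_zero] at hv
      omega
    · exact h1
  have he' : (0 : ℝ) < e := by exact_mod_cast he0
  have h1 : (Ico 1 (e * k)).filter (fun r => e ∣ r) = (Ico 1 k).image (fun r => e * r) := by
    ext x
    rw [mem_filter, mem_image, mem_Ico]
    constructor
    · rintro ⟨⟨h2, h3⟩, r, rfl⟩
      refine ⟨r, mem_Ico.2 ⟨?_, ?_⟩, rfl⟩
      · rcases Nat.eq_zero_or_pos r with h4 | h4
        · rw [h4] at h2
          omega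
        · exact h4
      · exact lt_of_mul_lt_mul_left h3 (Nat.zero_le e)
    · rintro ⟨r, hr, rfl⟩
      rw [mem_Ico] at hr
      refine ⟨⟨?_, ?_⟩, dvd_mul_right _ _⟩
      · exact Nat.mul_pos he0 hr.1
      · exact Nat.mul_lt_mul_of_pos_left hr.2 he0
  rw [h1, sum_image (fun a _ b _ hab => Nat.eq_of_mul_eq_mul_left he0 hab)]
  have h2 : ∀ r ∈ Ico 1 k, fouF (e * k) (e * r) =
      (k : ℝ) / 2 * ((1 : ℝ) / r) + (k : ℝ) / 2 * ((1 : ℝ) / ((k - r : ℕ) : ℝ)) := by
    intro r hr
    rw [mem_Ico] at hr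
    have hr1 : (0 : ℝ) < r := by exact_mod_cast hr.1
    have hr2 : (r : ℝ) < k := by exact_mod_cast hr.2
    have h3 : (k : ℝ) - r ≠ 0 := by linarith
    unfold fouF
    rw [Nat.cast_sub hr.2.le]
    push_cast
    have h4 : (e : ℝ) * k - e * r = e * (k - r) := by ring
    rw [h4]
    field_simp
  rw [sum_congr rfl h2, sum_add_distrib, ← mul_sum, ← mul_sum]
  have h3 : ∑ r ∈ Ico 1 k, (1 : ℝ) / ((k - r : ℕ) : ℝ) = ∑ r ∈ Ico 1 k, (1 : ℝ) / r := by
    refine sum_bij' (fun r _ => k - r) (fun r _ => k - r) ?_ ?_ ?_ ?_ ?_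
    · intro r hr
      rw [mem_Ico] at hr ⊢
      omega
    · intro r hr
      rw [mem_Ico] at hr ⊢
      omega
    · intro r hr
      rw [mem_Ico] at hr
      omega
    · intro r hr
      rw [mem_Ico] at hr
      omega
    · intro r hr
      rfl
  rw [h3]
  have h4 := Fou_harm k (e * k) (Nat.le_mul_of_pos_left k he0) hv
  have h5 : ((e * k : ℕ) : ℝ) / e = k := by
    push_cast
    field_simp
  rw [h5]
  have hk' : (0 : ℝ) < k := by exact_mod_cast hk0
  nlinarith

/-- the numbers with a large divisor in common with `v` -/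
private theorem Fou_big (v : ℕ) (hv : 1 ≤ v) (E0 : ℝ) (hE : 0 < E0) :
    ∑ r ∈ (Ico 1 v).filter (fun r => E0 < (Nat.gcd r v : ℝ)), fouF v r ≤
      v.divisors.card * ((v : ℝ) / E0 * (1 + Real.log v)) := by
  have hlog : 0 ≤ Real.log v := Real.log_nonneg (by exact_mod_cast hv)
  have hb : 0 ≤ (v : ℝ) / E0 * (1 + Real.log v) := by positivity
  rw [← sum_fiberwise_of_maps_to (s := (Ico 1 v).filter (fun r => E0 < (Nat.gcd r v : ℝ)))
    (t := v.divisors) (g := fun r => Nat.gcd r v) (fun r _ =>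
      Nat.mem_divisors.2 ⟨Nat.gcd_dvd_right r v, by omega⟩)]
  have h1 : ∀ e ∈ v.divisors, ∑ r ∈ ((Ico 1 v).filter (fun r => E0 < (Nat.gcd r v : ℝ))).filter
      (fun r => Nat.gcd r v = e), fouF v r ≤ (v : ℝ) / E0 * (1 + Real.log v) := by
    intro e he
    have hev := Nat.dvd_of_mem_divisors he
    have he0 : 0 < e := Nat.pos_of_mem_divisors he
    have he' : (0 : ℝ) < e := by exact_mod_cast he0
    rcases le_or_gt (e : ℝ) E0 with h | h
    · have h2 : ((Ico 1 v).filter (fun r => E0 < (Nat.gcd r v : ℝ))).filter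
          (fun r => Nat.gcd r v = e) = ∅ := by
        rw [filter_eq_empty_iff]
        intro r hr h3
        rw [mem_filter, h3] at hr
        linarith [hr.2]
      rw [h2, sum_empty]
      exact hb
    · obtain ⟨T, hT⟩ : ∃ T : Finset ℕ, T = ((Ico 1 v).filter (fun r => E0 < (Nat.gcd r v : ℝ))).filter
          (fun r => Nat.gcd r v = e) := ⟨_, rfl⟩
      rw [← hT]
      calc ∑ r ∈ T, fouF v r
          ≤ ∑ r ∈ (Ico 1 v).filter (fun r => e ∣ r), fouF v r := by
            rw [hT]
            apply sum_le_sum_of_subset_of_nonneg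
            · intro r hr
              rw [mem_filter, mem_filter] at hr
              rw [mem_filter]
              refine ⟨hr.1.1, ?_⟩
              rw [← hr.2]
              exact Nat.gcd_dvd_left r v
            · intro r hr _
              rw [mem_filter, mem_Ico] at hr
              exact fouF_nonneg hr.1.2
        _ ≤ (v : ℝ) / e * (1 + Real.log v) := Fou_mult v e hv hev
        _ ≤ (v : ℝ) / E0 * (1 + Real.log v) := by
            apply mul_le_mul_of_nonneg_right _ (by linarith)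
            exact div_le_div_of_nonneg_left (by positivity) hE h.le
  refine (sum_le_sum h1).trans (le_of_eq ?_)
  rw [sum_const, nsmul_eq_mul]

/-- the residue class as a progression -/
private theorem Fou_class (P M m0 : ℕ) (hP : 1 ≤ P) :
    ∃ J : ℕ, (J : ℝ) ≤ (M : ℝ) / P + 1 ∧
      ((range M).filter (fun m => m % P = m0) = ∅ ∨
        (range M).filter (fun m => m % P = m0) = (range J).image (fun j => m0 + P * j)) ∧
      (((range M).filter (fun m => m % P = m0)).card ≤ J) := by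
  rcases Nat.lt_or_ge m0 P with h | h
  · refine ⟨(M - m0 + (P - 1)) / P, ?_, ?_, ?_⟩
    · have hP' : (0 : ℝ) < P := by exact_mod_cast hP
      have h1 : (((M - m0 + (P - 1)) / P : ℕ) : ℝ) ≤ ((M - m0 + (P - 1) : ℕ) : ℝ) / P := Nat.cast_div_le
      have h2 : ((M - m0 + (P - 1) : ℕ) : ℝ) ≤ (M : ℝ) + P := by
        have : M - m0 + (P - 1) ≤ M + P := by omega
        exact_mod_cast this
      calc (((M - m0 + (P - 1)) / P : ℕ) : ℝ) ≤ ((M - m0 + (P - 1) : ℕ) : ℝ) / P := h1
        _ ≤ ((M : ℝ) + P) / P := div_le_div_of_nonneg_right h2 hP'.le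
        _ = (M : ℝ) / P + 1 := by
            rw [add_div, div_self hP'.ne']
    · right
      ext m
      rw [mem_filter, mem_range, mem_image]
      constructor
      · rintro ⟨h1, h2⟩
        refine ⟨m / P, ?_, ?_⟩
        · rw [mem_range, Nat.lt_div_iff_mul_lt (by omega)]
          have h3 := Nat.div_add_mod m P
          have h4 : m / P * P = P * (m / P) := mul_comm _ _
          omega
        · have h3 := Nat.div_add_mod m P
          omega
      · rintro ⟨j, hj, rfl⟩
        rw [mem_range, Nat.lt_div_iff_mul_lt (by omega)] at hj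
        refine ⟨?_, ?_⟩
        · have h4 : j * P = P * j := mul_comm _ _
          omega
        · rw [Nat.add_mul_mod_self_left, Nat.mod_eq_of_lt h]
    · have h1 : (range M).filter (fun m => m % P = m0) ⊆
          (range ((M - m0 + (P - 1)) / P)).image (fun j => m0 + P * j) := by
        intro m hm
        rw [mem_filter, mem_range] at hm
        rw [mem_image]
        refine ⟨m / P, ?_, ?_⟩
        · rw [mem_range, Nat.lt_div_iff_mul_lt (by omega)]
          have h3 := Nat.div_add_mod m P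
          have h4 : m / P * P = P * (m / P) := mul_comm _ _
          omega
        · have h3 := Nat.div_add_mod m P
          omega
      calc ((range M).filter (fun m => m % P = m0)).card
          ≤ ((range ((M - m0 + (P - 1)) / P)).image (fun j => m0 + P * j)).card := card_le_card h1
        _ ≤ (range ((M - m0 + (P - 1)) / P)).card := card_image_le
        _ = (M - m0 + (P - 1)) / P := card_range _
  · have h1 : (range M).filter (fun m => m % P = m0) = ∅ := by
      rw [filter_eq_empty_iff]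
      intro m _ h2
      have := Nat.mod_lt m (show 0 < P by omega)
      omega
    refine ⟨0, ?_, Or.inl h1, ?_⟩
    · have hP' : (0 : ℝ) < P := by exact_mod_cast hP
      have : (0 : ℝ) ≤ (M : ℝ) / P := by positivity
      push_cast
      linarith
    · rw [h1, card_empty]

theorem thm_Fou : Fou := by
  intro v _ P M m0 hv hP hPv Q w W0 E0 hW0 hE0 hW
  have hv1 : 1 ≤ v := by omega
  have hv' : (0 : ℝ) < v := by exact_mod_cast hv1
  have hlog : 0 ≤ Real.log v := Real.log_nonneg (by exact_mod_cast hv1)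
  obtain ⟨Ms, hMs⟩ : ∃ Ms : Finset ℕ, Ms = (range M).filter (fun m => m % P = m0) := ⟨_, rfl⟩
  obtain ⟨J, hJ1, hJ2, hJ3⟩ := Fou_class P M m0 hP
  rw [← hMs] at hJ2 hJ3
  have hPu : IsUnit ((P : ℕ) : ZMod v) := (ZMod.isUnit_iff_coprime P v).2 hPv
  -- the two transforms
  obtain ⟨K, hK⟩ : ∃ K : ZMod v → ℂ, K = fun h => ∑ m ∈ Ms, ZMod.stdAddChar (-(h * (m : ZMod v))) :=
    ⟨_, rfl⟩
  obtain ⟨W, hWd⟩ : ∃ W : ZMod v → ℂ, W = fun h => ∑ q ∈ Q, ZMod.stdAddChar (h * w q) := ⟨_, rfl⟩
  have hnorm : ∀ x : ZMod v, ‖ZMod.stdAddChar x‖ = 1 := by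
    intro x
    rw [ZMod.stdAddChar_apply, Circle.norm_coe]
  -- bound for `K`
  have hKb : ∀ h : ZMod v, h ≠ 0 → ‖K h‖ ≤ fouF v (h * (P : ZMod v)).val := by
    intro h hh
    have hz : h * (P : ZMod v) ≠ 0 := by
      intro h1
      exact hh ((hPu.mul_left_eq_zero).1 h1)
    have h0 : 0 ≤ fouF v (h * (P : ZMod v)).val := fouF_nonneg (ZMod.val_lt _)
    have h1 : ‖K h‖ = ‖∑ m ∈ Ms, ZMod.stdAddChar (h * (m : ZMod v))‖ := by
      rw [hK]
      show ‖∑ m ∈ Ms, ZMod.stdAddChar (-(h * (m : ZMod v)))‖ = _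
      rw [← Complex.norm_conj, map_sum]
      congr 1
      apply sum_congr rfl
      intro m _
      rw [← AddChar.map_neg_eq_conj, neg_neg]
    rw [h1]
    rcases hJ2 with h2 | h2
    · rw [h2, sum_empty, norm_zero]
      exact h0
    · have hinj : Set.InjOn (fun j => m0 + P * j) (range J : Set ℕ) := by
        intro a _ b _ hab
        have h3 : P * a = P * b := by
          have h4 : m0 + P * a = m0 + P * b := hab
          omega
        exact Nat.eq_of_mul_eq_mul_left (by omega) h3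
      rw [h2, sum_image hinj]
      have h3 : ∀ j ∈ range J, ZMod.stdAddChar (h * ((m0 + P * j : ℕ) : ZMod v)) =
          ZMod.stdAddChar (h * (m0 : ZMod v)) * (ZMod.stdAddChar (h * (P : ZMod v))) ^ j := by
        intro j _
        rw [← AddChar.map_nsmul_eq_pow, ← AddChar.map_add_eq_mul]
        congr 1
        rw [nsmul_eq_mul]
        push_cast
        ring
      rw [sum_congr rfl h3, ← mul_sum, norm_mul, hnorm, one_mul]
      exact Fou_geom hz J
  -- the sums of the bounds
  have hginj : ∀ S : Finset (ZMod v), Set.InjOn (fun h : ZMod v => (h * (P : ZMod v)).val) (S : Set (ZMod v)) := by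
    intro S a _ b _ hab
    have h1 : a * (P : ZMod v) = b * (P : ZMod v) := ZMod.val_injective v hab
    exact (hPu.mul_left_inj).1 h1
  have hgcd : ∀ h : ZMod v, Nat.gcd (h * (P : ZMod v)).val v = Nat.gcd h.val v := by
    intro h
    rw [ZMod.val_mul, ZMod.val_natCast]
    have h1 : Nat.gcd (h.val * (P % v) % v) v = Nat.gcd (h.val * (P % v)) v := by
      rw [← Nat.gcd_rec, Nat.gcd_comm]
    rw [h1]
    have h2 : Nat.Coprime (P % v) v := by
      unfold Nat.Coprime
      rw [← Nat.gcd_rec, Nat.gcd_comm]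
      exact hPv
    exact h2.gcd_mul_right_cancel _
  have hgen : ∀ (S : Finset (ZMod v)) (T : Finset ℕ), (∀ h ∈ S, (h * (P : ZMod v)).val ∈ T) →
      (∀ r ∈ T, r < v) → ∑ h ∈ S, fouF v (h * (P : ZMod v)).val ≤ ∑ r ∈ T, fouF v r := by
    intro S T h1 h2
    rw [← sum_image (f := fun r => fouF v r) (hginj S)]
    apply sum_le_sum_of_subset_of_nonneg
    · intro r hr
      obtain ⟨h, hh, rfl⟩ := mem_image.1 hr
      exact h1 h hh
    · intro r hr _
      exact fouF_nonneg (h2 r hr)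
  have hval : ∀ h : ZMod v, h ≠ 0 → (h * (P : ZMod v)).val ∈ Ico 1 v := by
    intro h hh
    rw [mem_Ico]
    refine ⟨Fou_val_pos ?_, ZMod.val_lt _⟩
    intro h1
    exact hh ((hPu.mul_left_eq_zero).1 h1)
  obtain ⟨S1, hS1⟩ : ∃ S1 : Finset (ZMod v),
      S1 = univ.filter (fun h : ZMod v => h ≠ 0 ∧ (Nat.gcd h.val v : ℝ) ≤ E0) := ⟨_, rfl⟩
  obtain ⟨S2, hS2⟩ : ∃ S2 : Finset (ZMod v),
      S2 = univ.filter (fun h : ZMod v => h ≠ 0 ∧ E0 < (Nat.gcd h.val v : ℝ)) := ⟨_, rfl⟩
  have hsum1 : ∑ h ∈ S1, ‖W h‖ * ‖K h‖ ≤ W0 * (v * (1 + Real.log v)) := by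
    have h1 : ∑ h ∈ S1, ‖W h‖ * ‖K h‖ ≤ ∑ h ∈ S1, W0 * fouF v (h * (P : ZMod v)).val := by
      apply sum_le_sum
      intro h hh
      rw [hS1, mem_filter] at hh
      apply mul_le_mul _ (hKb h hh.2.1) (norm_nonneg _) hW0
      rw [hWd]
      exact hW h hh.2.1 hh.2.2
    have h2 : ∑ h ∈ S1, fouF v (h * (P : ZMod v)).val ≤ v * (1 + Real.log v) := by
      refine (hgen S1 ((Ico 1 v).filter (fun r => 1 ∣ r)) ?_ ?_).trans ?_
      · intro h hh
        rw [hS1, mem_filter] at hh
        rw [mem_filter]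
        exact ⟨hval h hh.2.1, one_dvd _⟩
      · intro r hr
        rw [mem_filter, mem_Ico] at hr
        exact hr.1.2
      · have h3 := Fou_mult v 1 hv1 (one_dvd v)
        rw [Nat.cast_one, div_one] at h3
        exact h3
    rw [← mul_sum] at h1
    exact h1.trans (mul_le_mul_of_nonneg_left h2 hW0)
  have hsum2 : ∑ h ∈ S2, ‖W h‖ * ‖K h‖ ≤
      Q.card * (v.divisors.card * ((v : ℝ) / E0 * (1 + Real.log v))) := by
    have hWQ : ∀ h : ZMod v, ‖W h‖ ≤ Q.card := by
      intro h
      rw [hWd]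
      calc ‖∑ q ∈ Q, ZMod.stdAddChar (h * w q)‖ ≤ ∑ q ∈ Q, ‖ZMod.stdAddChar (h * w q)‖ := norm_sum_le _ _
        _ = ∑ q ∈ Q, (1 : ℝ) := sum_congr rfl fun q _ => hnorm _
        _ = Q.card := by rw [sum_const, nsmul_eq_mul, mul_one]
    have h1 : ∑ h ∈ S2, ‖W h‖ * ‖K h‖ ≤ ∑ h ∈ S2, (Q.card : ℝ) * fouF v (h * (P : ZMod v)).val := by
      apply sum_le_sum
      intro h hh
      rw [hS2, mem_filter] at hh
      exact mul_le_mul (hWQ h) (hKb h hh.2.1) (norm_nonneg _) (Nat.cast_nonneg _)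
    have h2 : ∑ h ∈ S2, fouF v (h * (P : ZMod v)).val ≤
        v.divisors.card * ((v : ℝ) / E0 * (1 + Real.log v)) := by
      refine (hgen S2 ((Ico 1 v).filter (fun r => E0 < (Nat.gcd r v : ℝ))) ?_ ?_).trans
        (Fou_big v hv1 E0 hE0)
      · intro h hh
        rw [hS2, mem_filter] at hh
        rw [mem_filter]
        refine ⟨hval h hh.2.1, ?_⟩
        rw [hgcd]
        exact hh.2.2
      · intro r hr
        rw [mem_filter, mem_Ico] at hr
        exact hr.1.2
    rw [← mul_sum] at h1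
    exact h1.trans (mul_le_mul_of_nonneg_left h2 (Nat.cast_nonneg _))
  have hWQ0 : ‖W 0‖ * ‖K 0‖ ≤ ((M : ℝ) / P + 1) * Q.card := by
    have h1 : W 0 = (Q.card : ℂ) := by
      rw [hWd]
      show ∑ q ∈ Q, ZMod.stdAddChar (0 * w q) = _
      rw [sum_congr rfl (fun q _ => by rw [zero_mul, AddChar.map_zero_eq_one])]
      rw [sum_const, nsmul_eq_mul, mul_one]
    have h2 : K 0 = (Ms.card : ℂ) := by
      rw [hK]
      show ∑ m ∈ Ms, ZMod.stdAddChar (-(0 * (m : ZMod v))) = _
      rw [sum_congr rfl (fun q _ => by rw [zero_mul, neg_zero, AddChar.map_zero_eq_one])]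
      rw [sum_const, nsmul_eq_mul, mul_one]
    rw [h1, h2, Complex.norm_natCast, Complex.norm_natCast, mul_comm]
    apply mul_le_mul_of_nonneg_right _ (Nat.cast_nonneg _)
    have h3 : (Ms.card : ℝ) ≤ J := by exact_mod_cast hJ3
    linarith
  -- the count
  obtain ⟨cnt, hcnt⟩ : ∃ cnt : ℕ, cnt = ((Q ×ˢ range M).filter fun z =>
    z.2 % P = m0 ∧ ((z.2 : ℕ) : ZMod v) = w z.1).card := ⟨_, rfl⟩
  rw [← hcnt]
  have hid : ((v : ℂ) * cnt) = ∑ h : ZMod v, W h * K h := by
    have h1 : (cnt : ℂ) = ∑ q ∈ Q, ∑ m ∈ Ms, if ((m : ℕ) : ZMod v) = w q then (1 : ℂ) else 0 := by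
      rw [hcnt]
      have h2 : ((Q ×ˢ range M).filter fun z => z.2 % P = m0 ∧ ((z.2 : ℕ) : ZMod v) = w z.1) =
          (Q ×ˢ Ms).filter fun z => ((z.2 : ℕ) : ZMod v) = w z.1 := by
        ext z
        rw [hMs]
        simp only [mem_filter, mem_product]
        tauto
      rw [h2, card_filter, sum_product]
      push_cast
      rfl
    have h3 : ∀ (q : ℕ × ℕ) (m : ℕ), ∑ h : ZMod v, ZMod.stdAddChar (h * (w q - (m : ZMod v))) =
        if ((m : ℕ) : ZMod v) = w q then (v : ℂ) else 0 := by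
      intro q m
      have h4 := AddChar.sum_mulShift (R := ZMod v) (ψ := ZMod.stdAddChar (N := v)) (w q - (m : ZMod v))
        (ZMod.isPrimitive_stdAddChar v)
      rw [h4, ZMod.card]
      by_cases h5 : ((m : ℕ) : ZMod v) = w q
      · rw [if_pos h5, if_pos (by rw [h5, sub_self])]
      · rw [if_neg h5, if_neg (fun h6 => h5 (sub_eq_zero.1 h6).symm)]
        simp
    calc ((v : ℂ) * cnt) = ∑ q ∈ Q, ∑ m ∈ Ms, (if ((m : ℕ) : ZMod v) = w q then (v : ℂ) else 0) := by
          rw [h1, mul_sum]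
          apply sum_congr rfl
          intro q _
          rw [mul_sum]
          apply sum_congr rfl
          intro m _
          split_ifs <;> simp
      _ = ∑ q ∈ Q, ∑ m ∈ Ms, ∑ h : ZMod v, ZMod.stdAddChar (h * (w q - (m : ZMod v))) := by
          apply sum_congr rfl
          intro q _
          apply sum_congr rfl
          intro m _
          rw [h3]
      _ = ∑ h : ZMod v, ∑ q ∈ Q, ∑ m ∈ Ms, ZMod.stdAddChar (h * (w q - (m : ZMod v))) := by
          rw [sum_comm]
          rw [sum_congr rfl (fun q _ => sum_comm)]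
          rw [sum_comm]
          apply sum_congr rfl
          intro h _
          exact sum_comm
      _ = ∑ h : ZMod v, W h * K h := by
          apply sum_congr rfl
          intro h _
          rw [hWd, hK]
          show _ = (∑ q ∈ Q, ZMod.stdAddChar (h * w q)) * ∑ m ∈ Ms, ZMod.stdAddChar (-(h * (m : ZMod v)))
          rw [sum_mul_sum]
          apply sum_congr rfl
          intro q _
          apply sum_congr rfl
          intro m _
          rw [← AddChar.map_add_eq_mul]
          congr 1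
          ring
  have hle : (v : ℝ) * cnt ≤ ∑ h : ZMod v, ‖W h‖ * ‖K h‖ := by
    have h1 : ‖(v : ℂ) * cnt‖ = (v : ℝ) * cnt := by
      rw [norm_mul, Complex.norm_natCast, Complex.norm_natCast]
    rw [← h1, hid]
    calc ‖∑ h : ZMod v, W h * K h‖ ≤ ∑ h : ZMod v, ‖W h * K h‖ := norm_sum_le _ _
      _ = ∑ h : ZMod v, ‖W h‖ * ‖K h‖ := sum_congr rfl fun h _ => norm_mul _ _
  have hsplit : ∑ h : ZMod v, ‖W h‖ * ‖K h‖ =
      ‖W 0‖ * ‖K 0‖ + (∑ h ∈ S1, ‖W h‖ * ‖K h‖ + ∑ h ∈ S2, ‖W h‖ * ‖K h‖) := by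
    have h1 : (univ : Finset (ZMod v)) = insert 0 (S1 ∪ S2) := by
      ext h
      rw [mem_insert, mem_union, hS1, hS2, mem_filter, mem_filter]
      constructor
      · intro _
        by_cases h2 : h = 0
        · exact Or.inl h2
        · rcases le_or_gt (Nat.gcd h.val v : ℝ) E0 with h3 | h3
          · exact Or.inr (Or.inl ⟨mem_univ _, h2, h3⟩)
          · exact Or.inr (Or.inr ⟨mem_univ _, h2, h3⟩)
      · intro _
        exact mem_univ _
    have h2 : (0 : ZMod v) ∉ S1 ∪ S2 := by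
      rw [mem_union, hS1, hS2, mem_filter, mem_filter]
      rintro (⟨-, h3, -⟩ | ⟨-, h3, -⟩)
      · exact h3 rfl
      · exact h3 rfl
    have h3 : Disjoint S1 S2 := by
      rw [Finset.disjoint_left]
      intro h h4 h5
      rw [hS1, mem_filter] at h4
      rw [hS2, mem_filter] at h5
      linarith [h4.2.2, h5.2.2]
    rw [h1, sum_insert h2, sum_union h3]
  rw [hsplit] at hle
  have hfin : (v : ℝ) * cnt ≤ ((M : ℝ) / P + 1) * Q.card + (W0 * (v * (1 + Real.log v)) +
      Q.card * (v.divisors.card * ((v : ℝ) / E0 * (1 + Real.log v)))) := by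
    linarith
  have hgoal : ((M : ℝ) / P + 1) * Q.card / v + (1 + Real.log v) * (W0 + Q.card * v.divisors.card / E0) =
      (((M : ℝ) / P + 1) * Q.card + (W0 * (v * (1 + Real.log v)) +
      Q.card * (v.divisors.card * ((v : ℝ) / E0 * (1 + Real.log v))))) / v := by
    have hP' : (P : ℝ) ≠ 0 := by
      have : P ≠ 0 := by omega
      exact_mod_cast this
    field_simp
  rw [hgoal, le_div_iff₀ hv']
  linarith

end Pool.Agent.CDZ
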