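import Pool.Agent.CDZ.StW

/-!
# CDZ, module GWin: the primes `2 mod n` in a window
-/

set_option autoImplicit false

open Finset Filter Topology

namespace Pool.Agent.CDZ

private lemma GWin_sum (n X : ℕ) (a b : ℝ) :
    ∑ p ∈ (pw X a b).filter (Gp n), (1 : ℝ) / p =
      ∑ p ∈ Ioc ⌊(X : ℝ) ^ a⌋₊ ⌊(X : ℝ) ^ b⌋₊, if Gp n p then (1 : ℝ) / p else 0 := by
  unfold pw
  rw [Finset.filter_filter, Finset.sum_filter]
  refine Finset.sum_congr rfl fun p _ => ?_
  by_cases h : Gp n p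
  · simp [h, h.1]
  · simp [h]

private lemma GWin_floor (X : ℕ) (hX : 1 ≤ X) (a b : ℝ) (hab : a ≤ b) :
    ⌊(X : ℝ) ^ a⌋₊ ≤ ⌊(X : ℝ) ^ b⌋₊ := by
  apply Nat.floor_le_floor
  exact Real.rpow_le_rpow_of_exponent_le (by exact_mod_cast hX) hab

private lemma GWin_piece (n : ℕ) (hn : 3 ≤ n) (hodd : Odd n) (t : ℝ) (ht : 0 < t) :
    ∀ᶠ X : ℕ in atTop, (1 : ℝ) / (8 * Nat.totient n) ≤
      ∑ p ∈ Ioc ⌊(X : ℝ) ^ (t / 2)⌋₊ ⌊(X : ℝ) ^ t⌋₊, if Gp n p then (1 : ℝ) / p else 0 := by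
  have hcop : Nat.Coprime 2 n := by
    rw [Nat.coprime_comm]
    exact Nat.Coprime.symm (Nat.coprime_two_left.2 hodd)
  have hφ : (0 : ℝ) < Nat.totient n := by
    exact_mod_cast Nat.totient_pos.2 (by omega)
  have hlim := Pool.Agent.Cohn.th_class_tendsto (n := n) (a := 2) (by omega) hcop
  have hn1 : ¬ Pool.Agent.Cohn.Hc n 2 1 := fun h => Nat.not_prime_one h.1
  have h1 := Pool.Agent.Cohn.S1_pow_tendsto hlim (t := t) ht.le hn1
  have h2 := Pool.Agent.Cohn.S1_pow_tendsto hlim (t := t / 2) (by positivity) hn1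
  have h3 := h1.sub h2
  have hlt : t / (8 * Nat.totient n) < 1 / (Nat.totient n : ℝ) * t - 1 / (Nat.totient n : ℝ) * (t / 2) := by
    have : 1 / (Nat.totient n : ℝ) * t - 1 / (Nat.totient n : ℝ) * (t / 2) - t / (8 * Nat.totient n) =
        3 * t / (8 * Nat.totient n) := by
      field_simp
      ring
    have hp : 0 < 3 * t / (8 * (Nat.totient n : ℝ)) := by positivity
    linarith
  filter_upwards [h3.eventually (eventually_gt_nhds hlt), eventually_ge_atTop 3] with X hX hX3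
  have hX1 : (1 : ℝ) < X := by
    have : (3 : ℝ) ≤ X := by exact_mod_cast hX3
    linarith
  have hlog : 0 < Real.log X := Real.log_pos hX1
  have hfl := GWin_floor X (by omega) (t / 2) t (by linarith)
  have e1 : Pool.Agent.Cohn.S1 (Pool.Agent.Cohn.Hc n 2) ⌊(X : ℝ) ^ t⌋₊ -
      Pool.Agent.Cohn.S1 (Pool.Agent.Cohn.Hc n 2) ⌊(X : ℝ) ^ (t / 2)⌋₊ =
      ∑ p ∈ Ioc ⌊(X : ℝ) ^ (t / 2)⌋₊ ⌊(X : ℝ) ^ t⌋₊,
        if Pool.Agent.Cohn.Hc n 2 p then Real.log p / p else 0 := by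
    unfold Pool.Agent.Cohn.S1
    rw [← Finset.sum_Ioc_consecutive _ (Nat.zero_le _) hfl]
    ring
  have e2 : ∑ p ∈ Ioc ⌊(X : ℝ) ^ (t / 2)⌋₊ ⌊(X : ℝ) ^ t⌋₊,
        (if Pool.Agent.Cohn.Hc n 2 p then Real.log p / p else 0) ≤
      (t * Real.log X) * ∑ p ∈ Ioc ⌊(X : ℝ) ^ (t / 2)⌋₊ ⌊(X : ℝ) ^ t⌋₊,
        if Gp n p then (1 : ℝ) / p else 0 := by
    rw [Finset.mul_sum]
    refine Finset.sum_le_sum fun p hp => ?_
    by_cases h : Gp n p
    · have h' : Pool.Agent.Cohn.Hc n 2 p := h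
      rw [if_pos h, if_pos h']
      have hp0 : (0 : ℝ) < p := by exact_mod_cast h.1.pos
      have hple : (p : ℝ) ≤ (X : ℝ) ^ t :=
        le_trans (by exact_mod_cast (Finset.mem_Ioc.1 hp).2) (Nat.floor_le (by positivity))
      have hl : Real.log p ≤ t * Real.log X := by
        rw [← Real.log_rpow (by linarith)]
        exact Real.log_le_log hp0 hple
      rw [mul_one_div]
      gcongr
    · have h' : ¬ Pool.Agent.Cohn.Hc n 2 p := h
      rw [if_neg h, if_neg h', mul_zero]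
  rw [← sub_div, lt_div_iff₀ hlog, e1] at hX
  have h5 := lt_of_lt_of_le hX e2
  have h6 : (t * Real.log X) * (1 / (8 * Nat.totient n)) ≤ (t * Real.log X) *
      ∑ p ∈ Ioc ⌊(X : ℝ) ^ (t / 2)⌋₊ ⌊(X : ℝ) ^ t⌋₊, if Gp n p then (1 : ℝ) / p else 0 := by
    refine le_trans (le_of_eq ?_) h5.le
    ring
  exact le_of_mul_le_mul_left h6 (by positivity)

/-- (W1) The primes `2 mod n` in a window. -/
theorem thm_GWin : GWin := by
  intro n hn hodd b K hb
  induction K with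
  | zero =>
    filter_upwards with X
    rw [Nat.cast_zero, zero_div]
    exact Finset.sum_nonneg fun p _ => by positivity
  | succ K ih =>
    filter_upwards [ih, GWin_piece n hn hodd (b / 2 ^ K) (by positivity), eventually_ge_atTop 1]
      with X h1 h2 hX
    rw [GWin_sum] at h1 ⊢
    have e1 : b / 2 ^ (K + 1) = b / 2 ^ K / 2 := by
      rw [pow_succ]
      field_simp
    rw [e1]
    have hf1 := GWin_floor X hX (b / 2 ^ K / 2) (b / 2 ^ K) (by
      have : 0 < b / 2 ^ K := by positivity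
      linarith)
    have hf2 := GWin_floor X hX (b / 2 ^ K) b (by
      rw [div_le_iff₀ (by positivity)]
      have : (1 : ℝ) ≤ 2 ^ K := one_le_pow₀ (by norm_num)
      nlinarith)
    rw [← Finset.sum_Ioc_consecutive _ hf1 hf2]
    have e2 : ((K + 1 : ℕ) : ℝ) / (8 * Nat.totient n) =
        1 / (8 * Nat.totient n) + (K : ℝ) / (8 * Nat.totient n) := by
      push_cast
      ring
    rw [e2]
    exact add_le_add h2 h1

end Pool.Agent.CDZ
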