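import Pool.Agent.CDZ.StW

/-!
# CDZ (W10): almost all `N` have good divisors for all `u`
-/

set_option autoImplicit false

open Finset Filter Topology

namespace Pool.Agent.CDZ

theorem thm_GoodAll (h1 : GridBad) (h2 : Hits) (h3 : GoodOne) : GoodAll := by
  intro n S ε hn hodd hε
  obtain ⟨K, hK, hhits⟩ := h2 n (ε / 2) hn hodd (by linarith)
  have hM : 32 ≤ 2 ^ K := by
    calc 32 = 2 ^ 5 := by norm_num
      _ ≤ 2 ^ K := Nat.pow_le_pow_right (by norm_num) hK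
  obtain ⟨m, hm1, hm⟩ := ((eventually_ge_atTop 1).and
    (h1 (2 ^ K) (ε / 2) hM (by linarith))).exists
  refine ⟨(2 ^ K) ^ (6 * (2 * m + 1)), Nat.one_le_pow _ _ (by omega), ?_⟩
  filter_upwards [hm, hhits m, h3 n S (2 ^ K) m hM hm1] with X hX1 hX2 hX3
  set A : Set ℕ := {N ∈ Set.Icc 1 X | ∃ k : ℕ,
    1 / 3 + (k : ℝ) / (80 * (((2 ^ K : ℕ) : ℕ) : ℝ) ^ (6 * (2 * m + 1))) ≤ 2 ∧
      BadN (2 ^ K) (2 * m + 1) m X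
        (1 / 3 + (k : ℝ) / (80 * (((2 ^ K : ℕ) : ℕ) : ℝ) ^ (6 * (2 * m + 1)))) N} with hA
  set B : Set ℕ := {N ∈ Set.Icc 1 X | ¬ ((∃ A ⊆ range (2 * m + 1), A.card = m + 1 ∧
        ∀ i ∈ A, ∃ p ∈ WA (2 ^ K) (2 * m + 1) X i, Gp n p ∧ p ∣ N) ∧
      (∃ B ⊆ range (2 * m + 1), B.card = m + 1 ∧
        ∀ j ∈ B, ∃ q ∈ WB (2 ^ K) (2 * m + 1) X j, Gp n q ∧ q ∣ N))} with hB
  have hsub : {N ∈ Set.Icc 1 X | ¬ ∀ u : ℕ, (X : ℝ) ^ (2 / 5 : ℝ) ≤ u → u ≤ X →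
      GoodDiv n S ((2 ^ K) ^ (6 * (2 * m + 1))) (1 / 80) N u} ⊆ A ∪ B := by
    rintro N ⟨hN, hbad⟩
    by_contra hcon
    rw [Set.mem_union, not_or] at hcon
    obtain ⟨hNA, hNB⟩ := hcon
    apply hbad
    intro u hu1 hu2
    have hNB' : (∃ A ⊆ range (2 * m + 1), A.card = m + 1 ∧
        ∀ i ∈ A, ∃ p ∈ WA (2 ^ K) (2 * m + 1) X i, Gp n p ∧ p ∣ N) ∧
      (∃ B ⊆ range (2 * m + 1), B.card = m + 1 ∧
        ∀ j ∈ B, ∃ q ∈ WB (2 ^ K) (2 * m + 1) X j, Gp n q ∧ q ∣ N) := by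
      by_contra h
      exact hNB ⟨hN, h⟩
    refine hX3 N u hN.1 hN.2 hu1 hu2 hNB'.1 hNB'.2 ?_
    intro h
    exact hNA ⟨hN, h⟩
  have hfinA : A.Finite := (Set.finite_Icc 1 X).subset fun N hN => hN.1
  have hfinB : B.Finite := (Set.finite_Icc 1 X).subset fun N hN => hN.1
  have hle : ({N ∈ Set.Icc 1 X | ¬ ∀ u : ℕ, (X : ℝ) ^ (2 / 5 : ℝ) ≤ u → u ≤ X →
      GoodDiv n S ((2 ^ K) ^ (6 * (2 * m + 1))) (1 / 80) N u}).ncard ≤ A.ncard + B.ncard :=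
    (Set.ncard_le_ncard hsub (hfinA.union hfinB)).trans (Set.ncard_union_le A B)
  have hle' : ((({N ∈ Set.Icc 1 X | ¬ ∀ u : ℕ, (X : ℝ) ^ (2 / 5 : ℝ) ≤ u → u ≤ X →
      GoodDiv n S ((2 ^ K) ^ (6 * (2 * m + 1))) (1 / 80) N u}).ncard : ℕ) : ℝ) ≤
      (A.ncard : ℝ) + B.ncard := by exact_mod_cast hle
  refine hle'.trans ?_
  have e1 : (A.ncard : ℝ) ≤ ε / 2 * X := hX1
  have e2 : (B.ncard : ℝ) ≤ ε / 2 * X := hX2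
  linarith

end Pool.Agent.CDZ
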