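import Pool.Agent.CDZ.StW

/-!
# CDZ / GoodOne: good divisors of one number (helper82)
-/

set_option autoImplicit false

open Finset Filter Topology

namespace Pool.Agent.CDZ

lemma GoodOne_pw {X p : ℕ} {a b : ℝ} (h : p ∈ pw X a b) :
    p.Prime ∧ (X : ℝ) ^ a < p ∧ (p : ℝ) ≤ (X : ℝ) ^ b := by
  obtain ⟨h1, h2⟩ := Finset.mem_filter.1 h
  obtain ⟨h3, h4⟩ := Finset.mem_Ioc.1 h1
  exact ⟨h2, (Nat.floor_lt (by positivity)).1 h3, (Nat.le_floor_iff (by positivity)).1 h4⟩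

lemma GoodOne_lg {X p : ℕ} {a b : ℝ} (hX : 2 ≤ X) (h : p ∈ pw X a b) :
    a < lg X p ∧ lg X p ≤ b := by
  obtain ⟨h1, h2, h3⟩ := GoodOne_pw h
  have hX1 : (1 : ℝ) < X := by exact_mod_cast (by omega : 1 < X)
  have hX0 : (0 : ℝ) < X := by linarith
  have hl : 0 < Real.log X := Real.log_pos hX1
  have hp : (0 : ℝ) < p := by exact_mod_cast h1.pos
  unfold lg
  constructor
  · rw [lt_div_iff₀ hl, ← Real.log_rpow hX0]
    exact Real.log_lt_log (by positivity) h2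
  · rw [div_le_iff₀ hl, ← Real.log_rpow hX0]
    exact Real.log_le_log hp h3

lemma GoodOne_aU {M J i : ℕ} (hM : 32 ≤ M) (hi : i < J) :
    1 / (M : ℝ) ^ (6 * J) ≤ aU M J i / M := by
  have hM0 : (1 : ℝ) ≤ M := by exact_mod_cast (by omega : 1 ≤ M)
  unfold aU
  rw [div_div, ← pow_succ]
  exact div_le_div_of_nonneg_left zero_le_one (by positivity)
    (pow_le_pow_right₀ hM0 (by omega))

lemma GoodOne_bU {M J j : ℕ} (hM : 32 ≤ M) (hj : j < J) :
    1 / (M : ℝ) ^ (8 * J + 1) ≤ bU M J j / M := by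
  have hM0 : (1 : ℝ) ≤ M := by exact_mod_cast (by omega : 1 ≤ M)
  unfold bU
  rw [div_div, ← pow_succ]
  exact div_le_div_of_nonneg_left zero_le_one (by positivity)
    (pow_le_pow_right₀ hM0 (by omega))

private lemma GoodOne_neA {M J X i i' p p' : ℕ} (hM : 32 ≤ M) (hX : 2 ≤ X) (hii : i < i')
    (h : p ∈ WA M J X i) (h' : p' ∈ WA M J X i') : p ≠ p' := by
  rintro rfl
  have h1 := (GoodOne_lg hX h).1
  have h2 := (GoodOne_lg hX h').2
  have hM0 : (1 : ℝ) ≤ M := by exact_mod_cast (by omega : 1 ≤ M)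
  have h3 : aU M J i' ≤ aU M J i / M := by
    unfold aU
    rw [div_div, ← pow_succ]
    exact div_le_div_of_nonneg_left zero_le_one (by positivity)
      (pow_le_pow_right₀ hM0 (by omega))
  linarith

private lemma GoodOne_neB {M J X i i' p p' : ℕ} (hM : 32 ≤ M) (hX : 2 ≤ X) (hii : i < i')
    (h : p ∈ WB M J X i) (h' : p' ∈ WB M J X i') : p ≠ p' := by
  rintro rfl
  have h1 := (GoodOne_lg hX h).1
  have h2 := (GoodOne_lg hX h').2
  have hM0 : (1 : ℝ) ≤ M := by exact_mod_cast (by omega : 1 ≤ M)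
  have h3 : bU M J i' ≤ bU M J i / M := by
    unfold bU
    rw [div_div, ← pow_succ]
    exact div_le_div_of_nonneg_left zero_le_one (by positivity)
      (pow_le_pow_right₀ hM0 (by omega))
  linarith

/-- Primes of different windows of the first family are different. -/
lemma GoodOne_A {M J X i i' p p' : ℕ} (hM : 32 ≤ M) (hX : 2 ≤ X) (hii : i ≠ i')
    (h : p ∈ WA M J X i) (h' : p' ∈ WA M J X i') : p ≠ p' := by
  rcases lt_or_gt_of_ne hii with h1 | h1
  · exact GoodOne_neA hM hX h1 h h'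
  · exact (GoodOne_neA hM hX h1 h' h).symm

/-- Primes of different windows of the second family are different. -/
lemma GoodOne_B {M J X i i' p p' : ℕ} (hM : 32 ≤ M) (hX : 2 ≤ X) (hii : i ≠ i')
    (h : p ∈ WB M J X i) (h' : p' ∈ WB M J X i') : p ≠ p' := by
  rcases lt_or_gt_of_ne hii with h1 | h1
  · exact GoodOne_neB hM hX h1 h h'
  · exact (GoodOne_neB hM hX h1 h' h).symm

/-- Primes of the first and of the second family are different. -/
lemma GoodOne_AB {M J X i j p q : ℕ} (hM : 32 ≤ M) (hX : 2 ≤ X) (hi : i < J)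
    (h : p ∈ WA M J X i) (h' : q ∈ WB M J X j) : p ≠ q := by
  rintro rfl
  have h1 := (GoodOne_lg hX h).1
  have h2 := (GoodOne_lg hX h').2
  have h3 := GoodOne_aU (M := M) hM hi
  have hM0 : (1 : ℝ) ≤ M := by exact_mod_cast (by omega : 1 ≤ M)
  have h4 : bU M J j ≤ 1 / (M : ℝ) ^ (6 * J) := by
    unfold bU
    exact div_le_div_of_nonneg_left zero_le_one (by positivity)
      (pow_le_pow_right₀ hM0 (by omega))
  linarith

/-- A pair that is not bad gives an admissible product. -/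
private lemma GoodOne_adm {X u p q L : ℕ} {lam' : ℝ} (hX : 2 ≤ X) (hL : 1 ≤ L) (hp : 0 < p)
    (hq : 0 < q) (hu : 2 ≤ u) (huX : u ≤ X) (hD : 1 / (L : ℝ) ≤ lg X p + lg X q)
    (h1 : lam' ≤ Real.log u / Real.log X) (h2 : Real.log u / Real.log X ≤ lam' + 1 / (80 * L))
    (hb : ¬ BadR (1 / 40) (lam' / (lg X p + lg X q))) :
    ∃ l, 1 ≤ l ∧ l ≤ L ∧ Adm (1 / 80) l u (p * q) := by
  have hX1 : (1 : ℝ) < X := by exact_mod_cast (by omega : 1 < X)
  have hl : 0 < Real.log X := Real.log_pos hX1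
  have hL0 : (0 : ℝ) < L := by exact_mod_cast hL
  have hu1 : (1 : ℝ) < u := by exact_mod_cast (by omega : 1 < u)
  have hu0 : (0 : ℝ) < u := by linarith
  have hp0 : (0 : ℝ) < p := by exact_mod_cast hp
  have hq0 : (0 : ℝ) < q := by exact_mod_cast hq
  set D := lg X p + lg X q with hDdef
  have hD0 : 0 < D := lt_of_lt_of_le (by positivity) hD
  set lam := Real.log u / Real.log X with hlam
  have hlam0 : 0 < lam := div_pos (Real.log_pos hu1) hl
  have hlam1 : lam ≤ 1 := by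
    rw [hlam, div_le_one hl]
    exact Real.log_le_log hu0 (by exact_mod_cast huX)
  have hDL : 1 / D ≤ L := by
    rw [div_le_iff₀ hD0]
    rw [div_le_iff₀ hL0] at hD
    linarith
  set r' := lam' / D with hr'
  set r := lam / D with hr
  have hr0 : 0 < r := div_pos hlam0 hD0
  have hrr : r' ≤ r := div_le_div_of_nonneg_right h1 hD0.le
  have hrr2 : r ≤ r' + 1 / 80 := by
    have h3 : r - r' = (lam - lam') * (1 / D) := by
      rw [hr, hr']; ring
    have h4 : (lam - lam') * (1 / D) ≤ 1 / (80 * L) * L := by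
      refine mul_le_mul (by linarith) hDL (by positivity) (by positivity)
    have h5 : 1 / (80 * (L : ℝ)) * L = 1 / 80 := by
      field_simp
    linarith
  obtain ⟨t, ht⟩ : ∃ t : ℤ, t = ⌊(r' + 1 / 40) / 2⌋ := ⟨_, rfl⟩
  have ht1 : (t : ℝ) ≤ (r' + 1 / 40) / 2 := by rw [ht]; exact Int.floor_le _
  have ht2 : (r' + 1 / 40) / 2 < t + 1 := by rw [ht]; exact Int.lt_floor_add_one _
  have ht3 : 2 * (t : ℝ) + 1 + 1 / 40 < r' := by
    by_contra hc
    push Not at hc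
    exact hb ⟨t, by linarith, hc⟩
  have ht0 : 0 ≤ t := by
    have h3 : (-1 : ℝ) < t := by linarith
    have h4 : (-1 : ℤ) < t := by exact_mod_cast h3
    omega
  obtain ⟨k, rfl⟩ := Int.eq_ofNat_of_zero_le ht0
  rw [Int.cast_natCast] at ht1 ht2 ht3
  have hrL : r ≤ L := by
    calc r = lam * (1 / D) := by rw [hr]; ring
      _ ≤ 1 * L := mul_le_mul hlam1 hDL (by positivity) zero_le_one
      _ = L := one_mul _
  have hkL : 2 * k + 1 ≤ L := by
    have : 2 * (k : ℝ) + 1 ≤ L := by linarith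
    exact_mod_cast this
  have hlogd : Real.log ((p * q : ℕ) : ℝ) = D * Real.log X := by
    rw [Nat.cast_mul, Real.log_mul hp0.ne' hq0.ne', hDdef]
    unfold lg
    field_simp
  have hlogu : Real.log u = lam * Real.log X := by
    rw [hlam]
    field_simp
  have hd0 : (0 : ℝ) < ((p * q : ℕ) : ℝ) := by positivity
  refine ⟨k + 1, by omega, by omega, ?_, ?_⟩
  · rw [← Real.log_le_log_iff (by positivity) hu0, Real.log_rpow hd0, hlogd, hlogu, ← mul_assoc]
    refine mul_le_mul_of_nonneg_right ?_ hl.le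
    have h3 : 2 * ((k + 1 : ℕ) : ℝ) - 1 + 1 / 80 ≤ r := by push_cast; linarith
    rw [hr, le_div_iff₀ hD0] at h3
    exact h3
  · rw [← Real.log_le_log_iff hu0 (by positivity), Real.log_rpow hd0, hlogd, hlogu, ← mul_assoc]
    refine mul_le_mul_of_nonneg_right ?_ hl.le
    have h3 : r ≤ 2 * ((k + 1 : ℕ) : ℝ) - 1 / 80 := by push_cast; linarith
    rw [hr, div_le_iff₀ hD0] at h3
    exact h3

theorem thm_GoodOne : GoodOne := by
  classical
  intro n S M m hM hm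
  have hM0 : (1 : ℝ) ≤ M := by exact_mod_cast (by omega : 1 ≤ M)
  have hMpos : (0 : ℝ) < M := by linarith
  set J := 2 * m + 1 with hJ
  have he : 0 < 1 / (M : ℝ) ^ (8 * J + 1) := by positivity
  have hbig : ∀ᶠ X : ℕ in atTop, ((S : ℝ) + 1) ≤ (X : ℝ) ^ (1 / (M : ℝ) ^ (8 * J + 1)) :=
    ((tendsto_rpow_atTop he).comp tendsto_natCast_atTop_atTop).eventually_ge_atTop _
  have hbig2 : ∀ᶠ X : ℕ in atTop, (2 : ℝ) ≤ (X : ℝ) ^ (2 / 5 : ℝ) :=
    ((tendsto_rpow_atTop (by norm_num)).comp tendsto_natCast_atTop_atTop).eventually_ge_atTop _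
  filter_upwards [hbig, hbig2, eventually_ge_atTop 2] with X hXS hX25 hX
  intro N u hN1 hNX hu huX hA hB hN
  obtain ⟨A, hAJ, hAc, hAp⟩ := hA
  obtain ⟨B, hBJ, hBc, hBq⟩ := hB
  choose! p hp using hAp
  choose! q hq using hBq
  have hX1 : (1 : ℝ) < X := by exact_mod_cast (by omega : 1 < X)
  have hl : 0 < Real.log X := Real.log_pos hX1
  have hu2 : 2 ≤ u := by
    have : (2 : ℝ) ≤ u := hX25.trans hu
    exact_mod_cast this
  have hu1 : (1 : ℝ) < u := by exact_mod_cast (by omega : 1 < u)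
  set L : ℕ := M ^ (6 * J) with hL
  have hL1 : 1 ≤ L := Nat.one_le_pow _ _ (by omega)
  have hLr : (L : ℝ) = (M : ℝ) ^ (6 * J) := by rw [hL]; push_cast; rfl
  have hL0 : (0 : ℝ) < L := by exact_mod_cast hL1
  set lam := Real.log u / Real.log X with hlam
  have hlam1 : lam ≤ 1 := by
    rw [hlam, div_le_one hl]
    exact Real.log_le_log (by linarith) (by exact_mod_cast huX)
  have hlam2 : 2 / 5 ≤ lam := by
    rw [hlam, le_div_iff₀ hl, ← Real.log_rpow (by linarith)]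
    exact Real.log_le_log (by positivity) hu
  obtain ⟨k, hk⟩ : ∃ k : ℕ, k = ⌊(lam - 1 / 3) * (80 * (L : ℝ))⌋₊ := ⟨_, rfl⟩
  have hk0 : 0 ≤ (lam - 1 / 3) * (80 * (L : ℝ)) := by
    have : 0 ≤ lam - 1 / 3 := by linarith
    positivity
  have hk1 : (k : ℝ) ≤ (lam - 1 / 3) * (80 * (L : ℝ)) := by rw [hk]; exact Nat.floor_le hk0
  have hk2 : (lam - 1 / 3) * (80 * (L : ℝ)) < k + 1 := by rw [hk]; exact Nat.lt_floor_add_one _
  have h80 : (0 : ℝ) < 80 * L := by positivity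
  set lam' := 1 / 3 + (k : ℝ) / (80 * (M : ℝ) ^ (6 * J)) with hlam'
  have hle1 : lam' ≤ lam := by
    have h3 : (k : ℝ) / (80 * L) ≤ lam - 1 / 3 := by rw [div_le_iff₀ h80]; exact hk1
    rw [hlam', ← hLr]
    linarith
  have hle2 : lam ≤ lam' + 1 / (80 * L) := by
    have h3 : lam - 1 / 3 ≤ ((k : ℝ) + 1) / (80 * L) := by rw [le_div_iff₀ h80]; exact hk2.le
    rw [add_div] at h3
    rw [hlam', ← hLr]
    linarith
  have hNB : ¬ BadN M J m X lam' N := fun h => hN ⟨k, by rw [← hlam']; linarith, h⟩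
  -- two disjoint pairs
  have hpair : ∀ A' B' : Finset ℕ, A' ⊆ A → B' ⊆ B → A'.card = m → B'.card = m →
      ∃ i ∈ A', ∃ j ∈ B', ¬ BadR (1 / 40) (lam' / (lg X (p i) + lg X (q j))) := by
    intro A' B' hA' hB' hAc' hBc'
    by_contra hc
    push Not at hc
    exact hNB ⟨A', B', p, q, hA'.trans hAJ, hB'.trans hBJ, hAc', hBc',
      fun i hi => ⟨(hp i (hA' hi)).1, (hp i (hA' hi)).2.2⟩,
      fun j hj => ⟨(hq j (hB' hj)).1, (hq j (hB' hj)).2.2⟩, hc⟩
  obtain ⟨A1, hA1, hA1c⟩ := Finset.exists_subset_card_eq (show m ≤ A.card by omega)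
  obtain ⟨B1, hB1, hB1c⟩ := Finset.exists_subset_card_eq (show m ≤ B.card by omega)
  obtain ⟨i1, hi1, j1, hj1, hg1⟩ := hpair A1 B1 hA1 hB1 hA1c hB1c
  have hi1A := hA1 hi1
  have hj1B := hB1 hj1
  obtain ⟨i2, hi2, j2, hj2, hg2⟩ := hpair (A.erase i1) (B.erase j1) (Finset.erase_subset _ _)
    (Finset.erase_subset _ _) (by rw [Finset.card_erase_of_mem hi1A]; omega)
    (by rw [Finset.card_erase_of_mem hj1B]; omega)
  have hi2A := Finset.mem_of_mem_erase hi2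
  have hj2B := Finset.mem_of_mem_erase hj2
  have hi12 : i1 ≠ i2 := (Finset.ne_of_mem_erase hi2).symm
  have hj12 : j1 ≠ j2 := (Finset.ne_of_mem_erase hj2).symm
  have hD : ∀ i ∈ A, ∀ j ∈ B, 1 / (L : ℝ) ≤ lg X (p i) + lg X (q j) := by
    intro i hi j hj
    have h3 := (GoodOne_lg hX (hp i hi).1).1
    have h4 := GoodOne_aU (M := M) hM (Finset.mem_range.1 (hAJ hi))
    have h5 : 0 ≤ lg X (q j) := div_nonneg (Real.log_natCast_nonneg _) hl.le
    rw [hLr]
    linarith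
  have hprimep : ∀ i ∈ A, (p i).Prime := fun i hi => (hp i hi).2.1.1
  have hprimeq : ∀ j ∈ B, (q j).Prime := fun j hj => (hq j hj).2.1.1
  obtain ⟨l1, hl1, hl1', hadm1⟩ := GoodOne_adm hX hL1 (hprimep i1 hi1A).pos (hprimeq j1 hj1B).pos
    hu2 huX (hD i1 hi1A j1 hj1B) hle1 hle2 hg1
  obtain ⟨l2, hl2, hl2', hadm2⟩ := GoodOne_adm hX hL1 (hprimep i2 hi2A).pos (hprimeq j2 hj2B).pos
    hu2 huX (hD i2 hi2A j2 hj2B) hle1 hle2 hg2
  have hAlt : ∀ i ∈ A, i < J := fun i hi => Finset.mem_range.1 (hAJ hi)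
  have hBlt : ∀ j ∈ B, j < J := fun j hj => Finset.mem_range.1 (hBJ hj)
  have hSp : ∀ i ∈ A, S < p i := by
    intro i hi
    have h3 := (GoodOne_pw (hp i hi).1).2.1
    have h4 : (X : ℝ) ^ (1 / (M : ℝ) ^ (8 * J + 1)) ≤ (X : ℝ) ^ (aU M J i / M) := by
      refine Real.rpow_le_rpow_of_exponent_le hX1.le ?_
      refine le_trans ?_ (GoodOne_aU (M := M) hM (hAlt i hi))
      exact div_le_div_of_nonneg_left zero_le_one (by positivity)
        (pow_le_pow_right₀ hM0 (by omega))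
    have h5 : (S : ℝ) < p i := by linarith
    exact_mod_cast h5
  have hSq : ∀ j ∈ B, S < q j := by
    intro j hj
    have h3 := (GoodOne_pw (hq j hj).1).2.1
    have h4 : (X : ℝ) ^ (1 / (M : ℝ) ^ (8 * J + 1)) ≤ (X : ℝ) ^ (bU M J j / M) :=
      Real.rpow_le_rpow_of_exponent_le hX1.le (GoodOne_bU (M := M) hM (hBlt j hj))
    have h5 : (S : ℝ) < q j := by linarith
    exact_mod_cast h5
  -- coprimality
  have cop : ∀ {a b : ℕ}, a.Prime → b.Prime → a ≠ b → Nat.Coprime a b := fun ha hb hab =>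
    (Nat.coprime_primes ha hb).2 hab
  have c1 := cop (hprimep i1 hi1A) (hprimeq j1 hj1B)
    (GoodOne_AB hM hX (hAlt i1 hi1A) (hp i1 hi1A).1 (hq j1 hj1B).1)
  have c2 := cop (hprimep i2 hi2A) (hprimeq j2 hj2B)
    (GoodOne_AB hM hX (hAlt i2 hi2A) (hp i2 hi2A).1 (hq j2 hj2B).1)
  have c3 := cop (hprimep i1 hi1A) (hprimep i2 hi2A)
    (GoodOne_A hM hX hi12 (hp i1 hi1A).1 (hp i2 hi2A).1)
  have c4 := cop (hprimeq j1 hj1B) (hprimeq j2 hj2B)
    (GoodOne_B hM hX hj12 (hq j1 hj1B).1 (hq j2 hj2B).1)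
  have c5 := cop (hprimep i1 hi1A) (hprimeq j2 hj2B)
    (GoodOne_AB hM hX (hAlt i1 hi1A) (hp i1 hi1A).1 (hq j2 hj2B).1)
  have c6 := cop (hprimep i2 hi2A) (hprimeq j1 hj1B)
    (GoodOne_AB hM hX (hAlt i2 hi2A) (hp i2 hi2A).1 (hq j1 hj1B).1)
  have hcop : Nat.Coprime (p i1 * q j1) (p i2 * q j2) :=
    Nat.Coprime.mul_left (Nat.Coprime.mul_right c3 c5) (Nat.Coprime.mul_right c6.symm c4)
  refine ⟨p i1 * q j1, p i2 * q j2, l1, l2, ?_, ?_, hl1, hl1', hl2, hl2', hadm1, hadm2⟩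
  · exact hcop.mul_dvd_of_dvd_of_dvd
      (c1.mul_dvd_of_dvd_of_dvd (hp i1 hi1A).2.2 (hq j1 hj1B).2.2)
      (c2.mul_dvd_of_dvd_of_dvd (hp i2 hi2A).2.2 (hq j2 hj2B).2.2)
  · intro r hr hrd
    have hcase : r = p i1 ∨ r = q j1 ∨ r = p i2 ∨ r = q j2 := by
      rcases (Nat.Prime.dvd_mul hr).1 hrd with h | h
      · rcases (Nat.Prime.dvd_mul hr).1 h with h | h
        · exact Or.inl ((Nat.prime_dvd_prime_iff_eq hr (hprimep i1 hi1A)).1 h)
        · exact Or.inr (Or.inl ((Nat.prime_dvd_prime_iff_eq hr (hprimeq j1 hj1B)).1 h))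
      · rcases (Nat.Prime.dvd_mul hr).1 h with h | h
        · exact Or.inr (Or.inr (Or.inl ((Nat.prime_dvd_prime_iff_eq hr (hprimep i2 hi2A)).1 h)))
        · exact Or.inr (Or.inr (Or.inr ((Nat.prime_dvd_prime_iff_eq hr (hprimeq j2 hj2B)).1 h)))
    rcases hcase with rfl | rfl | rfl | rfl
    · exact ⟨(hp i1 hi1A).2.1, hSp i1 hi1A⟩
    · exact ⟨(hq j1 hj1B).2.1, hSq j1 hj1B⟩
    · exact ⟨(hp i2 hi2A).2.1, hSp i2 hi2A⟩
    · exact ⟨(hq j2 hj2B).2.1, hSq j2 hj2B⟩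

end Pool.Agent.CDZ
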