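import Pool.Agent.CDZ.StW

/-!
# CDZ (W7): numbers which are bad for some point of a grid
-/

set_option autoImplicit false

open Finset Filter Topology

namespace Pool.Agent.CDZ

private theorem GridBad_small (M : ℕ) (ε : ℝ) (hε : 0 < ε) : ∀ᶠ m : ℕ in atTop,
    (2 * (80 * (M : ℝ) ^ (6 * (2 * m + 1)))) *
      (4 ^ (2 * m + 1) * (M : ℝ) ^ (2 * m) * (3 / 4) ^ (m * m)) ≤ ε := by
  set B : ℝ := 16 * (M : ℝ) ^ 14 with hB
  set C : ℝ := 640 * (M : ℝ) ^ 6 with hC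
  have hB0 : 0 ≤ B := by positivity
  have hC0 : 0 ≤ C := by positivity
  have h1 : Tendsto (fun m : ℕ => B * (3 / 4 : ℝ) ^ m) atTop (𝓝 0) := by
    have := (tendsto_pow_atTop_nhds_zero_of_lt_one (by norm_num : (0 : ℝ) ≤ 3 / 4)
      (by norm_num)).const_mul B
    simpa using this
  have h2 : Tendsto (fun m : ℕ => C * (1 / 2 : ℝ) ^ m) atTop (𝓝 0) := by
    have := (tendsto_pow_atTop_nhds_zero_of_lt_one (by norm_num : (0 : ℝ) ≤ 1 / 2)
      (by norm_num)).const_mul C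
    simpa using this
  filter_upwards [h1.eventually_le_const (by norm_num : (0 : ℝ) < 1 / 2),
    h2.eventually_le_const hε] with m hm1 hm2
  refine le_trans (le_of_eq ?_) ((mul_le_mul_of_nonneg_left
    (pow_le_pow_left₀ (by positivity) hm1 m) hC0).trans hm2)
  rw [mul_pow, ← pow_mul, hB, hC, mul_pow, ← pow_mul]
  have e1 : (M : ℝ) ^ (6 * (2 * m + 1)) * (M : ℝ) ^ (2 * m) = (M : ℝ) ^ 6 * (M : ℝ) ^ (14 * m) := by
    rw [← pow_add, ← pow_add]
    congr 1
    ring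
  have e2 : (4 : ℝ) ^ (2 * m + 1) = 4 * 16 ^ m := by
    rw [pow_succ, pow_mul]
    norm_num
    ring
  rw [e2]
  calc 2 * (80 * (M : ℝ) ^ (6 * (2 * m + 1))) * (4 * 16 ^ m * (M : ℝ) ^ (2 * m) * (3 / 4) ^ (m * m))
      = 640 * 16 ^ m * (3 / 4) ^ (m * m) * ((M : ℝ) ^ (6 * (2 * m + 1)) * (M : ℝ) ^ (2 * m)) := by
        ring
    _ = _ := by rw [e1]; ring

theorem thm_GridBad (h : BadCount) : GridBad := by
  classical
  intro M ε hM hε
  filter_upwards [GridBad_small M ε hε] with m hm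
  filter_upwards [h M (2 * m + 1) m hM (by omega)] with X hX
  set R : ℝ := 80 * (M : ℝ) ^ (6 * (2 * m + 1)) with hR
  have hM0 : (0 : ℝ) < M := by exact_mod_cast (by omega : 0 < M)
  have hR0 : 0 < R := by positivity
  set R0 : ℕ := 80 * M ^ (6 * (2 * m + 1)) with hR0def
  have hRR : (R0 : ℝ) = R := by rw [hR0def, hR]; push_cast; ring
  set c : ℝ := 4 ^ (2 * m + 1) * (M : ℝ) ^ (2 * m) * (3 / 4) ^ (m * m) with hc
  have hc0 : 0 ≤ c := by positivity
  set Sk : ℕ → Set ℕ := fun k => {N ∈ Set.Icc 1 X | 1 / 3 + (k : ℝ) / R ≤ 2 ∧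
    BadN M (2 * m + 1) m X (1 / 3 + (k : ℝ) / R) N} with hSk
  have hfin : ∀ k, (Sk k).Finite := fun k => (Set.finite_Icc 1 X).subset fun N hN => hN.1
  have hsub : {N ∈ Set.Icc 1 X | ∃ k : ℕ, 1 / 3 + (k : ℝ) / R ≤ 2 ∧
      BadN M (2 * m + 1) m X (1 / 3 + (k : ℝ) / R) N} ⊆ ⋃ k ∈ range (2 * R0), Sk k := by
    rintro N ⟨hN, k, hk1, hk2⟩
    rw [Set.mem_iUnion₂]
    refine ⟨k, ?_, hN, hk1, hk2⟩
    have h1 : (k : ℝ) / R ≤ 5 / 3 := by linarith
    rw [div_le_iff₀ hR0] at h1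
    have h2 : (k : ℝ) < 2 * R := by nlinarith
    rw [mem_range]
    have h3 : (k : ℝ) < ((2 * R0 : ℕ) : ℝ) := by push_cast; rw [hRR]; exact h2
    exact_mod_cast h3
  have hone : ∀ k : ℕ, ((Sk k).ncard : ℝ) ≤ c * X := by
    intro k
    by_cases hk : 1 / 3 + (k : ℝ) / R ≤ 2
    · have h1 := hX (1 / 3 + (k : ℝ) / R) (by
        have : 0 ≤ (k : ℝ) / R := by positivity
        linarith) hk
      refine le_trans ?_ h1
      have h2 : Sk k ⊆ {N ∈ Set.Icc 1 X | BadN M (2 * m + 1) m X (1 / 3 + (k : ℝ) / R) N} :=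
        fun N hN => ⟨hN.1, hN.2.2⟩
      exact_mod_cast Set.ncard_le_ncard h2 ((Set.finite_Icc 1 X).subset fun N hN => hN.1)
    · have h1 : Sk k = ∅ := by
        ext N
        simp only [hSk, Set.mem_setOf_eq, Set.mem_empty_iff_false, iff_false]
        rintro ⟨_, h2, _⟩
        exact hk h2
      rw [h1, Set.ncard_empty]
      push_cast
      positivity
  have hbig : ∀ s : Finset ℕ, ((⋃ k ∈ s, Sk k).ncard : ℝ) ≤ s.card * (c * X) := by
    intro s
    induction s using Finset.induction_on with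
    | empty => simp
    | insert a s ha ih =>
      rw [Finset.set_biUnion_insert, card_insert_of_notMem ha]
      have h1 : ((Sk a ∪ ⋃ k ∈ s, Sk k).ncard : ℝ) ≤ (Sk a).ncard + (⋃ k ∈ s, Sk k).ncard := by
        exact_mod_cast Set.ncard_union_le _ _
      refine h1.trans ?_
      push_cast
      have h2 := hone a
      linarith
  have hle : ((({N ∈ Set.Icc 1 X | ∃ k : ℕ, 1 / 3 + (k : ℝ) / R ≤ 2 ∧
      BadN M (2 * m + 1) m X (1 / 3 + (k : ℝ) / R) N}).ncard : ℕ) : ℝ) ≤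
      ((⋃ k ∈ range (2 * R0), Sk k).ncard : ℝ) := by
    exact_mod_cast Set.ncard_le_ncard hsub
      (Set.Finite.biUnion (Finset.finite_toSet _) fun k _ => hfin k)
  refine hle.trans ((hbig _).trans ?_)
  rw [card_range]
  push_cast
  rw [hRR, ← mul_assoc]
  exact mul_le_mul_of_nonneg_right hm (Nat.cast_nonneg X)

end Pool.Agent.CDZ
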