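import Pool.Agent.CDZ.StW

/-!
# CDZ (W8): most numbers have a prime factor `2 mod n` in most windows
-/

set_option autoImplicit false

open Finset Filter Topology

namespace Pool.Agent.CDZ

private theorem Hits_fam (m X : ℕ) (Q : ℕ → Finset ℕ) (D : ℝ)
    (h : ∀ i < 2 * m + 1, (({N | N ∈ Set.Icc 1 X ∧ ∀ p ∈ Q i, ¬ p ∣ N} : Set ℕ).ncard : ℝ) ≤ D) :
    (({N | N ∈ Set.Icc 1 X ∧ ¬ ∃ A ⊆ range (2 * m + 1), A.card = m + 1 ∧
      ∀ i ∈ A, ∃ p ∈ Q i, p ∣ N} : Set ℕ).ncard : ℝ) ≤ 2 * D := by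
  classical
  set S₀ : Set ℕ := {N | N ∈ Set.Icc 1 X ∧ ¬ ∃ A ⊆ range (2 * m + 1), A.card = m + 1 ∧
      ∀ i ∈ A, ∃ p ∈ Q i, p ∣ N} with hS₀
  have hfin : S₀.Finite := (Set.finite_Icc 1 X).subset fun N hN => hN.1
  obtain ⟨S, hS⟩ : ∃ S : Finset ℕ, (S : Set ℕ) = S₀ := ⟨hfin.toFinset, hfin.coe_toFinset⟩
  have hmem : ∀ N ∈ S, N ∈ Set.Icc 1 X ∧ ¬ ∃ A ⊆ range (2 * m + 1), A.card = m + 1 ∧
      ∀ i ∈ A, ∃ p ∈ Q i, p ∣ N := by
    intro N hN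
    have h1 : N ∈ S₀ := by rw [← hS]; exact hN
    exact h1
  rw [← hS, Set.ncard_coe_finset]
  have hD : 0 ≤ D := le_trans (Nat.cast_nonneg _) (h 0 (by omega))
  have h1 : ∀ N ∈ S, ((m : ℝ) + 1) ≤
      ∑ i ∈ range (2 * m + 1), if ∀ p ∈ Q i, ¬ p ∣ N then (1 : ℝ) else 0 := by
    intro N hN
    rw [Finset.sum_boole]
    have h2 : ((range (2 * m + 1)).filter fun i => ∃ p ∈ Q i, p ∣ N).card ≤ m := by
      by_contra hcon
      obtain ⟨A, hA, hAc⟩ := Finset.exists_subset_card_eq (Nat.lt_iff_add_one_le.1 (not_le.1 hcon))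
      apply (hmem N hN).2
      exact ⟨A, hA.trans (filter_subset _ _), hAc, fun i hi => (mem_filter.1 (hA hi)).2⟩
    have h3 := Finset.card_filter_add_card_filter_not (s := range (2 * m + 1))
      (fun i => ∃ p ∈ Q i, p ∣ N)
    have h4 : (range (2 * m + 1)).filter (fun i => ¬ ∃ p ∈ Q i, p ∣ N) =
        (range (2 * m + 1)).filter fun i => ∀ p ∈ Q i, ¬ p ∣ N := by
      apply filter_congr
      intro i _
      push Not
      rfl
    rw [h4, card_range] at h3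
    have h5 : m + 1 ≤ ((range (2 * m + 1)).filter fun i => ∀ p ∈ Q i, ¬ p ∣ N).card := by omega
    exact_mod_cast h5
  have h2 : ((m : ℝ) + 1) * S.card ≤ (2 * m + 1) * D := by
    calc ((m : ℝ) + 1) * S.card = ∑ _N ∈ S, ((m : ℝ) + 1) := by
          rw [sum_const, nsmul_eq_mul, mul_comm]
      _ ≤ ∑ N ∈ S, ∑ i ∈ range (2 * m + 1), (if ∀ p ∈ Q i, ¬ p ∣ N then (1 : ℝ) else 0) :=
          sum_le_sum h1
      _ = ∑ i ∈ range (2 * m + 1), ∑ N ∈ S, (if ∀ p ∈ Q i, ¬ p ∣ N then (1 : ℝ) else 0) :=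
          sum_comm
      _ ≤ ∑ i ∈ range (2 * m + 1), D := by
          apply sum_le_sum
          intro i hi
          refine le_trans ?_ (h i (mem_range.1 hi))
          rw [sum_boole]
          have h3 : ((S.filter fun N => ∀ p ∈ Q i, ¬ p ∣ N : Finset ℕ) : Set ℕ) ⊆
              {N | N ∈ Set.Icc 1 X ∧ ∀ p ∈ Q i, ¬ p ∣ N} := by
            intro N hN
            have h4 := mem_filter.1 (mem_coe.1 hN)
            exact ⟨(hmem N h4.1).1, h4.2⟩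
          have h5 := Set.ncard_le_ncard h3 ((Set.finite_Icc 1 X).subset fun N hN => hN.1)
          rw [Set.ncard_coe_finset] at h5
          exact_mod_cast h5
      _ = _ := by
          rw [sum_const, card_range, nsmul_eq_mul]
          push_cast
          ring
  have h3 : (0 : ℝ) < (m : ℝ) + 1 := by positivity
  have h4 : ((m : ℝ) + 1) * S.card ≤ ((m : ℝ) + 1) * (2 * D) := by
    refine h2.trans ?_
    nlinarith
  exact le_of_mul_le_mul_left h4 h3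

private theorem Hits_miss (h2 : Miss) (X : ℕ) (Q : Finset ℕ) (hQ : ∀ p ∈ Q, p.Prime ∧ p ≤ X)
    (hE : 0 < ∑ p ∈ Q, (1 : ℝ) / p) :
    (({N | N ∈ Set.Icc 1 X ∧ ∀ p ∈ Q, ¬ p ∣ N} : Set ℕ).ncard : ℝ) ≤
      3 * X / ∑ p ∈ Q, (1 : ℝ) / p := by
  have h3 := h2 X Q hQ hE
  have h4 : ({N | N ∈ Set.Icc 1 X ∧ ∀ p ∈ Q, ¬ p ∣ N} : Set ℕ) =
      (((Icc 1 X).filter fun N => ∀ p ∈ Q, ¬ p ∣ N : Finset ℕ) : Set ℕ) := by
    ext N
    rw [mem_coe, mem_filter, mem_Icc]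
    rfl
  rw [h4, Set.ncard_coe_finset]
  exact h3

private theorem Hits_pw {X : ℕ} {a b : ℝ} (hX : 1 ≤ X) (hb : b ≤ 1) {p : ℕ} (hp : p ∈ pw X a b) :
    p.Prime ∧ p ≤ X := by
  unfold pw at hp
  obtain ⟨h1, h2⟩ := mem_filter.1 hp
  refine ⟨h2, (mem_Ioc.1 h1).2.trans ?_⟩
  have h3 : (X : ℝ) ^ b ≤ (X : ℝ) := by
    calc (X : ℝ) ^ b ≤ (X : ℝ) ^ (1 : ℝ) :=
          Real.rpow_le_rpow_of_exponent_le (by exact_mod_cast hX) hb
      _ = X := Real.rpow_one _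
  calc ⌊(X : ℝ) ^ b⌋₊ ≤ ⌊(X : ℝ)⌋₊ := Nat.floor_le_floor h3
    _ = X := Nat.floor_natCast X

private theorem Hits_win (h2 : Miss) {n X K : ℕ} {b : ℝ} (hn : 0 < Nat.totient n) (hK : 0 < K)
    (hX : 1 ≤ X) (hb : b ≤ 1) (Q : Finset ℕ) (hQ : Q = (pw X (b / 2 ^ K) b).filter (Gp n))
    (h : (K : ℝ) / (8 * Nat.totient n) ≤ ∑ p ∈ Q, (1 : ℝ) / p) :
    (({N | N ∈ Set.Icc 1 X ∧ ∀ p ∈ Q, ¬ p ∣ N} : Set ℕ).ncard : ℝ) ≤
      24 * Nat.totient n * X / K := by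
  have hφ : (0 : ℝ) < Nat.totient n := by exact_mod_cast hn
  have hK' : (0 : ℝ) < K := by exact_mod_cast hK
  have h3 : 0 < (K : ℝ) / (8 * Nat.totient n) := by positivity
  have h4 := Hits_miss h2 X Q
    (fun p hp => Hits_pw hX hb (mem_filter.1 (hQ ▸ hp)).1) (h3.trans_le h)
  refine h4.trans ?_
  have h5 : (3 * (X : ℝ)) / (∑ p ∈ Q, (1 : ℝ) / p) ≤ 3 * X / ((K : ℝ) / (8 * Nat.totient n)) :=
    div_le_div_of_nonneg_left (by positivity) h3 h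
  refine h5.trans (le_of_eq ?_)
  field_simp
  ring

theorem thm_Hits (h1 : GWin) (h2 : Miss) : Hits := by
  intro n ε hn hodd hε
  have hφ : 0 < Nat.totient n := Nat.totient_pos.2 (by omega)
  obtain ⟨K, hK⟩ := exists_nat_ge (max 5 (96 * Nat.totient n / ε))
  have hK5 : 5 ≤ K := by exact_mod_cast (le_max_left _ _).trans hK
  have hKε : 96 * Nat.totient n / ε ≤ K := (le_max_right _ _).trans hK
  refine ⟨K, hK5, fun m => ?_⟩
  have hM1 : (1 : ℝ) ≤ ((2 ^ K : ℕ) : ℝ) := by exact_mod_cast Nat.one_le_two_pow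
  have haU0 : ∀ i, 0 < aU (2 ^ K) (2 * m + 1) i := fun i => by unfold aU; positivity
  have hbU0 : ∀ i, 0 < bU (2 ^ K) (2 * m + 1) i := fun i => by unfold bU; positivity
  have haU1 : ∀ i, aU (2 ^ K) (2 * m + 1) i ≤ 1 := fun i => by
    unfold aU
    rw [div_le_one (by positivity)]
    exact one_le_pow₀ hM1
  have hbU1 : ∀ i, bU (2 ^ K) (2 * m + 1) i ≤ 1 := fun i => by
    unfold bU
    rw [div_le_one (by positivity)]
    exact one_le_pow₀ hM1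
  have hevA : ∀ᶠ X : ℕ in atTop, ∀ i ∈ range (2 * m + 1), (K : ℝ) / (8 * Nat.totient n) ≤
      ∑ p ∈ (WA (2 ^ K) (2 * m + 1) X i).filter (Gp n), (1 : ℝ) / p := by
    rw [Filter.eventually_all_finset]
    intro i _
    have h3 := h1 n hn hodd _ K (haU0 i)
    unfold WA
    push_cast
    exact h3
  have hevB : ∀ᶠ X : ℕ in atTop, ∀ i ∈ range (2 * m + 1), (K : ℝ) / (8 * Nat.totient n) ≤
      ∑ p ∈ (WB (2 ^ K) (2 * m + 1) X i).filter (Gp n), (1 : ℝ) / p := by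
    rw [Filter.eventually_all_finset]
    intro i _
    have h3 := h1 n hn hodd _ K (hbU0 i)
    unfold WB
    push_cast
    exact h3
  filter_upwards [hevA, hevB, eventually_ge_atTop 1] with X hXA hXB hX1
  have hA := Hits_fam m X (fun i => (WA (2 ^ K) (2 * m + 1) X i).filter (Gp n))
    (24 * Nat.totient n * X / K)
    (fun i hi => Hits_win h2 hφ (by omega) hX1 (haU1 i) _ (by unfold WA; push_cast; rfl)
      (hXA i (mem_range.2 hi)))
  have hB := Hits_fam m X (fun i => (WB (2 ^ K) (2 * m + 1) X i).filter (Gp n))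
    (24 * Nat.totient n * X / K)
    (fun i hi => Hits_win h2 hφ (by omega) hX1 (hbU1 i) _ (by unfold WB; push_cast; rfl)
      (hXB i (mem_range.2 hi)))
  set FA : Set ℕ := {N | N ∈ Set.Icc 1 X ∧ ¬ ∃ A ⊆ range (2 * m + 1), A.card = m + 1 ∧
      ∀ i ∈ A, ∃ p ∈ (WA (2 ^ K) (2 * m + 1) X i).filter (Gp n), p ∣ N} with hFA
  set FB : Set ℕ := {N | N ∈ Set.Icc 1 X ∧ ¬ ∃ A ⊆ range (2 * m + 1), A.card = m + 1 ∧
      ∀ i ∈ A, ∃ p ∈ (WB (2 ^ K) (2 * m + 1) X i).filter (Gp n), p ∣ N} with hFB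
  have hfA : FA.Finite := (Set.finite_Icc 1 X).subset fun N hN => hN.1
  have hfB : FB.Finite := (Set.finite_Icc 1 X).subset fun N hN => hN.1
  have hsub : {N ∈ Set.Icc 1 X | ¬ ((∃ A ⊆ range (2 * m + 1), A.card = m + 1 ∧
        ∀ i ∈ A, ∃ p ∈ WA (2 ^ K) (2 * m + 1) X i, Gp n p ∧ p ∣ N) ∧
      (∃ B ⊆ range (2 * m + 1), B.card = m + 1 ∧
        ∀ j ∈ B, ∃ q ∈ WB (2 ^ K) (2 * m + 1) X j, Gp n q ∧ q ∣ N))} ⊆ FA ∪ FB := by
    rintro N ⟨hN, hbad⟩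
    by_contra hcon
    rw [Set.mem_union, not_or] at hcon
    obtain ⟨hNA, hNB⟩ := hcon
    apply hbad
    constructor
    · by_contra h
      apply hNA
      refine ⟨hN, ?_⟩
      rintro ⟨A, hA1, hA2, hA3⟩
      apply h
      refine ⟨A, hA1, hA2, fun i hi => ?_⟩
      obtain ⟨p, hp, hpN⟩ := hA3 i hi
      exact ⟨p, (mem_filter.1 hp).1, (mem_filter.1 hp).2, hpN⟩
    · by_contra h
      apply hNB
      refine ⟨hN, ?_⟩
      rintro ⟨A, hA1, hA2, hA3⟩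
      apply h
      refine ⟨A, hA1, hA2, fun i hi => ?_⟩
      obtain ⟨p, hp, hpN⟩ := hA3 i hi
      exact ⟨p, (mem_filter.1 hp).1, (mem_filter.1 hp).2, hpN⟩
  have hle := (Set.ncard_le_ncard hsub (hfA.union hfB)).trans (Set.ncard_union_le FA FB)
  have hle3 : ((({N ∈ Set.Icc 1 X | ¬ ((∃ A ⊆ range (2 * m + 1), A.card = m + 1 ∧
        ∀ i ∈ A, ∃ p ∈ WA (2 ^ K) (2 * m + 1) X i, Gp n p ∧ p ∣ N) ∧
      (∃ B ⊆ range (2 * m + 1), B.card = m + 1 ∧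
        ∀ j ∈ B, ∃ q ∈ WB (2 ^ K) (2 * m + 1) X j, Gp n q ∧ q ∣ N))}).ncard : ℕ) : ℝ) ≤
      (FA.ncard : ℝ) + FB.ncard := by exact_mod_cast hle
  refine hle3.trans ?_
  have hK' : (0 : ℝ) < K := by exact_mod_cast (by omega : 0 < K)
  have hX' : (0 : ℝ) < X := by exact_mod_cast hX1
  have h5 : 96 * (Nat.totient n : ℝ) * X / K ≤ ε * X := by
    rw [div_le_iff₀ hε] at hKε
    rw [div_le_iff₀ hK']
    nlinarith
  have h6 : 2 * (24 * (Nat.totient n : ℝ) * X / K) + 2 * (24 * (Nat.totient n : ℝ) * X / K) =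
      96 * (Nat.totient n : ℝ) * X / K := by ring
  linarith

end Pool.Agent.CDZ
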