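import Pool.Agent.CDZ.StK

/-!
# CDZ, module Hold (K3): bilinear sums and energies
-/

set_option autoImplicit false

open Finset Filter Topology

namespace Pool.Agent.CDZ

section Hold

variable {v : ℕ} [NeZero v]

private theorem Hold_norm (x : ZMod v) : ‖ZMod.stdAddChar x‖ = 1 := by
  rw [ZMod.stdAddChar_apply]
  exact Circle.norm_coe _

private theorem Hold_sum {l : ℕ} (x : Fin l → ZMod v) :
    ∏ i, ZMod.stdAddChar (x i) = ZMod.stdAddChar (∑ i, x i) := by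
  induction (univ : Finset (Fin l)) using Finset.induction_on with
  | empty => rw [prod_empty, sum_empty, AddChar.map_zero_eq_one]
  | insert a s ha ih => rw [prod_insert ha, sum_insert ha, AddChar.map_add_eq_mul, ih]

/-- the large sieve type inequality with coefficients of absolute value at most one -/
private theorem Hold_orth {ι : Type} (s : Finset ι) (c : ι → ℂ) (hc : ∀ i ∈ s, ‖c i‖ ≤ 1)
    (u : ι → ZMod v) (g : ZMod v) (hg : IsUnit g) :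
    ∑ lam : ZMod v, ‖∑ i ∈ s, c i * ZMod.stdAddChar (g * u i * lam)‖ ^ 2 ≤
      v * (((s ×ˢ s).filter fun q => u q.1 = u q.2).card : ℝ) := by
  classical
  have h1 : ((∑ lam : ZMod v, ‖∑ i ∈ s, c i * ZMod.stdAddChar (g * u i * lam)‖ ^ 2 : ℝ) : ℂ) =
      ∑ q ∈ s ×ˢ s, c q.1 * (starRingEnd ℂ) (c q.2) *
        ∑ lam : ZMod v, ZMod.stdAddChar (lam * (g * (u q.1 - u q.2))) := by
    push_cast
    have h2 : ∀ lam : ZMod v, ((‖∑ i ∈ s, c i * ZMod.stdAddChar (g * u i * lam)‖ : ℂ)) ^ 2 =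
        ∑ q ∈ s ×ˢ s, c q.1 * (starRingEnd ℂ) (c q.2) *
          ZMod.stdAddChar (lam * (g * (u q.1 - u q.2))) := by
      intro lam
      rw [← Complex.conj_mul', mul_comm, map_sum, sum_mul_sum, sum_product]
      refine sum_congr rfl fun i _ => sum_congr rfl fun j _ => ?_
      rw [map_mul (starRingEnd ℂ), ← AddChar.map_neg_eq_conj]
      have h3 : (lam * (g * (u i - u j)) : ZMod v) = g * u i * lam + -(g * u j * lam) := by ring
      rw [h3, AddChar.map_add_eq_mul]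
      ring
    rw [sum_congr rfl fun lam _ => h2 lam, sum_comm]
    refine sum_congr rfl fun q _ => ?_
    rw [mul_sum]
  have h4 : ∀ q : ι × ι, ∑ lam : ZMod v, ZMod.stdAddChar (lam * (g * (u q.1 - u q.2))) =
      if u q.1 = u q.2 then (v : ℂ) else 0 := by
    intro q
    rw [AddChar.sum_mulShift _ (ZMod.isPrimitive_stdAddChar v)]
    by_cases h : u q.1 = u q.2
    · rw [if_pos (by rw [h, sub_self, mul_zero]), if_pos h, ZMod.card]
    · rw [if_neg, if_neg h]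
      · exact Nat.cast_zero
      · intro h5
        rw [hg.mul_right_eq_zero, sub_eq_zero] at h5
        exact h h5
  have h5 : (0 : ℝ) ≤ ∑ lam : ZMod v, ‖∑ i ∈ s, c i * ZMod.stdAddChar (g * u i * lam)‖ ^ 2 :=
    sum_nonneg fun _ _ => by positivity
  have h6 : (∑ lam : ZMod v, ‖∑ i ∈ s, c i * ZMod.stdAddChar (g * u i * lam)‖ ^ 2 : ℝ) =
      ‖((∑ lam : ZMod v, ‖∑ i ∈ s, c i * ZMod.stdAddChar (g * u i * lam)‖ ^ 2 : ℝ) : ℂ)‖ := by
    rw [Complex.norm_real, Real.norm_of_nonneg h5]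
  rw [h6, h1]
  refine (norm_sum_le _ _).trans ?_
  have h7 : (v : ℝ) * (((s ×ˢ s).filter fun q => u q.1 = u q.2).card : ℝ) =
      ∑ q ∈ s ×ˢ s, if u q.1 = u q.2 then (v : ℝ) else 0 := by
    rw [← sum_filter, sum_const, nsmul_eq_mul, mul_comm]
  rw [h7]
  refine sum_le_sum fun q hq => ?_
  rw [mem_product] at hq
  rw [h4, norm_mul, norm_mul, RCLike.norm_conj]
  have h8 : ‖c q.1‖ * ‖c q.2‖ ≤ 1 :=
    mul_le_one₀ (hc _ hq.1) (norm_nonneg _) (hc _ hq.2)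
  split_ifs
  · rw [Complex.norm_natCast]
    have h9 : (0 : ℝ) ≤ v := Nat.cast_nonneg v
    calc ‖c q.1‖ * ‖c q.2‖ * (v : ℝ) ≤ 1 * v := mul_le_mul_of_nonneg_right h8 h9
      _ = v := one_mul _
  · rw [norm_zero, mul_zero]

/-- the energy as a sum of squares -/
private theorem Hold_en (l : ℕ) (B : Finset (ZMod v)) :
    (En v l B : ℝ) = ∑ lam : ZMod v,
      ((((Fintype.piFinset fun _ : Fin l => B).filter fun x => ∑ i, x i = lam).card : ℝ)) ^ 2 := by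
  classical
  have h1 : En v l B = ∑ x ∈ Fintype.piFinset (fun _ : Fin l => B),
      ((Fintype.piFinset fun _ : Fin l => B).filter fun y => ∑ i, y i = ∑ i, x i).card := by
    unfold En
    rw [card_filter, sum_product]
    refine sum_congr rfl fun x _ => ?_
    rw [card_filter]
    refine sum_congr rfl fun y _ => ?_
    exact if_congr eq_comm rfl rfl
  rw [h1]
  push_cast
  rw [← sum_fiberwise (Fintype.piFinset (fun _ : Fin l => B)) (fun x => ∑ i, x i)]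
  refine sum_congr rfl fun lam _ => ?_
  have h2 : ∀ x ∈ (Fintype.piFinset (fun _ : Fin l => B)).filter (fun x => ∑ i, x i = lam),
      (((Fintype.piFinset fun _ : Fin l => B).filter fun y => ∑ i, y i = ∑ i, x i).card : ℝ) =
      (((Fintype.piFinset fun _ : Fin l => B).filter fun y => ∑ i, y i = lam).card : ℝ) := by
    intro x hx
    rw [(mem_filter.mp hx).2]
  rw [sum_congr rfl h2, sum_const, nsmul_eq_mul, sq]

end Hold

theorem thm_Hold : Hold := by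
  classical
  intro v _ l1 l2 hl1 hl2 A B g hg
  obtain ⟨k1, rfl⟩ : ∃ k1, l1 = k1 + 1 := ⟨l1 - 1, by omega⟩
  obtain ⟨k2, rfl⟩ : ∃ k2, l2 = k2 + 1 := ⟨l2 - 1, by omega⟩
  obtain ⟨Fa, hFa⟩ : ∃ Fa : ZMod v → ℂ, Fa = fun a => ∑ b ∈ B, ZMod.stdAddChar (g * a * b) :=
    ⟨_, rfl⟩
  obtain ⟨PB, hPB⟩ : ∃ PB, PB = Fintype.piFinset fun _ : Fin (k2 + 1) => B := ⟨_, rfl⟩
  obtain ⟨PA, hPA⟩ : ∃ PA, PA = Fintype.piFinset fun _ : Fin (k1 + 1) => A := ⟨_, rfl⟩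
  -- phases
  have hth : ∀ a : ZMod v, ∃ t : ℂ, ‖t‖ ≤ 1 ∧ ((‖Fa a‖ ^ (k2 + 1) : ℝ) : ℂ) = t * Fa a ^ (k2 + 1) := by
    intro a
    by_cases h0 : Fa a = 0
    · refine ⟨0, by rw [norm_zero]; exact zero_le_one, ?_⟩
      rw [h0, norm_zero, zero_pow (Nat.succ_ne_zero k2), zero_mul, Complex.ofReal_zero]
    · have hz : Fa a ^ (k2 + 1) ≠ 0 := pow_ne_zero _ h0
      refine ⟨((‖Fa a‖ ^ (k2 + 1) : ℝ) : ℂ) / Fa a ^ (k2 + 1), ?_, (div_mul_cancel₀ _ hz).symm⟩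
      rw [norm_div, Complex.norm_real, norm_pow, norm_pow, norm_norm, div_self]
      exact pow_ne_zero _ (norm_ne_zero_iff.mpr h0)
  choose th hth1 hth2 using hth
  obtain ⟨G, hG⟩ : ∃ G : ZMod v → ℂ, G = fun lam =>
      ∑ a ∈ A, th a * ZMod.stdAddChar (g * a * lam) := ⟨_, rfl⟩
  -- step 1
  have s1 : ‖∑ a ∈ A, ∑ b ∈ B, ZMod.stdAddChar (g * a * b)‖ ^ (k2 + 1) ≤
      (A.card : ℝ) ^ k2 * ∑ a ∈ A, ‖Fa a‖ ^ (k2 + 1) := by
    have h1 : ‖∑ a ∈ A, ∑ b ∈ B, ZMod.stdAddChar (g * a * b)‖ ≤ ∑ a ∈ A, ‖Fa a‖ := by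
      rw [hFa]
      exact norm_sum_le _ _
    exact (pow_le_pow_left₀ (norm_nonneg _) h1 _).trans
      (pow_sum_le_card_mul_sum_pow (fun i _ => norm_nonneg _) k2)
  -- step 2
  have s2 : ∑ a ∈ A, ‖Fa a‖ ^ (k2 + 1) ≤ ∑ x ∈ PB, ‖G (∑ i, x i)‖ := by
    have h1 : ((∑ a ∈ A, ‖Fa a‖ ^ (k2 + 1) : ℝ) : ℂ) = ∑ x ∈ PB, G (∑ i, x i) := by
      rw [Complex.ofReal_sum, sum_congr rfl fun a _ => hth2 a]
      have h2 : ∀ a : ZMod v, Fa a ^ (k2 + 1) = ∑ x ∈ PB, ZMod.stdAddChar (g * a * ∑ i, x i) := by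
        intro a
        rw [hFa, hPB]
        simp only
        rw [sum_pow']
        refine sum_congr rfl fun x _ => ?_
        rw [Hold_sum, mul_sum]
      rw [sum_congr rfl fun a _ => by rw [h2 a, mul_sum], sum_comm]
      refine sum_congr rfl fun x _ => ?_
      rw [hG]
    have h3 : (0 : ℝ) ≤ ∑ a ∈ A, ‖Fa a‖ ^ (k2 + 1) := sum_nonneg fun _ _ => by positivity
    calc ∑ a ∈ A, ‖Fa a‖ ^ (k2 + 1) = ‖((∑ a ∈ A, ‖Fa a‖ ^ (k2 + 1) : ℝ) : ℂ)‖ := by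
          rw [Complex.norm_real, Real.norm_of_nonneg h3]
      _ ≤ _ := by
          rw [h1]
          exact norm_sum_le _ _
  -- step 3
  have s3 : (∑ x ∈ PB, ‖G (∑ i, x i)‖) ^ (k1 + 1) ≤
      ((B.card : ℝ) ^ (k2 + 1)) ^ k1 * ∑ x ∈ PB, ‖G (∑ i, x i)‖ ^ (k1 + 1) := by
    have h1 := pow_sum_le_card_mul_sum_pow (s := PB) (f := fun x => ‖G (∑ i, x i)‖)
      (fun i _ => norm_nonneg _) k1
    have h2 : (PB.card : ℝ) = (B.card : ℝ) ^ (k2 + 1) := by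
      rw [hPB, Fintype.card_piFinset, prod_const, card_univ, Fintype.card_fin]
      push_cast
      rfl
    rwa [h2] at h1
  -- step 4
  have s4 : (∑ x ∈ PB, ‖G (∑ i, x i)‖ ^ (k1 + 1)) ^ 2 ≤
      En v (k2 + 1) B * ∑ lam : ZMod v, ‖G lam ^ (k1 + 1)‖ ^ 2 := by
    have h1 : ∑ x ∈ PB, ‖G (∑ i, x i)‖ ^ (k1 + 1) = ∑ lam : ZMod v,
        ((PB.filter fun x => ∑ i, x i = lam).card : ℝ) * ‖G lam ^ (k1 + 1)‖ := by
      rw [← sum_fiberwise PB (fun x => ∑ i, x i)]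
      refine sum_congr rfl fun lam _ => ?_
      have h2 : ∀ x ∈ PB.filter (fun x => ∑ i, x i = lam),
          ‖G (∑ i, x i)‖ ^ (k1 + 1) = ‖G lam ^ (k1 + 1)‖ := by
        intro x hx
        rw [(mem_filter.mp hx).2, norm_pow]
      rw [sum_congr rfl h2, sum_const, nsmul_eq_mul]
    rw [h1, Hold_en, hPB]
    exact sum_mul_sq_le_sq_mul_sq _ _ _
  -- step 5
  have s5 : ∑ lam : ZMod v, ‖G lam ^ (k1 + 1)‖ ^ 2 ≤ v * En v (k1 + 1) A := by
    have h1 : ∀ lam : ZMod v, G lam ^ (k1 + 1) = ∑ x ∈ PA, (∏ i, th (x i)) *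
        ZMod.stdAddChar (g * (∑ i, x i) * lam) := by
      intro lam
      rw [hG, hPA]
      simp only
      rw [sum_pow']
      refine sum_congr rfl fun x _ => ?_
      rw [prod_mul_distrib, Hold_sum]
      congr 2
      rw [mul_sum, sum_mul]
    have h2 := Hold_orth PA (fun x => ∏ i, th (x i)) (fun x _ => by
      rw [norm_prod]
      exact prod_le_one (fun i _ => norm_nonneg _) fun i _ => hth1 _)
      (fun x => ∑ i, x i) g hg
    rw [sum_congr rfl fun lam _ => by rw [h1 lam]]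
    refine h2.trans (le_of_eq ?_)
    rw [hPA]
    rfl
  -- assembly
  obtain ⟨N, hN⟩ : ∃ N, N = ‖∑ a ∈ A, ∑ b ∈ B, ZMod.stdAddChar (g * a * b)‖ := ⟨_, rfl⟩
  rw [← hN] at s1 ⊢
  have hN0 : 0 ≤ N := by rw [hN]; exact norm_nonneg _
  have hA0 : (0 : ℝ) ≤ A.card := Nat.cast_nonneg _
  have hB0 : (0 : ℝ) ≤ B.card := Nat.cast_nonneg _
  have hS2 : (0 : ℝ) ≤ ∑ x ∈ PB, ‖G (∑ i, x i)‖ := sum_nonneg fun _ _ => norm_nonneg _
  have hS3 : (0 : ℝ) ≤ ∑ x ∈ PB, ‖G (∑ i, x i)‖ ^ (k1 + 1) := sum_nonneg fun _ _ => by positivity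
  have e1 : N ^ (2 * (k1 + 1) * (k2 + 1)) = (N ^ (k2 + 1)) ^ (2 * (k1 + 1)) := by
    rw [← pow_mul]
    congr 1
    ring
  have e2 : 2 * (k1 + 1) * (k2 + 1) - 2 * (k1 + 1) = k2 * (2 * (k1 + 1)) := by
    have : 2 * (k1 + 1) * (k2 + 1) = k2 * (2 * (k1 + 1)) + 2 * (k1 + 1) := by ring
    omega
  have e3 : 2 * (k1 + 1) * (k2 + 1) - 2 * (k2 + 1) = (k2 + 1) * k1 * 2 := by
    have : 2 * (k1 + 1) * (k2 + 1) = (k2 + 1) * k1 * 2 + 2 * (k2 + 1) := by ring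
    omega
  rw [e1, e2, e3]
  have t1 : N ^ (k2 + 1) ≤ (A.card : ℝ) ^ k2 * ∑ x ∈ PB, ‖G (∑ i, x i)‖ :=
    s1.trans (mul_le_mul_of_nonneg_left s2 (by positivity))
  have t2 : (∑ x ∈ PB, ‖G (∑ i, x i)‖) ^ (2 * (k1 + 1)) ≤
      ((B.card : ℝ) ^ ((k2 + 1) * k1 * 2)) * (v * En v (k1 + 1) A * En v (k2 + 1) B) := by
    calc (∑ x ∈ PB, ‖G (∑ i, x i)‖) ^ (2 * (k1 + 1)) =
        ((∑ x ∈ PB, ‖G (∑ i, x i)‖) ^ (k1 + 1)) ^ 2 := by
          rw [← pow_mul]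
          congr 1
          ring
      _ ≤ (((B.card : ℝ) ^ (k2 + 1)) ^ k1 * ∑ x ∈ PB, ‖G (∑ i, x i)‖ ^ (k1 + 1)) ^ 2 :=
          pow_le_pow_left₀ (by positivity) s3 2
      _ = (B.card : ℝ) ^ ((k2 + 1) * k1 * 2) * (∑ x ∈ PB, ‖G (∑ i, x i)‖ ^ (k1 + 1)) ^ 2 := by
          rw [mul_pow, ← pow_mul, ← pow_mul, mul_assoc (k2 + 1) k1 2]
      _ ≤ (B.card : ℝ) ^ ((k2 + 1) * k1 * 2) * (v * En v (k1 + 1) A * En v (k2 + 1) B) := by
          refine mul_le_mul_of_nonneg_left ?_ (by positivity)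
          refine s4.trans ?_
          rw [mul_comm (v * (En v (k1 + 1) A : ℝ))]
          exact mul_le_mul_of_nonneg_left s5 (Nat.cast_nonneg _)
  calc (N ^ (k2 + 1)) ^ (2 * (k1 + 1)) ≤
      ((A.card : ℝ) ^ k2 * ∑ x ∈ PB, ‖G (∑ i, x i)‖) ^ (2 * (k1 + 1)) :=
        pow_le_pow_left₀ (by positivity) t1 _
    _ = (A.card : ℝ) ^ (k2 * (2 * (k1 + 1))) * (∑ x ∈ PB, ‖G (∑ i, x i)‖) ^ (2 * (k1 + 1)) := by
        rw [mul_pow, ← pow_mul]
    _ ≤ (A.card : ℝ) ^ (k2 * (2 * (k1 + 1))) *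
        (((B.card : ℝ) ^ ((k2 + 1) * k1 * 2)) * (v * En v (k1 + 1) A * En v (k2 + 1) B)) :=
        mul_le_mul_of_nonneg_left t2 (by positivity)
    _ = _ := by ring

end Pool.Agent.CDZ
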