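import Pool.Agent.CDZ.StK

/-!
# CDZ, module KarH: bilinear sums with reciprocals, general coefficient
-/

set_option autoImplicit false

open Finset Filter Topology

namespace Pool.Agent.CDZ

private lemma KarH_char (v v' e h' : ℕ) [NeZero v] [NeZero v'] (he : v = e * v')
    (hd : v' ∣ v) (h : ZMod v) (hh : h.val = e * h') (z : ZMod v) :
    (ZMod.stdAddChar (h * z) : ℂ) =
      ZMod.stdAddChar ((h' : ZMod v') * ZMod.castHom hd (ZMod v') z) := by
  have hv' : (v' : ℂ) ≠ 0 := Nat.cast_ne_zero.2 (NeZero.ne v')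
  have he0 : (e : ℂ) ≠ 0 := by
    rintro h0
    have : e = 0 := by exact_mod_cast h0
    exact NeZero.ne v (by rw [he, this, zero_mul])
  have e1 : h * z = (((e * h' * z.val : ℕ) : ℤ) : ZMod v) := by
    rw [Int.cast_natCast, Nat.cast_mul, ← hh, ZMod.natCast_zmod_val, ZMod.natCast_zmod_val]
  have e2 : (h' : ZMod v') * ZMod.castHom hd (ZMod v') z =
      (((h' * z.val : ℕ) : ℤ) : ZMod v') := by
    have : ZMod.castHom hd (ZMod v') z = ((z.val : ℕ) : ZMod v') := by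
      conv_lhs => rw [← ZMod.natCast_zmod_val z]
      rw [map_natCast]
    rw [this, Int.cast_natCast, Nat.cast_mul]
  rw [e1, e2, ZMod.stdAddChar_coe, ZMod.stdAddChar_coe]
  have hvc : (v : ℂ) = (e : ℂ) * (v' : ℂ) := by
    have := congrArg (fun n : ℕ => (n : ℂ)) he
    push_cast at this
    exact this
  congr 1
  rw [hvc]
  push_cast
  field_simp

private lemma KarH_inv (v v' : ℕ) (hd : v' ∣ v) (x : ℕ) (hx : Nat.Coprime x v) :
    ZMod.castHom hd (ZMod v') ((x : ZMod v))⁻¹ = ((x : ZMod v'))⁻¹ := by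
  have h1 : (x : ZMod v) * ((x : ZMod v))⁻¹ = 1 := ZMod.coe_mul_inv_eq_one x hx
  have h2 : (x : ZMod v') * ((x : ZMod v'))⁻¹ = 1 :=
    ZMod.coe_mul_inv_eq_one x (Nat.Coprime.coprime_dvd_right hd hx)
  have h3 := congrArg (ZMod.castHom hd (ZMod v')) h1
  rw [map_mul, map_natCast, map_one] at h3
  calc ZMod.castHom hd (ZMod v') ((x : ZMod v))⁻¹ =
      ((x : ZMod v') * ((x : ZMod v'))⁻¹) * ZMod.castHom hd (ZMod v') ((x : ZMod v))⁻¹ := by
        rw [h2, one_mul]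
    _ = ((x : ZMod v'))⁻¹ * ((x : ZMod v') * ZMod.castHom hd (ZMod v') ((x : ZMod v))⁻¹) := by ring
    _ = ((x : ZMod v'))⁻¹ := by rw [h3, mul_one]

/-- (K5) Bilinear sums with reciprocals, general coefficient. -/
theorem thm_KarH (h : KarW) : KarH := by
  intro L0 ε hε
  obtain ⟨C, hC1, hC⟩ := h L0 ε hε
  refine ⟨C, hC1, ?_⟩
  intro v _ l1 l2 E1 E2 hl1 hl1' hl2 hl2' hE1 hE2 k hk hv1 hv2 I1 I2 hI1 hI2 g hg
  have hvpos : 0 < v := Nat.pos_of_ne_zero (NeZero.ne v)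
  have hepos : 0 < Nat.gcd k.val v := Nat.gcd_pos_of_pos_right _ hvpos
  obtain ⟨h', v', hcop, hh', hv'⟩ := Nat.exists_coprime k.val v
  set e : ℕ := Nat.gcd k.val v with he
  have hv'e : v = e * v' := by rw [hv']; ring
  have hh'e : k.val = e * h' := by rw [hh']; ring
  have hv'pos : 0 < v' := by
    rcases Nat.eq_zero_or_pos v' with h0 | h0
    · rw [h0, mul_zero] at hv'e; omega
    · exact h0
  have : NeZero v' := ⟨by omega⟩
  have hd : v' ∣ v := ⟨e, by rw [hv'e]; ring⟩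
  have hlt1 : l1 * E1 ^ (2 * l1 - 1) < v' := by
    have : l1 * E1 ^ (2 * l1 - 1) * e < v' * e := by
      calc l1 * E1 ^ (2 * l1 - 1) * e < v := hv1
        _ = v' * e := by rw [hv'e]; ring
    exact lt_of_mul_lt_mul_right this (Nat.zero_le _)
  have hlt2 : l2 * E2 ^ (2 * l2 - 1) < v' := by
    have : l2 * E2 ^ (2 * l2 - 1) * e < v' * e := by
      calc l2 * E2 ^ (2 * l2 - 1) * e < v := hv2
        _ = v' * e := by rw [hv'e]; ring
    exact lt_of_mul_lt_mul_right this (Nat.zero_le _)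
  have hunit : IsUnit ((h' : ZMod v') * ZMod.castHom hd (ZMod v') g) := by
    apply IsUnit.mul
    · exact (ZMod.isUnit_iff_coprime h' v').2 hcop
    · exact hg.map _
  have hsum : ∑ x ∈ I1, ∑ y ∈ I2,
      (ZMod.stdAddChar (k * (g * ((x : ZMod v))⁻¹ * ((y : ZMod v))⁻¹)) : ℂ) =
      ∑ x ∈ I1, ∑ y ∈ I2, (ZMod.stdAddChar (((h' : ZMod v') * ZMod.castHom hd (ZMod v') g) *
        ((x : ZMod v'))⁻¹ * ((y : ZMod v'))⁻¹) : ℂ) := by
    refine Finset.sum_congr rfl (fun x hx => Finset.sum_congr rfl (fun y hy => ?_))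
    rw [KarH_char v v' e h' hv'e hd k hh'e]
    have e3 : ZMod.castHom hd (ZMod v') (g * ((x : ZMod v))⁻¹ * ((y : ZMod v))⁻¹) =
        ZMod.castHom hd (ZMod v') g * ((x : ZMod v'))⁻¹ * ((y : ZMod v'))⁻¹ := by
      rw [map_mul, map_mul, KarH_inv v v' hd x (hI1 x hx).2.2, KarH_inv v v' hd y (hI2 y hy).2.2]
    rw [e3, ← mul_assoc, ← mul_assoc]
  rw [hsum]
  refine le_trans (hC v' l1 l2 E1 E2 hl1 hl1' hl2 hl2' hE1 hE2 hlt1 hlt2 I1 I2
    (fun x hx => ⟨(hI1 x hx).1, (hI1 x hx).2.1, Nat.Coprime.coprime_dvd_right hd (hI1 x hx).2.2⟩)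
    (fun y hy => ⟨(hI2 y hy).1, (hI2 y hy).2.1, Nat.Coprime.coprime_dvd_right hd (hI2 y hy).2.2⟩)
    _ hunit) ?_
  have hle : (v' : ℝ) ≤ v := by exact_mod_cast Nat.le_of_dvd hvpos hd
  have hCn : 0 ≤ C := le_trans zero_le_one hC1
  gcongr

end Pool.Agent.CDZ
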