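import Pool.Agent.CDZ.StK

/-!
# CDZ, module KarW: bilinear sums with reciprocals modulo `v`
-/

set_option autoImplicit false

open Finset Filter Topology

namespace Pool.Agent.CDZ

private lemma KarW_inj (v E : ℕ) (hE : E < v) (x y : ℕ) (hx : x ≤ E) (hy : y ≤ E)
    (hxv : Nat.Coprime x v) (hyv : Nat.Coprime y v)
    (h : ((x : ZMod v))⁻¹ = ((y : ZMod v))⁻¹) : x = y := by
  have h1 : (x : ZMod v) * ((x : ZMod v))⁻¹ = 1 := ZMod.coe_mul_inv_eq_one x hxv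
  have h2 : (y : ZMod v) * ((y : ZMod v))⁻¹ = 1 := ZMod.coe_mul_inv_eq_one y hyv
  have h3 : (x : ZMod v) = (y : ZMod v) := by
    calc (x : ZMod v) = (x : ZMod v) * ((y : ZMod v) * ((y : ZMod v))⁻¹) := by rw [h2, mul_one]
      _ = (y : ZMod v) * ((x : ZMod v) * ((x : ZMod v))⁻¹) := by rw [← h]; ring
      _ = y := by rw [h1, mul_one]
  rw [ZMod.natCast_eq_natCast_iff'] at h3
  rwa [Nat.mod_eq_of_lt (by omega), Nat.mod_eq_of_lt (by omega)] at h3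

private lemma KarW_lt (v l E : ℕ) (hl : 1 ≤ l) (hE1 : 1 ≤ E) (hE : l * E ^ (2 * l - 1) < v) :
    E < v := by
  have h1 : E ≤ E ^ (2 * l - 1) := Nat.le_self_pow (by omega) E
  have h2 : E ^ (2 * l - 1) ≤ l * E ^ (2 * l - 1) := Nat.le_mul_of_pos_left _ (by omega)
  omega

private lemma KarW_en (h1 : RecEq) (v l E : ℕ) (hl : 1 ≤ l) (hE : l * E ^ (2 * l - 1) < v)
    (I : Finset ℕ) (hI : ∀ x ∈ I, 1 ≤ x ∧ x ≤ E ∧ Nat.Coprime x v) :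
    En v l (I.image fun x : ℕ => ((x : ZMod v))⁻¹) ≤
      (((Fintype.piFinset fun _ : Fin l => Icc 1 E) ×ˢ
      (Fintype.piFinset fun _ : Fin l => Icc 1 E)).filter
      fun q => ∑ i, (1 : ℚ) / (q.1 i : ℚ) = ∑ i, (1 : ℚ) / (q.2 i : ℚ)).card := by
  classical
  have hpre : ∀ a : ZMod v, ∃ x : ℕ, a ∈ (I.image fun x : ℕ => ((x : ZMod v))⁻¹) →
      x ∈ I ∧ ((x : ZMod v))⁻¹ = a := by
    intro a
    by_cases ha : a ∈ (I.image fun x : ℕ => ((x : ZMod v))⁻¹)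
    · obtain ⟨x, hx, hxa⟩ := Finset.mem_image.1 ha
      exact ⟨x, fun _ => ⟨hx, hxa⟩⟩
    · exact ⟨0, fun h => absurd h ha⟩
  choose pre hpre using hpre
  unfold En
  refine Finset.card_le_card_of_injOn (fun q => (fun i => pre (q.1 i), fun i => pre (q.2 i))) ?_ ?_
  · intro q hq
    have hq' := Finset.mem_coe.1 hq
    rw [Finset.mem_filter, Finset.mem_product, Fintype.mem_piFinset, Fintype.mem_piFinset] at hq'
    obtain ⟨⟨hq1, hq2⟩, hq3⟩ := hq'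
    rw [Finset.mem_coe, Finset.mem_filter, Finset.mem_product, Fintype.mem_piFinset,
      Fintype.mem_piFinset]
    refine ⟨⟨fun i => ?_, fun i => ?_⟩, ?_⟩
    · have h := hI _ (hpre _ (hq1 i)).1
      exact Finset.mem_Icc.2 ⟨h.1, h.2.1⟩
    · have h := hI _ (hpre _ (hq2 i)).1
      exact Finset.mem_Icc.2 ⟨h.1, h.2.1⟩
    · apply h1 v E l hl hE
      · exact fun i => hI _ (hpre _ (hq1 i)).1
      · exact fun i => hI _ (hpre _ (hq2 i)).1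
      · have e1 : ∀ i, ((pre (q.1 i) : ZMod v))⁻¹ = q.1 i := fun i => (hpre _ (hq1 i)).2
        have e2 : ∀ i, ((pre (q.2 i) : ZMod v))⁻¹ = q.2 i := fun i => (hpre _ (hq2 i)).2
        simp only [e1, e2]
        exact hq3
  · intro q hq q' hq' hqq
    have hqa := Finset.mem_coe.1 hq
    have hqb := Finset.mem_coe.1 hq'
    rw [Finset.mem_filter, Finset.mem_product, Fintype.mem_piFinset, Fintype.mem_piFinset] at hqa hqb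
    have e1 := congrArg Prod.fst hqq
    have e2 := congrArg Prod.snd hqq
    apply Prod.ext
    · funext i
      have e := congrFun e1 i
      simp only at e
      rw [← (hpre _ (hqa.1.1 i)).2, ← (hpre _ (hqb.1.1 i)).2, e]
    · funext i
      have e := congrFun e2 i
      simp only at e
      rw [← (hpre _ (hqa.1.2 i)).2, ← (hpre _ (hqb.1.2 i)).2, e]

private lemma KarW_card (v l E : ℕ) (I : Finset ℕ)
    (hI : ∀ x ∈ I, 1 ≤ x ∧ x ≤ E ∧ Nat.Coprime x v) :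
    (I.image fun x : ℕ => ((x : ZMod v))⁻¹).card ≤ E := by
  calc (I.image fun x : ℕ => ((x : ZMod v))⁻¹).card ≤ I.card := Finset.card_image_le
    _ ≤ (Icc 1 E).card := Finset.card_le_card (fun x hx => Finset.mem_Icc.2 ⟨(hI x hx).1, (hI x hx).2.1⟩)
    _ = E := by simp

/-- (K4) Bilinear sums with reciprocals. -/
theorem thm_KarW (h1 : RecEq) (h2 : RecCount) (h3 : Hold) : KarW := by
  intro L0 ε hε
  have hC : ∀ l : ℕ, ∃ C : ℝ, 1 ≤ C ∧ (1 ≤ l → ∀ D : ℕ, 1 ≤ D →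
    ((((Fintype.piFinset fun _ : Fin l => Icc 1 D) ×ˢ
      (Fintype.piFinset fun _ : Fin l => Icc 1 D)).filter
      fun q => ∑ i, (1 : ℚ) / (q.1 i : ℚ) = ∑ i, (1 : ℚ) / (q.2 i : ℚ)).card : ℝ) ≤
        C * (D : ℝ) ^ ((l : ℝ) + ε)) := by
    intro l
    by_cases hl : 1 ≤ l
    · obtain ⟨C, hC1, hC2⟩ := h2 l hl ε hε
      exact ⟨C, hC1, fun _ => hC2⟩
    · exact ⟨1, le_refl 1, fun h => absurd h hl⟩
  choose C hC1 hC2 using hC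
  set C1 : ℝ := ∑ l ∈ range (L0 + 1), C l with hC1def
  have hCle : ∀ l, l ≤ L0 → C l ≤ C1 := by
    intro l hl
    exact Finset.single_le_sum (f := C) (fun i _ => le_trans zero_le_one (hC1 i))
      (Finset.mem_range.2 (by omega))
  have hC11 : 1 ≤ C1 := le_trans (hC1 0) (hCle 0 (Nat.zero_le _))
  refine ⟨C1 ^ 2, one_le_pow₀ hC11, ?_⟩
  intro v _ l1 l2 E1 E2 hl1 hl1' hl2 hl2' hE1 hE2 hv1 hv2 I1 I2 hI1 hI2 g hg
  have hlt1 := KarW_lt v l1 E1 hl1 hE1 hv1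
  have hlt2 := KarW_lt v l2 E2 hl2 hE2 hv2
  set A : Finset (ZMod v) := I1.image fun x : ℕ => ((x : ZMod v))⁻¹ with hA
  set B : Finset (ZMod v) := I2.image fun x : ℕ => ((x : ZMod v))⁻¹ with hB
  have hsum : ∑ x ∈ I1, ∑ y ∈ I2, ZMod.stdAddChar (g * ((x : ZMod v))⁻¹ * ((y : ZMod v))⁻¹) =
      ∑ a ∈ A, ∑ b ∈ B, ZMod.stdAddChar (g * a * b) := by
    rw [hA, Finset.sum_image]
    · refine Finset.sum_congr rfl (fun x _ => ?_)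
      rw [hB, Finset.sum_image]
      intro y hy y' hy' h
      exact KarW_inj v E2 hlt2 y y' (hI2 y hy).2.1 (hI2 y' hy').2.1 (hI2 y hy).2.2 (hI2 y' hy').2.2 h
    · intro y hy y' hy' h
      exact KarW_inj v E1 hlt1 y y' (hI1 y hy).2.1 (hI1 y' hy').2.1 (hI1 y hy).2.2 (hI1 y' hy').2.2 h
  rw [hsum]
  refine le_trans (h3 v l1 l2 hl1 hl2 A B g hg) ?_
  have hE1' : (1 : ℝ) ≤ E1 := by exact_mod_cast hE1
  have hE2' : (1 : ℝ) ≤ E2 := by exact_mod_cast hE2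
  have hE1p : (0 : ℝ) < E1 := by linarith
  have hE2p : (0 : ℝ) < E2 := by linarith
  have hAc : (A.card : ℝ) ≤ E1 := by exact_mod_cast KarW_card v l1 E1 I1 hI1
  have hBc : (B.card : ℝ) ≤ E2 := by exact_mod_cast KarW_card v l2 E2 I2 hI2
  have hEA : (En v l1 A : ℝ) ≤ C1 * (E1 : ℝ) ^ ((l1 : ℝ) + ε) := by
    calc (En v l1 A : ℝ) ≤ _ := by exact_mod_cast KarW_en h1 v l1 E1 hl1 hv1 I1 hI1
      _ ≤ C l1 * (E1 : ℝ) ^ ((l1 : ℝ) + ε) := hC2 l1 hl1 E1 hE1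
      _ ≤ C1 * (E1 : ℝ) ^ ((l1 : ℝ) + ε) :=
        mul_le_mul_of_nonneg_right (hCle l1 hl1') (Real.rpow_nonneg hE1p.le _)
  have hEB : (En v l2 B : ℝ) ≤ C1 * (E2 : ℝ) ^ ((l2 : ℝ) + ε) := by
    calc (En v l2 B : ℝ) ≤ _ := by exact_mod_cast KarW_en h1 v l2 E2 hl2 hv2 I2 hI2
      _ ≤ C l2 * (E2 : ℝ) ^ ((l2 : ℝ) + ε) := hC2 l2 hl2 E2 hE2
      _ ≤ C1 * (E2 : ℝ) ^ ((l2 : ℝ) + ε) :=
        mul_le_mul_of_nonneg_right (hCle l2 hl2') (Real.rpow_nonneg hE2p.le _)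
  have hP1 : (A.card : ℝ) ^ (2 * l1 * l2 - 2 * l1) ≤ (E1 : ℝ) ^ (2 * l1 * l2 - 2 * l1) :=
    pow_le_pow_left₀ (Nat.cast_nonneg _) hAc _
  have hP2 : (B.card : ℝ) ^ (2 * l1 * l2 - 2 * l2) ≤ (E2 : ℝ) ^ (2 * l1 * l2 - 2 * l2) :=
    pow_le_pow_left₀ (Nat.cast_nonneg _) hBc _
  have hvn : (0 : ℝ) ≤ v := Nat.cast_nonneg _
  have key : (A.card : ℝ) ^ (2 * l1 * l2 - 2 * l1) * (B.card : ℝ) ^ (2 * l1 * l2 - 2 * l2) * v *
        En v l1 A * En v l2 B ≤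
      (E1 : ℝ) ^ (2 * l1 * l2 - 2 * l1) * (E2 : ℝ) ^ (2 * l1 * l2 - 2 * l2) * v *
        (C1 * (E1 : ℝ) ^ ((l1 : ℝ) + ε)) * (C1 * (E2 : ℝ) ^ ((l2 : ℝ) + ε)) := by
    have hn1 : (0 : ℝ) ≤ En v l1 A := Nat.cast_nonneg _
    have hn2 : (0 : ℝ) ≤ En v l2 B := Nat.cast_nonneg _
    gcongr
  refine le_trans key (le_of_eq ?_)
  have hle1 : 2 * l1 ≤ 2 * l1 * l2 := Nat.le_mul_of_pos_right _ (by omega)
  have hle2 : 2 * l2 ≤ 2 * l1 * l2 := by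
    calc 2 * l2 ≤ 2 * l2 * l1 := Nat.le_mul_of_pos_right _ (by omega)
      _ = 2 * l1 * l2 := by ring
  have e1 : (E1 : ℝ) ^ (2 * l1 * l2 - 2 * l1) * (E1 : ℝ) ^ ((l1 : ℝ) + ε) =
      (E1 : ℝ) ^ (((2 * l1 * l2 : ℕ) : ℝ) + ε) / (E1 : ℝ) ^ l1 := by
    rw [← Real.rpow_natCast (E1 : ℝ) (2 * l1 * l2 - 2 * l1), ← Real.rpow_natCast (E1 : ℝ) l1,
      ← Real.rpow_add hE1p, ← Real.rpow_sub hE1p]
    congr 1
    rw [Nat.cast_sub hle1]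
    push_cast
    ring
  have e2 : (E2 : ℝ) ^ (2 * l1 * l2 - 2 * l2) * (E2 : ℝ) ^ ((l2 : ℝ) + ε) =
      (E2 : ℝ) ^ (((2 * l1 * l2 : ℕ) : ℝ) + ε) / (E2 : ℝ) ^ l2 := by
    rw [← Real.rpow_natCast (E2 : ℝ) (2 * l1 * l2 - 2 * l2), ← Real.rpow_natCast (E2 : ℝ) l2,
      ← Real.rpow_add hE2p, ← Real.rpow_sub hE2p]
    congr 1
    rw [Nat.cast_sub hle2]
    push_cast
    ring
  rw [Real.mul_rpow hE1p.le hE2p.le]
  calc (E1 : ℝ) ^ (2 * l1 * l2 - 2 * l1) * (E2 : ℝ) ^ (2 * l1 * l2 - 2 * l2) * v *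
        (C1 * (E1 : ℝ) ^ ((l1 : ℝ) + ε)) * (C1 * (E2 : ℝ) ^ ((l2 : ℝ) + ε)) =
      C1 ^ 2 * ((E1 : ℝ) ^ (2 * l1 * l2 - 2 * l1) * (E1 : ℝ) ^ ((l1 : ℝ) + ε)) *
        ((E2 : ℝ) ^ (2 * l1 * l2 - 2 * l2) * (E2 : ℝ) ^ ((l2 : ℝ) + ε)) * v := by ring
    _ = C1 ^ 2 * ((E1 : ℝ) ^ (((2 * l1 * l2 : ℕ) : ℝ) + ε) *
        (E2 : ℝ) ^ (((2 * l1 * l2 : ℕ) : ℝ) + ε)) * v / ((E1 : ℝ) ^ l1 * (E2 : ℝ) ^ l2) := by
      rw [e1, e2]
      field_simp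

end Pool.Agent.CDZ
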