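import Pool.Agent.CDZ.StC

/-!
# CDZ (C8): the main count
-/

set_option autoImplicit false

open Finset Filter Topology

namespace Pool.Agent.CDZ

private theorem MidCount_lim (K n A η : ℝ) (hη : 0 < η) :
    Tendsto (fun L : ℝ => K * (16 * n * L ^ (-2 : ℝ) + L ^ (A + 2) * Real.exp (-η * L)))
      atTop (𝓝 0) := by
  have h1 : Tendsto (fun L : ℝ => L ^ (-2 : ℝ)) atTop (𝓝 0) :=
    tendsto_rpow_neg_atTop (by norm_num)
  have h2 : Tendsto (fun L : ℝ => L ^ (A + 2) * Real.exp (-η * L)) atTop (𝓝 0) :=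
    tendsto_rpow_mul_exp_neg_mul_atTop_nhds_zero (A + 2) η hη
  have h3 := ((h1.const_mul (16 * n)).add h2).const_mul K
  simpa using h3

theorem thm_MidCount (h1 : ZCount) (h2 : OmSum) (h3 : PrmSet) (h4 : MidIneq) : MidCount := by
  intro n S0 L0 κ ε hn hodd hL0 hκ hκ1 hε
  obtain ⟨η, hη, hZ⟩ := h1 n L0 κ (by omega) hL0 hκ hκ1
  obtain ⟨C, A, hC, hA, hOm⟩ := h2 n (by omega)
  have hlog : 0 < Real.log (3 / 2) := Real.log_pos (by norm_num)
  set A' : ℝ := (A + 4) * 2 / Real.log (3 / 2) with hA'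
  have hA'0 : 0 < A' := by positivity
  set K : ℝ := 4 * (S0 * (L0 : ℝ) ^ 2) * C * 2 ^ (A + 2) with hK
  have hK0 : 0 ≤ K := by positivity
  have hlim := (MidCount_lim K n A η hη).comp
    (Real.tendsto_log_atTop.comp tendsto_natCast_atTop_atTop)
  have hlogX : Tendsto (fun X : ℕ => Real.log (X : ℝ)) atTop atTop :=
    Real.tendsto_log_atTop.comp tendsto_natCast_atTop_atTop
  filter_upwards [hZ, h3 n hn hodd A' η (ε / 2) hA'0 hη (by linarith),
    hlim.eventually_le_const (by linarith : (0 : ℝ) < ε / 2), hlogX.eventually_ge_atTop 1,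
    eventually_ge_atTop 2] with X hX1 hX2 hX3 hX4 hX5
  obtain ⟨PS, hPS, hcard, hprod, hbad⟩ := hX2
  set L : ℝ := Real.log (X : ℝ) with hL
  have hXpos : (0 : ℝ) < X := by exact_mod_cast (by omega : 0 < X)
  have hLpos : 0 < L := by linarith
  set Φ : ℝ := 16 * n * (2 / 3 : ℝ) ^ ((PS.card : ℝ) / 2) + (X : ℝ) ^ (-η) with hΦ
  have hΦ0 : 0 ≤ Φ := by positivity
  -- the main inequality
  have hmain := h4 n S0 L0 X κ Φ PS (by omega) hL0 hκ hκ1 hX5 hΦ0 hPS (by
    intro u v s k D1 D2 l1 l2 w hu1 hu2 hvu huv hs hPv hkv hl1 hl1' hl2 hl2' hD1 hD1' hD2 hD2' hw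
    have h5 := hX1 u v s k D1 D2 l1 l2 PS w hu1 hu2 hvu huv hs
      (fun p hp => ⟨(hPS p hp).1, (hPS p hp).2.1, (hPS p hp).2.2, hPv p hp⟩) hprod hkv
      hl1 hl1' hl2 hl2' hD1 hD1' hD2 hD2' hw
    refine h5.trans ?_
    apply mul_le_mul_of_nonneg_left _ (by positivity)
    have hs1 : (1 : ℝ) ≤ (s : ℝ) ^ 2 := one_le_pow₀ (by exact_mod_cast hs)
    have h6 : 0 ≤ (X : ℝ) ^ (-η) := by positivity
    rw [hΦ]
    nlinarith)
  -- bound for Φ
  have hPhi : Φ ≤ 16 * n * L ^ (-(A + 4)) + Real.exp (-η * L) := by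
    have h5 : (2 / 3 : ℝ) ^ ((PS.card : ℝ) / 2) ≤ L ^ (-(A + 4)) := by
      rw [Real.rpow_def_of_pos (by norm_num), Real.rpow_def_of_pos hLpos]
      apply Real.exp_le_exp.2
      have h6 : Real.log (2 / 3) = -Real.log (3 / 2) := by
        rw [← Real.log_inv]
        norm_num
      rw [h6]
      have h7 : A' * Real.log L * Real.log (3 / 2) / 2 ≤
          (PS.card : ℝ) * Real.log (3 / 2) / 2 := by
        have := mul_le_mul_of_nonneg_right hcard hlog.le
        linarith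
      have h8 : A' * Real.log L * Real.log (3 / 2) / 2 = (A + 4) * Real.log L := by
        rw [hA']
        field_simp
      nlinarith
    have h6 : (X : ℝ) ^ (-η) = Real.exp (-η * L) := by
      rw [Real.rpow_def_of_pos hXpos, mul_comm]
    rw [hΦ, h6]
    have h7 : (0 : ℝ) ≤ 16 * n := by positivity
    nlinarith [mul_le_mul_of_nonneg_left h5 h7]
  have hsum := hOm X hX5
  have hfac : (Real.log X / Real.log 2 + 1) ^ 2 ≤ 4 * (L + 1) ^ 2 := by
    have h5 : Real.log X / Real.log 2 + 1 ≤ 2 * (L + 1) := by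
      have h6 : (1 : ℝ) / 2 < Real.log 2 := by
        have := Real.log_two_gt_d9
        linarith
      have h7 : Real.log X / Real.log 2 ≤ 2 * L := by
        rw [div_le_iff₀ (by linarith)]
        nlinarith
      linarith
    have h6 : 0 ≤ Real.log X / Real.log 2 + 1 := by
      have : 0 ≤ Real.log X / Real.log 2 := div_nonneg hLpos.le (Real.log_nonneg (by norm_num))
      linarith
    calc (Real.log X / Real.log 2 + 1) ^ 2 ≤ (2 * (L + 1)) ^ 2 := pow_le_pow_left₀ h6 h5 2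
      _ = 4 * (L + 1) ^ 2 := by ring
  have hpow : (L + 1) ^ 2 * (L + 1) ^ A ≤ 2 ^ (A + 2) * L ^ (A + 2) := by
    rw [← Real.rpow_natCast (L + 1) 2, ← Real.rpow_add (by linarith),
      ← Real.mul_rpow (by norm_num) hLpos.le]
    push_cast
    rw [add_comm (2 : ℝ) A]
    exact Real.rpow_le_rpow (by linarith) (by linarith) (by linarith)
  have hfinal : S0 * (L0 : ℝ) ^ 2 * (Real.log X / Real.log 2 + 1) ^ 2 * X * Φ *
      ∑ u ∈ Icc 1 X, (n : ℝ) ^ u.primeFactors.card / (u : ℝ) ≤ ε / 2 * X := by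
    have hsum0 : 0 ≤ ∑ u ∈ Icc 1 X, (n : ℝ) ^ u.primeFactors.card / (u : ℝ) :=
      Finset.sum_nonneg fun u _ => by positivity
    have e1 : L ^ (A + 2) * L ^ (-(A + 4)) = L ^ (-2 : ℝ) := by
      rw [← Real.rpow_add hLpos]
      congr 1
      ring
    calc S0 * (L0 : ℝ) ^ 2 * (Real.log X / Real.log 2 + 1) ^ 2 * X * Φ *
        ∑ u ∈ Icc 1 X, (n : ℝ) ^ u.primeFactors.card / (u : ℝ)
        ≤ S0 * (L0 : ℝ) ^ 2 * (4 * (L + 1) ^ 2) * X *
          (16 * n * L ^ (-(A + 4)) + Real.exp (-η * L)) * (C * (L + 1) ^ A) := by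
          gcongr
      _ = 4 * (S0 * (L0 : ℝ) ^ 2) * C * ((L + 1) ^ 2 * (L + 1) ^ A) *
          (16 * n * L ^ (-(A + 4)) + Real.exp (-η * L)) * X := by ring
      _ ≤ 4 * (S0 * (L0 : ℝ) ^ 2) * C * (2 ^ (A + 2) * L ^ (A + 2)) *
          (16 * n * L ^ (-(A + 4)) + Real.exp (-η * L)) * X := by
          gcongr
      _ = K * (16 * n * (L ^ (A + 2) * L ^ (-(A + 4))) + L ^ (A + 2) * Real.exp (-η * L)) * X := by
          rw [hK]
          ring
      _ ≤ ε / 2 * X := by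
          rw [e1]
          exact mul_le_mul_of_nonneg_right hX3 hXpos.le
  -- union
  set P1 : Set ℕ := {b ∈ Set.Icc 2 X | MidB n S0 L0 κ X b ∧
      2 * (PS.filter fun p => p ∣ b - 1).card ≤ PS.card} with hP1
  set P2 : Finset ℕ := (Icc 2 X).filter fun b =>
        PS.card < 2 * (PS.filter fun p => p ∣ b - 1).card with hP2
  have hsub : {b ∈ Set.Icc 2 X | MidB n S0 L0 κ X b} ⊆ P1 ∪ (P2 : Set ℕ) := by
    rintro b ⟨hb, hmid⟩
    by_cases hc : 2 * (PS.filter fun p => p ∣ b - 1).card ≤ PS.card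
    · exact Or.inl ⟨hb, hmid, hc⟩
    · right
      rw [mem_coe, hP2, mem_filter]
      exact ⟨mem_Icc.2 hb, not_le.1 hc⟩
  have hfin1 : P1.Finite := (Set.finite_Icc 2 X).subset fun N hN => hN.1
  have hle := (Set.ncard_le_ncard hsub (hfin1.union (Finset.finite_toSet _))).trans
    (Set.ncard_union_le P1 (P2 : Set ℕ))
  rw [Set.ncard_coe_finset] at hle
  have hle3 : ((({b ∈ Set.Icc 2 X | MidB n S0 L0 κ X b}).ncard : ℕ) : ℝ) ≤
      (P1.ncard : ℝ) + P2.card := by exact_mod_cast hle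
  refine hle3.trans ?_
  have h5 : (P1.ncard : ℝ) ≤ ε / 2 * X := hmain.trans hfinal
  have h6 : (P2.card : ℝ) ≤ ε / 2 * X := hbad
  linarith

end Pool.Agent.CDZ
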