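import Pool.Agent.CDZ.StC

/-!
# CDZ / MidIneq: the combinatorial part of the main count (helper82)
-/

set_option autoImplicit false

open Finset

namespace Pool.Agent.CDZ

open Pool.Agent.Cohn (Sol PF PF_prod Hn Hn_iff)

private lemma MidIneq_union {S : Set ℕ} (I : Finset ℕ) (T : ℕ → Set ℕ)
    (hf : ∀ i ∈ I, (T i).Finite) (h : ∀ b ∈ S, ∃ i ∈ I, b ∈ T i) :
    S.Finite ∧ S.ncard ≤ ∑ i ∈ I, (T i).ncard := by
  classical
  induction I using Finset.induction_on generalizing S with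
  | empty =>
    have : S = ∅ := by
      ext b
      constructor
      · intro hb
        obtain ⟨i, hi, -⟩ := h b hb
        exact absurd hi (Finset.notMem_empty i)
      · intro hb
        exact absurd hb (Set.notMem_empty b)
    subst this
    simp
  | insert a I ha ih =>
    have h1 := ih (S := {b ∈ S | ∃ i ∈ I, b ∈ T i}) (fun i hi => hf i (Finset.mem_insert_of_mem hi))
      (fun b hb => hb.2)
    have h2 : S ⊆ T a ∪ {b ∈ S | ∃ i ∈ I, b ∈ T i} := by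
      intro b hb
      obtain ⟨i, hi, hbi⟩ := h b hb
      rcases Finset.mem_insert.1 hi with rfl | hi
      · exact Or.inl hbi
      · exact Or.inr ⟨hb, i, hi, hbi⟩
    have h3 := hf a (Finset.mem_insert_self a I)
    refine ⟨(h3.union h1.1).subset h2, ?_⟩
    rw [Finset.sum_insert ha]
    calc S.ncard ≤ (T a ∪ {b ∈ S | ∃ i ∈ I, b ∈ T i}).ncard :=
          Set.ncard_le_ncard h2 (h3.union h1.1)
      _ ≤ (T a).ncard + {b ∈ S | ∃ i ∈ I, b ∈ T i}.ncard := Set.ncard_union_le _ _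
      _ ≤ _ := Nat.add_le_add_left h1.2 _

private lemma MidIneq_step {S : Set ℕ} (I : Finset ℕ) (T : ℕ → Set ℕ) (c : ℝ)
    (hf : ∀ i ∈ I, (T i).Finite ∧ ((T i).ncard : ℝ) ≤ c) (h : ∀ b ∈ S, ∃ i ∈ I, b ∈ T i) :
    S.Finite ∧ (S.ncard : ℝ) ≤ I.card * c := by
  obtain ⟨h1, h2⟩ := MidIneq_union I T (fun i hi => (hf i hi).1) h
  refine ⟨h1, ?_⟩
  calc (S.ncard : ℝ) ≤ ((∑ i ∈ I, (T i).ncard : ℕ) : ℝ) := by exact_mod_cast h2
    _ = ∑ i ∈ I, ((T i).ncard : ℝ) := by push_cast; rfl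
    _ ≤ ∑ _i ∈ I, c := Finset.sum_le_sum fun i hi => (hf i hi).2
    _ = I.card * c := by rw [Finset.sum_const, nsmul_eq_mul]

private def MidIneq_v (n u : ℕ) : ℕ := ∏ p ∈ PF n u, p

/-- All the data attached to `b`. -/
private def MidIneq_D (n S0 L0 X : ℕ) (κ : ℝ) (PS : Finset ℕ) (s u z α β l1 l2 k b : ℕ) : Prop :=
  b ∈ Set.Icc 2 X ∧ 1 ≤ s ∧ s ≤ S0 ∧ 1 ≤ u ∧ u ≤ X ∧ Squarefree u ∧ (X : ℝ) ^ (2 / 5 : ℝ) ≤ u ∧
    (z < MidIneq_v n u ∧ ((z : ℕ) : ZMod (MidIneq_v n u)) ^ n = 1 ∧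
      IsUnit (((z : ℕ) : ZMod (MidIneq_v n u)) - 1)) ∧
    (∀ p ∈ PS, ¬ p ∣ MidIneq_v n u) ∧ α ≤ Nat.log 2 X ∧ β ≤ Nat.log 2 X ∧
    1 ≤ l1 ∧ l1 ≤ L0 ∧ 1 ≤ l2 ∧ l2 ≤ L0 ∧
    (((2 ^ α : ℕ) : ℝ) ^ (2 * (l1 : ℝ) - 1 + κ) ≤ u ∧
      (u : ℝ) ≤ (2 * ((2 ^ α : ℕ) : ℝ)) ^ (2 * (l1 : ℝ) - κ)) ∧
    (((2 ^ β : ℕ) : ℝ) ^ (2 * (l2 : ℝ) - 1 + κ) ≤ u ∧
      (u : ℝ) ≤ (2 * ((2 ^ β : ℕ) : ℝ)) ^ (2 * (l2 : ℝ) - κ)) ∧
    1 ≤ k ∧ Nat.Coprime k (MidIneq_v n u) ∧ k * (2 ^ α * 2 ^ β * (s ^ 2 * u)) ≤ X ∧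
    ∃ q ∈ ZSet n (MidIneq_v n u) k (2 ^ α) (2 ^ β) (s ^ 2 * u) PS
      (((z : ℕ) : ZMod (MidIneq_v n u)) - 1), b = k * q.1.1 * q.1.2 * (s ^ 2 * u) + 1

private lemma MidIneq_mem {n u p : ℕ} (hp : p ∈ PF n u) : p.Prime ∧ p ∣ u ∧ ¬ p ∣ n := by
  obtain ⟨h1, h2⟩ := Finset.mem_filter.1 hp
  exact ⟨Nat.prime_of_mem_primeFactors h1, Nat.dvd_of_mem_primeFactors h1, h2⟩

private lemma MidIneq_prime {n u p : ℕ} (hp : p.Prime) (h : p ∣ MidIneq_v n u) :
    p ∣ u ∧ ¬ p ∣ n := by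
  obtain ⟨q, hq, hpq⟩ := (Prime.dvd_finsetProd_iff hp.prime _).1 h
  obtain ⟨h1, h2, h3⟩ := MidIneq_mem hq
  have h4 : p = q := (Nat.prime_dvd_prime_iff_eq hp h1).1 hpq
  subst h4
  exact ⟨h2, h3⟩

private lemma MidIneq_pos {n u : ℕ} : 0 < MidIneq_v n u :=
  Finset.prod_pos fun _ hp => (MidIneq_mem hp).1.pos

private lemma MidIneq_exists (h2 : NotDvdC) {n S0 L0 X : ℕ} {κ : ℝ} {PS : Finset ℕ}
    (hn : 1 ≤ n) (hκ : 0 < κ) (hκ1 : κ < 1)
    (hPS : ∀ p ∈ PS, p.Prime ∧ 3 ≤ p ∧ Nat.Coprime (p - 1) n) {b : ℕ}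
    (hb : b ∈ Set.Icc 2 X) (hM : MidB n S0 L0 κ X b)
    (hh : 2 * (PS.filter fun p => p ∣ b - 1).card ≤ PS.card) :
    ∃ s u z α β l1 l2 k, MidIneq_D n S0 L0 X κ PS s u z α β l1 l2 k b := by
  obtain ⟨c, m, m', u, s, u', t, hS, hs, hu, d1, d2, l1, l2, hd, hl1, hl1', hl2, hl2', hA1, hA2⟩ := hM
  obtain ⟨k, hk⟩ := hd
  have hc := hS.hc
  have hm' := hS.hm'
  have hmm := hS.hmm
  have hu0 : 0 < u := Nat.pos_of_ne_zero hS.hu.ne_zero
  have hs0 : 0 < s := by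
    rcases Nat.eq_zero_or_pos s with h | h
    · exfalso
      have := hS.em
      rw [h] at this
      simp at this
      omega
    · exact h
  have hbm : b - 1 = c * (s ^ 2 * u) := by rw [hS.hb, hS.em]; omega
  have hb1 : b = c * (s ^ 2 * u) + 1 := by rw [hS.hb, hS.em]; ring
  have hcX : c * (s ^ 2 * u) ≤ X := by
    have := hb.2
    omega
  have hk0 : 0 < k := by
    rcases Nat.eq_zero_or_pos k with h | h
    · rw [h, mul_zero] at hk; omega
    · exact h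
  have hd12 : 0 < d1 * d2 := by
    rcases Nat.eq_zero_or_pos (d1 * d2) with h | h
    · rw [h, zero_mul] at hk; omega
    · exact h
  have hd1 : 0 < d1 := Nat.pos_of_mul_pos_right hd12 |> fun _ => by
    rcases Nat.eq_zero_or_pos d1 with h | h
    · rw [h, zero_mul] at hd12; omega
    · exact h
  have hd2 : 0 < d2 := by
    rcases Nat.eq_zero_or_pos d2 with h | h
    · rw [h, mul_zero] at hd12; omega
    · exact h
  have hsu : 0 < s ^ 2 * u := by positivity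
  have hcc : c ≤ X := le_trans (Nat.le_mul_of_pos_right c hsu) hcX
  have hd1c : d1 ≤ c := by
    rw [hk, mul_assoc]
    exact Nat.le_mul_of_pos_right d1 (by positivity)
  have hd2c : d2 ≤ c := by
    rw [hk, mul_comm d1, mul_assoc]
    exact Nat.le_mul_of_pos_right d2 (by positivity)
  have huX : u ≤ X := by
    refine le_trans ?_ hcX
    calc u ≤ s ^ 2 * u := Nat.le_mul_of_pos_left u (by positivity)
      _ ≤ c * (s ^ 2 * u) := Nat.le_mul_of_pos_left _ hc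
  have hum : u ∣ m := by rw [← hS.em]; exact Dvd.intro_left _ rfl
  -- primes of `v`
  have hpv : ∀ p : ℕ, p.Prime → p ∣ MidIneq_v n u → ¬ p ∣ c ∧ ¬ p ∣ m' ∧ ¬ Nat.Coprime (p - 1) n ∧
      p ∣ (c * m' + 1) ^ n - 1 := by
    intro p hp hpv
    obtain ⟨q1, q2⟩ := MidIneq_prime hp hpv
    refine ⟨h2 n b c m m' u s u' t p hn hS hp q1 q2, ?_, ?_, (hS.hp p hp q2 q1).2⟩
    · intro h3
      have h4 := Nat.dvd_gcd (q1.trans hum) h3
      rw [hS.hco] at h4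
      exact hp.one_lt.ne' (Nat.dvd_one.1 h4)
    · exact ((Hn_iff (by omega) hp).1 (hS.hp p hp q2 q1).1).2
  have hcop : Nat.Coprime (c * m') (MidIneq_v n u) := by
    by_contra hne
    obtain ⟨p, hp, h3, h4⟩ := Nat.Prime.not_coprime_iff_dvd.1 hne
    obtain ⟨h5, h6, -⟩ := hpv p hp h4
    rcases (Nat.Prime.dvd_mul hp).1 h3 with h | h
    · exact h5 h
    · exact h6 h
  have hcopc : Nat.Coprime c (MidIneq_v n u) := Nat.Coprime.coprime_mul_right hcop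
  have hdvd : MidIneq_v n u ∣ (c * m' + 1) ^ n - 1 := by
    apply Finset.prod_primes_dvd
    · intro p hp
      exact (MidIneq_mem hp).1.prime
    · intro p hp
      obtain ⟨q0, q1, q2⟩ := MidIneq_mem hp
      exact (hS.hp p q0 q2 q1).2
  have hz : (((c * m' + 1) % MidIneq_v n u : ℕ) : ZMod (MidIneq_v n u)) =
      ((c * m' + 1 : ℕ) : ZMod (MidIneq_v n u)) := ZMod.natCast_mod _ _
  have hz1 : (((c * m' + 1) % MidIneq_v n u : ℕ) : ZMod (MidIneq_v n u)) - 1 =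
      ((c * m' : ℕ) : ZMod (MidIneq_v n u)) := by
    rw [hz]
    push_cast
    ring
  have hcast : ∀ (r y : ℕ), (((y + 1 : ℕ) : ZMod r) ^ n - 1) = (((y + 1) ^ n - 1 : ℕ) : ZMod r) := by
    intro r y
    have h3 : 1 ≤ (y + 1) ^ n := Nat.one_le_pow _ _ (by omega)
    rw [Nat.cast_sub h3]
    push_cast
    ring
  refine ⟨s, u, (c * m' + 1) % MidIneq_v n u, Nat.log 2 d1, Nat.log 2 d2, l1, l2, k, hb, hs0, hs,
    hu0, huX, hS.hu, hu, ⟨Nat.mod_lt _ MidIneq_pos, ?_, ?_⟩, ?_, ?_, ?_, hl1, hl1', hl2, hl2',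
    ⟨?_, ?_⟩, ⟨?_, ?_⟩, hk0, ?_, ?_, ⟨((d1, d2), m'), ?_, ?_⟩⟩
  · rw [hz]
    have h3 := hcast (MidIneq_v n u) (c * m')
    rw [(ZMod.natCast_eq_zero_iff _ _).2 hdvd] at h3
    exact sub_eq_zero.1 h3
  · rw [hz1]
    exact (ZMod.isUnit_iff_coprime _ _).2 hcop
  · intro p hp hpv'
    obtain ⟨h3, -, h5⟩ := hPS p hp
    exact (hpv p h3 hpv').2.2.1 h5
  · exact Nat.log_mono_right (hd1c.trans hcc)
  · exact Nat.log_mono_right (hd2c.trans hcc)
  · refine le_trans (Real.rpow_le_rpow (by positivity) ?_ ?_) hA1.1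
    · exact_mod_cast Nat.pow_log_le_self 2 hd1.ne'
    · have : (1 : ℝ) ≤ l1 := by exact_mod_cast hl1
      linarith
  · refine le_trans hA1.2 (Real.rpow_le_rpow (by positivity) ?_ ?_)
    · have h3 := (Nat.lt_pow_succ_log_self one_lt_two d1).le
      rw [pow_succ] at h3
      have h4 : (d1 : ℝ) ≤ ((2 ^ Nat.log 2 d1 * 2 : ℕ) : ℝ) := by exact_mod_cast h3
      rw [Nat.cast_mul] at h4
      calc (d1 : ℝ) ≤ _ := h4
        _ = _ := by push_cast; ring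
    · have : (1 : ℝ) ≤ l1 := by exact_mod_cast hl1
      linarith
  · refine le_trans (Real.rpow_le_rpow (by positivity) ?_ ?_) hA2.1
    · exact_mod_cast Nat.pow_log_le_self 2 hd2.ne'
    · have : (1 : ℝ) ≤ l2 := by exact_mod_cast hl2
      linarith
  · refine le_trans hA2.2 (Real.rpow_le_rpow (by positivity) ?_ ?_)
    · have h3 := (Nat.lt_pow_succ_log_self one_lt_two d2).le
      rw [pow_succ] at h3
      have h4 : (d2 : ℝ) ≤ ((2 ^ Nat.log 2 d2 * 2 : ℕ) : ℝ) := by exact_mod_cast h3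
      rw [Nat.cast_mul] at h4
      calc (d2 : ℝ) ≤ _ := h4
        _ = _ := by push_cast; ring
    · have : (1 : ℝ) ≤ l2 := by exact_mod_cast hl2
      linarith
  · exact Nat.Coprime.coprime_dvd_left (by rw [hk]; exact Dvd.intro_left _ rfl) hcopc
  · calc k * (2 ^ Nat.log 2 d1 * 2 ^ Nat.log 2 d2 * (s ^ 2 * u)) ≤ k * (d1 * d2 * (s ^ 2 * u)) := by
          refine Nat.mul_le_mul_left _ (Nat.mul_le_mul_right _ ?_)
          exact Nat.mul_le_mul (Nat.pow_log_le_self 2 hd1.ne') (Nat.pow_log_le_self 2 hd2.ne')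
      _ = c * (s ^ 2 * u) := by rw [hk]; ring
      _ ≤ X := hcX
  · have hkc : k * d1 * d2 = c := by rw [hk]; ring
    refine ⟨?_, ?_, ?_, ?_, ?_, ?_, ?_, ?_⟩
    · refine Finset.mem_Ico.2 ⟨Nat.pow_log_le_self 2 hd1.ne', ?_⟩
      have h3 := Nat.lt_pow_succ_log_self one_lt_two d1
      rw [pow_succ] at h3
      show d1 < 2 * 2 ^ Nat.log 2 d1
      omega
    · refine Finset.mem_Ico.2 ⟨Nat.pow_log_le_self 2 hd2.ne', ?_⟩
      have h3 := Nat.lt_pow_succ_log_self one_lt_two d2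
      rw [pow_succ] at h3
      show d2 < 2 * 2 ^ Nat.log 2 d2
      omega
    · show m' < s ^ 2 * u
      rw [hS.em]
      exact hmm
    · exact Nat.Coprime.coprime_dvd_left (by rw [hk, mul_assoc]; exact Dvd.intro _ rfl) hcopc
    · exact Nat.Coprime.coprime_dvd_left
        (by rw [hk, mul_comm d1, mul_assoc]; exact Dvd.intro _ rfl) hcopc
    · show ((k * d1 * d2 * m' : ℕ) : ZMod (MidIneq_v n u)) = _
      rw [hkc, hz1]
    · show 2 * (PS.filter fun p => p ∣ k * d1 * d2 * (s ^ 2 * u)).card ≤ PS.card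
      rw [hkc, ← hbm]
      exact hh
    · intro p _ _
      show IsSquare ((((k * d1 * d2 * m' + 1 : ℕ) : ZMod p) ^ n - 1) *
        (((k * d1 * d2 * (s ^ 2 * u) + 1 : ℕ) : ZMod p) ^ n - 1))
      obtain ⟨x, hx⟩ := hS.hx
      rw [hkc, hcast, hcast, ← Nat.cast_mul, hS.em, hx]
      exact ⟨(x : ZMod p), by push_cast; ring⟩
  · show b = k * d1 * d2 * (s ^ 2 * u) + 1
    rw [hb1, hk]
    ring

private lemma MidIneq_zfin {n v k D1 D2 q : ℕ} {PS : Finset ℕ} {w : ZMod v} :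
    (ZSet n v k D1 D2 q PS w).Finite := by
  refine Set.Finite.subset ((Ico D1 (2 * D1) ×ˢ Ico D2 (2 * D2)) ×ˢ range q).finite_toSet ?_
  rintro ⟨⟨x, y⟩, m⟩ ⟨h1, h2, h3, -⟩
  exact Finset.mem_coe.2 (Finset.mem_product.2 ⟨Finset.mem_product.2 ⟨h1, h2⟩,
    Finset.mem_range.2 h3⟩)

theorem thm_MidIneq (h1 : Roots) (h2 : NotDvdC) : MidIneq := by
  intro n S0 L0 X κ Φ PS hn hL0 hκ hκ1 hX hΦ hPS hmain
  classical
  have hX0 : (0 : ℝ) < X := by exact_mod_cast (by omega : 0 < X)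
  set D := MidIneq_D n S0 L0 X κ PS with hD
  have hicc : ∀ S : Set ℕ, (∀ b ∈ S, b ∈ Set.Icc 2 X) → S.Finite := fun S hS =>
    (Set.finite_Icc 2 X).subset hS
  -- innermost level
  have c8 : ∀ s u z α β l1 l2 k, {b | D s u z α β l1 l2 k b}.Finite ∧
      (({b | D s u z α β l1 l2 k b}.ncard : ℕ) : ℝ) ≤ ((2 ^ α : ℕ) : ℝ) * ((2 ^ β : ℕ) : ℝ) *
        ((s : ℝ) ^ 2 * Φ) := by
    intro s u z α β l1 l2 k
    refine ⟨hicc _ fun b hb => hb.1, ?_⟩
    by_cases hne : ∃ b, D s u z α β l1 l2 k b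
    · obtain ⟨b0, e1, e2, e3, e4, e5, e6, e7, e8, e9, e10, e11, e12, e13, e14, e15, e16, e17, e18,
        e19, e20, -⟩ := hne
      obtain ⟨g1, g2, g3⟩ := PF_prod (n := n) (by omega) e6
      have hZ := hmain u (MidIneq_v n u) s k (2 ^ α) (2 ^ β) l1 l2
        (((z : ℕ) : ZMod (MidIneq_v n u)) - 1) e7 e5 g3 (by rw [mul_comm]; exact g1) e2 e9 e19
        e12 e13 e14 e15 e16.1 e16.2 e17.1 e17.2 e8.2.2
      refine le_trans ?_ hZ
      have hsub : {b | D s u z α β l1 l2 k b} ⊆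
          (fun q : (ℕ × ℕ) × ℕ => k * q.1.1 * q.1.2 * (s ^ 2 * u) + 1) ''
            ZSet n (MidIneq_v n u) k (2 ^ α) (2 ^ β) (s ^ 2 * u) PS
              (((z : ℕ) : ZMod (MidIneq_v n u)) - 1) := by
        rintro b ⟨-, -, -, -, -, -, -, -, -, -, -, -, -, -, -, -, -, -, -, -, q, hq, hbq⟩
        exact ⟨q, hq, hbq.symm⟩
      have h3 := Set.ncard_le_ncard hsub (MidIneq_zfin.image _)
      have h4 := Set.ncard_image_le (f := fun q : (ℕ × ℕ) × ℕ => k * q.1.1 * q.1.2 * (s ^ 2 * u) + 1)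
        (MidIneq_zfin (n := n) (v := MidIneq_v n u) (k := k) (D1 := 2 ^ α) (D2 := 2 ^ β)
          (q := s ^ 2 * u) (PS := PS) (w := ((z : ℕ) : ZMod (MidIneq_v n u)) - 1))
      exact_mod_cast h3.trans h4
    · have h3 : {b | D s u z α β l1 l2 k b} = ∅ := by
        ext b
        simp only [Set.mem_setOf_eq, Set.mem_empty_iff_false, iff_false]
        exact fun h => hne ⟨b, h⟩
      rw [h3, Set.ncard_empty, Nat.cast_zero]
      positivity
  -- sum over `k`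
  have c7 : ∀ s u z α β l1 l2, {b | ∃ k, D s u z α β l1 l2 k b}.Finite ∧
      (({b | ∃ k, D s u z α β l1 l2 k b}.ncard : ℕ) : ℝ) ≤ X * Φ / u := by
    intro s u z α β l1 l2
    refine ⟨hicc _ fun b hb => by obtain ⟨k, hk⟩ := hb; exact hk.1, ?_⟩
    by_cases hne : ∃ b k, D s u z α β l1 l2 k b
    · obtain ⟨b0, k0, -, e2, -, e4, -⟩ := hne
      have hs0 : (0 : ℝ) < s := by exact_mod_cast e2
      have hu0 : (0 : ℝ) < u := by exact_mod_cast e4
      set q : ℕ := 2 ^ α * 2 ^ β * (s ^ 2 * u) with hq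
      have hq0 : 0 < q := by positivity
      have h3 := MidIneq_step (S := {b | ∃ k, D s u z α β l1 l2 k b}) (Icc 1 (X / q))
        (fun k => {b | D s u z α β l1 l2 k b}) _ (fun k _ => c8 s u z α β l1 l2 k) (by
          rintro b ⟨k, hk⟩
          refine ⟨k, Finset.mem_Icc.2 ⟨?_, ?_⟩, hk⟩
          · obtain ⟨-, -, -, -, -, -, -, -, -, -, -, -, -, -, -, -, -, e18, -⟩ := hk
            exact e18
          · obtain ⟨-, -, -, -, -, -, -, -, -, -, -, -, -, -, -, -, -, -, -, e20, -⟩ := hk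
            exact (Nat.le_div_iff_mul_le hq0).2 e20)
      refine h3.2.trans ?_
      rw [Nat.card_Icc, Nat.add_sub_cancel]
      have h4 : ((X / q : ℕ) : ℝ) ≤ X / q := Nat.cast_div_le
      have h5 : (q : ℝ) = ((2 ^ α : ℕ) : ℝ) * ((2 ^ β : ℕ) : ℝ) * ((s : ℝ) ^ 2 * u) := by
        rw [hq]; push_cast; ring
      have ha0 : (0 : ℝ) < ((2 ^ α : ℕ) : ℝ) := by positivity
      have hb0 : (0 : ℝ) < ((2 ^ β : ℕ) : ℝ) := by positivity
      calc ((X / q : ℕ) : ℝ) * (((2 ^ α : ℕ) : ℝ) * ((2 ^ β : ℕ) : ℝ) * ((s : ℝ) ^ 2 * Φ))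
          ≤ (X / q : ℝ) * (((2 ^ α : ℕ) : ℝ) * ((2 ^ β : ℕ) : ℝ) * ((s : ℝ) ^ 2 * Φ)) :=
            mul_le_mul_of_nonneg_right h4 (by positivity)
        _ = X * Φ / u := by
            rw [h5]
            field_simp
    · have h3 : {b | ∃ k, D s u z α β l1 l2 k b} = ∅ := by
        ext b
        simp only [Set.mem_setOf_eq, Set.mem_empty_iff_false, iff_false]
        exact fun h => hne ⟨b, h⟩
      rw [h3, Set.ncard_empty, Nat.cast_zero]
      positivity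
  have c6 : ∀ s u z α β l1, {b | ∃ l2 k, D s u z α β l1 l2 k b}.Finite ∧
      (({b | ∃ l2 k, D s u z α β l1 l2 k b}.ncard : ℕ) : ℝ) ≤ L0 * (X * Φ / u) := by
    intro s u z α β l1
    have h3 := MidIneq_step (S := {b | ∃ l2 k, D s u z α β l1 l2 k b}) (Icc 1 L0)
      (fun l2 => {b | ∃ k, D s u z α β l1 l2 k b}) _ (fun l2 _ => c7 s u z α β l1 l2) (by
        rintro b ⟨l2, k, hk⟩
        refine ⟨l2, Finset.mem_Icc.2 ⟨?_, ?_⟩, ⟨k, hk⟩⟩
        · obtain ⟨-, -, -, -, -, -, -, -, -, -, -, -, -, e14, -⟩ := hk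
          exact e14
        · obtain ⟨-, -, -, -, -, -, -, -, -, -, -, -, -, -, e15, -⟩ := hk
          exact e15)
    rwa [Nat.card_Icc, Nat.add_sub_cancel] at h3
  have c5 : ∀ s u z α β, {b | ∃ l1 l2 k, D s u z α β l1 l2 k b}.Finite ∧
      (({b | ∃ l1 l2 k, D s u z α β l1 l2 k b}.ncard : ℕ) : ℝ) ≤ L0 * (L0 * (X * Φ / u)) := by
    intro s u z α β
    have h3 := MidIneq_step (S := {b | ∃ l1 l2 k, D s u z α β l1 l2 k b}) (Icc 1 L0)
      (fun l1 => {b | ∃ l2 k, D s u z α β l1 l2 k b}) _ (fun l1 _ => c6 s u z α β l1) (by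
        rintro b ⟨l1, l2, k, hk⟩
        refine ⟨l1, Finset.mem_Icc.2 ⟨?_, ?_⟩, ⟨l2, k, hk⟩⟩
        · obtain ⟨-, -, -, -, -, -, -, -, -, -, -, e12, -⟩ := hk
          exact e12
        · obtain ⟨-, -, -, -, -, -, -, -, -, -, -, -, e13, -⟩ := hk
          exact e13)
    rwa [Nat.card_Icc, Nat.add_sub_cancel] at h3
  have hlogX : ((Nat.log 2 X + 1 : ℕ) : ℝ) ≤ Real.log X / Real.log 2 + 1 := by
    push_cast
    have h3 : (2 : ℝ) ^ Nat.log 2 X ≤ X := by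
      exact_mod_cast Nat.pow_log_le_self 2 (by omega : X ≠ 0)
    have h4 := Real.log_le_log (by positivity) h3
    rw [Real.log_pow] at h4
    have h5 : 0 < Real.log 2 := Real.log_pos (by norm_num)
    have h6 : (Nat.log 2 X : ℝ) ≤ Real.log X / Real.log 2 := by
      rw [le_div_iff₀ h5]
      exact h4
    linarith
  set LX := Real.log X / Real.log 2 + 1 with hLX
  have hLX0 : 0 ≤ LX := le_trans (by positivity) hlogX
  have c4 : ∀ s u z α, {b | ∃ β l1 l2 k, D s u z α β l1 l2 k b}.Finite ∧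
      (({b | ∃ β l1 l2 k, D s u z α β l1 l2 k b}.ncard : ℕ) : ℝ) ≤
        LX * (L0 * (L0 * (X * Φ / u))) := by
    intro s u z α
    have h3 := MidIneq_step (S := {b | ∃ β l1 l2 k, D s u z α β l1 l2 k b})
      (range (Nat.log 2 X + 1))
      (fun β => {b | ∃ l1 l2 k, D s u z α β l1 l2 k b}) _ (fun β _ => c5 s u z α β) (by
        rintro b ⟨β, l1, l2, k, hk⟩
        refine ⟨β, Finset.mem_range.2 ?_, ⟨l1, l2, k, hk⟩⟩
        obtain ⟨-, -, -, -, -, -, -, -, -, -, e11, -⟩ := hk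
        exact Nat.lt_succ_iff.2 e11)
    rw [Finset.card_range] at h3
    exact ⟨h3.1, h3.2.trans (mul_le_mul_of_nonneg_right hlogX (by positivity))⟩
  have c3 : ∀ s u z, {b | ∃ α β l1 l2 k, D s u z α β l1 l2 k b}.Finite ∧
      (({b | ∃ α β l1 l2 k, D s u z α β l1 l2 k b}.ncard : ℕ) : ℝ) ≤
        LX * (LX * (L0 * (L0 * (X * Φ / u)))) := by
    intro s u z
    have h3 := MidIneq_step (S := {b | ∃ α β l1 l2 k, D s u z α β l1 l2 k b})
      (range (Nat.log 2 X + 1))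
      (fun α => {b | ∃ β l1 l2 k, D s u z α β l1 l2 k b}) _ (fun α _ => c4 s u z α) (by
        rintro b ⟨α, β, l1, l2, k, hk⟩
        refine ⟨α, Finset.mem_range.2 ?_, ⟨β, l1, l2, k, hk⟩⟩
        obtain ⟨-, -, -, -, -, -, -, -, -, e10, -⟩ := hk
        exact Nat.lt_succ_iff.2 e10)
    rw [Finset.card_range] at h3
    exact ⟨h3.1, h3.2.trans (mul_le_mul_of_nonneg_right hlogX (by positivity))⟩
  have c2 : ∀ s u, {b | ∃ z α β l1 l2 k, D s u z α β l1 l2 k b}.Finite ∧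
      (({b | ∃ z α β l1 l2 k, D s u z α β l1 l2 k b}.ncard : ℕ) : ℝ) ≤
        (n : ℝ) ^ u.primeFactors.card * (LX * (LX * (L0 * (L0 * (X * Φ / u))))) := by
    intro s u
    have hfin : {b | ∃ z α β l1 l2 k, D s u z α β l1 l2 k b}.Finite := hicc _ fun b hb => by
      obtain ⟨z, α, β, l1, l2, k, hk⟩ := hb
      exact hk.1
    refine ⟨hfin, ?_⟩
    by_cases hne : ∃ b z α β l1 l2 k, D s u z α β l1 l2 k b
    · obtain ⟨b0, z0, α0, β0, l10, l20, k0, -, -, -, e4, -, e6, -⟩ := hne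
      set v := MidIneq_v n u with hv
      have hv0 : 0 < v := MidIneq_pos
      haveI : NeZero v := ⟨hv0.ne'⟩
      obtain ⟨g1, g2, g3⟩ := PF_prod (n := n) (by omega) e6
      have hvu : v ∣ u := g3
      have h3 := MidIneq_step (S := {b | ∃ z α β l1 l2 k, D s u z α β l1 l2 k b})
        ((range v).filter fun z => ((z : ℕ) : ZMod v) ^ n = 1)
        (fun z => {b | ∃ α β l1 l2 k, D s u z α β l1 l2 k b}) _ (fun z _ => c3 s u z) (by
          rintro b ⟨z, α, β, l1, l2, k, hk⟩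
          refine ⟨z, ?_, ⟨α, β, l1, l2, k, hk⟩⟩
          obtain ⟨-, -, -, -, -, -, -, e8, -⟩ := hk
          exact Finset.mem_filter.2 ⟨Finset.mem_range.2 e8.1, e8.2.1⟩)
      refine h3.2.trans (mul_le_mul_of_nonneg_right ?_ (by positivity))
      have h4 : ((range v).filter fun z => ((z : ℕ) : ZMod v) ^ n = 1).card ≤
          (univ.filter fun z : ZMod v => z ^ n = 1).card := by
        refine Finset.card_le_card_of_injOn (fun z => ((z : ℕ) : ZMod v)) ?_ ?_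
        · intro z hz
          exact Finset.mem_coe.2 (Finset.mem_filter.2 ⟨Finset.mem_univ _,
            (Finset.mem_filter.1 (Finset.mem_coe.1 hz)).2⟩)
        · intro z hz z' hz' hzz
          have e1 := Finset.mem_range.1 (Finset.mem_filter.1 (Finset.mem_coe.1 hz)).1
          have e2 := Finset.mem_range.1 (Finset.mem_filter.1 (Finset.mem_coe.1 hz')).1
          exact Nat.ModEq.eq_of_lt_of_lt ((ZMod.natCast_eq_natCast_iff _ _ _).1 hzz) e1 e2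
      have h5 := h1 n v hn (e6.squarefree_of_dvd hvu)
      have h6 : n ^ v.primeFactors.card ≤ n ^ u.primeFactors.card :=
        Nat.pow_le_pow_right (by omega) (Finset.card_le_card
          (Nat.primeFactors_mono hvu (by omega)))
      exact_mod_cast h4.trans (h5.trans h6)
    · have h3 : {b | ∃ z α β l1 l2 k, D s u z α β l1 l2 k b} = ∅ := by
        ext b
        simp only [Set.mem_setOf_eq, Set.mem_empty_iff_false, iff_false]
        exact fun h => hne ⟨b, h⟩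
      rw [h3, Set.ncard_empty, Nat.cast_zero]
      positivity
  have c1 : ∀ s, {b | ∃ u z α β l1 l2 k, D s u z α β l1 l2 k b}.Finite ∧
      (({b | ∃ u z α β l1 l2 k, D s u z α β l1 l2 k b}.ncard : ℕ) : ℝ) ≤
        (L0 : ℝ) ^ 2 * LX ^ 2 * X * Φ *
          ∑ u ∈ Icc 1 X, (n : ℝ) ^ u.primeFactors.card / (u : ℝ) := by
    intro s
    obtain ⟨h3, h4⟩ := MidIneq_union (S := {b | ∃ u z α β l1 l2 k, D s u z α β l1 l2 k b})
      (Icc 1 X) (fun u => {b | ∃ z α β l1 l2 k, D s u z α β l1 l2 k b}) (fun u _ => (c2 s u).1) (by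
        rintro b ⟨u, z, α, β, l1, l2, k, hk⟩
        refine ⟨u, Finset.mem_Icc.2 ⟨?_, ?_⟩, ⟨z, α, β, l1, l2, k, hk⟩⟩
        · obtain ⟨-, -, -, e4, -⟩ := hk
          exact e4
        · obtain ⟨-, -, -, -, e5, -⟩ := hk
          exact e5)
    refine ⟨h3, ?_⟩
    calc (({b | ∃ u z α β l1 l2 k, D s u z α β l1 l2 k b}.ncard : ℕ) : ℝ)
        ≤ ((∑ u ∈ Icc 1 X, {b | ∃ z α β l1 l2 k, D s u z α β l1 l2 k b}.ncard : ℕ) : ℝ) := by
          exact_mod_cast h4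
      _ = ∑ u ∈ Icc 1 X, (({b | ∃ z α β l1 l2 k, D s u z α β l1 l2 k b}.ncard : ℕ) : ℝ) := by
          push_cast; rfl
      _ ≤ ∑ u ∈ Icc 1 X, (n : ℝ) ^ u.primeFactors.card *
          (LX * (LX * (L0 * (L0 * (X * Φ / u))))) := Finset.sum_le_sum fun u _ => (c2 s u).2
      _ = _ := by
          rw [Finset.mul_sum]
          refine Finset.sum_congr rfl fun u _ => ?_
          ring
  have c0 := MidIneq_step (S := {b ∈ Set.Icc 2 X | MidB n S0 L0 κ X b ∧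
      2 * (PS.filter fun p => p ∣ b - 1).card ≤ PS.card}) (Icc 1 S0)
      (fun s => {b | ∃ u z α β l1 l2 k, D s u z α β l1 l2 k b}) _ (fun s _ => c1 s) (by
        rintro b ⟨hb, hM, hh⟩
        obtain ⟨s, u, z, α, β, l1, l2, k, hk⟩ := MidIneq_exists h2 hn hκ hκ1 hPS hb hM hh
        refine ⟨s, Finset.mem_Icc.2 ⟨?_, ?_⟩, ⟨u, z, α, β, l1, l2, k, hk⟩⟩
        · obtain ⟨-, e2, -⟩ := hk
          exact e2
        · obtain ⟨-, -, e3, -⟩ := hk
          exact e3)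
  rw [Nat.card_Icc, Nat.add_sub_cancel] at c0
  refine c0.2.trans (le_of_eq ?_)
  ring

end Pool.Agent.CDZ
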