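import Pool.Agent.CDZ.StW

/-!
# CDZ / Nest: parities at lacunary frequencies (helper82)
-/

set_option autoImplicit false

open Finset

namespace Pool.Agent.CDZ

/-- Two values of `lam / (a + x)`. -/
private lemma Nest_diff {a x y lam : ℝ} (hx : 0 < a + x) (hy : 0 < a + y) :
    lam / (a + x) - lam / (a + y) = lam * (y - x) / ((a + x) * (a + y)) := by
  field_simp
  ring

/-- The number of integers `t` occurring. -/
private lemma Nest_card (Z : Finset ℤ) (F : ℤ → ℝ) (lo hi : ℝ) (hlh : lo ≤ hi)
    (hF : ∀ t ∈ Z, lo ≤ F t ∧ F t ≤ hi ∧ 2 * (t : ℝ) - 1 / 40 ≤ F t ∧ F t ≤ 2 * (t : ℝ) + 1 + 1 / 40) :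
    (Z.card : ℝ) ≤ (hi - lo) / 2 + 2 := by
  have hsub : Z ⊆ Finset.Icc ⌈(lo - 1 - 1 / 40) / 2⌉ ⌊(hi + 1 / 40) / 2⌋ := by
    intro t ht
    obtain ⟨h1, h2, h3, h4⟩ := hF t ht
    refine Finset.mem_Icc.2 ⟨Int.ceil_le.2 ?_, Int.le_floor.2 ?_⟩
    · linarith
    · linarith
  have h1 := Finset.card_le_card hsub
  rw [Int.card_Icc] at h1
  have h2 : ((⌊(hi + 1 / 40) / 2⌋ + 1 - ⌈(lo - 1 - 1 / 40) / 2⌉).toNat : ℝ) ≤ (hi - lo) / 2 + 2 := by
    have h3 : (⌊(hi + 1 / 40) / 2⌋ : ℝ) ≤ (hi + 1 / 40) / 2 := Int.floor_le _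
    have h4 : (lo - 1 - 1 / 40) / 2 ≤ (⌈(lo - 1 - 1 / 40) / 2⌉ : ℝ) := Int.le_ceil _
    rcases le_or_gt 0 (⌊(hi + 1 / 40) / 2⌋ + 1 - ⌈(lo - 1 - 1 / 40) / 2⌉) with h5 | h5
    · have h6 : (((⌊(hi + 1 / 40) / 2⌋ + 1 - ⌈(lo - 1 - 1 / 40) / 2⌉).toNat : ℤ) : ℝ) =
          ((⌊(hi + 1 / 40) / 2⌋ + 1 - ⌈(lo - 1 - 1 / 40) / 2⌉ : ℤ) : ℝ) := by
        rw [Int.toNat_of_nonneg h5]
      rw [Int.cast_natCast] at h6
      rw [h6]
      push_cast
      linarith
    · rw [Int.toNat_of_nonpos h5.le]
      simp only [Nat.cast_zero]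
      linarith
  exact le_trans (by exact_mod_cast h1) h2

theorem thm_Nest : Nest := by
  classical
  intro Q x w K ρ lam x0 x1 a A T hK hρ hlam hx0 hQ hbase hA hlac
  induction A using Finset.induction_on_min generalizing T with
  | empty =>
    intro hT α β R hRQ hαβ hR
    rw [Finset.card_empty, pow_zero, mul_one]
    refine (hbase α β R hRQ hαβ fun q hq => ⟨(hR q hq).1, (hR q hq).2.1⟩).trans ?_
    exact mul_le_mul_of_nonneg_left (by linarith) hK
  | insert i A' hmin ih =>
    intro hT α β R hRQ hαβ hR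
    have hi : i ∉ A' := fun h => lt_irrefl i (hmin i h)
    rw [Finset.card_insert_of_notMem hi]
    obtain ⟨ai0, hai1, hai2, hai3⟩ := hA i (Finset.mem_insert_self i A')
    rcases R.eq_empty_or_nonempty with hRe | hRne
    · rw [hRe, Finset.sum_empty]
      have hT0 : 0 ≤ T := le_trans hρ hT
      have : 0 ≤ β - α + T := by linarith
      positivity
    obtain ⟨q0, hq0⟩ := hRne
    have hx01 : x0 ≤ x1 := (hQ q0 (hRQ hq0)).1.trans (hQ q0 (hRQ hq0)).2.1
    have hx1 : 0 ≤ x1 := hx0.trans hx01
    -- the slope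
    set c := (a i + x1) ^ 2 / lam with hc
    have hc0 : 0 < c := by rw [hc]; positivity
    have hpos : ∀ q ∈ R, 0 < a i + x q := fun q hq => by
      have := (hQ q (hRQ hq)).1
      linarith
    have hup : ∀ q ∈ R, ∀ q' ∈ R, x q ≤ x q' →
        (x q' - x q) / c ≤ lam / (a i + x q) - lam / (a i + x q') ∧
        lam / (a i + x q) - lam / (a i + x q') ≤ 21 / 20 * ((x q' - x q) / c) := by
      intro q hq q' hq' hle
      obtain ⟨b1, b2, -⟩ := hQ q (hRQ hq)
      obtain ⟨b3, b4, -⟩ := hQ q' (hRQ hq')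
      have hd : 0 ≤ x q' - x q := by linarith
      rw [Nest_diff (hpos q hq) (hpos q' hq')]
      have p1 := hpos q hq
      have p2 := hpos q' hq'
      have hprod1 : (a i + x q) * (a i + x q') ≤ (a i + x1) ^ 2 := by
        rw [sq]
        exact mul_le_mul (by linarith) (by linarith) p2.le (by linarith)
      have hprod2 : (a i + x0) ^ 2 ≤ (a i + x q) * (a i + x q') := by
        rw [sq]
        exact mul_le_mul (by linarith) (by linarith) (by linarith) p1.le
      have hpp : 0 < (a i + x q) * (a i + x q') := mul_pos p1 p2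
      have hsq : 0 < (a i + x1) ^ 2 := by positivity
      constructor
      · rw [hc, div_div_eq_mul_div, mul_comm (x q' - x q) lam]
        exact div_le_div_of_nonneg_left (mul_nonneg hlam.le hd) hpp hprod1
      · rw [hc, div_div_eq_mul_div, mul_comm (x q' - x q) lam, ← mul_div_assoc,
          div_le_div_iff₀ hpp hsq]
        have h1 : (a i + x1) ^ 2 ≤ 21 / 20 * ((a i + x q) * (a i + x q')) :=
          hai1.trans (mul_le_mul_of_nonneg_left hprod2 (by norm_num))
        calc lam * (x q' - x q) * (a i + x1) ^ 2 ≤ lam * (x q' - x q) *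
              (21 / 20 * ((a i + x q) * (a i + x q'))) :=
              mul_le_mul_of_nonneg_left h1 (mul_nonneg hlam.le hd)
          _ = _ := by ring
    -- the value and the integer
    set f : ℕ → ℝ := fun q => lam / (a i + x q) with hf
    have hbad : ∀ q ∈ R, BadR (1 / 40) (f q) := fun q hq =>
      (hR q hq).2.2 i (Finset.mem_insert_self i A')
    choose! τ hτ using hbad
    set Z := R.image τ with hZ
    -- extremal elements
    obtain ⟨qm, hqm, hqmin⟩ := Finset.exists_min_image R x ⟨q0, hq0⟩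
    obtain ⟨qM, hqM, hqmax⟩ := Finset.exists_max_image R x ⟨q0, hq0⟩
    have hlen : x qM - x qm ≤ β - α := by
      have h1 := (hR qM hqM).2.1
      have h2 := (hR qm hqm).1
      linarith
    have hZcard : (Z.card : ℝ) ≤ 21 / 40 * ((β - α) / c) + 2 := by
      have h1 := Nest_card Z (fun t => if h : ∃ q ∈ R, τ q = t then f h.choose else 0)
        (f qM) (f qm) (by
          have := (hup qm hqm qM hqM (hqmin qM hqM)).1
          have h2 : 0 ≤ (x qM - x qm) / c := div_nonneg (by linarith [hqmin qM hqM]) hc0.le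
          simp only [hf]
          linarith) (by
          intro t ht
          obtain ⟨q, hq, hqt⟩ := Finset.mem_image.1 ht
          have hex : ∃ q ∈ R, τ q = t := ⟨q, hq, hqt⟩
          have h2 := hex.choose_spec
          simp only [dif_pos hex]
          set q' := hex.choose with hq'
          have h3 := hτ q' h2.1
          rw [h2.2] at h3
          have h4 := (hup qm hqm q' h2.1 (hqmin q' h2.1)).1
          have h5 : 0 ≤ (x q' - x qm) / c := div_nonneg (by linarith [hqmin q' h2.1]) hc0.le
          have h6 := (hup q' h2.1 qM hqM (hqmax q' h2.1)).1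
          have h7 : 0 ≤ (x qM - x q') / c := div_nonneg (by linarith [hqmax q' h2.1]) hc0.le
          refine ⟨?_, ?_, h3.1, h3.2⟩
          · simp only [hf]; linarith
          · simp only [hf]; linarith)
      have h2 := (hup qm hqm qM hqM (hqmin qM hqM)).2
      have h3 : (x qM - x qm) / c ≤ (β - α) / c := div_le_div_of_nonneg_right hlen hc0.le
      simp only [hf] at h1 h2
      linarith
    -- the induction hypothesis on each class
    have hclass : ∀ t ∈ Z, ∑ q ∈ R.filter (fun q => τ q = t), w q ≤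
        K * (3 / 4) ^ A'.card * (109 / 100 * c) := by
      intro t ht
      obtain ⟨q1, hq1, hq1t⟩ := Finset.mem_image.1 ht
      have hne : (R.filter (fun q => τ q = t)).Nonempty :=
        ⟨q1, Finset.mem_filter.2 ⟨hq1, hq1t⟩⟩
      obtain ⟨sm, hsm, hsmin⟩ := Finset.exists_min_image _ x hne
      obtain ⟨sM, hsM, hsmax⟩ := Finset.exists_max_image _ x hne
      obtain ⟨hsmR, hsmt⟩ := Finset.mem_filter.1 hsm
      obtain ⟨hsMR, hsMt⟩ := Finset.mem_filter.1 hsM
      have hwid : x sM - x sm ≤ 21 / 20 * c := by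
        have h1 := (hup sm hsmR sM hsMR (hsmin sM hsM)).1
        have h2 := hτ sm hsmR
        have h3 := hτ sM hsMR
        rw [hsmt] at h2
        rw [hsMt] at h3
        have h4 : (x sM - x sm) / c ≤ 21 / 20 := by
          have e1 := h2.2
          have e2 := h3.1
          simp only [hf] at e1 e2
          linarith
        rw [div_le_iff₀ hc0] at h4
        exact h4
      have h5 := ih (T := 1 / 25 * c) (fun j hj => by
          obtain ⟨g1, g2, g3, -⟩ := hA j (Finset.mem_insert_of_mem hj)
          refine ⟨g1, g2, g3, ?_⟩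
          have g4 := hlac i (Finset.mem_insert_self i A') j (Finset.mem_insert_of_mem hj)
            (hmin j hj)
          rw [hc, div_le_iff₀ hlam]
          have : 1 / 25 * ((a i + x1) ^ 2 / lam) * lam = 1 / 25 * (a i + x1) ^ 2 := by
            field_simp
          rw [this]
          linarith)
        (fun j hj k hk hjk => hlac j (Finset.mem_insert_of_mem hj) k
          (Finset.mem_insert_of_mem hk) hjk)
        (by
          rw [hc, ← mul_div_assoc, le_div_iff₀ hlam]
          linarith)
        (x sm) (x sM) (R.filter (fun q => τ q = t))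
        ((Finset.filter_subset _ _).trans hRQ) (hsmin sM hsM) (by
          intro q hq
          exact ⟨hsmin q hq, hsmax q hq, fun j hj =>
            (hR q (Finset.mem_filter.1 hq).1).2.2 j (Finset.mem_insert_of_mem hj)⟩)
      refine h5.trans (mul_le_mul_of_nonneg_left ?_ (by positivity))
      linarith
    have hsum : ∑ q ∈ R, w q = ∑ t ∈ Z, ∑ q ∈ R.filter (fun q => τ q = t), w q :=
      (Finset.sum_fiberwise_of_maps_to (fun q hq => Finset.mem_image_of_mem τ hq) w).symm
    rw [hsum]
    have hkc : 0 ≤ K * (3 / 4 : ℝ) ^ A'.card := by positivity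
    calc ∑ t ∈ Z, ∑ q ∈ R.filter (fun q => τ q = t), w q
        ≤ ∑ _t ∈ Z, K * (3 / 4) ^ A'.card * (109 / 100 * c) := Finset.sum_le_sum hclass
      _ = Z.card * (K * (3 / 4) ^ A'.card * (109 / 100 * c)) := by
          rw [Finset.sum_const, nsmul_eq_mul]
      _ ≤ (21 / 40 * ((β - α) / c) + 2) * (K * (3 / 4) ^ A'.card * (109 / 100 * c)) :=
          mul_le_mul_of_nonneg_right hZcard (by positivity)
      _ = K * (3 / 4) ^ A'.card * (2289 / 4000 * (β - α) + 218 / 100 * c) := by
          field_simp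
          ring
      _ ≤ K * (3 / 4) ^ A'.card * (3 / 4 * (β - α + T)) := by
          refine mul_le_mul_of_nonneg_left ?_ hkc
          have h6 : 4 * c ≤ T := by
            rw [hc, ← mul_div_assoc]
            exact hai3
          have h7 : 0 ≤ β - α := by linarith
          linarith
      _ = K * (3 / 4) ^ (A'.card + 1) * (β - α + T) := by
          rw [pow_succ]
          ring

end Pool.Agent.CDZ
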