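import Pool.Agent.CDZ.StC

/-!
# CDZ (C6): local lemma
-/

set_option autoImplicit false

open Finset Filter Topology

namespace Pool.Agent.CDZ

private theorem NotDvdC_fac {c k n p : ℕ} (hn : 1 ≤ n) (hp : p.Prime) (hpc : p ∣ c)
    (hpn : ¬ p ∣ n) (hc : 0 < c) (hk : 0 < k) :
    (c * k + 1) ^ n - 1 ≠ 0 ∧
      ((c * k + 1) ^ n - 1).factorization p = c.factorization p + k.factorization p := by
  have h1 : (∑ i ∈ range n, (c * k + 1) ^ i) * (c * k) + 1 = (c * k + 1) ^ n :=
    geom_sum_mul_add (c * k) n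
  set S := ∑ i ∈ range n, (c * k + 1) ^ i with hS
  have h2 : (c * k + 1) ^ n - 1 = S * (c * k) := by omega
  have h3 : ¬ p ∣ S := by
    intro h
    have hf : Fact p.Prime := ⟨hp⟩
    have h4 : ((S : ℕ) : ZMod p) = 0 := (ZMod.natCast_eq_zero_iff _ _).2 h
    have h5 : ((c : ℕ) : ZMod p) = 0 := (ZMod.natCast_eq_zero_iff _ _).2 hpc
    rw [hS] at h4
    push_cast at h4
    rw [h5] at h4
    simp at h4
    exact hpn ((ZMod.natCast_eq_zero_iff _ _).1 h4)
  have h4 : S ≠ 0 := by
    rintro h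
    rw [h] at h3
    exact h3 (dvd_zero p)
  have h5 : c * k ≠ 0 := (Nat.mul_pos hc hk).ne'
  refine ⟨by rw [h2]; exact mul_ne_zero h4 h5, ?_⟩
  rw [h2, Nat.factorization_mul h4 h5, Nat.factorization_mul hc.ne' hk.ne']
  simp [Nat.factorization_eq_zero_of_not_dvd h3]

theorem thm_NotDvdC : NotDvdC := by
  intro n b c m m' u s u' t p hn hsol hp hpu hpn hpc
  obtain ⟨x, hx⟩ := hsol.hx
  have hm0 : 0 < m := lt_trans hsol.hm' hsol.hmm
  have hpm : p ∣ m := by
    rw [← hsol.em]
    exact hpu.mul_left _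
  have hpm' : ¬ p ∣ m' := by
    intro h
    have := Nat.Coprime.eq_one_of_dvd (Nat.Coprime.coprime_dvd_left hpm hsol.hco) h
    exact hp.one_lt.ne' this
  obtain ⟨ha0, ha⟩ := NotDvdC_fac hn hp hpc hpn hsol.hc hsol.hm'
  obtain ⟨hb0, hb⟩ := NotDvdC_fac hn hp hpc hpn hsol.hc hm0
  have hfm' : m'.factorization p = 0 := Nat.factorization_eq_zero_of_not_dvd hpm'
  have hs0 : s ≠ 0 := by
    rintro rfl
    have := hsol.em
    simp at this
    omega
  have hu0 : u ≠ 0 := hsol.hu.ne_zero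
  have hfu : u.factorization p = 1 := by
    have h1 : u.factorization p ≤ 1 := hsol.hu.natFactorization_le_one p
    have h2 : 0 < u.factorization p := hp.factorization_pos_of_dvd hu0 hpu
    omega
  have hfm : m.factorization p = 2 * s.factorization p + 1 := by
    rw [← hsol.em, Nat.factorization_mul (pow_ne_zero 2 hs0) hu0, Nat.factorization_pow]
    simp [hfu]
  have hx0 : x ≠ 0 := by
    rintro rfl
    have h1 := mul_ne_zero ha0 hb0
    apply h1
    rw [hx]
    simp
  have h1 := congrArg (fun z => z.factorization p) hx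
  simp only [Nat.factorization_mul ha0 hb0, Nat.factorization_pow, Finsupp.coe_add, Pi.add_apply,
    Finsupp.smul_apply, smul_eq_mul] at h1
  rw [ha, hb, hfm', hfm] at h1
  omega

end Pool.Agent.CDZ
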