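import Pool.Agent.CDZ.StE

/-!
# (F1) Odd exponents
-/

set_option autoImplicit false

open Finset Filter Topology

namespace Pool.Agent.CDZ

open Pool.Agent.Cohn (Sol Hn Hn_iff A_bound B_bound C_bound exists_sol)

private theorem OddCase_cop {n p : ℕ} (hn : 3 ≤ n) (hp : 1 ≤ p) (h : p % n = 2 % n) :
    Nat.Coprime (p - 1) n := by
  have h2 : 2 % n = 2 := Nat.mod_eq_of_lt (by omega)
  rw [h2] at h
  have h3 := Nat.div_add_mod p n
  rw [h] at h3
  have h4 : p - 1 = n * (p / n) + 1 := by omega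
  rw [h4, Nat.coprime_mul_left_add_left]
  exact Nat.coprime_one_left n

private theorem OddCase_dvd {n b c m m' u s u' t S0 d : ℕ} (hn : 3 ≤ n)
    (hS : Sol n b c m m' u s u' t) (hs : s ≤ S0) (hd : d ∣ b - 1)
    (hpr : ∀ p : ℕ, p.Prime → p ∣ d → Gp n p ∧ S0 + n < p) : d ∣ c := by
  have hm0 : 0 < m := lt_of_le_of_lt (Nat.zero_le _) hS.hmm
  have hs0 : 0 < s := by
    rcases Nat.eq_zero_or_pos s with h | h
    · have := hS.em
      rw [h] at this
      simp at this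
      omega
    · exact h
  have hcop : Nat.Coprime d (s ^ 2 * u) := by
    rw [Nat.coprime_iff_gcd_eq_one]
    by_contra hne
    obtain ⟨p, hp, hpd⟩ := Nat.exists_prime_and_dvd hne
    have h1 : p ∣ d := hpd.trans (Nat.gcd_dvd_left _ _)
    have h2 : p ∣ s ^ 2 * u := hpd.trans (Nat.gcd_dvd_right _ _)
    obtain ⟨h3, h4⟩ := hpr p hp h1
    rcases (Nat.Prime.dvd_mul hp).1 h2 with h5 | h5
    · have h6 := Nat.le_of_dvd hs0 (hp.dvd_of_dvd_pow h5)
      omega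
    · have h6 : ¬ p ∣ n := fun h => by
        have := Nat.le_of_dvd (by omega) h
        omega
      have h7 := (hS.hp p hp h6 h5).1
      have h8 := ((Hn_iff (by omega) hp).1 h7).2
      exact h8 (OddCase_cop hn hp.one_lt.le h3.2)
  have h9 : b - 1 = c * (s ^ 2 * u) := by
    rw [hS.hb, hS.em, Nat.add_sub_cancel_left]
  rw [h9] at hd
  exact hcop.dvd_of_dvd_mul_right hd

open Classical in
theorem thm_OddCase (h1 : GoodAll) (h2 : MidCount) : OddCase := by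
  intro n ε hn hodd hε
  obtain ⟨S0, hS0⟩ : ∃ S0 : ℕ, 2 / ((S0 : ℝ) + 1) ≤ ε / 6 := by
    obtain ⟨S0, hS0⟩ := exists_nat_gt (12 / ε)
    refine ⟨S0, ?_⟩
    rw [div_le_iff₀ (by positivity)]
    rw [div_lt_iff₀ hε] at hS0
    nlinarith
  obtain ⟨U0, hU0⟩ := C_bound (n := n) (by omega) (δ := 1 / 10) (by norm_num) (by norm_num) S0
    (ε := ε / 6) (by positivity)
  have hB := B_bound (n := n) (by omega) S0 U0 (ε := ε / 6) (by positivity)
  obtain ⟨L0, hL0, hE⟩ := h1 n (S0 + n) (ε / 6) hn hodd (by positivity)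
  have hD := h2 n S0 L0 (1 / 80) (ε / 6) hn hodd hL0 (by norm_num) (by norm_num) (by positivity)
  filter_upwards [hU0, hB, hE, hD] with X hC hB hE hD
  have hA := A_bound n S0 X
  set FA := (Icc 2 X).filter fun b =>
    ∃ c m m' u s u' t : ℕ, Sol n b c m m' u s u' t ∧ S0 < s with hFA
  set FB := (Icc 2 X).filter fun b =>
    ∃ c m m' u s u' t : ℕ, Sol n b c m m' u s u' t ∧ s ≤ S0 ∧ u ≤ U0 with hFB
  set FC := (Icc 2 X).filter fun b => ∃ c m m' u s u' t : ℕ, Sol n b c m m' u s u' t ∧ s ≤ S0 ∧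
    U0 < u ∧ (u : ℝ) ≤ (X : ℝ) ^ ((1 : ℝ) / 2 - 1 / 10) with hFC
  set FD : Set ℕ := {b ∈ Set.Icc 2 X | MidB n S0 L0 (1 / 80) X b} with hFD
  set FE : Set ℕ := {N ∈ Set.Icc 1 X | ¬ ∀ u : ℕ, (X : ℝ) ^ (2 / 5 : ℝ) ≤ u → u ≤ X →
      GoodDiv n (S0 + n) L0 (1 / 80) N u} with hFE
  have hFDf : FD.Finite := (Set.finite_Icc 2 X).subset fun b hb => hb.1
  have hFEf : FE.Finite := (Set.finite_Icc 1 X).subset fun b hb => hb.1
  have hsub : {b ∈ Set.Icc 2 X | ∃ a x : ℕ, 2 ≤ a ∧ a < b ∧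
      (a ^ n - 1) * (b ^ n - 1) = x ^ 2} ⊆
      ((FA ∪ FB ∪ FC : Finset ℕ) : Set ℕ) ∪ (FD ∪ (fun N => N + 1) '' FE) := by
    rintro b ⟨hb, a, x, ha, hab, hx⟩
    obtain ⟨c, m, m', u, s, u', t, hS⟩ := exists_sol (by omega) ha hab hx
    have hbI : b ∈ Icc 2 X := mem_Icc.2 ⟨hb.1, hb.2⟩
    by_cases hs : S0 < s
    · left
      rw [mem_coe, mem_union, mem_union]
      exact Or.inl (Or.inl (mem_filter.2 ⟨hbI, c, m, m', u, s, u', t, hS, hs⟩))
    push Not at hs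
    by_cases hu : (u : ℝ) ≤ (X : ℝ) ^ ((1 : ℝ) / 2 - 1 / 10)
    · left
      rw [mem_coe, mem_union, mem_union]
      rcases le_or_gt u U0 with hu2 | hu2
      · exact Or.inl (Or.inr (mem_filter.2 ⟨hbI, c, m, m', u, s, u', t, hS, hs, hu2⟩))
      · exact Or.inr (mem_filter.2 ⟨hbI, c, m, m', u, s, u', t, hS, hs, hu2, hu⟩)
    push Not at hu
    have e25 : (1 : ℝ) / 2 - 1 / 10 = 2 / 5 := by norm_num
    rw [e25] at hu
    right
    have hm0 : 0 < m := lt_of_le_of_lt (Nat.zero_le _) hS.hmm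
    have hcm : b - 1 = c * m := by
      rw [hS.hb, Nat.add_sub_cancel_left]
    have hum : u ≤ m := Nat.le_of_dvd hm0 ⟨s ^ 2, by rw [← hS.em, mul_comm]⟩
    have hmc : m ≤ c * m := Nat.le_mul_of_pos_left m hS.hc
    have hb1 : b - 1 ≤ X := by
      have := hb.2
      omega
    have huX : u ≤ X := by omega
    by_cases hN : b - 1 ∈ FE
    · right
      refine ⟨b - 1, hN, ?_⟩
      show b - 1 + 1 = b
      have := hb.1
      omega
    · left
      have hgood : ∀ u : ℕ, (X : ℝ) ^ (2 / 5 : ℝ) ≤ u → u ≤ X →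
          GoodDiv n (S0 + n) L0 (1 / 80) (b - 1) u := by
        by_contra hcon
        apply hN
        refine ⟨⟨?_, hb1⟩, hcon⟩
        have := hb.1
        omega
      obtain ⟨d1, d2, l1, l2, g1, g2, g3, g4, g5, g6, g7, g8⟩ := hgood u hu.le huX
      exact ⟨hb, c, m, m', u, s, u', t, hS, hs, hu.le, d1, d2, l1, l2,
        OddCase_dvd hn hS hs g1 g2, g3, g4, g5, g6, g7, g8⟩
  have hfin : (((FA ∪ FB ∪ FC : Finset ℕ) : Set ℕ) ∪ (FD ∪ (fun N => N + 1) '' FE)).Finite :=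
    (Finset.finite_toSet _).union (hFDf.union (hFEf.image _))
  have e1 := Set.ncard_le_ncard hsub hfin
  have e2 := Set.ncard_union_le ((FA ∪ FB ∪ FC : Finset ℕ) : Set ℕ) (FD ∪ (fun N => N + 1) '' FE)
  have e3 := Set.ncard_union_le FD ((fun N => N + 1) '' FE)
  have e4 := Set.ncard_image_le (f := fun N : ℕ => N + 1) hFEf
  rw [Set.ncard_coe_finset] at e2
  have e5 : (FA ∪ FB ∪ FC).card ≤ FA.card + FB.card + FC.card :=
    (card_union_le _ _).trans (Nat.add_le_add_right (card_union_le _ _) _)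
  have e6 : ({b ∈ Set.Icc 2 X | ∃ a x : ℕ, 2 ≤ a ∧ a < b ∧
      (a ^ n - 1) * (b ^ n - 1) = x ^ 2}.ncard : ℕ) ≤
      FA.card + FB.card + FC.card + (FD.ncard + FE.ncard) := by omega
  have e7 : (({b ∈ Set.Icc 2 X | ∃ a x : ℕ, 2 ≤ a ∧ a < b ∧
      (a ^ n - 1) * (b ^ n - 1) = x ^ 2}.ncard : ℕ) : ℝ) ≤
      (FA.card : ℝ) + FB.card + FC.card + (FD.ncard + FE.ncard) := by exact_mod_cast e6
  have hX0 : (0 : ℝ) ≤ X := Nat.cast_nonneg X
  have e8 : 2 / ((S0 : ℝ) + 1) * X ≤ ε / 6 * X := mul_le_mul_of_nonneg_right hS0 hX0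
  have e9 : (0 : ℝ) ≤ ε * X := by positivity
  linarith

end Pool.Agent.CDZ
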