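import Pool.Agent.CDZ.StE

/-!
# (E3) The numbers `b` with `b ^ m = T_l(y)`, `l` an odd prime
-/

set_option autoImplicit false

open Finset Filter Topology

namespace Pool.Agent.CDZ

/-- the shape of `y` -/
private theorem OddCount_shape (h : ChebProp) {m b l y : ℕ} (hm : 1 ≤ m) (hb : 2 ≤ b)
    (hl : l.Prime) (hlo : Odd l) (hy : 2 ≤ y) (hbT : ((b ^ m : ℕ) : ℤ) = Tv l y) :
    y ^ l ≤ b ^ m ∧ ∃ j w : ℕ, j < m ∧ y = l ^ j * w ^ m := by
  obtain ⟨h1, U, hU, hp⟩ := h l y hlo hy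
  refine ⟨by rw [← hbT] at h1; exact_mod_cast h1, ?_⟩
  have hUpos : 0 < U := by
    have h2 : (0 : ℤ) < y * U := by
      rw [← hU, ← hbT]
      have : 0 < b ^ m := pow_pos (by omega) m
      exact_mod_cast this
    have h3 : (0 : ℤ) < y := by exact_mod_cast (by omega : 0 < y)
    exact pos_of_mul_pos_right h2 h3.le
  obtain ⟨V, rfl⟩ : ∃ V : ℕ, U = V := ⟨U.toNat, (Int.toNat_of_nonneg hUpos.le).symm⟩
  have hbV : b ^ m = y * V := by
    rw [hU] at hbT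
    exact_mod_cast hbT
  obtain ⟨e, y', hly', hye⟩ := Nat.exists_eq_pow_mul_and_not_dvd (n := y) (by omega) l hl.ne_one
  have hc1 : Nat.Coprime y' (l ^ e * V) := by
    refine Nat.Coprime.mul_right ?_ ?_
    · exact (Nat.Coprime.pow_left e ((Nat.Prime.coprime_iff_not_dvd hl).2 hly')).symm
    · rw [Nat.coprime_iff_gcd_eq_one]
      by_contra hne
      obtain ⟨p, hpp, hpd⟩ := Nat.exists_prime_and_dvd hne
      have hp1 : p ∣ y' := hpd.trans (Nat.gcd_dvd_left _ _)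
      have hp2 : p ∣ V := hpd.trans (Nat.gcd_dvd_right _ _)
      have hp3 : p ∣ l := hp p hpp (by rw [hye]; exact hp1.mul_left _) (by exact_mod_cast hp2)
      have hp4 : p = l := (Nat.prime_dvd_prime_iff_eq hpp hl).1 hp3
      exact hly' (hp4 ▸ hp1)
  have hmul : y' * (l ^ e * V) = b ^ m := by
    rw [hbV, hye]
    ring
  obtain ⟨w', hw'⟩ := exists_eq_pow_of_mul_eq_pow (by
    show IsUnit (gcd y' (l ^ e * V))
    rw [Nat.isUnit_iff]
    exact hc1) hmul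
  refine ⟨e % m, l ^ (e / m) * w', Nat.mod_lt _ (by omega), ?_⟩
  rw [mul_pow, ← pow_mul, ← mul_assoc, ← pow_add, ← hw', mul_comm (e / m) m, Nat.mod_add_div,
    hye]

private theorem OddCount_set (h : ChebProp) {m X : ℕ} (hm : 1 ≤ m) (hX : 1 ≤ X) :
    {b ∈ Set.Icc 2 X | ∃ l y : ℕ, l.Prime ∧ Odd l ∧ 2 ≤ y ∧ ((b ^ m : ℕ) : ℤ) = Tv l y}.ncard ≤
      (m * (Nat.log 2 X + 1)) * (m * (⌊(X : ℝ) ^ (1 / 3 : ℝ)⌋₊ + 1)) := by
  classical
  let T : Finset (ℕ × ℕ × ℕ) := range (m * (Nat.log 2 X + 1)) ×ˢ (range m ×ˢ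
    range (⌊(X : ℝ) ^ (1 / 3 : ℝ)⌋₊ + 1))
  let g : ℕ × ℕ × ℕ → ℕ := fun t =>
    if ht : ∃ b : ℕ, ((b ^ m : ℕ) : ℤ) = Tv t.1 ((t.1 ^ t.2.1 * t.2.2 ^ m : ℕ) : ℤ)
    then ht.choose else 0
  have hsub : {b ∈ Set.Icc 2 X | ∃ l y : ℕ, l.Prime ∧ Odd l ∧ 2 ≤ y ∧
      ((b ^ m : ℕ) : ℤ) = Tv l y} ⊆ g '' (T : Set (ℕ × ℕ × ℕ)) := by
    rintro b ⟨⟨hb2, hbX⟩, l, y, hl, hlo, hy, hbT⟩
    obtain ⟨h1, j, w, hj, hyw⟩ := OddCount_shape h hm hb2 hl hlo hy hbT
    have hyX : y ^ l ≤ X ^ m := h1.trans (Nat.pow_le_pow_left hbX m)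
    refine ⟨(l, j, w), ?_, ?_⟩
    · simp only [T, coe_product, Set.mem_prod, Finset.mem_coe, Finset.mem_range]
      refine ⟨?_, hj, ?_⟩
      · have h2 : 2 ^ l < 2 ^ (m * (Nat.log 2 X + 1)) := by
          calc 2 ^ l ≤ y ^ l := Nat.pow_le_pow_left hy l
            _ ≤ X ^ m := hyX
            _ < (2 ^ (Nat.log 2 X + 1)) ^ m :=
                Nat.pow_lt_pow_left (Nat.lt_pow_succ_log_self (by norm_num) X) (by omega)
            _ = 2 ^ (m * (Nat.log 2 X + 1)) := by rw [← pow_mul, mul_comm]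
        exact (Nat.pow_lt_pow_iff_right (by norm_num)).1 h2
      · have hl3 : 3 ≤ l := by
          have := hl.two_le
          rcases hlo with ⟨k, hk⟩
          omega
        have hlj : 1 ≤ l ^ j := Nat.one_le_pow _ _ hl.pos
        have h3 : w ^ m ≤ y := by
          rw [hyw]
          exact Nat.le_mul_of_pos_left _ (by omega)
        have h4 : (w ^ l) ^ m ≤ X ^ m := by
          calc (w ^ l) ^ m = (w ^ m) ^ l := by rw [← pow_mul, ← pow_mul, mul_comm]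
            _ ≤ y ^ l := Nat.pow_le_pow_left h3 l
            _ ≤ X ^ m := hyX
        have h5 : w ^ l ≤ X := (Nat.pow_le_pow_iff_left (by omega)).1 h4
        have h6 : w ^ 3 ≤ X := by
          rcases Nat.eq_zero_or_pos w with hw | hw
          · rw [hw]
            simp
          · exact (Nat.pow_le_pow_right hw hl3).trans h5
        have h7 : (w : ℝ) ≤ (X : ℝ) ^ (1 / 3 : ℝ) := by
          have h8 : ((w : ℝ) ^ 3) ^ (1 / 3 : ℝ) ≤ (X : ℝ) ^ (1 / 3 : ℝ) :=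
            Real.rpow_le_rpow (by positivity) (by exact_mod_cast h6) (by norm_num)
          rw [← Real.rpow_natCast, ← Real.rpow_mul (Nat.cast_nonneg w)] at h8
          norm_num at h8
          convert h8 using 2
        exact Nat.lt_succ_of_le (Nat.le_floor h7)
    · have ht : ∃ b' : ℕ, ((b' ^ m : ℕ) : ℤ) = Tv l ((l ^ j * w ^ m : ℕ) : ℤ) :=
        ⟨b, by rw [hbT, hyw]⟩
      have h9 : g (l, j, w) = ht.choose := dif_pos ht
      have h10 : ht.choose ^ m = b ^ m := by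
        have h11 := ht.choose_spec
        have h12 : Tv l ((l ^ j * w ^ m : ℕ) : ℤ) = ((b ^ m : ℕ) : ℤ) := by rw [← hyw, hbT]
        exact_mod_cast h11.trans h12
      rw [h9]
      exact Nat.pow_left_injective (by omega) h10
  refine (Set.ncard_le_ncard hsub ((T.finite_toSet).image g)).trans
    ((Set.ncard_image_le T.finite_toSet).trans ?_)
  rw [Set.ncard_coe_finset]
  simp only [T, card_product, card_range]
  exact le_rfl

theorem thm_OddCount (h : ChebProp) : OddCount := by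
  intro m ε hm hε
  have hr3 : (0 : ℝ) < 1 / 3 := by norm_num
  -- asymptotics
  have h1 : ∀ᶠ X : ℕ in atTop, 3 + 3 * Real.log X ≤ (X : ℝ) ^ (1 / 3 : ℝ) := by
    have h2 : ∀ᶠ x : ℝ in atTop, 3 + 3 * Real.log x ≤ x ^ (1 / 3 : ℝ) := by
      have h3 := (isLittleO_log_rpow_atTop hr3).bound (c := 1 / 6) (by norm_num)
      have h4 : ∀ᶠ x : ℝ in atTop, (6 : ℝ) ≤ x ^ (1 / 3 : ℝ) :=
        (tendsto_rpow_atTop hr3).eventually_ge_atTop 6
      filter_upwards [h3, h4, eventually_ge_atTop 1] with x h5 h6 h7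
      rw [Real.norm_eq_abs, Real.norm_eq_abs, abs_of_nonneg (Real.log_nonneg h7),
        abs_of_nonneg (Real.rpow_nonneg (by linarith) _)] at h5
      linarith
    exact tendsto_natCast_atTop_atTop.eventually h2
  have h2 : ∀ᶠ X : ℕ in atTop, 2 * (m : ℝ) ^ 2 / ε ≤ (X : ℝ) ^ (1 / 3 : ℝ) := by
    have h3 : ∀ᶠ x : ℝ in atTop, 2 * (m : ℝ) ^ 2 / ε ≤ x ^ (1 / 3 : ℝ) :=
      (tendsto_rpow_atTop hr3).eventually_ge_atTop _
    exact tendsto_natCast_atTop_atTop.eventually h3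
  filter_upwards [h1, h2, eventually_ge_atTop 2] with X h3 h4 hX
  have hX0 : (0 : ℝ) < X := by exact_mod_cast (by omega : 0 < X)
  have hX1 : (1 : ℝ) ≤ X := by exact_mod_cast (by omega : 1 ≤ X)
  set r : ℝ := (X : ℝ) ^ (1 / 3 : ℝ) with hr
  have hr0 : 0 < r := Real.rpow_pos_of_pos hX0 _
  have hr1 : 1 ≤ r := Real.one_le_rpow hX1 (by norm_num)
  have hrrr : r * r * r = X := by
    rw [hr, ← Real.rpow_add hX0, ← Real.rpow_add hX0]
    norm_num
  have h5 : (({b ∈ Set.Icc 2 X | ∃ l y : ℕ, l.Prime ∧ Odd l ∧ 2 ≤ y ∧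
      ((b ^ m : ℕ) : ℤ) = Tv l y}.ncard : ℕ) : ℝ) ≤
      (m * ((Nat.log 2 X : ℝ) + 1)) * (m * ((⌊r⌋₊ : ℝ) + 1)) := by
    exact_mod_cast OddCount_set h hm (by omega : 1 ≤ X)
  have h6 : (Nat.log 2 X : ℝ) ≤ 2 * Real.log X := by
    have h7 : (Nat.log 2 X : ℝ) * Real.log 2 ≤ Real.log X := by
      have h8 : ((2 : ℕ) ^ Nat.log 2 X : ℕ) ≤ X := Nat.pow_log_le_self 2 (by omega)
      have h9 : ((2 : ℝ) ^ Nat.log 2 X) ≤ X := by exact_mod_cast h8
      have h10 := Real.log_le_log (by positivity) h9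
      rwa [Real.log_pow] at h10
    have h11 := Real.log_two_gt_d9
    have h12 : (0 : ℝ) ≤ Nat.log 2 X := Nat.cast_nonneg _
    nlinarith
  have h7 : (⌊r⌋₊ : ℝ) ≤ r := Nat.floor_le hr0.le
  have h8 : (Nat.log 2 X : ℝ) + 1 ≤ r := by
    have := Real.log_nonneg hX1
    linarith
  have h9 : (⌊r⌋₊ : ℝ) + 1 ≤ 2 * r := by linarith
  have hm0 : (0 : ℝ) ≤ m := Nat.cast_nonneg m
  have h10 : (m * ((Nat.log 2 X : ℝ) + 1)) * (m * ((⌊r⌋₊ : ℝ) + 1)) ≤ (m * r) * (m * (2 * r)) := by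
    refine mul_le_mul (mul_le_mul_of_nonneg_left h8 hm0) (mul_le_mul_of_nonneg_left h9 hm0)
      (by positivity) (by positivity)
  have h11 : 2 * (m : ℝ) ^ 2 ≤ ε * r := by
    rw [div_le_iff₀ hε] at h4
    linarith
  calc _ ≤ (m * r) * (m * (2 * r)) := h5.trans h10
    _ = 2 * (m : ℝ) ^ 2 * (r * r) := by ring
    _ ≤ ε * r * (r * r) := mul_le_mul_of_nonneg_right h11 (by positivity)
    _ = ε * X := by rw [← hrrr]; ring

end Pool.Agent.CDZ
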