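import Pool.Agent.CDZ.StC

/-!
# CDZ, statement C3: the sum of `n ^ ω(u) / u`
-/

set_option autoImplicit false

open Finset Filter Topology

namespace Pool.Agent.CDZ

private theorem OmSum_key (n u : ℕ) (hu : 1 ≤ u) :
    ((n + 1 : ℕ) : ℝ) ^ u.primeFactors.card ≤ ∑ d ∈ u.divisors, (n : ℝ) ^ d.primeFactors.card := by
  have h1 : ((n + 1 : ℕ) : ℝ) ^ u.primeFactors.card =
      ∑ t ∈ u.primeFactors.powerset, (n : ℝ) ^ t.card := by
    have h2 := Finset.sum_pow_mul_eq_add_pow (n : ℝ) 1 u.primeFactors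
    push_cast
    rw [← h2]
    apply sum_congr rfl
    intro t _
    rw [one_pow, mul_one]
  rw [h1]
  have hpr : ∀ t ∈ u.primeFactors.powerset, ∀ p ∈ t, p.Prime := by
    intro t ht p hp
    exact Nat.prime_of_mem_primeFactors (mem_powerset.1 ht hp)
  have h3 : ∀ t ∈ u.primeFactors.powerset, (n : ℝ) ^ t.card =
      (n : ℝ) ^ (∏ p ∈ t, p : ℕ).primeFactors.card := by
    intro t ht
    rw [Nat.primeFactors_prod (hpr t ht)]
  rw [sum_congr rfl h3]
  have hinj : Set.InjOn (fun t : Finset ℕ => ∏ p ∈ t, p) (u.primeFactors.powerset : Set (Finset ℕ)) := by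
    intro t ht t' ht' h
    have h4 : (∏ p ∈ t, p : ℕ).primeFactors = (∏ p ∈ t', p : ℕ).primeFactors := by
      have h5 : (∏ p ∈ t, p : ℕ) = ∏ p ∈ t', p := h
      rw [h5]
    rwa [Nat.primeFactors_prod (hpr t (mem_coe.1 ht)),
      Nat.primeFactors_prod (hpr t' (mem_coe.1 ht'))] at h4
  rw [← sum_image (f := fun d : ℕ => (n : ℝ) ^ d.primeFactors.card) hinj]
  apply sum_le_sum_of_subset_of_nonneg
  · intro d hd
    rw [mem_image] at hd
    obtain ⟨t, ht, rfl⟩ := hd
    rw [Nat.mem_divisors]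
    exact ⟨(prod_dvd_prod_of_subset _ _ _ (mem_powerset.1 ht)).trans (Nat.prod_primeFactors_dvd u),
      by omega⟩
  · intro d _ _
    positivity

private theorem OmSum_mult (X d : ℕ) (hd : 1 ≤ d) :
    ∑ u ∈ (Icc 1 X).filter (fun u => d ∣ u), (d : ℝ) / u ≤ ∑ e ∈ Icc 1 X, (1 : ℝ) / e := by
  have hd' : (d : ℝ) ≠ 0 := by
    have : d ≠ 0 := by omega
    exact_mod_cast this
  have h1 : (Icc 1 X).filter (fun u => d ∣ u) ⊆ (Icc 1 X).image (fun e => d * e) := by
    intro u hu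
    rw [mem_filter, mem_Icc] at hu
    obtain ⟨⟨h2, h3⟩, e, rfl⟩ := hu
    rw [mem_image]
    refine ⟨e, ?_, rfl⟩
    rw [mem_Icc]
    constructor
    · by_contra h
      have : e = 0 := by omega
      subst this
      omega
    · exact (Nat.le_mul_of_pos_left e (by omega)).trans h3
  refine (sum_le_sum_of_subset_of_nonneg h1 (fun u _ _ => by positivity)).trans (le_of_eq ?_)
  rw [sum_image (fun a _ b _ h => Nat.eq_of_mul_eq_mul_left (by omega) h)]
  apply sum_congr rfl
  intro e _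
  push_cast
  rw [div_mul_eq_div_div, div_self hd']

private theorem OmSum_step (n X : ℕ) :
    ∑ u ∈ Icc 1 X, ((n + 1 : ℕ) : ℝ) ^ u.primeFactors.card / (u : ℝ) ≤
      (∑ u ∈ Icc 1 X, (n : ℝ) ^ u.primeFactors.card / (u : ℝ)) * ∑ e ∈ Icc 1 X, (1 : ℝ) / e := by
  calc ∑ u ∈ Icc 1 X, ((n + 1 : ℕ) : ℝ) ^ u.primeFactors.card / (u : ℝ)
      ≤ ∑ u ∈ Icc 1 X, ∑ d ∈ Icc 1 X, (if d ∣ u then (n : ℝ) ^ d.primeFactors.card / u else 0) := by
        apply sum_le_sum
        intro u hu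
        rw [mem_Icc] at hu
        have hu0 : (0 : ℝ) < u := by
          have : 0 < u := by omega
          exact_mod_cast this
        rw [← sum_filter]
        have h1 : u.divisors ⊆ (Icc 1 X).filter (fun d => d ∣ u) := by
          intro d hd
          rw [mem_filter, mem_Icc]
          exact ⟨⟨Nat.pos_of_mem_divisors hd, (Nat.divisor_le hd).trans hu.2⟩,
            Nat.dvd_of_mem_divisors hd⟩
        refine le_trans ?_ (sum_le_sum_of_subset_of_nonneg h1 (fun d _ _ => by positivity))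
        rw [← sum_div]
        exact div_le_div_of_nonneg_right (OmSum_key n u hu.1) hu0.le
    _ = ∑ d ∈ Icc 1 X, ∑ u ∈ Icc 1 X, (if d ∣ u then (n : ℝ) ^ d.primeFactors.card / u else 0) :=
        sum_comm
    _ ≤ ∑ d ∈ Icc 1 X, (n : ℝ) ^ d.primeFactors.card / (d : ℝ) * ∑ e ∈ Icc 1 X, (1 : ℝ) / e := by
        apply sum_le_sum
        intro d hd
        rw [mem_Icc] at hd
        have hd0 : (d : ℝ) ≠ 0 := by
          have : d ≠ 0 := by omega
          exact_mod_cast this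
        rw [← sum_filter]
        have h1 : ∑ u ∈ (Icc 1 X).filter (fun u => d ∣ u), (n : ℝ) ^ d.primeFactors.card / u =
            (n : ℝ) ^ d.primeFactors.card / (d : ℝ) *
              ∑ u ∈ (Icc 1 X).filter (fun u => d ∣ u), (d : ℝ) / u := by
          rw [mul_sum]
          apply sum_congr rfl
          intro u _
          rw [div_mul_div_comm, mul_comm (d : ℝ), mul_div_mul_right _ _ hd0]
        rw [h1]
        exact mul_le_mul_of_nonneg_left (OmSum_mult X d hd.1) (by positivity)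
    _ = _ := by rw [sum_mul]

private theorem OmSum_pow (X n : ℕ) :
    ∑ u ∈ Icc 1 X, ((n + 1 : ℕ) : ℝ) ^ u.primeFactors.card / (u : ℝ) ≤
      (∑ e ∈ Icc 1 X, (1 : ℝ) / e) ^ (n + 1) := by
  induction n with
  | zero =>
    rw [zero_add, pow_one]
    apply le_of_eq
    apply sum_congr rfl
    intro u _
    rw [Nat.cast_one, one_pow]
  | succ n ih =>
    refine (OmSum_step (n + 1) X).trans ?_
    rw [pow_succ (∑ e ∈ Icc 1 X, (1 : ℝ) / e) (n + 1)]
    apply mul_le_mul_of_nonneg_right ih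
    positivity

theorem thm_OmSum : OmSum := by
  intro n hn
  refine ⟨1, n, one_pos, by exact_mod_cast hn, ?_⟩
  intro X hX
  obtain ⟨k, rfl⟩ : ∃ k, n = k + 1 := ⟨n - 1, by omega⟩
  have h1 : ∑ e ∈ Icc 1 X, (1 : ℝ) / e ≤ Real.log X + 1 := by
    have h2 := harmonic_le_one_add_log X
    rw [harmonic_eq_sum_Icc] at h2
    push_cast at h2
    have h3 : ∑ e ∈ Icc 1 X, (1 : ℝ) / e = ∑ e ∈ Icc 1 X, ((e : ℕ) : ℝ)⁻¹ :=
      sum_congr rfl fun e _ => one_div _
    rw [h3]
    linarith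
  rw [one_mul, Real.rpow_natCast]
  refine (OmSum_pow X k).trans ?_
  exact pow_le_pow_left₀ (by positivity) h1 _

end Pool.Agent.CDZ
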