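import Pool.Agent.CDZ.StE

/-!
# CDZ, module E1: Pell equations
-/

set_option autoImplicit false

open Finset Filter Topology

namespace Pool.Agent.CDZ

open Pell

private theorem PellChain_rec {d : ℤ} (a : Solution₁ d) (k : ℕ) :
    (a ^ (k + 2)).x = 2 * a.x * (a ^ (k + 1)).x - (a ^ k).x := by
  have h1 : (a ^ (k + 2)).x = (a ^ (k + 1)).x * a.x + d * ((a ^ (k + 1)).y * a.y) := by
    rw [← Solution₁.x_mul, ← pow_succ]
  have h2 : (a ^ k).x = (a ^ (k + 1)).x * a.x - d * ((a ^ (k + 1)).y * a.y) := by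
    have e : a ^ k = a ^ (k + 1) * a⁻¹ := by rw [pow_succ, mul_inv_cancel_right]
    have h3 : (a ^ k).x = (a ^ (k + 1) * a⁻¹).x := by rw [← e]
    rw [h3, Solution₁.x_mul, Solution₁.x_inv, Solution₁.y_inv]
    ring
  rw [h1, h2]
  ring

private theorem PellChain_Tv_rec (k : ℕ) (y : ℤ) :
    Tv (k + 2) y = 2 * y * Tv (k + 1) y - Tv k y := by
  unfold Tv
  have h := Polynomial.Chebyshev.T_add_two ℤ (k : ℤ)
  push_cast
  rw [h]
  simp

private theorem PellChain_cheb {d : ℤ} (a : Solution₁ d) (k : ℕ) :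
    (a ^ k).x = Tv k a.x ∧ (a ^ (k + 1)).x = Tv (k + 1) a.x := by
  induction k with
  | zero => simp [Tv]
  | succ k ih =>
    refine ⟨ih.2, ?_⟩
    rw [PellChain_rec, PellChain_Tv_rec, ih.1, ih.2]

theorem thm_PellChain : PellChain := by
  intro A B x hA hAB h
  have hA2 : 4 ≤ A ^ 2 := by nlinarith
  have hB2 : 4 ≤ B ^ 2 := by nlinarith
  obtain ⟨D, y0, hD, hsq⟩ := Nat.sq_mul_squarefree (A ^ 2 - 1)
  have hy0 : 0 < y0 := by
    rcases Nat.eq_zero_or_pos y0 with h0 | h0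
    · rw [h0] at hD
      simp at hD
      omega
    · exact h0
  have hD0 : 0 < D := by
    rcases Nat.eq_zero_or_pos D with h0 | h0
    · rw [h0] at hD
      simp at hD
      omega
    · exact h0
  rw [← hD] at h
  have h1 : y0 ∣ x := by
    have h2 : y0 ^ 2 ∣ x ^ 2 := by
      rw [← h, mul_assoc]
      exact dvd_mul_right _ _
    exact (Nat.pow_dvd_pow_iff two_ne_zero).1 h2
  obtain ⟨x', rfl⟩ := h1
  have h2 : D * (B ^ 2 - 1) = x' ^ 2 := by
    have h3 : y0 ^ 2 * (D * (B ^ 2 - 1)) = y0 ^ 2 * x' ^ 2 := by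
      rw [← mul_assoc, h, mul_pow]
    exact Nat.eq_of_mul_eq_mul_left (by positivity) h3
  have h3 : D ∣ x' := (hsq.dvd_pow_iff_dvd two_ne_zero).1 (h2 ▸ dvd_mul_right _ _)
  obtain ⟨z, rfl⟩ := h3
  have h4 : B ^ 2 - 1 = D * z ^ 2 := by
    have h5 : D * (B ^ 2 - 1) = D * (D * z ^ 2) := by
      rw [h2]; ring
    exact Nat.eq_of_mul_eq_mul_left hD0 h5
  have hz : 0 < z := by
    rcases Nat.eq_zero_or_pos z with h0 | h0
    · rw [h0] at h4
      simp at h4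
      omega
    · exact h0
  have eA : (A : ℤ) ^ 2 - (D : ℤ) * (y0 : ℤ) ^ 2 = 1 := by
    have h5 : A ^ 2 = y0 ^ 2 * D + 1 := by omega
    have h6 : (A : ℤ) ^ 2 = (y0 : ℤ) ^ 2 * D + 1 := by exact_mod_cast h5
    rw [h6]; ring
  have eB : (B : ℤ) ^ 2 - (D : ℤ) * (z : ℤ) ^ 2 = 1 := by
    have h5 : B ^ 2 = D * z ^ 2 + 1 := by omega
    have h6 : (B : ℤ) ^ 2 = (D : ℤ) * (z : ℤ) ^ 2 + 1 := by exact_mod_cast h5
    rw [h6]; ring
  set a : Solution₁ (D : ℤ) := Solution₁.mk A y0 eA with ha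
  set b : Solution₁ (D : ℤ) := Solution₁.mk B z eB with hb
  have hax : a.x = A := Solution₁.x_mk _ _ _
  have hbx : b.x = B := Solution₁.x_mk _ _ _
  have hby : b.y = z := Solution₁.y_mk _ _ _
  have ha1 : 1 < a.x := by rw [hax]; exact_mod_cast hA
  obtain ⟨a₁, h₁⟩ := IsFundamental.exists_of_not_isSquare (Solution₁.d_pos_of_one_lt_x ha1)
    (Solution₁.d_nonsquare_of_one_lt_x ha1)
  obtain ⟨s, hs⟩ := h₁.eq_pow_of_nonneg (a := b) (by rw [hbx]; exact_mod_cast (by omega : 0 < B))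
    (by rw [hby]; exact_mod_cast hz.le)
  have hs0 : s ≠ 0 := by
    rintro rfl
    rw [pow_zero] at hs
    have h5 : b.x = 1 := by rw [hs]; exact Solution₁.x_one
    rw [hbx] at h5
    have : B = 1 := by exact_mod_cast h5
    omega
  have hs1 : s ≠ 1 := by
    rintro rfl
    rw [pow_one] at hs
    have h5 : a₁.x ≤ a.x := h₁.x_le_x ha1
    rw [← hs, hbx, hax] at h5
    have : B ≤ A := by exact_mod_cast h5
    omega
  obtain ⟨t, ht⟩ := Nat.minFac_dvd s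
  have ht0 : t ≠ 0 := by
    rintro rfl
    rw [mul_zero] at ht
    exact hs0 ht
  obtain ⟨r, rfl⟩ := Nat.exists_eq_succ_of_ne_zero ht0
  have hx1 : 0 < (a₁ ^ (r + 1)).x := Solution₁.x_pow_pos h₁.x_pos _
  have hy1 : 0 < (a₁ ^ (r + 1)).y := Solution₁.y_pow_succ_pos h₁.x_pos h₁.2.1 r
  have hx2 : 2 ≤ (a₁ ^ (r + 1)).x := by
    have h5 := (a₁ ^ (r + 1)).prop_x
    have hDz : (0 : ℤ) < D := by exact_mod_cast hD0
    have h6 : 0 < (D : ℤ) * (a₁ ^ (r + 1)).y ^ 2 := by positivity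
    by_contra hcon
    have h7 : (a₁ ^ (r + 1)).x = 1 := by omega
    rw [h7] at h5
    linarith
  refine ⟨s.minFac, (a₁ ^ (r + 1)).x.toNat, Nat.minFac_prime hs1, by omega, ?_⟩
  rw [Int.toNat_of_nonneg hx1.le, ← (PellChain_cheb (a₁ ^ (r + 1)) s.minFac).1, ← pow_mul]
  have h5 : (r + 1) * s.minFac = s := by rw [mul_comm]; exact ht.symm
  rw [h5, ← hs, hbx]

end Pool.Agent.CDZ
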