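import Pool.Agent.CDZ.StC
import Pool.Agent.Cohn.Classes

/-!
# CDZ, statement C5: the set of primes `PS`
-/

set_option autoImplicit false

open Finset Filter Topology

namespace Pool.Agent.CDZ

open Pool.Agent.Cohn (th Hc th_class_tendsto)

private theorem PrmSet_pow (B : ℝ) (hB : 0 < B) : ∀ᶠ y : ℕ in atTop,
    B * √((y : ℝ) + 1) * Real.log (2 * (y : ℝ)) ≤ y := by
  have h1 := ((tendsto_rpow_atTop (show (0 : ℝ) < 1 / 4 by norm_num)).comp
    tendsto_natCast_atTop_atTop).eventually_ge_atTop (8 * B)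
  filter_upwards [h1, eventually_ge_atTop 1] with y hy hy1
  have hy1' : (1 : ℝ) ≤ y := by exact_mod_cast hy1
  obtain ⟨z, hz⟩ : ∃ z : ℝ, z = 2 * (y : ℝ) := ⟨_, rfl⟩
  have hz0 : 0 < z := by linarith
  have h2 : √((y : ℝ) + 1) ≤ z ^ (1 / 2 : ℝ) := by
    rw [← Real.sqrt_eq_rpow]
    exact Real.sqrt_le_sqrt (by linarith)
  have h3 : Real.log z ≤ z ^ (1 / 4 : ℝ) / (1 / 4) := Real.log_le_rpow_div hz0.le (by norm_num)
  have h4 : 8 * B ≤ z ^ (1 / 4 : ℝ) := by
    refine le_trans hy ?_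
    show (y : ℝ) ^ (1 / 4 : ℝ) ≤ z ^ (1 / 4 : ℝ)
    exact Real.rpow_le_rpow (by linarith) (by linarith) (by norm_num)
  have h5 : 0 ≤ Real.log z := Real.log_nonneg (by linarith)
  have h6 : z ^ (1 / 2 : ℝ) * z ^ (1 / 4 : ℝ) * z ^ (1 / 4 : ℝ) = z := by
    rw [← Real.rpow_add hz0, ← Real.rpow_add hz0]
    norm_num
  have h7 : 0 ≤ z ^ (1 / 2 : ℝ) * z ^ (1 / 4 : ℝ) := by positivity
  rw [← hz]
  calc B * √((y : ℝ) + 1) * Real.log z ≤ B * z ^ (1 / 2 : ℝ) * (z ^ (1 / 4 : ℝ) / (1 / 4)) := by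
        apply mul_le_mul _ h3 h5 (by positivity)
        exact mul_le_mul_of_nonneg_left h2 hB.le
    _ = (z ^ (1 / 2 : ℝ) * z ^ (1 / 4 : ℝ)) * (8 * B) / 2 := by ring
    _ ≤ (z ^ (1 / 2 : ℝ) * z ^ (1 / 4 : ℝ)) * z ^ (1 / 4 : ℝ) / 2 := by
        have := mul_le_mul_of_nonneg_left h4 h7
        linarith
    _ = y := by
        rw [h6, hz]
        ring

private theorem PrmSet_log (η : ℝ) (hη : 0 < η) : ∀ᶠ X : ℕ in atTop,
    2 * Real.log (Real.log X) ^ 2 * Real.log 4 ≤ η * Real.log X := by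
  have h0 : Tendsto (fun X : ℕ => Real.log X) atTop atTop :=
    Real.tendsto_log_atTop.comp tendsto_natCast_atTop_atTop
  have h1 := ((tendsto_rpow_atTop (show (0 : ℝ) < 1 / 2 by norm_num)).comp h0).eventually_ge_atTop
    (32 * Real.log 4 / η)
  filter_upwards [h1, h0.eventually_ge_atTop 1] with X hX hX1
  obtain ⟨t, ht⟩ : ∃ t : ℝ, t = Real.log X := ⟨_, rfl⟩
  have hX' : 32 * Real.log 4 / η ≤ t ^ (1 / 2 : ℝ) := by
    rw [ht]
    exact hX
  rw [← ht] at hX1 ⊢
  have ht0 : 0 < t := by linarith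
  have h2 : Real.log t ≤ t ^ (1 / 4 : ℝ) / (1 / 4) := Real.log_le_rpow_div ht0.le (by norm_num)
  have h3 : 0 ≤ Real.log t := Real.log_nonneg hX1
  have h4 : Real.log t ^ 2 ≤ 16 * t ^ (1 / 2 : ℝ) := by
    calc Real.log t ^ 2 ≤ (t ^ (1 / 4 : ℝ) / (1 / 4)) ^ 2 := pow_le_pow_left₀ h3 h2 2
      _ = 16 * (t ^ (1 / 4 : ℝ) * t ^ (1 / 4 : ℝ)) := by ring
      _ = 16 * t ^ (1 / 2 : ℝ) := by
          rw [← Real.rpow_add ht0]
          norm_num
  have h5 : 0 < Real.log 4 := Real.log_pos (by norm_num)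
  have h6 : t ^ (1 / 2 : ℝ) * t ^ (1 / 2 : ℝ) = t := by
    rw [← Real.rpow_add ht0]
    norm_num
  have h7 : 0 < t ^ (1 / 2 : ℝ) := by positivity
  rw [div_le_iff₀ hη] at hX'
  calc 2 * Real.log t ^ 2 * Real.log 4 ≤ 2 * (16 * t ^ (1 / 2 : ℝ)) * Real.log 4 := by
        apply mul_le_mul_of_nonneg_right _ h5.le
        linarith
    _ = t ^ (1 / 2 : ℝ) * (32 * Real.log 4) := by ring
    _ ≤ t ^ (1 / 2 : ℝ) * (t ^ (1 / 2 : ℝ) * η) := mul_le_mul_of_nonneg_left hX' h7.le
    _ = η * t := by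
        rw [← mul_assoc, h6, mul_comm]

private theorem PrmSet_mult (X p : ℕ) :
    ((Icc 2 X).filter fun b => p ∣ b - 1).card ≤ X / p := by
  rw [← Nat.Ioc_filter_dvd_card_eq_div X p]
  apply card_le_card_of_injOn (fun b => b - 1)
  · intro b hb
    rw [mem_coe, mem_filter, mem_Icc] at hb
    have h1 : b - 1 ∈ (Ioc 0 X).filter fun x => p ∣ x := by
      rw [mem_filter, mem_Ioc]
      exact ⟨⟨by omega, by omega⟩, hb.2⟩
    exact h1
  · intro a ha b hb h
    rw [mem_coe, mem_filter, mem_Icc] at ha hb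
    have h1 : a - 1 = b - 1 := h
    omega

private theorem PrmSet_bad (X y : ℕ) (hy : 1 ≤ y) (PS : Finset ℕ) (hPS : ∀ p ∈ PS, y < p)
    (hne : 0 < PS.card) :
    (((Icc 2 X).filter fun b =>
        PS.card < 2 * (PS.filter fun p => p ∣ b - 1).card).card : ℝ) ≤ 2 * X / y := by
  have hy0 : (0 : ℝ) < y := by exact_mod_cast hy
  obtain ⟨Bd, hBd⟩ : ∃ Bd : Finset ℕ, Bd = (Icc 2 X).filter fun b =>
        PS.card < 2 * (PS.filter fun p => p ∣ b - 1).card := ⟨_, rfl⟩
  rw [← hBd]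
  have h1 : (Bd.card : ℝ) * PS.card ≤ 2 * ∑ b ∈ Icc 2 X, ((PS.filter fun p => p ∣ b - 1).card : ℝ) := by
    calc (Bd.card : ℝ) * PS.card = ∑ b ∈ Bd, (PS.card : ℝ) := by rw [sum_const, nsmul_eq_mul]
      _ ≤ ∑ b ∈ Bd, 2 * ((PS.filter fun p => p ∣ b - 1).card : ℝ) := by
          apply sum_le_sum
          intro b hb
          rw [hBd, mem_filter] at hb
          exact_mod_cast hb.2.le
      _ ≤ ∑ b ∈ Icc 2 X, 2 * ((PS.filter fun p => p ∣ b - 1).card : ℝ) := by
          apply sum_le_sum_of_subset_of_nonneg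
          · rw [hBd]
            exact filter_subset _ _
          · intro b _ _
            positivity
      _ = _ := by rw [mul_sum]
  have h2 : ∑ b ∈ Icc 2 X, ((PS.filter fun p => p ∣ b - 1).card : ℝ) ≤ PS.card * (X / y) := by
    calc ∑ b ∈ Icc 2 X, ((PS.filter fun p => p ∣ b - 1).card : ℝ)
        = ∑ b ∈ Icc 2 X, ∑ p ∈ PS, (if p ∣ b - 1 then (1 : ℝ) else 0) := by
          apply sum_congr rfl
          intro b _
          rw [card_filter]
          push_cast
          rfl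
      _ = ∑ p ∈ PS, ∑ b ∈ Icc 2 X, (if p ∣ b - 1 then (1 : ℝ) else 0) := sum_comm
      _ = ∑ p ∈ PS, (((Icc 2 X).filter fun b => p ∣ b - 1).card : ℝ) := by
          apply sum_congr rfl
          intro p _
          rw [card_filter]
          push_cast
          rfl
      _ ≤ ∑ p ∈ PS, ((X : ℝ) / y) := by
          apply sum_le_sum
          intro p hp
          have hyp : (y : ℝ) ≤ p := by exact_mod_cast (hPS p hp).le
          calc (((Icc 2 X).filter fun b => p ∣ b - 1).card : ℝ) ≤ ((X / p : ℕ) : ℝ) := by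
                exact_mod_cast PrmSet_mult X p
            _ ≤ (X : ℝ) / p := Nat.cast_div_le
            _ ≤ (X : ℝ) / y := div_le_div_of_nonneg_left (by positivity) hy0 hyp
      _ = PS.card * (X / y) := by rw [sum_const, nsmul_eq_mul]
  have h3 : (0 : ℝ) < PS.card := by exact_mod_cast hne
  have h4 : (Bd.card : ℝ) * PS.card ≤ (2 * X / y) * PS.card := by
    calc (Bd.card : ℝ) * PS.card ≤ 2 * (PS.card * (X / y)) := by linarith
      _ = (2 * X / y) * PS.card := by ring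
  exact le_of_mul_le_mul_right h4 h3

theorem thm_PrmSet : PrmSet := by
  intro n hn hodd A η ε hA hη hε
  have hcop : Nat.Coprime 2 n := Nat.coprime_two_left.2 hodd
  have hφ : (0 : ℝ) < Nat.totient n := by exact_mod_cast Nat.totient_pos.2 (by omega)
  obtain ⟨c, hc⟩ : ∃ c : ℝ, c = 1 / (Nat.totient n : ℝ) := ⟨_, rfl⟩
  have hc0 : 0 < c := by
    rw [hc]
    positivity
  have hth : Tendsto (fun N : ℕ => th (Hc n 2) N / N) atTop (𝓝 c) := by
    rw [hc]
    exact th_class_tendsto (by omega) hcop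
  have htwo : Tendsto (fun y : ℕ => 2 * y) atTop atTop :=
    tendsto_atTop_mono (fun y => (by omega : y ≤ 2 * y)) tendsto_id
  have hth2 : Tendsto (fun y : ℕ => th (Hc n 2) (2 * y) / ((2 * y : ℕ) : ℝ)) atTop (𝓝 c) :=
    hth.comp htwo
  have hdiff : ∀ᶠ y : ℕ in atTop, c / 2 * y ≤ th (Hc n 2) (2 * y) - th (Hc n 2) y := by
    filter_upwards [hth.eventually (Ioo_mem_nhds (show c - c / 8 < c by linarith)
      (show c < c + c / 8 by linarith)), hth2.eventually (Ioo_mem_nhds (show c - c / 8 < c by linarith)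
      (show c < c + c / 8 by linarith)), eventually_ge_atTop 1] with y h1 h2 hy
    have hy0 : (0 : ℝ) < y := by exact_mod_cast hy
    have h3 := h1.2
    have h4 := h2.1
    push_cast at h4
    rw [div_lt_iff₀ hy0] at h3
    rw [lt_div_iff₀ (by positivity)] at h4
    nlinarith
  -- the parameter
  have hll : Tendsto (fun X : ℕ => Real.log (Real.log X)) atTop atTop :=
    Real.tendsto_log_atTop.comp (Real.tendsto_log_atTop.comp tendsto_natCast_atTop_atTop)
  have hy : Tendsto (fun X : ℕ => ⌊Real.log (Real.log X) ^ 2⌋₊) atTop atTop :=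
    tendsto_nat_floor_atTop.comp ((tendsto_pow_atTop two_ne_zero).comp hll)
  filter_upwards [hy.eventually hdiff, hy.eventually (PrmSet_pow (2 * A / c) (by positivity)),
    hy.eventually (eventually_ge_atTop 2), hy.eventually (eventually_ge_atTop ⌈2 / ε⌉₊),
    PrmSet_log η hη, hll.eventually_ge_atTop 1, eventually_ge_atTop 1]
    with X hX1 hX2 hX3 hX4 hX5 hX6 hX7
  obtain ⟨y, hyd⟩ : ∃ y : ℕ, y = ⌊Real.log (Real.log X) ^ 2⌋₊ := ⟨_, rfl⟩
  rw [← hyd] at hX1 hX2 hX3 hX4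
  obtain ⟨ℓ, hℓ⟩ : ∃ ℓ : ℝ, ℓ = Real.log (Real.log X) := ⟨_, rfl⟩
  rw [← hℓ] at hX5 hX6 hyd ⊢
  have hyl : (y : ℝ) ≤ ℓ ^ 2 := by
    rw [hyd]
    exact Nat.floor_le (by positivity)
  have hly : ℓ ^ 2 < y + 1 := by
    rw [hyd]
    exact Nat.lt_floor_add_one _
  have hy2 : (2 : ℝ) ≤ y := by exact_mod_cast hX3
  have hX0 : (0 : ℝ) < X := by exact_mod_cast hX7
  have hlog2y : 0 < Real.log (2 * (y : ℝ)) := Real.log_pos (by linarith)
  obtain ⟨PS, hPSd⟩ : ∃ PS : Finset ℕ, PS = (Ioc y (2 * y)).filter (Hc n 2) := ⟨_, rfl⟩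
  have hmem : ∀ p ∈ PS, y < p ∧ p ≤ 2 * y ∧ p.Prime ∧ p % n = 2 % n := by
    intro p hp
    rw [hPSd, mem_filter, mem_Ioc] at hp
    exact ⟨hp.1.1, hp.1.2, hp.2.1, hp.2.2⟩
  have hsum : th (Hc n 2) (2 * y) - th (Hc n 2) y = ∑ p ∈ PS, Real.log p := by
    unfold Pool.Agent.Cohn.th
    rw [hPSd, sum_filter]
    have h1 : Ioc 0 (2 * y) = Ioc 0 y ∪ Ioc y (2 * y) := by
      rw [Ioc_union_Ioc_eq_Ioc (by omega) (by omega)]
    have h2 : Disjoint (Ioc 0 y) (Ioc y (2 * y)) := by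
      rw [disjoint_left]
      intro p h3 h4
      rw [mem_Ioc] at h3 h4
      omega
    rw [h1, sum_union h2]
    ring
  have hcard : c / 2 * y ≤ PS.card * Real.log (2 * (y : ℝ)) := by
    rw [hsum] at hX1
    refine hX1.trans ?_
    calc ∑ p ∈ PS, Real.log p ≤ ∑ p ∈ PS, Real.log (2 * (y : ℝ)) := by
          apply sum_le_sum
          intro p hp
          obtain ⟨h1, h2, h3, h4⟩ := hmem p hp
          have hp0 : (0 : ℝ) < p := by exact_mod_cast h3.pos
          apply Real.log_le_log hp0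
          exact_mod_cast h2
      _ = PS.card * Real.log (2 * (y : ℝ)) := by rw [sum_const, nsmul_eq_mul]
  have hAl : A * ℓ ≤ PS.card := by
    have h1 : ℓ ≤ √((y : ℝ) + 1) := by
      apply Real.le_sqrt_of_sq_le
      exact hly.le
    have h2 : A * √((y : ℝ) + 1) * Real.log (2 * (y : ℝ)) ≤ c / 2 * y := by
      have h3 : 2 * A / c * √((y : ℝ) + 1) * Real.log (2 * (y : ℝ)) =
          (A * √((y : ℝ) + 1) * Real.log (2 * (y : ℝ))) / (c / 2) := by
        field_simp
      rw [h3, div_le_iff₀ (by positivity)] at hX2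
      linarith
    have h4 : (A * ℓ) * Real.log (2 * (y : ℝ)) ≤ PS.card * Real.log (2 * (y : ℝ)) := by
      refine le_trans (mul_le_mul_of_nonneg_right (mul_le_mul_of_nonneg_left h1 hA.le) hlog2y.le)
        (h2.trans hcard)
    exact le_of_mul_le_mul_right h4 hlog2y
  have hne : 0 < PS.card := by
    have h1 : (0 : ℝ) < PS.card := lt_of_lt_of_le (by positivity) hAl
    exact_mod_cast h1
  refine ⟨PS, ?_, hAl, ?_, ?_⟩
  · intro p hp
    obtain ⟨h1, h2, h3, h4⟩ := hmem p hp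
    refine ⟨h3, by omega, ?_⟩
    have h5 : 2 % n = 2 := Nat.mod_eq_of_lt (by omega)
    rw [h5] at h4
    have h6 : (p - 1) % n = 1 := by
      have h7 := Nat.div_add_mod p n
      rw [h4] at h7
      have h8 : p - 1 = 1 + n * (p / n) := by omega
      rw [h8, Nat.add_mul_mod_self_left]
      exact Nat.mod_eq_of_lt (by omega)
    rw [Nat.Coprime, Nat.gcd_comm, Nat.gcd_rec, h6]
    exact Nat.gcd_one_left n
  · have h1 : (∏ p ∈ PS, p) ≤ 4 ^ (2 * y) := by
      refine le_trans ?_ (primorial_le_four_pow (2 * y))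
      unfold primorial
      apply prod_le_prod_of_subset_of_one_le'
      · intro p hp
        obtain ⟨h1, h2, h3, h4⟩ := hmem p hp
        rw [mem_filter, mem_range]
        exact ⟨by omega, h3⟩
      · intro p hp _
        rw [mem_filter] at hp
        exact hp.2.one_le
    calc ((∏ p ∈ PS, p : ℕ) : ℝ) ≤ ((4 ^ (2 * y) : ℕ) : ℝ) := by exact_mod_cast h1
      _ = Real.exp (2 * y * Real.log 4) := by
          push_cast
          rw [← Real.exp_log (show (0 : ℝ) < 4 ^ (2 * y) by positivity), Real.log_pow]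
          push_cast
          rfl
      _ ≤ Real.exp (η * Real.log X) := by
          apply Real.exp_le_exp.2
          have h5 : 0 < Real.log 4 := Real.log_pos (by norm_num)
          refine le_trans ?_ hX5
          apply mul_le_mul_of_nonneg_right _ h5.le
          linarith
      _ = (X : ℝ) ^ η := by
          rw [Real.rpow_def_of_pos hX0, mul_comm]
  · refine (PrmSet_bad X y (by omega) PS (fun p hp => (hmem p hp).1) hne).trans ?_
    have h1 : 2 / ε ≤ (y : ℝ) := (Nat.le_ceil _).trans (by exact_mod_cast hX4)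
    rw [div_le_iff₀ (by linarith)]
    rw [div_le_iff₀ hε] at h1
    nlinarith

end Pool.Agent.CDZ
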