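import Pool.Agent.CDZ.StK
import Pool.Agent.Helper88.MD.Div

/-!
# CDZ / RecCount: the number of solutions of `∑ 1 / x i = ∑ 1 / y i`
-/

set_option autoImplicit false

open Finset

namespace Pool.Agent.CDZ

private lemma RecCount_norm (p : ℕ) [hp : Fact p.Prime] (s : ℚ) (hs : s = 1 ∨ s = -1) (z : ℕ)
    (hz : z ≠ 0) : padicNorm p (s / z) = (p : ℚ) ^ z.factorization p := by
  have h1 : padicNorm p s = 1 := by
    rcases hs with rfl | rfl
    · exact padicNorm.one
    · rw [padicNorm.neg, padicNorm.one]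
  have h2 : ((z : ℚ)) ≠ 0 := by exact_mod_cast hz
  rw [padicNorm.div, h1, padicNorm.eq_zpow_of_nonzero h2, padicValRat.of_nat,
    ← Nat.factorization_def z hp.out, zpow_neg, one_div, inv_inv, zpow_natCast]

private lemma RecCount_two {ι : Type*} [Fintype ι] [DecidableEq ι] (z : ι → ℕ) (sg : ι → ℚ)
    (hsg : ∀ j, sg j = 1 ∨ sg j = -1) (hz : ∀ j, z j ≠ 0) (h : ∑ j, sg j / (z j : ℚ) = 0)
    (p : ℕ) (hp : p.Prime) (j0 : ι) (hj : 1 ≤ (z j0).factorization p)
    (hmax : ∀ j, (z j).factorization p ≤ (z j0).factorization p) :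
    ∃ j1, j1 ≠ j0 ∧ (z j1).factorization p = (z j0).factorization p := by
  by_contra hc
  push Not at hc
  haveI : Fact p.Prime := ⟨hp⟩
  obtain ⟨e, he⟩ : ∃ e, e = (z j0).factorization p := ⟨_, rfl⟩
  rw [← he] at hj hmax hc
  have h1 : sg j0 / (z j0 : ℚ) = -∑ j ∈ univ.erase j0, sg j / (z j : ℚ) := by
    rw [← Finset.add_sum_erase _ _ (mem_univ j0)] at h
    linarith
  have h2 : padicNorm p (∑ j ∈ univ.erase j0, sg j / (z j : ℚ)) ≤ (p : ℚ) ^ (e - 1) := by
    apply padicNorm.sum_le'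
    · intro j hj'
      rw [RecCount_norm p _ (hsg j) _ (hz j)]
      have h3 := hc j (Finset.ne_of_mem_erase hj')
      have h4 := hmax j
      have h5 : (1 : ℚ) ≤ p := by exact_mod_cast hp.one_lt.le
      exact pow_le_pow_right₀ h5 (by omega)
    · positivity
  have h3 : padicNorm p (sg j0 / (z j0 : ℚ)) = (p : ℚ) ^ e := by
    rw [RecCount_norm p _ (hsg j0) _ (hz j0), he]
  rw [h1, padicNorm.neg] at h3
  rw [h3] at h2
  have h4 : (p : ℚ) ^ (e - 1) < (p : ℚ) ^ e := by
    apply pow_lt_pow_right₀ _ (by omega)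
    exact_mod_cast hp.one_lt
  linarith

private lemma RecCount_lcm {ι : Type*} [DecidableEq ι] (f : ι → ℕ) (p : ℕ) (s : Finset ι)
    (hf : ∀ j ∈ s, f j ≠ 0) :
    s.lcm f ≠ 0 ∧ (s.lcm f).factorization p = s.sup fun j => (f j).factorization p := by
  induction s using Finset.induction_on with
  | empty => simp
  | insert a s ha ih =>
    obtain ⟨h1, h2⟩ := ih fun j hj => hf j (mem_insert_of_mem hj)
    have h3 := hf a (mem_insert_self a s)
    rw [Finset.lcm_insert, Finset.sup_insert, lcm_eq_nat_lcm]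
    refine ⟨Nat.lcm_ne_zero h3 h1, ?_⟩
    rw [Nat.factorization_lcm h3 h1, Finsupp.sup_apply, h2]

private lemma RecCount_dvd {ι : Type*} [Fintype ι] [DecidableEq ι] (z : ι → ℕ) (sg : ι → ℚ)
    (hsg : ∀ j, sg j = 1 ∨ sg j = -1) (hz : ∀ j, z j ≠ 0) (h : ∑ j, sg j / (z j : ℚ) = 0) :
    (univ.lcm z) ^ 2 ∣ ∏ j, z j := by
  have hL : univ.lcm z ≠ 0 := (RecCount_lcm z 2 univ fun j _ => hz j).1
  have hP : ∏ j, z j ≠ 0 := Finset.prod_ne_zero_iff.2 fun j _ => hz j
  rw [← Nat.factorization_prime_le_iff_dvd (pow_ne_zero 2 hL) hP]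
  intro p hp
  rw [Nat.factorization_pow, Nat.factorization_prod fun j _ => hz j]
  simp only [Finsupp.smul_apply, smul_eq_mul, Finsupp.finset_sum_apply]
  rw [(RecCount_lcm z p univ fun j _ => hz j).2]
  rcases Nat.eq_zero_or_pos (univ.sup fun j => (z j).factorization p) with h0 | h0
  · rw [h0]
    simp
  · have hne : (univ : Finset ι).Nonempty := by
      rw [Finset.nonempty_iff_ne_empty]
      intro h1
      rw [h1, Finset.sup_empty] at h0
      exact absurd h0 (lt_irrefl _)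
    obtain ⟨j0, _, hj0⟩ := Finset.exists_mem_eq_sup univ hne fun j => (z j).factorization p
    rw [hj0] at h0 ⊢
    have hmax : ∀ j, (z j).factorization p ≤ (z j0).factorization p := by
      intro j
      rw [← hj0]
      exact Finset.le_sup (f := fun j => (z j).factorization p) (mem_univ j)
    obtain ⟨j1, h1, h2⟩ := RecCount_two z sg hsg hz h p hp j0 h0 hmax
    calc 2 * (z j0).factorization p = ∑ j ∈ ({j0, j1} : Finset ι), (z j).factorization p := by
          rw [Finset.sum_pair h1.symm, h2]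
          ring
      _ ≤ _ := Finset.sum_le_sum_of_subset (subset_univ _)

/-- [CDZ RecCount] -/
theorem thm_RecCount : RecCount := by
  intro l hl ε hε
  have hl0 : (0 : ℝ) < l := by exact_mod_cast hl
  obtain ⟨C0, hC0⟩ := Pool.Agent.Helper88.MD.divisorBound (ε / (2 * l ^ 2)) (by positivity)
  obtain ⟨C1, hC1⟩ : ∃ C1 : ℝ, C1 = max C0 1 := ⟨_, rfl⟩
  have hC11 : 1 ≤ C1 := by rw [hC1]; exact le_max_right _ _
  have hdiv : ∀ L : ℕ, 1 ≤ L → (L.divisors.card : ℝ) ≤ C1 * (L : ℝ) ^ (ε / (2 * l ^ 2)) := by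
    intro L hL
    refine (hC0 L hL).trans ?_
    rw [hC1]
    exact mul_le_mul_of_nonneg_right (le_max_left _ _) (by positivity)
  refine ⟨C1 ^ (2 * l), one_le_pow₀ hC11, fun D hD => ?_⟩
  have hD0 : (0 : ℝ) < D := by exact_mod_cast hD
  have hD1 : (1 : ℝ) ≤ D := by exact_mod_cast hD
  have hsub : ((Fintype.piFinset fun _ : Fin l => Icc 1 D) ×ˢ
      (Fintype.piFinset fun _ : Fin l => Icc 1 D)).filter
      (fun q => ∑ i, (1 : ℚ) / (q.1 i : ℚ) = ∑ i, (1 : ℚ) / (q.2 i : ℚ)) ⊆
      (Icc 1 (D ^ l)).biUnion fun L => (Fintype.piFinset fun _ : Fin l => L.divisors) ×ˢ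
        (Fintype.piFinset fun _ : Fin l => L.divisors) := by
    rintro ⟨x, y⟩ hq
    rw [mem_filter, mem_product, Fintype.mem_piFinset, Fintype.mem_piFinset] at hq
    obtain ⟨⟨hx, hy⟩, h⟩ := hq
    simp only [mem_Icc] at hx hy h
    have hz : ∀ j : Fin l ⊕ Fin l, Sum.elim x y j ≠ 0 := by
      rintro (j | j)
      · have := (hx j).1
        simp only [Sum.elim_inl]
        omega
      · have := (hy j).1
        simp only [Sum.elim_inr]
        omega
    have h0 : ∑ j : Fin l ⊕ Fin l, (Sum.elim (fun _ => (1 : ℚ)) (fun _ => (-1 : ℚ)) j) /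
        ((Sum.elim x y j : ℕ) : ℚ) = 0 := by
      rw [Fintype.sum_sum_type]
      simp only [Sum.elim_inl, Sum.elim_inr]
      rw [h, ← Finset.sum_add_distrib]
      apply Finset.sum_eq_zero
      intro i _
      ring
    have h1 := RecCount_dvd (Sum.elim x y) _ (by rintro (j | j) <;> simp) hz h0
    have hL := (RecCount_lcm (Sum.elim x y) 2 univ fun j _ => hz j).1
    have h2 : ∏ j, Sum.elim x y j ≤ D ^ (2 * l) := by
      rw [Fintype.prod_sum_type]
      simp only [Sum.elim_inl, Sum.elim_inr]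
      have a : ∏ i, x i ≤ D ^ l := by
        refine (Finset.prod_le_pow_card _ _ D fun j _ => (hx j).2).trans ?_
        rw [Finset.card_univ, Fintype.card_fin]
      have b : ∏ i, y i ≤ D ^ l := by
        refine (Finset.prod_le_pow_card _ _ D fun j _ => (hy j).2).trans ?_
        rw [Finset.card_univ, Fintype.card_fin]
      calc (∏ i, x i) * ∏ i, y i ≤ D ^ l * D ^ l := Nat.mul_le_mul a b
        _ = D ^ (2 * l) := by rw [← pow_add]; congr 1; omega
    have h3 : univ.lcm (Sum.elim x y) ≤ D ^ l := by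
      have h4 : (univ.lcm (Sum.elim x y)) ^ 2 ≤ (D ^ l) ^ 2 := by
        refine (Nat.le_of_dvd (Nat.pos_of_ne_zero ?_) h1).trans (h2.trans ?_)
        · exact Finset.prod_ne_zero_iff.2 fun j _ => hz j
        · rw [← pow_mul, mul_comm]
      exact (Nat.pow_le_pow_iff_left (by norm_num)).1 h4
    rw [mem_biUnion]
    refine ⟨univ.lcm (Sum.elim x y), mem_Icc.2 ⟨Nat.one_le_iff_ne_zero.2 hL, h3⟩, ?_⟩
    rw [mem_product, Fintype.mem_piFinset, Fintype.mem_piFinset]
    constructor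
    · intro i
      rw [Nat.mem_divisors]
      exact ⟨Finset.dvd_lcm (f := Sum.elim x y) (mem_univ (Sum.inl i)), hL⟩
    · intro i
      rw [Nat.mem_divisors]
      exact ⟨Finset.dvd_lcm (f := Sum.elim x y) (mem_univ (Sum.inr i)), hL⟩
  have h1 : ((((Fintype.piFinset fun _ : Fin l => Icc 1 D) ×ˢ
      (Fintype.piFinset fun _ : Fin l => Icc 1 D)).filter
      fun q => ∑ i, (1 : ℚ) / (q.1 i : ℚ) = ∑ i, (1 : ℚ) / (q.2 i : ℚ)).card : ℝ) ≤
      ∑ L ∈ Icc 1 (D ^ l), (L.divisors.card : ℝ) ^ (2 * l) := by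
    have h2 := (card_le_card hsub).trans card_biUnion_le
    have h3 : ∀ L ∈ Icc 1 (D ^ l), ((Fintype.piFinset fun _ : Fin l => L.divisors) ×ˢ
        (Fintype.piFinset fun _ : Fin l => L.divisors)).card = L.divisors.card ^ (2 * l) := by
      intro L _
      rw [card_product, Fintype.card_piFinset_const, two_mul, pow_add]
    rw [Finset.sum_congr rfl h3] at h2
    exact_mod_cast h2
  refine h1.trans ?_
  have h2 : ∀ L ∈ Icc 1 (D ^ l), (L.divisors.card : ℝ) ^ (2 * l) ≤ C1 ^ (2 * l) * (D : ℝ) ^ ε := by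
    intro L hL
    rw [mem_Icc] at hL
    have hL0 : (0 : ℝ) < L := by exact_mod_cast hL.1
    calc (L.divisors.card : ℝ) ^ (2 * l) ≤ (C1 * (L : ℝ) ^ (ε / (2 * l ^ 2))) ^ (2 * l) := by
          gcongr
          exact hdiv L hL.1
      _ = C1 ^ (2 * l) * ((L : ℝ) ^ (ε / (2 * l ^ 2))) ^ (2 * l) := mul_pow _ _ _
      _ ≤ C1 ^ (2 * l) * (D : ℝ) ^ ε := by
          apply mul_le_mul_of_nonneg_left _ (by positivity)
          rw [← Real.rpow_natCast, ← Real.rpow_mul hL0.le]
          have e1 : ε / (2 * (l : ℝ) ^ 2) * ((2 * l : ℕ) : ℝ) = ε / l := by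
            push_cast
            field_simp
          rw [e1]
          calc (L : ℝ) ^ (ε / l) ≤ ((D : ℝ) ^ l) ^ (ε / l) := by
                apply Real.rpow_le_rpow hL0.le _ (by positivity)
                exact_mod_cast hL.2
            _ = (D : ℝ) ^ ε := by
                rw [← Real.rpow_natCast, ← Real.rpow_mul hD0.le]
                congr 1
                field_simp
  refine (Finset.sum_le_sum h2).trans (le_of_eq ?_)
  rw [Finset.sum_const, Nat.card_Icc, Nat.add_sub_cancel, nsmul_eq_mul, Real.rpow_add hD0,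
    Real.rpow_natCast]
  push_cast
  ring

end Pool.Agent.CDZ
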