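import Pool.Agent.CDZ.StC

/-!
# CDZ (C4): number of roots of unity modulo a squarefree number
-/

set_option autoImplicit false

open Finset Filter Topology

namespace Pool.Agent.CDZ

private theorem Roots_field (n p : ℕ) [Fact p.Prime] (hn : 1 ≤ n) :
    (univ.filter fun z : ZMod p => z ^ n = 1).card ≤ n := by
  classical
  have h1 : (univ.filter fun z : ZMod p => z ^ n = 1) ⊆
      (Polynomial.nthRoots n (1 : ZMod p)).toFinset := by
    intro z hz
    rw [Multiset.mem_toFinset, Polynomial.mem_nthRoots (by omega)]
    exact (mem_filter.1 hz).2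
  exact (card_le_card h1).trans ((Multiset.toFinset_card_le _).trans
    (Polynomial.card_nthRoots n (1 : ZMod p)))

theorem thm_Roots : Roots := by
  classical
  intro n v _ hn hv
  have hdvd : ∀ p : v.primeFactors, (p : ℕ) ∣ v := fun p => Nat.dvd_of_mem_primeFactors p.2
  have hpr : ∀ p : v.primeFactors, (p : ℕ).Prime := fun p => Nat.prime_of_mem_primeFactors p.2
  have hne : ∀ p : v.primeFactors, NeZero (p : ℕ) := fun p => ⟨(hpr p).ne_zero⟩
  have hfa : ∀ p : v.primeFactors, Fact (p : ℕ).Prime := fun p => ⟨hpr p⟩
  let f : ZMod v → ∀ p : v.primeFactors, ZMod (p : ℕ) :=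
    fun z p => ZMod.castHom (hdvd p) (ZMod (p : ℕ)) z
  have hinj : Function.Injective f := by
    intro z z' hzz
    have h1 : ∀ p ∈ v.primeFactors, p ∣ (z - z').val := by
      intro p hp
      have h2 := congrFun hzz ⟨p, hp⟩
      simp only [f] at h2
      have h3 : ZMod.castHom (hdvd ⟨p, hp⟩) (ZMod p) (z - z') = 0 := by
        rw [map_sub, h2, sub_self]
      rw [← ZMod.natCast_zmod_val (z - z'), map_natCast] at h3
      exact (ZMod.natCast_eq_zero_iff _ _).1 h3
    have h2 : v ∣ (z - z').val := by
      have h4 : ∏ p ∈ v.primeFactors, p ∣ (z - z').val :=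
        Finset.prod_primes_dvd _ (fun p hp => (Nat.prime_of_mem_primeFactors hp).prime) h1
      have h5 := Nat.prod_primeFactors_of_squarefree hv
      exact (dvd_of_eq h5.symm).trans h4
    have h3 : z - z' = 0 := by
      rw [← ZMod.natCast_zmod_val (z - z')]
      exact (ZMod.natCast_eq_zero_iff _ _).2 h2
    exact sub_eq_zero.1 h3
  have h1 : (univ.filter fun z : ZMod v => z ^ n = 1).image f ⊆
      Fintype.piFinset fun p : v.primeFactors => univ.filter fun z : ZMod (p : ℕ) => z ^ n = 1 := by
    intro g hg
    obtain ⟨z, hz, rfl⟩ := mem_image.1 hg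
    rw [Fintype.mem_piFinset]
    intro p
    rw [mem_filter]
    refine ⟨mem_univ _, ?_⟩
    simp only [f]
    rw [← map_pow, (mem_filter.1 hz).2, map_one]
  calc (univ.filter fun z : ZMod v => z ^ n = 1).card
      = ((univ.filter fun z : ZMod v => z ^ n = 1).image f).card :=
        (card_image_of_injective _ hinj).symm
    _ ≤ _ := card_le_card h1
    _ = ∏ p : v.primeFactors, (univ.filter fun z : ZMod (p : ℕ) => z ^ n = 1).card :=
        Fintype.card_piFinset _
    _ ≤ ∏ _p : v.primeFactors, n := by
        apply Finset.prod_le_prod' 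
        intro p _
        exact Roots_field n p hn
    _ = n ^ v.primeFactors.card := by simp

end Pool.Agent.CDZ
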