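import Pool.Agent.CDZ.GoodOne

/-!
# CDZ / SigB: the bad primes of a window of the second family (helper82)
-/

set_option autoImplicit false

open Finset Filter Topology

namespace Pool.Agent.CDZ

theorem thm_SigB (h1 : AllWin) (h2 : Nest) : SigB := by
  classical
  intro M J m hM hJ
  have hM1 : (32 : ℝ) ≤ M := by exact_mod_cast hM
  have hM0 : (1 : ℝ) ≤ M := by linarith
  have hMpos : (0 : ℝ) < M := by linarith
  set ρ : ℝ := 1 / (400 * (M : ℝ) ^ (12 * J + 4)) with hρ
  have hρ0 : 0 < ρ := by positivity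
  have hx0 : ∀ j, 0 < bU M J j / M := fun j => by unfold bU; positivity
  have hx1 : ∀ j, bU M J j < 1 := fun j => by
    unfold bU
    rw [div_lt_one (by positivity)]
    exact one_lt_pow₀ (by linarith) (by omega)
  have hxx : ∀ j, bU M J j / M < 1 := fun j => by
    rw [div_lt_one hMpos]
    linarith [hx1 j]
  have hev : ∀ᶠ X : ℕ in atTop, ∀ j ∈ range J, ∀ (α β : ℝ) (Q : Finset ℕ),
      bU M J j / M ≤ α → α ≤ β → β ≤ 1 → (∀ q ∈ Q, q.Prime ∧ α ≤ lg X q ∧ lg X q ≤ β) →
      ∑ q ∈ Q, (1 : ℝ) / q ≤ (β - α) / (bU M J j / M) + ρ / (bU M J j / M) := by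
    rw [Filter.eventually_all_finset]
    intro j _
    exact h1 (bU M J j / M) (ρ / (bU M J j / M)) (hx0 j) (hxx j) (div_pos hρ0 (hx0 j))
  filter_upwards [hev, eventually_ge_atTop 2] with X hXev hX
  intro lam A p j R hlam1 hlam2 hAJ hAc hp hj hR hbad
  set x1 := bU M J j with hx1def
  set x0 := x1 / M with hx0def
  have x0pos : 0 < x0 := hx0 j
  have x1lt : x1 < 1 := hx1 j
  have x01 : x0 ≤ x1 := by
    rw [hx0def]
    exact div_le_self (by rw [hx1def]; unfold bU; positivity) hM0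
  have x1pos : 0 < x1 := lt_of_lt_of_le x0pos x01
  have hlam0 : 0 < lam := by linarith
  -- sizes of the `a i`
  have ha : ∀ i ∈ A, 1 / (M : ℝ) ^ (6 * J) ≤ lg X (p i) ∧ lg X (p i) ≤ 1 / (M : ℝ) ^ (4 * J + 1) := by
    intro i hi
    obtain ⟨e1, e2⟩ := GoodOne_lg hX (hp i hi)
    have e3 := GoodOne_aU (M := M) hM (Finset.mem_range.1 (hAJ hi))
    refine ⟨by linarith, e2.trans ?_⟩
    unfold aU
    exact div_le_div_of_nonneg_left zero_le_one (by positivity)
      (pow_le_pow_right₀ hM0 (by omega))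
  have hx1a : ∀ i ∈ A, x1 ≤ lg X (p i) / 1024 := by
    intro i hi
    have e1 := (ha i hi).1
    have e2 : x1 ≤ 1 / (M : ℝ) ^ (6 * J + 2) := by
      rw [hx1def]
      unfold bU
      exact div_le_div_of_nonneg_left zero_le_one (by positivity)
        (pow_le_pow_right₀ hM0 (by omega))
    have e3 : 1 / (M : ℝ) ^ (6 * J + 2) ≤ 1 / (M : ℝ) ^ (6 * J) / 1024 := by
      rw [div_div, pow_add]
      refine div_le_div_of_nonneg_left zero_le_one (by positivity) ?_
      refine mul_le_mul_of_nonneg_left ?_ (by positivity)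
      nlinarith
    calc x1 ≤ 1 / (M : ℝ) ^ (6 * J) / 1024 := e2.trans e3
      _ ≤ lg X (p i) / 1024 := div_le_div_of_nonneg_right e1 (by norm_num)
  have hapos : ∀ i ∈ A, 0 < lg X (p i) := fun i hi =>
    lt_of_lt_of_le (by positivity) (ha i hi).1
  have hmain := h2 (WB M J X j) (fun q => lg X q) (fun q => (1 : ℝ) / q) (1 / x0) ρ lam x0 x1
    (fun i => lg X (p i)) A x0 (by positivity) hρ0.le hlam0 x0pos.le ?_ ?_ ?_ ?_ ?_ x0 x1 R hR x01 ?_
  · refine hmain.trans (le_of_eq ?_)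
    rw [hAc, sub_add_cancel, hx0def]
    field_simp
  · intro q hq
    obtain ⟨e1, e2⟩ := GoodOne_lg hX hq
    exact ⟨e1.le, e2, by positivity⟩
  · intro α β R' hR' hαβ hq
    rcases R'.eq_empty_or_nonempty with he | ⟨q0, hq0⟩
    · rw [he, Finset.sum_empty]
      have : 0 ≤ β - α + ρ := by linarith
      positivity
    · have f1 : ∀ q ∈ R', q.Prime ∧ max α x0 ≤ lg X q ∧ lg X q ≤ min β x1 := by
        intro q hqR
        obtain ⟨e1, e2⟩ := GoodOne_lg hX (hR' hqR)
        exact ⟨(GoodOne_pw (hR' hqR)).1, max_le (hq q hqR).1 e1.le, le_min (hq q hqR).2 e2⟩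
      have f2 := (f1 q0 hq0).2.1.trans (f1 q0 hq0).2.2
      have f3 := hXev j (Finset.mem_range.2 hj) (max α x0) (min β x1) R' (le_max_right _ _) f2
        ((min_le_right _ _).trans x1lt.le) f1
      refine f3.trans ?_
      rw [← add_div, one_div, inv_mul_eq_div]
      refine div_le_div_of_nonneg_right ?_ x0pos.le
      have f4 : min β x1 ≤ β := min_le_left _ _
      have f5 : α ≤ max α x0 := le_max_left _ _
      linarith
  · intro i hi
    obtain ⟨e1, e2⟩ := ha i hi
    have e3 := hx1a i hi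
    have e4 := hapos i hi
    show 0 < lg X (p i) ∧ (lg X (p i) + x1) ^ 2 ≤ 21 / 20 * (lg X (p i) + x0) ^ 2 ∧
      25 * ρ * lam ≤ (lg X (p i) + x1) ^ 2 ∧ 4 * (lg X (p i) + x1) ^ 2 / lam ≤ x0
    set a := lg X (p i) with hadef
    have e5 : (a + x1) ^ 2 ≤ 21 / 20 * a ^ 2 := by
      have : a + x1 ≤ 1025 / 1024 * a := by linarith
      calc (a + x1) ^ 2 ≤ (1025 / 1024 * a) ^ 2 := pow_le_pow_left₀ (by linarith) this 2
        _ = (1025 / 1024) ^ 2 * a ^ 2 := by ring
        _ ≤ 21 / 20 * a ^ 2 := mul_le_mul_of_nonneg_right (by norm_num) (by positivity)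
    refine ⟨e4, e5.trans ?_, ?_, ?_⟩
    · refine mul_le_mul_of_nonneg_left ?_ (by norm_num)
      exact pow_le_pow_left₀ e4.le (by linarith) 2
    · calc 25 * ρ * lam ≤ 25 * ρ * 2 := mul_le_mul_of_nonneg_left hlam2 (by positivity)
        _ = 50 / 400 * (1 / (M : ℝ) ^ (12 * J + 4)) := by
            rw [hρ]; field_simp; norm_num
        _ ≤ 1 * (1 / (M : ℝ) ^ (12 * J)) := by
            refine mul_le_mul (by norm_num) ?_ (by positivity) zero_le_one
            exact div_le_div_of_nonneg_left zero_le_one (by positivity)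
              (pow_le_pow_right₀ hM0 (by omega))
        _ = (1 / (M : ℝ) ^ (6 * J)) ^ 2 := by
            rw [div_pow, one_pow, one_mul, ← pow_mul]
            congr 2
            ring
        _ ≤ (a + x1) ^ 2 := pow_le_pow_left₀ (by positivity) (by linarith) 2
    · rw [div_le_iff₀ hlam0]
      have e6 : a ^ 2 ≤ (1 / (M : ℝ) ^ (4 * J + 1)) ^ 2 := pow_le_pow_left₀ e4.le e2 2
      have e7 : (1 / (M : ℝ) ^ (4 * J + 1)) ^ 2 = 1 / (M : ℝ) ^ (8 * J + 1) * (1 / M) := by
        rw [div_pow, one_pow, ← pow_mul, div_mul_div_comm, one_mul, ← pow_succ]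
        congr 2
        ring
      have e8 : 1 / (M : ℝ) ^ (8 * J + 1) ≤ x0 := GoodOne_bU (M := M) hM hj
      have e9 : 1 / (M : ℝ) ≤ 1 / 32 := div_le_div_of_nonneg_left zero_le_one (by norm_num) hM1
      have e10 : 1 / (M : ℝ) ^ (8 * J + 1) * (1 / M) ≤ x0 * (1 / 32) :=
        mul_le_mul e8 e9 (by positivity) x0pos.le
      have e11 : x0 * (1 / 3) ≤ x0 * lam := mul_le_mul_of_nonneg_left hlam1 x0pos.le
      nlinarith
  · intro i hi j' hj' hij
    show 100 * (lg X (p j') + x1) ^ 2 ≤ (lg X (p i) + x1) ^ 2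
    have e1 := hx1a j' hj'
    have e2 := hapos j' hj'
    have e3 := hapos i hi
    have e4 : lg X (p j') ≤ lg X (p i) / 32 := by
      have g1 := (GoodOne_lg hX (hp i hi)).1
      have g2 := (GoodOne_lg hX (hp j' hj')).2
      have g3 : aU M J j' ≤ aU M J i / M / M := by
        unfold aU
        rw [div_div, div_div, ← sq, ← pow_add]
        exact div_le_div_of_nonneg_left zero_le_one (by positivity)
          (pow_le_pow_right₀ hM0 (by omega))
      have g4 : aU M J i / M / M ≤ lg X (p i) / M := div_le_div_of_nonneg_right g1.le hMpos.le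
      have g5 : lg X (p i) / M ≤ lg X (p i) / 32 :=
        div_le_div_of_nonneg_left e3.le (by norm_num) hM1
      linarith
    have e5 : lg X (p j') + x1 ≤ 1025 / 1024 * (lg X (p i) / 32) := by linarith
    calc 100 * (lg X (p j') + x1) ^ 2 ≤ 100 * (1025 / 1024 * (lg X (p i) / 32)) ^ 2 :=
          mul_le_mul_of_nonneg_left (pow_le_pow_left₀ (by linarith) e5 2) (by norm_num)
      _ = 100 * (1025 / 1024 / 32) ^ 2 * (lg X (p i)) ^ 2 := by ring
      _ ≤ 1 * (lg X (p i)) ^ 2 := mul_le_mul_of_nonneg_right (by norm_num) (by positivity)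
      _ ≤ (lg X (p i) + x1) ^ 2 := by
          rw [one_mul]
          exact pow_le_pow_left₀ e3.le (by linarith) 2
  · have e8 : 1 / (M : ℝ) ^ (8 * J + 1) ≤ x0 := GoodOne_bU (M := M) hM hj
    refine le_trans ?_ e8
    rw [hρ]
    refine div_le_div_of_nonneg_left zero_le_one (by positivity) ?_
    calc (M : ℝ) ^ (8 * J + 1) ≤ (M : ℝ) ^ (12 * J + 4) := pow_le_pow_right₀ hM0 (by omega)
      _ ≤ 400 * (M : ℝ) ^ (12 * J + 4) := by
          have : 0 ≤ (M : ℝ) ^ (12 * J + 4) := by positivity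
          linarith
  · intro q hq
    obtain ⟨e1, e2⟩ := GoodOne_lg hX (hR hq)
    exact ⟨e1.le, e2, fun i hi => hbad q hq i hi⟩

end Pool.Agent.CDZ
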