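import Pool.Agent.CDZ.StE

/-!
# CDZ (E4): the numbers `b` with `b ^ m + 1 = 2 y ^ 2`
-/

set_option autoImplicit false

open Finset Filter Topology

namespace Pool.Agent.CDZ

/-- the gap between two solutions of `z ^ 2 + 1 = 2 y ^ 2` -/
private theorem TwoCount_gap (z z' y y' : ℤ) (hz : 0 < z) (hzz : z < z') (hy : 0 ≤ y) (hy' : 0 ≤ y')
    (h1 : z ^ 2 + 1 = 2 * y ^ 2) (h2 : z' ^ 2 + 1 = 2 * y' ^ 2) : 2 * z ≤ z' := by
  have h3 : (z' * y) ^ 2 * 2 - (z * y') ^ 2 * 2 = z' ^ 2 - z ^ 2 := by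
    have e1 : (z' * y) ^ 2 * 2 = z' ^ 2 * (2 * y ^ 2) := by ring
    have e2 : (z * y') ^ 2 * 2 = z ^ 2 * (2 * y' ^ 2) := by ring
    rw [e1, e2, ← h1, ← h2]
    ring
  have h4 : z ^ 2 < z' ^ 2 := by nlinarith
  have h5 : z * y' < z' * y := by
    by_contra hcon
    have h6 : z' * y ≤ z * y' := not_lt.1 hcon
    have h7 : 0 ≤ z' * y := mul_nonneg (by omega) hy
    nlinarith
  have h6 : 2 * (z' * y + z * y') ≤ z' ^ 2 - z ^ 2 := by
    have h7 : 0 ≤ z * y' := mul_nonneg hz.le hy'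
    nlinarith
  have h7 : 7 * z ≤ 10 * y := by
    by_contra hcon
    have : 10 * y < 7 * z := not_le.1 hcon
    nlinarith
  have h8 : 7 * z' ≤ 10 * y' := by
    by_contra hcon
    have : 10 * y' < 7 * z' := not_le.1 hcon
    nlinarith
  have h9 : z' * (7 * z) ≤ z' * (10 * y) := mul_le_mul_of_nonneg_left h7 (by omega)
  have h10 : z * (7 * z') ≤ z * (10 * y') := mul_le_mul_of_nonneg_left h8 hz.le
  have h11 : 2 * z * z' ≤ z' * z' := by nlinarith
  exact le_of_mul_le_mul_right h11 (by omega)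

private theorem TwoCount_even (m' X : ℕ) (hm : 1 ≤ m') :
    ({b ∈ Set.Icc 2 X | ∃ y : ℕ, b ^ (2 * m') + 1 = 2 * y ^ 2}).ncard ≤
      Nat.log 2 (X ^ m') + 1 := by
  have hgap : ∀ b b' : ℕ, 2 ≤ b → b < b' → (∃ y : ℕ, b ^ (2 * m') + 1 = 2 * y ^ 2) →
      (∃ y : ℕ, b' ^ (2 * m') + 1 = 2 * y ^ 2) → Nat.log 2 (b ^ m') < Nat.log 2 (b' ^ m') := by
    rintro b b' hb hbb ⟨y, hy⟩ ⟨y', hy'⟩
    have h1 : b ^ m' < b' ^ m' := Nat.pow_lt_pow_left hbb (by omega)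
    have h0 : 0 < b ^ m' := Nat.pow_pos (by omega)
    have h2 : 2 * ((b ^ m' : ℕ) : ℤ) ≤ ((b' ^ m' : ℕ) : ℤ) := by
      refine TwoCount_gap _ _ (y : ℤ) (y' : ℤ) (by exact_mod_cast h0) (by exact_mod_cast h1)
        (by positivity) (by positivity) ?_ ?_
      · rw [mul_comm 2 m', pow_mul] at hy
        exact_mod_cast hy
      · rw [mul_comm 2 m', pow_mul] at hy'
        exact_mod_cast hy'
    have h3 : b ^ m' * 2 ≤ b' ^ m' := by
      have : 2 * b ^ m' ≤ b' ^ m' := by exact_mod_cast h2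
      omega
    have h4 : Nat.log 2 (b ^ m' * 2) = Nat.log 2 (b ^ m') + 1 :=
      Nat.log_mul_base (by norm_num) (by omega)
    have h5 : Nat.log 2 (b ^ m' * 2) ≤ Nat.log 2 (b' ^ m') := Nat.log_mono_right h3
    omega
  have h := Set.ncard_le_ncard_of_injOn (s := {b ∈ Set.Icc 2 X | ∃ y : ℕ, b ^ (2 * m') + 1 = 2 * y ^ 2})
    (t := ((Finset.range (Nat.log 2 (X ^ m') + 1) : Finset ℕ) : Set ℕ))
    (fun b : ℕ => Nat.log 2 (b ^ m')) ?_ ?_ (Finset.finite_toSet _)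
  · rw [Set.ncard_coe_finset, card_range] at h
    exact h
  · rintro b ⟨hb, -⟩
    rw [Finset.mem_coe, mem_range]
    have h1 : Nat.log 2 (b ^ m') ≤ Nat.log 2 (X ^ m') :=
      Nat.log_mono_right (Nat.pow_le_pow_left hb.2 m')
    show Nat.log 2 (b ^ m') < Nat.log 2 (X ^ m') + 1
    omega
  · rintro b ⟨hb, hbP⟩ b' ⟨hb', hbP'⟩ hbb
    have hbb' : Nat.log 2 (b ^ m') = Nat.log 2 (b' ^ m') := hbb
    rcases lt_trichotomy b b' with h1 | h1 | h1
    · have := hgap b b' hb.1 h1 hbP hbP'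
      omega
    · exact h1
    · have := hgap b' b hb'.1 h1 hbP' hbP
      omega

private theorem TwoCount_rep (m b y : ℕ) (hm : Odd m) (hb : 1 ≤ b) (h : b ^ m + 1 = 2 * y ^ 2) :
    ∃ κ v : ℕ, κ ≤ 2 * m ∧ b + 1 = κ * v ^ 2 := by
  have hd : b + 1 ∣ b ^ m + 1 ^ m := hm.nat_add_dvd_pow_add_pow b 1
  rw [one_pow] at hd
  obtain ⟨V, hV⟩ := hd
  have hmpos : 0 < m := hm.pos
  -- the gcd divides `m`
  have hVZ : (V : ℤ) = ∑ i ∈ range m, (b : ℤ) ^ i * (-1) ^ (m - 1 - i) := by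
    have h1 := geom_sum₂_mul (b : ℤ) (-1) m
    have h2 : ((b : ℤ) + 1) * (V : ℤ) = (b : ℤ) ^ m + 1 := by exact_mod_cast hV.symm
    have h3 : (-1 : ℤ) ^ m = -1 := hm.neg_one_pow
    rw [h3] at h1
    have h4 : (b : ℤ) + 1 ≠ 0 := by positivity
    apply mul_left_cancel₀ h4
    rw [h2]
    linarith
  have hg : Nat.gcd (b + 1) V ∣ m := by
    have h1 : ((Nat.gcd (b + 1) V : ℕ) : ℤ) ∣ (b : ℤ) - (-1) := by
      have : ((Nat.gcd (b + 1) V : ℕ) : ℤ) ∣ ((b + 1 : ℕ) : ℤ) :=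
        Int.natCast_dvd_natCast.2 (Nat.gcd_dvd_left _ _)
      have e : (b : ℤ) - (-1) = ((b + 1 : ℕ) : ℤ) := by push_cast; ring
      rw [e]
      exact this
    have h2 : ((Nat.gcd (b + 1) V : ℕ) : ℤ) ∣
        ∑ i ∈ range m, (b : ℤ) ^ i * (-1) ^ (m - 1 - i) := by
      rw [← hVZ]
      exact Int.natCast_dvd_natCast.2 (Nat.gcd_dvd_right _ _)
    have h3 := (dvd_geom_sum₂_iff_of_dvd_sub h1).1 h2
    have h4 : ((Nat.gcd (b + 1) V : ℕ) : ℤ) ∣ (m : ℤ) := by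
      rcases Nat.even_or_odd (m - 1) with h5 | h5
      · rw [h5.neg_one_pow, mul_one] at h3
        exact h3
      · rw [h5.neg_one_pow, mul_neg_one] at h3
        exact (dvd_neg.1 h3)
    exact Int.natCast_dvd_natCast.1 h4
  obtain ⟨g, B', V', hgpos, hcop, hB, hV'⟩ := Nat.exists_coprime' (m := b + 1) (n := V)
    (Nat.gcd_pos_of_pos_left _ (by omega))
  have hgg : Nat.gcd (b + 1) V = g := by
    rw [hB, hV', Nat.gcd_mul_right, hcop.gcd_eq_one, one_mul]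
  rw [hgg] at hg
  have hgm : g ≤ m := Nat.le_of_dvd hmpos hg
  have hgodd : Nat.Coprime (g ^ 2) 2 := by
    apply Nat.Coprime.pow_left
    exact Nat.coprime_two_right.2 (hm.of_dvd_nat hg)
  have h1 : g ^ 2 * (B' * V') = 2 * y ^ 2 := by
    rw [← h, hV, hB, hV']
    ring
  have h2 : g ^ 2 ∣ y ^ 2 := hgodd.dvd_of_dvd_mul_left ⟨B' * V', h1.symm⟩
  have h3 : g ∣ y := (Nat.pow_dvd_pow_iff (by norm_num)).1 h2
  obtain ⟨y', rfl⟩ := h3
  have h4 : B' * V' = 2 * y' ^ 2 := by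
    have h5 : g ^ 2 * (B' * V') = g ^ 2 * (2 * y' ^ 2) := by rw [h1]; ring
    exact Nat.eq_of_mul_eq_mul_left (Nat.pow_pos hgpos) h5
  have h5 : 2 ∣ B' * V' := ⟨_, h4⟩
  rcases (Nat.Prime.dvd_mul Nat.prime_two).1 h5 with ⟨B'', hB''⟩ | ⟨V'', hV''⟩
  · have h6 : B'' * V' = y' ^ 2 := by
      rw [hB'', mul_assoc] at h4
      exact Nat.eq_of_mul_eq_mul_left (by norm_num) h4
    have h7 : Nat.Coprime B'' V' := Nat.Coprime.coprime_dvd_left ⟨2, by rw [hB'', mul_comm]⟩ hcop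
    obtain ⟨w, hw⟩ := exists_eq_pow_of_mul_eq_pow (Nat.isUnit_iff.2 h7) h6
    refine ⟨2 * g, w, by omega, ?_⟩
    rw [hB, hB'', hw]
    ring
  · have h6 : B' * V'' = y' ^ 2 := by
      rw [hV'', mul_left_comm] at h4
      exact Nat.eq_of_mul_eq_mul_left (by norm_num) h4
    have h7 : Nat.Coprime B' V'' := Nat.Coprime.coprime_dvd_right ⟨2, by rw [hV'', mul_comm]⟩ hcop
    obtain ⟨w, hw⟩ := exists_eq_pow_of_mul_eq_pow (Nat.isUnit_iff.2 h7) h6
    refine ⟨g, w, by omega, ?_⟩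
    rw [hB, hw]
    ring

private theorem TwoCount_odd (m X : ℕ) (hm : Odd m) :
    ({b ∈ Set.Icc 2 X | ∃ y : ℕ, b ^ m + 1 = 2 * y ^ 2}).ncard ≤
      (2 * m + 1) * (Nat.sqrt (X + 1) + 1) := by
  have hsub : {b ∈ Set.Icc 2 X | ∃ y : ℕ, b ^ m + 1 = 2 * y ^ 2} ⊆
      ((((Finset.range (2 * m + 1)) ×ˢ (Finset.range (Nat.sqrt (X + 1) + 1))).image
        fun q => q.1 * q.2 ^ 2 - 1 : Finset ℕ) : Set ℕ) := by
    rintro b ⟨hb, y, hy⟩
    obtain ⟨κ, v, hκ, hbv⟩ := TwoCount_rep m b y hm (by have := hb.1; omega) hy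
    rw [Finset.mem_coe, Finset.mem_image]
    refine ⟨(κ, v), ?_, ?_⟩
    · rw [mem_product, mem_range, mem_range]
      refine ⟨?_, ?_⟩
      · show κ < 2 * m + 1
        omega
      · show v < Nat.sqrt (X + 1) + 1
        have hκ0 : 1 ≤ κ := by
          rcases Nat.eq_zero_or_pos κ with h0 | h0
          · rw [h0, zero_mul] at hbv
            omega
          · exact h0
        have h1 : v * v ≤ X + 1 := by
          have h2 : v ^ 2 ≤ κ * v ^ 2 := Nat.le_mul_of_pos_left _ hκ0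
          have h3 := hb.2
          rw [sq] at h2
          rw [sq] at hbv
          omega
        have := Nat.le_sqrt.2 h1
        omega
    · show κ * v ^ 2 - 1 = b
      omega
  have h1 := Set.ncard_le_ncard hsub (Finset.finite_toSet _)
  rw [Set.ncard_coe_finset] at h1
  refine h1.trans (Finset.card_image_le.trans ?_)
  rw [card_product, card_range, card_range]

theorem thm_TwoCount : TwoCount := by
  intro m ε hm hε
  rcases Nat.even_or_odd m with hev | hodd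
  · obtain ⟨m', hm'⟩ := hev
    have hmm : m = 2 * m' := by omega
    subst hmm
    have hm1 : 1 ≤ m' := by omega
    have h1 : Tendsto (fun X : ℕ => Real.log X / X) atTop (𝓝 0) := by
      have h2 := Real.isLittleO_log_id_atTop.tendsto_div_nhds_zero
      exact h2.comp tendsto_natCast_atTop_atTop
    have h3 : Tendsto (fun X : ℕ => (m' : ℝ) / Real.log 2 * (Real.log X / X) + 1 / (X : ℝ)) atTop
        (𝓝 ((m' : ℝ) / Real.log 2 * 0 + 0)) :=
      (h1.const_mul _).add tendsto_one_div_atTop_nhds_zero_nat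
    rw [mul_zero, add_zero] at h3
    filter_upwards [h3.eventually (gt_mem_nhds hε), eventually_ge_atTop 1] with X hX hX1
    have hXpos : (0 : ℝ) < X := by exact_mod_cast hX1
    have h4 : ((({b ∈ Set.Icc 2 X | ∃ y : ℕ, b ^ (2 * m') + 1 = 2 * y ^ 2}).ncard : ℕ) : ℝ) ≤
        ((Nat.log 2 (X ^ m') + 1 : ℕ) : ℝ) := by
      exact_mod_cast TwoCount_even m' X hm1
    refine h4.trans ?_
    have h5 : ((Nat.log 2 (X ^ m') : ℕ) : ℝ) ≤ (m' : ℝ) * Real.log X / Real.log 2 := by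
      have h6 := Real.natLog_le_logb (X ^ m') 2
      have h7 : Real.logb ((2 : ℕ) : ℝ) ((X ^ m' : ℕ) : ℝ) = (m' : ℝ) * Real.log X / Real.log 2 := by
        rw [Real.logb]
        push_cast
        rw [Real.log_pow]
      rw [h7] at h6
      exact h6
    push_cast
    have h8 : (m' : ℝ) * Real.log X / Real.log 2 + 1 =
        ((m' : ℝ) / Real.log 2 * (Real.log X / X) + 1 / (X : ℝ)) * X := by
      field_simp
    calc ((Nat.log 2 (X ^ m') : ℕ) : ℝ) + 1 ≤ (m' : ℝ) * Real.log X / Real.log 2 + 1 := by linarith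
      _ = ((m' : ℝ) / Real.log 2 * (Real.log X / X) + 1 / (X : ℝ)) * X := h8
      _ ≤ ε * X := mul_le_mul_of_nonneg_right hX.le hXpos.le
  · have h0 : Tendsto (fun X : ℕ => ((X : ℕ) : ℝ)) atTop atTop := tendsto_natCast_atTop_atTop
    have hc : (0 : ℝ) < 3 * (2 * m + 1) / ε := by positivity
    filter_upwards [h0.eventually_ge_atTop ((3 * (2 * m + 1) / ε) ^ 2), eventually_ge_atTop 1]
      with X hX hX1
    have hXpos : (1 : ℝ) ≤ X := by exact_mod_cast hX1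
    have h4 : ((({b ∈ Set.Icc 2 X | ∃ y : ℕ, b ^ m + 1 = 2 * y ^ 2}).ncard : ℕ) : ℝ) ≤
        (((2 * m + 1) * (Nat.sqrt (X + 1) + 1) : ℕ) : ℝ) := by
      exact_mod_cast TwoCount_odd m X hodd
    refine h4.trans ?_
    set s := Real.sqrt X with hs
    have hs0 : 0 ≤ s := Real.sqrt_nonneg _
    have hss : s * s = X := Real.mul_self_sqrt (by linarith)
    have hs1 : 1 ≤ s := by
      rw [hs]
      exact Real.one_le_sqrt.2 hXpos
    have h5 : ((Nat.sqrt (X + 1) : ℕ) : ℝ) ≤ 2 * s := by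
      have h6 : Nat.sqrt (X + 1) * Nat.sqrt (X + 1) ≤ X + 1 := Nat.sqrt_le (X + 1)
      have h7 : ((Nat.sqrt (X + 1) : ℕ) : ℝ) * ((Nat.sqrt (X + 1) : ℕ) : ℝ) ≤ (X : ℝ) + 1 := by
        exact_mod_cast h6
      by_contra hcon
      have h8 := not_le.1 hcon
      nlinarith
    have h9 : 3 * (2 * m + 1) / ε ≤ s := by
      rw [hs]
      exact Real.le_sqrt_of_sq_le hX
    have h10 : 3 * (2 * m + 1) ≤ ε * s := by
      rw [div_le_iff₀ hε] at h9
      linarith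
    push_cast
    have hm0 : (0 : ℝ) ≤ m := by positivity
    calc (2 * (m : ℝ) + 1) * (((Nat.sqrt (X + 1) : ℕ) : ℝ) + 1)
        ≤ (2 * (m : ℝ) + 1) * (3 * s) := by
          apply mul_le_mul_of_nonneg_left _ (by linarith)
          linarith
      _ = (3 * (2 * m + 1)) * s := by ring
      _ ≤ (ε * s) * s := mul_le_mul_of_nonneg_right h10 hs0
      _ = ε * X := by rw [mul_assoc, hss]

end Pool.Agent.CDZ
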