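import Pool.Agent.CDZ.Defs

/-!
# CDZ, statements K: reciprocals modulo `v` (the method of Karatsuba)

Every docstring contains a complete proof.  `ψ = ZMod.stdAddChar : AddChar (ZMod v) ℂ` is the standard
additive character.
-/

set_option autoImplicit false

open Finset Filter Topology

namespace Pool.Agent.CDZ

/-- (K1) A congruence between sums of `l` reciprocals modulo `v` is an equality if `l D^(2l-1) < v`.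
PROOF.  `P = ∏ x i * ∏ y i`, `S = ∑ P / x i`, `T = ∑ P / y i` (exact divisions).  In `ZMod v` every
`x i`, `y i` is a unit, so `(S : ZMod v) = P ∑ (x i)⁻¹ = P ∑ (y i)⁻¹ = T`, that is `v ∣ S - T`.  All
terms lie in `[1, D^(2l-1)]` (product of `2l - 1` factors `≤ D`), so `|S - T| ≤ l D^(2l-1) < v` and
`S = T`; divide by `P` in `ℚ`. -/
def RecEq : Prop :=
  ∀ (v D l : ℕ), 1 ≤ l → l * D ^ (2 * l - 1) < v → ∀ x y : Fin l → ℕ,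
    (∀ i, 1 ≤ x i ∧ x i ≤ D ∧ Nat.Coprime (x i) v) →
    (∀ i, 1 ≤ y i ∧ y i ≤ D ∧ Nat.Coprime (y i) v) →
    ∑ i, ((x i : ZMod v))⁻¹ = ∑ i, ((y i : ZMod v))⁻¹ →
    ∑ i, (1 : ℚ) / (x i : ℚ) = ∑ i, (1 : ℚ) / (y i : ℚ)

/-- (K2) The equation `∑ 1 / x i = ∑ 1 / y i` has at most `C D^(l + ε)` solutions with
`1 ≤ x i, y i ≤ D`.
PROOF.  Let `L` be the least common multiple of all `x i, y i`.  (a) `L ^ 2 ∣ ∏ x i * ∏ y i`.  Let `p`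
be a prime and `e = v_p(L)` the largest exponent of `p` in one of the `2 l` numbers.  If `e ≥ 1` and
only one of the numbers, say `z`, has exponent `e`, then `1 / z` is `±` the sum of the other terms;
multiply by `L / p`: the other terms become fractions with denominators prime to `p`, that is (with
`L = p^e L'`) multiply by `p^(e-1) L'`: all other terms become integers, but `p^(e-1) L' / z` is not an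
integer.  Contradiction.  So two numbers have exponent `e`, and `2 e ≤` the exponent of `p` in the
product.  (b) So `L ^ 2 ≤ D ^ (2 l)`, `L ≤ D ^ l`.  (c) For a given `L` all `x i, y i` are divisors of
`L`, so there are at most `τ(L)^(2l)` tuples, and `τ(L) ≤ C1 L^(ε / (2 l ^ 2))` gives
`τ(L)^(2l) ≤ C1^(2l) D^ε`.  Total `D^l C1^(2l) D^ε`.
(The divisor bound `τ(m) ≤ C m^ε` is in the pool, see `Pool.Agent.CV.LevB` line 24 and its source.) -/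
def RecCount : Prop :=
  ∀ (l : ℕ), 1 ≤ l → ∀ ε : ℝ, 0 < ε → ∃ C : ℝ, 1 ≤ C ∧ ∀ D : ℕ, 1 ≤ D →
    ((((Fintype.piFinset fun _ : Fin l => Icc 1 D) ×ˢ
      (Fintype.piFinset fun _ : Fin l => Icc 1 D)).filter
      fun q => ∑ i, (1 : ℚ) / (q.1 i : ℚ) = ∑ i, (1 : ℚ) / (q.2 i : ℚ)).card : ℝ) ≤
        C * (D : ℝ) ^ ((l : ℝ) + ε)

/-- (K3) Bilinear sums and energies.
PROOF.  `W = ∑_{a ∈ A} F a`, `F a = ∑_{b ∈ B} ψ(g a b)`.  By Hölder (or convexity,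
`inner_le_nnorm_mul_nnorm`/`Finset.inner_mul_le_norm_mul_norm`/`inner_le_Lp_mul_Lq`/`pow_arith_mean_le_arith_mean_pow`)
`|W|^{l2} ≤ |A|^{l2-1} ∑_a |F a|^{l2}`.  Choose `θ a` with `|θ a| ≤ 1` and `|F a|^{l2} = θ a (F a)^{l2}`;
expanding, `(F a)^{l2} = ∑_{λ ∈ ZMod v} I(λ) ψ(g a λ)`, `I(λ) = #{b ∈ B^{l2} : ∑ b = λ}`.  So
`|W|^{l2} ≤ |A|^{l2-1} ∑_λ I(λ) |G λ|`, `G λ = ∑_{a ∈ A} θ a ψ(g a λ)`.  Hölder with the exponents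
`1 - 1/l1`, `1/(2 l1)`, `1/(2 l1)` applied to `I |G| = I^{1-1/l1} (I^2)^{1/(2 l1)} (|G|^{2 l1})^{1/(2 l1)}`
gives `(∑ I |G|)^{2 l1} ≤ (∑ I)^{2 l1 - 2} (∑ I^2) (∑ |G|^{2 l1})`.  (Elementary: Cauchy gives
`(∑ I|G|)^2 ≤ (∑ I)(∑ I |G|^2)`..., or: `(∑ I |G|)^{l1} ≤ (∑ I)^{l1-1} ∑ I |G|^{l1}` by convexity with
weights `I`, and then `(∑ I |G|^{l1})^2 ≤ (∑ I^2)(∑ |G|^{2 l1})` by Cauchy-Schwarz.)  Here
`∑ I = |B|^{l2}`, `∑ I^2 = En v l2 B`, and `∑_λ |G λ|^{2 l1} = ∑_λ |∑_{a ∈ A^{l1}} ∏θ(a_i) ψ(g λ ∑ a)|^2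
= ∑_{a, a' ∈ A^{l1}} ∏θ(a_i) conj ∏θ(a'_i) ∑_λ ψ(g λ (∑ a - ∑ a')) ≤ v En v l1 A` by orthogonality
(`g` is a unit).  Together `|W|^{2 l1 l2} ≤ |A|^{2 l1 (l2-1)} |B|^{l2 (2 l1-2)} v En(A) En(B)`. -/
def Hold : Prop :=
  ∀ (v : ℕ) [NeZero v] (l1 l2 : ℕ), 1 ≤ l1 → 1 ≤ l2 → ∀ (A B : Finset (ZMod v)) (g : ZMod v),
    IsUnit g →
    ‖∑ a ∈ A, ∑ b ∈ B, ZMod.stdAddChar (g * a * b)‖ ^ (2 * l1 * l2) ≤
      (A.card : ℝ) ^ (2 * l1 * l2 - 2 * l1) * (B.card : ℝ) ^ (2 * l1 * l2 - 2 * l2) * v *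
        En v l1 A * En v l2 B

/-- (K4) Bilinear sums with reciprocals; from (K1), (K2), (K3).
PROOF.  `l_i E_i^{2 l_i - 1} < v` implies `E_i < v`, so `x ↦ (x : ZMod v)⁻¹` is injective on `I_i`
(units, and `x ↦ (x : ZMod v)` is injective below `v`); `A`, `B` the images.  A solution of
`∑ a = ∑ a'` in `A` comes from a solution of `∑ 1/x_i = ∑ 1/y_i` in `[1, E_1]` by (K1), so
`En v l1 A ≤ C1 E_1^{l1 + ε}` by (K2) (with the maximum `C1` of the constants for `l ≤ L0`).  Since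
`|A| ≤ E_1`, `|B| ≤ E_2`, (K3) gives
`|W|^{2 l1 l2} ≤ E_1^{2 l1 l2 - 2 l1} E_2^{2 l1 l2 - 2 l2} v C1^2 E_1^{l1 + ε} E_2^{l2 + ε}`. -/
def KarW : Prop :=
  ∀ (L0 : ℕ) (ε : ℝ), 0 < ε → ∃ C : ℝ, 1 ≤ C ∧ ∀ (v : ℕ) [NeZero v] (l1 l2 E1 E2 : ℕ),
    1 ≤ l1 → l1 ≤ L0 → 1 ≤ l2 → l2 ≤ L0 → 1 ≤ E1 → 1 ≤ E2 →
    l1 * E1 ^ (2 * l1 - 1) < v → l2 * E2 ^ (2 * l2 - 1) < v →
    ∀ I1 I2 : Finset ℕ, (∀ x ∈ I1, 1 ≤ x ∧ x ≤ E1 ∧ Nat.Coprime x v) →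
    (∀ y ∈ I2, 1 ≤ y ∧ y ≤ E2 ∧ Nat.Coprime y v) → ∀ g : ZMod v, IsUnit g →
    ‖∑ x ∈ I1, ∑ y ∈ I2, ZMod.stdAddChar (g * ((x : ZMod v))⁻¹ * ((y : ZMod v))⁻¹)‖ ^ (2 * l1 * l2) ≤
      C * ((E1 : ℝ) * E2) ^ (((2 * l1 * l2 : ℕ) : ℝ) + ε) * v / ((E1 : ℝ) ^ l1 * (E2 : ℝ) ^ l2)

/-- (K5) The same with a coefficient `h ≠ 0` which need not be a unit; from (K4).
PROOF.  `e = gcd(h.val, v)`, `v = e v'`, `h.val = e h'`, `gcd(h', v') = 1`, `v' > 1` since `h ≠ 0`.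
With the ring homomorphism `c = ZMod.castHom : ZMod v → ZMod v'` we have
`ψ_v(h z) = exp(2π i e h' z / v) = exp(2π i h' z / v') = ψ_{v'}(h' c(z))` for all `z` (take a
representative; `ZMod.stdAddChar_apply`, `ZMod.toCircle_natCast`/`toCircle_intCast`).  `c` maps units to
units and inverses of units to inverses, so the sum is the sum of (K4) for `v'` and the unit `h' c(g)`.
`x` coprime to `v` is coprime to `v'`; `l_i E_i^{2 l_i - 1} e < v = e v'`; finally `v' ≤ v`. -/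
def KarH : Prop :=
  ∀ (L0 : ℕ) (ε : ℝ), 0 < ε → ∃ C : ℝ, 1 ≤ C ∧ ∀ (v : ℕ) [NeZero v] (l1 l2 E1 E2 : ℕ),
    1 ≤ l1 → l1 ≤ L0 → 1 ≤ l2 → l2 ≤ L0 → 1 ≤ E1 → 1 ≤ E2 → ∀ h : ZMod v, h ≠ 0 →
    l1 * E1 ^ (2 * l1 - 1) * Nat.gcd h.val v < v → l2 * E2 ^ (2 * l2 - 1) * Nat.gcd h.val v < v →
    ∀ I1 I2 : Finset ℕ, (∀ x ∈ I1, 1 ≤ x ∧ x ≤ E1 ∧ Nat.Coprime x v) →
    (∀ y ∈ I2, 1 ≤ y ∧ y ≤ E2 ∧ Nat.Coprime y v) → ∀ g : ZMod v, IsUnit g →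
    ‖∑ x ∈ I1, ∑ y ∈ I2,
      ZMod.stdAddChar (h * (g * ((x : ZMod v))⁻¹ * ((y : ZMod v))⁻¹))‖ ^ (2 * l1 * l2) ≤
      C * ((E1 : ℝ) * E2) ^ (((2 * l1 * l2 : ℕ) : ℝ) + ε) * v / ((E1 : ℝ) ^ l1 * (E2 : ℝ) ^ l2)

/-- (K6) Counting by finite Fourier analysis: `m < M` in a residue class modulo `P` with prescribed
residue `w q` modulo `v`.
PROOF.  `1[(m : ZMod v) = w q] = (1/v) ∑_{h : ZMod v} ψ(h (m - w q))`.  So the number is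
`(1/v) ∑_h K(h) W(-h)`, `K(h) = ∑_{m < M, m % P = m0} ψ(h m)`, `W(h) = ∑_{q ∈ Q} ψ(h w q)`.
`h = 0`: at most `(1/v) (M/P + 1) |Q|`.  `h ≠ 0`: the `m` are `m0 + P j`, `j < J'` (or there are none), so
`K(h)` is a geometric sum with ratio `ψ(h P) ≠ 1` (`P` is a unit):
`|K(h)| ≤ 2 / |1 - ψ(h P)| = 1 / |sin (π (hP).val / v)| ≤ (1/2) / min(r/v, 1 - r/v)` with
`r = (hP).val`, since `|sin (π t)| ≥ 2 min(t, 1-t)` for `0 ≤ t ≤ 1`; so `|K(h)| ≤ v / (2 min(r, v - r))`.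
(A) the `h ≠ 0` with `gcd(h.val, v) ≤ E0`: `|W(-h)| ≤ W0` by hypothesis (`gcd((-h).val, v)` is the same,
or conjugate), and `∑_{h ≠ 0} |K(h)| ≤ ∑_{r=1}^{v-1} v / (2 min(r, v-r)) ≤ v (1 + log v)` since
`h ↦ h P` is a bijection; contribution `(1 + log v) W0`.
(B) the others: `|W| ≤ |Q|`; for a divisor `e > E0` of `v`, `e < v`, the `h` with `gcd(h.val, v) = e` have
`r = (hP).val` a multiple `e r'` of `e`, `1 ≤ r' ≤ v/e - 1`, different for different `h`, and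
`∑ v / (2 min(e r', v - e r')) ≤ (v/e)(1 + log v) ≤ (v / E0) (1 + log v)`; the number of `e` is at most
`τ(v)`; contribution `|Q| τ(v) (1 + log v) / E0`. -/
def Fou : Prop :=
  ∀ (v : ℕ) [NeZero v] (P M m0 : ℕ), 2 ≤ v → 1 ≤ P → Nat.Coprime P v →
    ∀ (Q : Finset (ℕ × ℕ)) (w : ℕ × ℕ → ZMod v) (W0 E0 : ℝ), 0 ≤ W0 → 0 < E0 →
    (∀ h : ZMod v, h ≠ 0 → (Nat.gcd h.val v : ℝ) ≤ E0 →
      ‖∑ q ∈ Q, ZMod.stdAddChar (h * w q)‖ ≤ W0) →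
    (((Q ×ˢ range M).filter fun z => z.2 % P = m0 ∧ ((z.2 : ℕ) : ZMod v) = w z.1).card : ℝ) ≤
      ((M : ℝ) / P + 1) * Q.card / v +
        (1 + Real.log v) * (W0 + Q.card * v.divisors.card / E0)

/-- (K7) The count in one cell; from (K5), (K6).
PROOF.  `Q` = the pairs `(x, y)` with `x ∈ [D1, 2 D1)`, `y ∈ [D2, 2 D2)`, coprime to `v`, in the given
classes modulo `P`; it is a product set `I1 × I2`.  `w (x, y) = g x⁻¹ y⁻¹`, `M = s² u`,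
`E_i = 2 D_i`, `E0 = X^{κ/(10 L0)}`.
Sizes: `u ≤ (2 D_i)^{2 l_i - κ}` gives `2 D_i ≥ u^{1/(2 L0)} ≥ X^{1/(5 L0)}` and
`(2 D_i)^{l_i} ≥ u^{l_i/(2 l_i - κ)} ≥ u^{1/2 + κ/(4 L0)}`; `D_i ^ (2 l_i - 1 + κ) ≤ u` gives
`D_i ≤ u ≤ X` and `(2 D_i)^{2 l_i - 1} ≤ 2^{2 L0} u^{1 - κ/(2 L0)}`, so
`l_i (2 D_i)^{2 l_i - 1} E0 < u / n ≤ v` for large `X` (`u^{κ/(2 L0)} ≥ X^{κ/(5 L0)}`).
By (K5) with `ε = κ/(40 L0)`: for `h ≠ 0` with `gcd(h.val, v) ≤ E0`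
`|W|^{2 l1 l2} ≤ C (4 D1 D2)^{2 l1 l2 + ε} u / ((2 D1)^{l1} (2 D2)^{l2}) ≤
C (4 D1 D2)^{2 l1 l2} (4 X^2)^ε X^{-κ/(5 L0)} ≤ C' (D1 D2)^{2 l1 l2} X^{-3κ/(20 L0)}`, so
`|W| ≤ C'' D1 D2 X^{-3κ/(40 L0^3)}` (`2 l1 l2 ≤ 2 L0^2`).
Take `η = κ/(40 L0^3)`.  `P ≤ X^η ≤ D_i`, so `|Q| ≤ (D1/P + 1)(D2/P + 1) ≤ 4 D1 D2/P^2`, and
`M/P + 1 ≤ 2 s^2 u/P`, `u ≤ n v`: the main term of (K6) is `≤ 8 s^2 n D1 D2/P^3`.  The error term is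
`≤ (1 + log X) (C'' D1 D2 X^{-3η} + 4 D1 D2 τ(v)/E0) ≤ D1 D2 X^{-η}` for large `X`
(`τ(v) ≤ C X^{κ/(80 L0)}`). -/
def Cell : Prop :=
  ∀ (n L0 : ℕ) (κ : ℝ), 1 ≤ n → 1 ≤ L0 → 0 < κ → κ < 1 → ∃ η : ℝ, 0 < η ∧ ∀ᶠ X : ℕ in atTop,
    ∀ (u v P s D1 D2 l1 l2 x0 y0 m0 : ℕ) (g : ZMod v),
      (X : ℝ) ^ (2 / 5 : ℝ) ≤ u → u ≤ X → v ∣ u → u ≤ n * v → 1 ≤ s →
      1 ≤ P → (P : ℝ) ≤ (X : ℝ) ^ η → Nat.Coprime P v →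
      1 ≤ l1 → l1 ≤ L0 → 1 ≤ l2 → l2 ≤ L0 →
      (D1 : ℝ) ^ (2 * (l1 : ℝ) - 1 + κ) ≤ u → (u : ℝ) ≤ (2 * (D1 : ℝ)) ^ (2 * (l1 : ℝ) - κ) →
      (D2 : ℝ) ^ (2 * (l2 : ℝ) - 1 + κ) ≤ u → (u : ℝ) ≤ (2 * (D2 : ℝ)) ^ (2 * (l2 : ℝ) - κ) →
      IsUnit g →
      ((((Ico D1 (2 * D1) ×ˢ Ico D2 (2 * D2)) ×ˢ range (s ^ 2 * u)).filter fun z =>
        Nat.Coprime z.1.1 v ∧ Nat.Coprime z.1.2 v ∧ z.1.1 % P = x0 ∧ z.1.2 % P = y0 ∧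
        z.2 % P = m0 ∧
        ((z.2 : ℕ) : ZMod v) = g * ((z.1.1 : ℕ) : ZMod v)⁻¹ * ((z.1.2 : ℕ) : ZMod v)⁻¹).card : ℝ) ≤
        8 * (s : ℝ) ^ 2 * n * ((D1 : ℝ) * D2) / (P : ℝ) ^ 3 + (D1 : ℝ) * D2 * (X : ℝ) ^ (-η)

end Pool.Agent.CDZ
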