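import Pool.Agent.CDZ.StC
import Pool.Agent.CDZ.StK

/-!
# CDZ, statement C2: the main count

The count of `ZSet`, from `Cell` and `CharC`.
-/

set_option autoImplicit false

open Finset Filter Topology

namespace Pool.Agent.CDZ

/-- the classes which occur -/
private def ZCount_MM (n k q : ℕ) (PS : Finset ℕ) (a : ℕ × ℕ) : Set ℕ :=
  {m | 2 * (PS.filter fun p => p ∣ k * a.1 * a.2 * q).card ≤ PS.card ∧ m < ∏ p ∈ PS, p ∧
    ∀ p ∈ PS, ¬ p ∣ k * a.1 * a.2 * q →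
      IsSquare ((((k * a.1 * a.2 * m + 1 : ℕ) : ZMod p) ^ n - 1) *
        (((k * a.1 * a.2 * q + 1 : ℕ) : ZMod p) ^ n - 1))}

private theorem ZCount_MM_card (h2 : CharC) (n k q : ℕ) (PS : Finset ℕ) (hn : 1 ≤ n)
    (hPS : ∀ p ∈ PS, p.Prime ∧ 3 ≤ p ∧ Nat.Coprime (p - 1) n) (a : ℕ × ℕ) :
    (((ZCount_MM n k q PS a).ncard : ℕ) : ℝ) ≤
      2 * ((∏ p ∈ PS, p : ℕ) : ℝ) * (2 / 3 : ℝ) ^ ((PS.card : ℝ) / 2) := by
  by_cases h : 2 * (PS.filter fun p => p ∣ k * a.1 * a.2 * q).card ≤ PS.card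
  · have h3 := h2 n PS hn hPS (k * a.1 * a.2) q h
    have h4 : ZCount_MM n k q PS a = {m : ℕ | m < ∏ p ∈ PS, p ∧ ∀ p ∈ PS, ¬ p ∣ k * a.1 * a.2 * q →
        IsSquare ((((k * a.1 * a.2 * m + 1 : ℕ) : ZMod p) ^ n - 1) *
          (((k * a.1 * a.2 * q + 1 : ℕ) : ZMod p) ^ n - 1))} := by
      ext m
      constructor
      · intro hm
        exact hm.2
      · intro hm
        exact ⟨h, hm⟩
    rw [h4]
    exact h3
  · have h4 : ZCount_MM n k q PS a = ∅ := by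
      ext m
      constructor
      · intro hm
        exact absurd hm.1 h
      · intro hm
        exact hm.elim
    rw [h4, Set.ncard_empty]
    push_cast
    positivity

private theorem ZCount_cast {P p : ℕ} (hp : p ∣ P) (x : ℕ) :
    ((x % P : ℕ) : ZMod p) = (x : ZMod p) :=
  (ZMod.natCast_eq_natCast_iff _ _ _).2 ((Nat.mod_modEq x P).of_dvd hp)

theorem thm_ZCount (h1 : Cell) (h2 : CharC) : ZCount := by
  classical
  intro n L0 κ hn hL0 hκ hκ1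
  obtain ⟨η0, hη0, hX⟩ := h1 n L0 κ hn hL0 hκ hκ1
  refine ⟨η0 / 4, by positivity, ?_⟩
  filter_upwards [hX, eventually_ge_atTop 1] with X hX hX1
  intro u v s k D1 D2 l1 l2 PS w hXu huX hvu hunv hs hPS hPX hkv hl1 hl1' hl2 hl2' hD1 hD1' hD2 hD2' hw
  have hX1' : (1 : ℝ) ≤ X := by exact_mod_cast hX1
  have hX0 : (0 : ℝ) < X := by linarith
  obtain ⟨P, hP⟩ : ∃ P : ℕ, P = ∏ p ∈ PS, p := ⟨_, rfl⟩
  rw [← hP] at hPX
  have hP1 : 1 ≤ P := by
    rw [hP]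
    exact Finset.prod_pos fun p hp => (hPS p hp).1.pos
  have hPr : (1 : ℝ) ≤ P := by exact_mod_cast hP1
  have hP0 : (0 : ℝ) < P := by linarith
  have hPv : Nat.Coprime P v := by
    rw [hP]
    apply Nat.Coprime.prod_left
    intro p hp
    exact ((hPS p hp).1.coprime_iff_not_dvd).2 (hPS p hp).2.2.2
  have hpP : ∀ p ∈ PS, p ∣ P := by
    intro p hp
    rw [hP]
    exact dvd_prod_of_mem (fun p => p) hp
  have hPX' : (P : ℝ) ≤ (X : ℝ) ^ η0 :=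
    hPX.trans (Real.rpow_le_rpow_of_exponent_le hX1' (by linarith))
  -- the unit
  have hk1 : ((k : ℕ) : ZMod v) * ((k : ℕ) : ZMod v)⁻¹ = 1 := ZMod.coe_mul_inv_eq_one k hkv
  have hkU : IsUnit (((k : ℕ) : ZMod v)⁻¹) := ⟨⟨((k : ℕ) : ZMod v)⁻¹, k, by rw [mul_comm]; exact hk1, hk1⟩, rfl⟩
  have hgU : IsUnit (w * ((k : ℕ) : ZMod v)⁻¹) := hw.mul hkU
  -- the cells
  obtain ⟨cell, hcell⟩ : ∃ cell : ℕ → ℕ → ℕ → Finset ((ℕ × ℕ) × ℕ), cell = fun x0 y0 m0 =>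
      (((Ico D1 (2 * D1) ×ˢ Ico D2 (2 * D2)) ×ˢ range (s ^ 2 * u)).filter fun z =>
        Nat.Coprime z.1.1 v ∧ Nat.Coprime z.1.2 v ∧ z.1.1 % P = x0 ∧ z.1.2 % P = y0 ∧
        z.2 % P = m0 ∧
        ((z.2 : ℕ) : ZMod v) = (w * ((k : ℕ) : ZMod v)⁻¹) * ((z.1.1 : ℕ) : ZMod v)⁻¹ *
          ((z.1.2 : ℕ) : ZMod v)⁻¹) := ⟨_, rfl⟩
  have hcb : ∀ x0 y0 m0 : ℕ, ((cell x0 y0 m0).card : ℝ) ≤
      8 * (s : ℝ) ^ 2 * n * ((D1 : ℝ) * D2) / (P : ℝ) ^ 3 + (D1 : ℝ) * D2 * (X : ℝ) ^ (-η0) := by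
    intro x0 y0 m0
    have h3 := hX u v P s D1 D2 l1 l2 x0 y0 m0 (w * ((k : ℕ) : ZMod v)⁻¹) hXu huX hvu hunv hs hP1 hPX'
      hPv hl1 hl1' hl2 hl2' hD1 hD1' hD2 hD2' hgU
    rw [hcell]
    exact h3
  -- the classes
  obtain ⟨MF, hMF⟩ : ∃ MF : ℕ × ℕ → Finset ℕ, MF = fun a =>
      (range P).filter (fun m => m ∈ ZCount_MM n k (s ^ 2 * u) PS a) := ⟨_, rfl⟩
  have hMF1 : ∀ a, ((MF a).card : ℝ) ≤ 2 * (P : ℝ) * (2 / 3 : ℝ) ^ ((PS.card : ℝ) / 2) := by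
    intro a
    have h3 := ZCount_MM_card h2 n k (s ^ 2 * u) PS hn (fun p hp => ⟨(hPS p hp).1, (hPS p hp).2.1,
      (hPS p hp).2.2.1⟩) a
    rw [← hP] at h3
    have h4 : ((MF a : Finset ℕ) : Set ℕ) = ZCount_MM n k (s ^ 2 * u) PS a := by
      ext m
      rw [hMF, mem_coe, mem_filter, mem_range]
      constructor
      · intro hm
        exact hm.2
      · intro hm
        refine ⟨?_, hm⟩
        rw [hP]
        exact hm.2.1
    rw [← h4, Set.ncard_coe_finset] at h3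
    exact h3
  have hMF2 : ∀ a, ((MF a).card : ℝ) ≤ P := by
    intro a
    have h3 : (MF a).card ≤ P := by
      rw [hMF]
      exact (card_filter_le _ _).trans (card_range P).le
    exact_mod_cast h3
  -- the inclusion
  have hsub : ZSet n v k D1 D2 (s ^ 2 * u) PS w ⊆
      (((range P ×ˢ range P).biUnion fun a => (MF a).biUnion fun m0 => cell a.1 a.2 m0 :
        Finset ((ℕ × ℕ) × ℕ)) : Set ((ℕ × ℕ) × ℕ)) := by
    rintro ⟨⟨x, y⟩, m⟩ hz
    obtain ⟨hx, hy, hm, hxv, hyv, hw', hhalf, hsq⟩ := hz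
    simp only at hx hy hm hxv hyv hw' hhalf hsq
    have hdv : ∀ p ∈ PS, (p ∣ k * (x % P) * (y % P) * (s ^ 2 * u) ↔ p ∣ k * x * y * (s ^ 2 * u)) := by
      intro p hp
      rw [← ZMod.natCast_eq_zero_iff, ← ZMod.natCast_eq_zero_iff]
      rw [Nat.cast_mul, Nat.cast_mul (k * (x % P)), Nat.cast_mul k, ZCount_cast (hpP p hp) x,
        ZCount_cast (hpP p hp) y]
      push_cast
      exact Iff.rfl
    rw [mem_coe, mem_biUnion]
    refine ⟨(x % P, y % P), ?_, ?_⟩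
    · rw [mem_product, mem_range, mem_range]
      exact ⟨Nat.mod_lt _ (by omega), Nat.mod_lt _ (by omega)⟩
    · rw [mem_biUnion]
      refine ⟨m % P, ?_, ?_⟩
      · rw [hMF, mem_filter, mem_range]
        refine ⟨Nat.mod_lt _ (by omega), ?_, ?_, ?_⟩
        · show 2 * (PS.filter fun p => p ∣ k * (x % P) * (y % P) * (s ^ 2 * u)).card ≤ PS.card
          rw [filter_congr hdv]
          exact hhalf
        · rw [← hP]
          exact Nat.mod_lt _ (by omega)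
        · intro p hp hpd
          have hpd' : ¬ p ∣ k * (x % P) * (y % P) * (s ^ 2 * u) := hpd
          rw [hdv p hp] at hpd'
          have h5 := hsq p hp hpd'
          show IsSquare ((((k * (x % P) * (y % P) * (m % P) + 1 : ℕ) : ZMod p) ^ n - 1) *
            (((k * (x % P) * (y % P) * (s ^ 2 * u) + 1 : ℕ) : ZMod p) ^ n - 1))
          have h6 : ((k * (x % P) * (y % P) * (m % P) + 1 : ℕ) : ZMod p) =
              ((k * x * y * m + 1 : ℕ) : ZMod p) := by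
            rw [Nat.cast_add, Nat.cast_mul, Nat.cast_mul (k * (x % P)), Nat.cast_mul k,
              ZCount_cast (hpP p hp) x, ZCount_cast (hpP p hp) y, ZCount_cast (hpP p hp) m]
            push_cast
            rfl
          have h7 : ((k * (x % P) * (y % P) * (s ^ 2 * u) + 1 : ℕ) : ZMod p) =
              ((k * x * y * (s ^ 2 * u) + 1 : ℕ) : ZMod p) := by
            rw [Nat.cast_add, Nat.cast_mul, Nat.cast_mul (k * (x % P)), Nat.cast_mul k,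
              ZCount_cast (hpP p hp) x, ZCount_cast (hpP p hp) y]
            push_cast
            rfl
          rw [h6, h7]
          exact h5
      · rw [hcell, mem_filter, mem_product, mem_product, mem_range]
        refine ⟨⟨⟨hx, hy⟩, hm⟩, hxv, hyv, rfl, rfl, rfl, ?_⟩
        show ((m : ℕ) : ZMod v) = (w * ((k : ℕ) : ZMod v)⁻¹) * ((x : ℕ) : ZMod v)⁻¹ *
          ((y : ℕ) : ZMod v)⁻¹
        have hx1 : ((x : ℕ) : ZMod v) * ((x : ℕ) : ZMod v)⁻¹ = 1 := ZMod.coe_mul_inv_eq_one x hxv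
        have hy1 : ((y : ℕ) : ZMod v) * ((y : ℕ) : ZMod v)⁻¹ = 1 := ZMod.coe_mul_inv_eq_one y hyv
        rw [← hw']
        push_cast
        calc ((m : ℕ) : ZMod v) = (((k : ℕ) : ZMod v) * ((k : ℕ) : ZMod v)⁻¹) *
              (((x : ℕ) : ZMod v) * ((x : ℕ) : ZMod v)⁻¹) *
              (((y : ℕ) : ZMod v) * ((y : ℕ) : ZMod v)⁻¹) * m := by
              rw [hk1, hx1, hy1]
              ring
          _ = _ := by ring
  -- the count
  have hcount : ((ZSet n v k D1 D2 (s ^ 2 * u) PS w).ncard : ℝ) ≤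
      ∑ a ∈ range P ×ˢ range P, ∑ m0 ∈ MF a, ((cell a.1 a.2 m0).card : ℝ) := by
    have h3 : (ZSet n v k D1 D2 (s ^ 2 * u) PS w).ncard ≤
        ∑ a ∈ range P ×ˢ range P, ∑ m0 ∈ MF a, (cell a.1 a.2 m0).card := by
      calc (ZSet n v k D1 D2 (s ^ 2 * u) PS w).ncard
          ≤ ((((range P ×ˢ range P).biUnion fun a => (MF a).biUnion fun m0 => cell a.1 a.2 m0 :
            Finset ((ℕ × ℕ) × ℕ)) : Set ((ℕ × ℕ) × ℕ))).ncard := Set.ncard_le_ncard hsub (finite_toSet _)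
        _ = ((range P ×ˢ range P).biUnion fun a => (MF a).biUnion fun m0 => cell a.1 a.2 m0).card :=
            Set.ncard_coe_finset _
        _ ≤ ∑ a ∈ range P ×ˢ range P, ((MF a).biUnion fun m0 => cell a.1 a.2 m0).card :=
            card_biUnion_le
        _ ≤ _ := sum_le_sum fun a _ => card_biUnion_le
    exact_mod_cast h3
  obtain ⟨Dd, hDd⟩ : ∃ Dd : ℝ, Dd = (D1 : ℝ) * D2 := ⟨_, rfl⟩
  have hDd0 : 0 ≤ Dd := by
    rw [hDd]
    positivity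
  obtain ⟨T, hT⟩ : ∃ T : ℝ, T = (2 / 3 : ℝ) ^ ((PS.card : ℝ) / 2) := ⟨_, rfl⟩
  have hT0 : 0 ≤ T := by
    rw [hT]
    positivity
  have hE0 : (0 : ℝ) ≤ (X : ℝ) ^ (-η0) := by positivity
  rw [← hDd] at hcb ⊢
  rw [← hT] at hMF1 ⊢
  have hinner : ∀ a ∈ range P ×ˢ range P, ∑ m0 ∈ MF a, ((cell a.1 a.2 m0).card : ℝ) ≤
      2 * (P : ℝ) * T * (8 * (s : ℝ) ^ 2 * n * Dd / (P : ℝ) ^ 3) + P * (Dd * (X : ℝ) ^ (-η0)) := by
    intro a _
    calc ∑ m0 ∈ MF a, ((cell a.1 a.2 m0).card : ℝ)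
        ≤ ∑ m0 ∈ MF a, (8 * (s : ℝ) ^ 2 * n * Dd / (P : ℝ) ^ 3 + Dd * (X : ℝ) ^ (-η0)) :=
          sum_le_sum fun m0 _ => hcb _ _ _
      _ = ((MF a).card : ℝ) * (8 * (s : ℝ) ^ 2 * n * Dd / (P : ℝ) ^ 3) +
          ((MF a).card : ℝ) * (Dd * (X : ℝ) ^ (-η0)) := by
          rw [sum_const, nsmul_eq_mul, mul_add]
      _ ≤ _ := add_le_add (mul_le_mul_of_nonneg_right (hMF1 a) (by positivity))
          (mul_le_mul_of_nonneg_right (hMF2 a) (by positivity))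
  have houter : ∑ a ∈ range P ×ˢ range P, ∑ m0 ∈ MF a, ((cell a.1 a.2 m0).card : ℝ) ≤
      ((P : ℝ) * P) * (2 * (P : ℝ) * T * (8 * (s : ℝ) ^ 2 * n * Dd / (P : ℝ) ^ 3) +
        P * (Dd * (X : ℝ) ^ (-η0))) := by
    refine (sum_le_card_nsmul _ _ _ hinner).trans (le_of_eq ?_)
    rw [nsmul_eq_mul, card_product, card_range]
    push_cast
    ring
  refine (hcount.trans houter).trans ?_
  have hmain : ((P : ℝ) * P) * (2 * (P : ℝ) * T * (8 * (s : ℝ) ^ 2 * n * Dd / (P : ℝ) ^ 3) +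
        P * (Dd * (X : ℝ) ^ (-η0))) =
      Dd * (16 * (s : ℝ) ^ 2 * n * T) + Dd * ((P : ℝ) ^ 3 * (X : ℝ) ^ (-η0)) := by
    field_simp
    ring
  rw [hmain, mul_add]
  apply add_le_add le_rfl
  apply mul_le_mul_of_nonneg_left _ hDd0
  have hP3 : (P : ℝ) ^ 3 ≤ (X : ℝ) ^ (3 * (η0 / 4)) := by
    calc (P : ℝ) ^ 3 ≤ ((X : ℝ) ^ (η0 / 4)) ^ 3 := pow_le_pow_left₀ hP0.le hPX 3
      _ = (X : ℝ) ^ (3 * (η0 / 4)) := by
          rw [← Real.rpow_natCast, ← Real.rpow_mul hX0.le]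
          congr 1
          push_cast
          ring
  calc (P : ℝ) ^ 3 * (X : ℝ) ^ (-η0) ≤ (X : ℝ) ^ (3 * (η0 / 4)) * (X : ℝ) ^ (-η0) :=
        mul_le_mul_of_nonneg_right hP3 hE0
    _ = (X : ℝ) ^ (-(η0 / 4)) := by
        rw [← Real.rpow_add hX0]
        congr 1
        ring

end Pool.Agent.CDZ
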