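import Pool.Agent.CDZ.RecEq
import Pool.Agent.CDZ.RecCount
import Pool.Agent.CDZ.Hold
import Pool.Agent.CDZ.KarW
import Pool.Agent.CDZ.KarH
import Pool.Agent.CDZ.Fou
import Pool.Agent.CDZ.Cell
import Pool.Agent.CDZ.CharC
import Pool.Agent.CDZ.ZCount
import Pool.Agent.CDZ.OmSum
import Pool.Agent.CDZ.Roots
import Pool.Agent.CDZ.PrmSet
import Pool.Agent.CDZ.NotDvdC
import Pool.Agent.CDZ.MidIneq
import Pool.Agent.CDZ.MidCount
import Pool.Agent.CDZ.GWin
import Pool.Agent.CDZ.AllWin
import Pool.Agent.CDZ.Miss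
import Pool.Agent.CDZ.Nest
import Pool.Agent.CDZ.SigB
import Pool.Agent.CDZ.BadCount
import Pool.Agent.CDZ.GridBad
import Pool.Agent.CDZ.Hits
import Pool.Agent.CDZ.GoodOne
import Pool.Agent.CDZ.GoodAll
import Pool.Agent.CDZ.PellChain
import Pool.Agent.CDZ.ChebProp
import Pool.Agent.CDZ.OddCount
import Pool.Agent.CDZ.TwoCount
import Pool.Agent.CDZ.EvenCase
import Pool.Agent.CDZ.OddCase
import Pool.Agent.CDZ.Final

/-!
# CDZ / Main: the chain of all modules
-/

set_option autoImplicit false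

namespace Pool.Agent.CDZ

/-- For every `n ≥ 2` the numbers `b` which occur as the larger base have density zero. -/
theorem main_t : Final :=
  thm_Final
    (thm_EvenCase thm_PellChain (thm_OddCount thm_ChebProp) thm_TwoCount)
    (thm_OddCase
      (thm_GoodAll (thm_GridBad (thm_BadCount thm_AllWin (thm_SigB thm_AllWin thm_Nest)))
        (thm_Hits thm_GWin thm_Miss) thm_GoodOne)
      (thm_MidCount
        (thm_ZCount (thm_Cell (thm_KarH (thm_KarW thm_RecEq thm_RecCount thm_Hold)) thm_Fou)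
          thm_CharC)
        thm_OmSum thm_PrmSet (thm_MidIneq thm_Roots thm_NotDvdC)))

end Pool.Agent.CDZ
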