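import Pool.Agent.CDZ.StW

/-!
# CDZ (W3): numbers without prime factors from a set
-/

set_option autoImplicit false

open Finset Filter Topology

namespace Pool.Agent.CDZ

private theorem Miss_card (X d : ℕ) :
    ∑ N ∈ Icc 1 X, (if d ∣ N then (1 : ℝ) else 0) = ((X / d : ℕ) : ℝ) := by
  rw [Finset.sum_boole]
  have h : (Icc 1 X).filter (fun N => d ∣ N) = (Ioc 0 X).filter fun N => d ∣ N := by
    ext N
    simp only [mem_filter, mem_Icc, mem_Ioc]
    constructor
    · rintro ⟨⟨h1, h2⟩, h3⟩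
      exact ⟨⟨by omega, h2⟩, h3⟩
    · rintro ⟨⟨h1, h2⟩, h3⟩
      exact ⟨⟨by omega, h2⟩, h3⟩
  rw [h, Nat.Ioc_filter_dvd_card_eq_div]

theorem thm_Miss : Miss := by
  intro X Q hQ hE
  set E : ℝ := ∑ p ∈ Q, (1 : ℝ) / p with hEdef
  let g : ℕ → ℕ → ℝ := fun p N => if p ∣ N then 1 else 0
  let F : ℕ → ℝ := fun N => ∑ p ∈ Q, g p N
  have hX0 : (0 : ℝ) ≤ X := Nat.cast_nonneg X
  have hcard : (Q.card : ℝ) ≤ X := by
    have h1 : Q ⊆ Icc 1 X := by
      intro p hp
      rw [mem_Icc]
      exact ⟨(hQ p hp).1.one_lt.le, (hQ p hp).2⟩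
    have h2 := card_le_card h1
    rw [Nat.card_Icc] at h2
    exact_mod_cast (by omega : Q.card ≤ X)
  have hS1 : X * E - Q.card ≤ ∑ N ∈ Icc 1 X, F N := by
    have h1 : ∑ N ∈ Icc 1 X, F N = ∑ p ∈ Q, ((X / p : ℕ) : ℝ) := by
      simp only [F, g]
      rw [Finset.sum_comm]
      exact Finset.sum_congr rfl fun p _ => Miss_card X p
    rw [h1]
    have h2 : X * E - Q.card = ∑ p ∈ Q, ((X : ℝ) * (1 / p) - 1) := by
      rw [Finset.sum_sub_distrib, ← Finset.mul_sum, ← hEdef]
      simp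
    rw [h2]
    apply Finset.sum_le_sum
    intro p hp
    have h3 : (0 : ℝ) < p := by exact_mod_cast (hQ p hp).1.pos
    have h4 := Nat.lt_floor_add_one ((X : ℝ) / p)
    rw [Nat.floor_div_natCast, Nat.floor_natCast] at h4
    rw [mul_one_div]
    linarith
  have hS2 : ∑ N ∈ Icc 1 X, F N ^ 2 ≤ X * E ^ 2 + X * E := by
    have h1 : ∑ N ∈ Icc 1 X, F N ^ 2 = ∑ p ∈ Q, ∑ q ∈ Q, ∑ N ∈ Icc 1 X, g p N * g q N := by
      calc ∑ N ∈ Icc 1 X, F N ^ 2 = ∑ N ∈ Icc 1 X, ∑ p ∈ Q, ∑ q ∈ Q, g p N * g q N := by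
            apply Finset.sum_congr rfl
            intro N _
            simp only [F]
            rw [sq, Finset.sum_mul_sum]
        _ = ∑ p ∈ Q, ∑ N ∈ Icc 1 X, ∑ q ∈ Q, g p N * g q N := Finset.sum_comm
        _ = _ := Finset.sum_congr rfl fun p _ => Finset.sum_comm
    have h2 : ∀ p ∈ Q, ∀ q ∈ Q, ∑ N ∈ Icc 1 X, g p N * g q N ≤
        (X : ℝ) * ((1 / p) * (1 / q)) + if p = q then (X : ℝ) * (1 / p) else 0 := by
      intro p hp q hq
      have hp0 : (0 : ℝ) < p := by exact_mod_cast (hQ p hp).1.pos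
      have hq0 : (0 : ℝ) < q := by exact_mod_cast (hQ q hq).1.pos
      by_cases hpq : p = q
      · subst hpq
        rw [if_pos rfl]
        have h3 : ∑ N ∈ Icc 1 X, g p N * g p N = ((X / p : ℕ) : ℝ) := by
          rw [← Miss_card X p]
          apply Finset.sum_congr rfl
          intro N _
          simp only [g]
          split_ifs <;> simp
        rw [h3]
        have h4 : ((X / p : ℕ) : ℝ) ≤ (X : ℝ) * (1 / p) := by
          rw [mul_one_div]
          exact Nat.cast_div_le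
        have h5 : 0 ≤ (X : ℝ) * ((1 / p) * (1 / p)) := by positivity
        linarith
      · rw [if_neg hpq, add_zero]
        have h3 : ∑ N ∈ Icc 1 X, g p N * g q N = ((X / (p * q) : ℕ) : ℝ) := by
          rw [← Miss_card X (p * q)]
          apply Finset.sum_congr rfl
          intro N _
          have hco : Nat.Coprime p q := (Nat.coprime_primes (hQ p hp).1 (hQ q hq).1).2 hpq
          simp only [g]
          by_cases h4 : p ∣ N
          · by_cases h5 : q ∣ N
            · rw [if_pos h4, if_pos h5, if_pos (hco.mul_dvd_of_dvd_of_dvd h4 h5)]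
              norm_num
            · rw [if_pos h4, if_neg h5, if_neg fun h => h5 ((dvd_mul_left q p).trans h)]
              norm_num
          · rw [if_neg h4, if_neg fun h => h4 ((dvd_mul_right p q).trans h)]
            norm_num
        rw [h3]
        have h4 : ((X / (p * q) : ℕ) : ℝ) ≤ (X : ℝ) / ((p * q : ℕ) : ℝ) := Nat.cast_div_le
        refine h4.trans (le_of_eq ?_)
        push_cast
        field_simp
    rw [h1]
    calc ∑ p ∈ Q, ∑ q ∈ Q, ∑ N ∈ Icc 1 X, g p N * g q N
        ≤ ∑ p ∈ Q, ∑ q ∈ Q,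
          ((X : ℝ) * ((1 / p) * (1 / q)) + if p = q then (X : ℝ) * (1 / p) else 0) :=
          Finset.sum_le_sum fun p hp => Finset.sum_le_sum fun q hq => h2 p hp q hq
      _ = X * E ^ 2 + X * E := by
          simp only [Finset.sum_add_distrib]
          congr 1
          · simp only [← Finset.mul_sum]
            rw [sq, hEdef, Finset.sum_mul_sum]
            simp only [Finset.mul_sum]
          · rw [hEdef, Finset.mul_sum]
            apply Finset.sum_congr rfl
            intro p hp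
            rw [Finset.sum_ite_eq, if_pos hp]
  have hvar : ∑ N ∈ Icc 1 X, (F N - E) ^ 2 ≤ 3 * X * E := by
    have h1 : ∑ N ∈ Icc 1 X, (F N - E) ^ 2 =
        ∑ N ∈ Icc 1 X, F N ^ 2 - 2 * E * ∑ N ∈ Icc 1 X, F N + X * E ^ 2 := by
      have h2 : ∀ N, (F N - E) ^ 2 = F N ^ 2 - 2 * E * F N + E ^ 2 := fun N => by ring
      simp only [h2, Finset.sum_add_distrib, Finset.sum_sub_distrib, ← Finset.mul_sum]
      simp
    rw [h1]
    nlinarith [mul_le_mul_of_nonneg_left hS1 hE.le, mul_le_mul_of_nonneg_left hcard hE.le]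
  have hlow : (((Icc 1 X).filter fun N => ∀ p ∈ Q, ¬ p ∣ N).card : ℝ) * E ^ 2 ≤
      ∑ N ∈ Icc 1 X, (F N - E) ^ 2 := by
    rw [← nsmul_eq_mul, ← Finset.sum_const]
    calc ∑ _N ∈ (Icc 1 X).filter (fun N => ∀ p ∈ Q, ¬ p ∣ N), E ^ 2
        = ∑ N ∈ (Icc 1 X).filter (fun N => ∀ p ∈ Q, ¬ p ∣ N), (F N - E) ^ 2 := by
          apply Finset.sum_congr rfl
          intro N hN
          have h1 : F N = 0 := by
            apply Finset.sum_eq_zero
            intro p hp
            exact if_neg ((mem_filter.1 hN).2 p hp)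
          rw [h1]
          ring
      _ ≤ _ := Finset.sum_le_sum_of_subset_of_nonneg (filter_subset _ _) fun _ _ _ => sq_nonneg _
  rw [le_div_iff₀ hE]
  have h3 := hlow.trans hvar
  nlinarith

end Pool.Agent.CDZ
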