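import Pool.Agent.CDZ.StK

/-!
# CDZ / RecEq: congruences between sums of reciprocals (helper82)
-/

set_option autoImplicit false

open Finset

namespace Pool.Agent.CDZ

private lemma RecEq_mul {l : ℕ} (x y : Fin l → ℕ) (i : Fin l) :
    x i * ((∏ j ∈ univ.erase i, x j) * ∏ j, y j) = (∏ j, x j) * ∏ j, y j := by
  rw [← mul_assoc, Finset.mul_prod_erase _ _ (Finset.mem_univ i)]

private lemma RecEq_le {l D : ℕ} (hl : 1 ≤ l) (x y : Fin l → ℕ) (hx : ∀ i, x i ≤ D)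
    (hy : ∀ i, y i ≤ D) (i : Fin l) :
    (∏ j ∈ univ.erase i, x j) * ∏ j, y j ≤ D ^ (2 * l - 1) := by
  have h1 : ∏ j ∈ univ.erase i, x j ≤ D ^ (l - 1) := by
    refine (Finset.prod_le_pow_card _ _ D fun j _ => hx j).trans ?_
    rw [Finset.card_erase_of_mem (Finset.mem_univ i), Finset.card_univ, Fintype.card_fin]
  have h2 : ∏ j, y j ≤ D ^ l := by
    refine (Finset.prod_le_pow_card _ _ D fun j _ => hy j).trans ?_
    rw [Finset.card_univ, Fintype.card_fin]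
  calc (∏ j ∈ univ.erase i, x j) * ∏ j, y j ≤ D ^ (l - 1) * D ^ l := Nat.mul_le_mul h1 h2
    _ = D ^ (2 * l - 1) := by rw [← pow_add]; congr 1; omega

private lemma RecEq_zmod {v l : ℕ} (x y : Fin l → ℕ) (hx : ∀ i, Nat.Coprime (x i) v) :
    ((∑ i, (∏ j ∈ univ.erase i, x j) * ∏ j, y j : ℕ) : ZMod v) =
      ((∏ j, x j) * ∏ j, y j : ℕ) * ∑ i, ((x i : ZMod v))⁻¹ := by
  rw [Finset.mul_sum, Nat.cast_sum]
  refine Finset.sum_congr rfl fun i _ => ?_
  rw [← RecEq_mul x y i, Nat.cast_mul (x i)]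
  have h := ZMod.coe_mul_inv_eq_one (x i) (hx i)
  calc _ = ((x i : ZMod v) * ((x i : ZMod v))⁻¹) *
        (((∏ j ∈ univ.erase i, x j) * ∏ j, y j : ℕ) : ZMod v) := by rw [h, one_mul]
    _ = _ := by ring

private lemma RecEq_rat {l : ℕ} (x y : Fin l → ℕ) (hx : ∀ i, 1 ≤ x i) (hy : ∀ i, 1 ≤ y i) :
    ((∑ i, (∏ j ∈ univ.erase i, x j) * ∏ j, y j : ℕ) : ℚ) =
      ((∏ j, x j) * ∏ j, y j : ℕ) * ∑ i, (1 : ℚ) / (x i : ℚ) := by
  rw [Finset.mul_sum, Nat.cast_sum]
  refine Finset.sum_congr rfl fun i _ => ?_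
  rw [← RecEq_mul x y i, Nat.cast_mul (x i)]
  have h : (x i : ℚ) ≠ 0 := by
    have := hx i
    exact_mod_cast (by omega : x i ≠ 0)
  field_simp

theorem thm_RecEq : RecEq := by
  intro v D l hl hv x y hx hy h
  set S := ∑ i, (∏ j ∈ univ.erase i, x j) * ∏ j, y j with hS
  set T := ∑ i, (∏ j ∈ univ.erase i, y j) * ∏ j, x j with hT
  have hSv : S < v := by
    refine lt_of_le_of_lt ?_ hv
    calc S ≤ ∑ _i : Fin l, D ^ (2 * l - 1) :=
          Finset.sum_le_sum fun i _ => RecEq_le hl x y (fun i => (hx i).2.1) (fun i => (hy i).2.1) i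
      _ = l * D ^ (2 * l - 1) := by
          rw [Finset.sum_const, Finset.card_univ, Fintype.card_fin, smul_eq_mul]
  have hTv : T < v := by
    refine lt_of_le_of_lt ?_ hv
    calc T ≤ ∑ _i : Fin l, D ^ (2 * l - 1) :=
          Finset.sum_le_sum fun i _ => RecEq_le hl y x (fun i => (hy i).2.1) (fun i => (hx i).2.1) i
      _ = l * D ^ (2 * l - 1) := by
          rw [Finset.sum_const, Finset.card_univ, Fintype.card_fin, smul_eq_mul]
  have hST : ((S : ℕ) : ZMod v) = ((T : ℕ) : ZMod v) := by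
    rw [hS, hT, RecEq_zmod x y (fun i => (hx i).2.2), RecEq_zmod y x (fun i => (hy i).2.2), h,
      mul_comm (∏ j, x j)]
  have hST2 : S = T := by
    have h1 := (ZMod.natCast_eq_natCast_iff _ _ _).1 hST
    exact Nat.ModEq.eq_of_lt_of_lt h1 hSv hTv
  have h1 := RecEq_rat x y (fun i => (hx i).1) (fun i => (hy i).1)
  have h2 := RecEq_rat y x (fun i => (hy i).1) (fun i => (hx i).1)
  rw [← hS] at h1
  rw [← hT, ← hST2, mul_comm (∏ j, y j)] at h2
  have hP : (((∏ j, x j) * ∏ j, y j : ℕ) : ℚ) ≠ 0 := by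
    have h3 : (∏ j, x j) * ∏ j, y j ≠ 0 := by
      refine mul_ne_zero ?_ ?_
      · exact Finset.prod_ne_zero_iff.2 fun i _ => by have := (hx i).1; omega
      · exact Finset.prod_ne_zero_iff.2 fun i _ => by have := (hy i).1; omega
    exact_mod_cast h3
  exact mul_left_cancel₀ hP (h1.symm.trans h2)

end Pool.Agent.CDZ
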