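import Pool.Agent.CDZ.Defs

/-!
# CDZ, statements C: characters and the main count

Every docstring contains a complete proof.
-/

set_option autoImplicit false

open Finset Filter Topology

namespace Pool.Agent.CDZ

/-- (C1) Residue classes `m` modulo `∏ p` for which `((c m + 1)^n - 1) ((c q + 1)^n - 1)` is a square
modulo every `p ∈ PS` not dividing `c q`.
PROOF.  Let `p ∈ PS`, `¬ p ∣ c q`.  In `ZMod p`: `b = c q + 1 ≠ 1`, and `x ↦ x ^ n` is a bijection of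
`ZMod p` (`n ≥ 1` coprime to `p - 1`), so `t = b^n - 1 ≠ 0`.  `m ↦ (c m + 1)^n - 1` is a bijection of
`ZMod p` (`c` is a unit).  So the number of `m ∈ ZMod p` with `((c m + 1)^n - 1) t` a square is the
number of squares of `ZMod p`, `(p + 1)/2 ≤ 2 p / 3` (`p ≥ 3`).  By `Pool.Agent.Cohn.crt_count` (with
`q p = p`, `L = ∏ p`, `R p` the residues `< p` of the good `m`, and `R p = range p` for `p ∣ c q`; the
value `m = 0` may be replaced by `m = ∏ p`) the number is at most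
`2 ∏_{p ∣ c q} p ∏_{p ∤ c q} (2 p / 3) = 2 ∏ p (2/3)^{#{p ∤ c q}}` and `#{p ∤ c q} ≥ |PS| / 2`. -/
def CharC : Prop :=
  ∀ (n : ℕ) (PS : Finset ℕ), 1 ≤ n → (∀ p ∈ PS, p.Prime ∧ 3 ≤ p ∧ Nat.Coprime (p - 1) n) →
    ∀ (c q : ℕ), 2 * (PS.filter fun p => p ∣ c * q).card ≤ PS.card →
      (({m : ℕ | m < ∏ p ∈ PS, p ∧ ∀ p ∈ PS, ¬ p ∣ c * q →
        IsSquare ((((c * m + 1 : ℕ) : ZMod p) ^ n - 1) *
          (((c * q + 1 : ℕ) : ZMod p) ^ n - 1))}.ncard : ℕ) : ℝ) ≤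
        2 * ((∏ p ∈ PS, p : ℕ) : ℝ) * (2 / 3 : ℝ) ^ ((PS.card : ℝ) / 2)

/-- The triples `(x, y, m)` counted in one dyadic cell: `m < q`, `k x y m = w` in `ZMod v`, at most
half of the primes `p ∈ PS` divide `k x y q`, and
`((k x y m + 1)^n - 1) ((k x y q + 1)^n - 1)` is a square modulo the others. -/
def ZSet (n v k D1 D2 q : ℕ) (PS : Finset ℕ) (w : ZMod v) : Set ((ℕ × ℕ) × ℕ) :=
  {z | z.1.1 ∈ Ico D1 (2 * D1) ∧ z.1.2 ∈ Ico D2 (2 * D2) ∧ z.2 < q ∧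
    Nat.Coprime z.1.1 v ∧ Nat.Coprime z.1.2 v ∧
    ((k * z.1.1 * z.1.2 * z.2 : ℕ) : ZMod v) = w ∧
    2 * (PS.filter fun p => p ∣ k * z.1.1 * z.1.2 * q).card ≤ PS.card ∧
    ∀ p ∈ PS, ¬ p ∣ k * z.1.1 * z.1.2 * q →
      IsSquare ((((k * z.1.1 * z.1.2 * z.2 + 1 : ℕ) : ZMod p) ^ n - 1) *
        (((k * z.1.1 * z.1.2 * q + 1 : ℕ) : ZMod p) ^ n - 1))}

/-- (C2) The count of `ZSet`; from `Cell` (K7) and `CharC` (C1).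
PROOF.  `P = ∏_{p ∈ PS} p`, coprime to `v`.  Split according to the classes
`(x0, y0, m0)` of `(x, y, m)` modulo `P`.  For given `x0, y0 < P` only the classes `m0` of (C1) with
`c = k x0 y0` occur (all conditions at `p ∈ PS` depend only on the classes modulo `p`), and only if
`2 #{p ∣ k x0 y0 q} ≤ |PS|`; there are at most `2 P (2/3)^{|PS|/2}` of them.  `k x y m = w` in `ZMod v` is
`m = g x⁻¹ y⁻¹` with the unit `g = w k⁻¹`.  With `q = s^2 u` and `η` = one quarter of the `η` of (K7),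
(K7) gives in total at most
`P^2 * 2 P (2/3)^{|PS|/2} * 8 s^2 n D1 D2 / P^3 + P^3 D1 D2 X^{-4η}` and `P^3 ≤ X^{3η}`. -/
def ZCount : Prop :=
  ∀ (n L0 : ℕ) (κ : ℝ), 1 ≤ n → 1 ≤ L0 → 0 < κ → κ < 1 → ∃ η : ℝ, 0 < η ∧ ∀ᶠ X : ℕ in atTop,
    ∀ (u v s k D1 D2 l1 l2 : ℕ) (PS : Finset ℕ) (w : ZMod v),
      (X : ℝ) ^ (2 / 5 : ℝ) ≤ u → u ≤ X → v ∣ u → u ≤ n * v → 1 ≤ s →
      (∀ p ∈ PS, p.Prime ∧ 3 ≤ p ∧ Nat.Coprime (p - 1) n ∧ ¬ p ∣ v) →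
      ((∏ p ∈ PS, p : ℕ) : ℝ) ≤ (X : ℝ) ^ η → Nat.Coprime k v →
      1 ≤ l1 → l1 ≤ L0 → 1 ≤ l2 → l2 ≤ L0 →
      (D1 : ℝ) ^ (2 * (l1 : ℝ) - 1 + κ) ≤ u → (u : ℝ) ≤ (2 * (D1 : ℝ)) ^ (2 * (l1 : ℝ) - κ) →
      (D2 : ℝ) ^ (2 * (l2 : ℝ) - 1 + κ) ≤ u → (u : ℝ) ≤ (2 * (D2 : ℝ)) ^ (2 * (l2 : ℝ) - κ) →
      IsUnit w →
      ((ZSet n v k D1 D2 (s ^ 2 * u) PS w).ncard : ℝ) ≤
        (D1 : ℝ) * D2 * (16 * (s : ℝ) ^ 2 * n * (2 / 3 : ℝ) ^ ((PS.card : ℝ) / 2) +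
          (X : ℝ) ^ (-η))

/-- (C3) `∑_{u ≤ X} n^{ω(u)} / u ≤ C (log X)^A`.
PROOF.  `n^{ω(u)}` is multiplicative; `∑_{u ≤ X} n^{ω(u)}/u ≤ ∏_{p ≤ X} (1 + n ∑_{j ≥ 1} p^{-j}) =
∏ (1 + n/(p-1)) ≤ exp(n ∑_{p ≤ X} (1/p + 1/(p(p-1)))) ≤ C (log X)^n` by the second theorem of Mertens
(upper bound; `Pool.Agent.EVN.Ran` line 27 or `Pool.Agent.CU.ling_mert1`).
(Any `A` is allowed: a cruder argument: `n^{ω(u)} ≤ C τ_k(u)`, `τ_k` the `k`-fold divisor function with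
`k = n`, and `∑_{u ≤ X} τ_k(u)/u ≤ (∑_{u ≤ X} 1/u)^k ≤ (1 + log X)^k`.  Indeed `n^{ω(u)} ≤ τ_n(u)` since
`τ_n(p^j) ≥ n`: this avoids the theorem of Mertens; `τ_n(u)` = number of `n`-tuples with product `u`.) -/
def OmSum : Prop :=
  ∀ n : ℕ, 1 ≤ n → ∃ C A : ℝ, 0 < C ∧ 0 < A ∧ ∀ X : ℕ, 2 ≤ X →
    ∑ u ∈ Icc 1 X, (n : ℝ) ^ u.primeFactors.card / (u : ℝ) ≤ C * (Real.log X + 1) ^ A

/-- (C4) Number of roots of unity modulo a squarefree `v`.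
PROOF.  Induction on the number of prime factors, or the injection
`ζ ↦ (p ↦ ζ mod p)` from `ZMod v` to `∏_{p ∣ v} ZMod p` (`v` squarefree): the image lies in the
product of the sets `{ξ ∈ ZMod p : ξ ^ n = 1}` of at most `n` elements (roots of `X^n - 1`). -/
def Roots : Prop :=
  ∀ (n v : ℕ) [NeZero v], 1 ≤ n → Squarefree v →
    (univ.filter fun z : ZMod v => z ^ n = 1).card ≤ n ^ v.primeFactors.card

/-- (C5) The set of primes `PS`.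
PROOF.  `y = ⌊(log log X)^2⌋`, `PS` = the primes in `(y, 2y]` which are `2` modulo `n`: for them
`p - 1 = 1 mod n`, so `gcd(p - 1, n) = 1`.  `Pool.Agent.Cohn.th_class_tendsto` (`a = 2`) gives
`∑_{p ∈ PS} log p ≥ y / (2 φ(n))` for large `y`, so `|PS| ≥ y / (2 φ(n) log (2 y)) ≥ A √(y + 1) ≥ A log log X`.
`∏_{p ∈ PS} p ≤ primorial (2 y) ≤ 4^{2y} ≤ exp (3 (log log X)^2) ≤ X^η`.  Last:
`|PS| / 2 * #{b : ...} ≤ ∑_{b ≤ X} #{p ∈ PS : p ∣ b - 1} ≤ ∑_{p ∈ PS} X / p ≤ |PS| X / y`, so the number of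
`b` is at most `2 X / y ≤ ε X`. -/
def PrmSet : Prop :=
  ∀ n : ℕ, 3 ≤ n → Odd n → ∀ A η ε : ℝ, 0 < A → 0 < η → 0 < ε → ∀ᶠ X : ℕ in atTop,
    ∃ PS : Finset ℕ, (∀ p ∈ PS, p.Prime ∧ 3 ≤ p ∧ Nat.Coprime (p - 1) n) ∧
      A * Real.log (Real.log X) ≤ PS.card ∧ ((∏ p ∈ PS, p : ℕ) : ℝ) ≤ (X : ℝ) ^ η ∧
      (((Icc 2 X).filter fun b =>
        PS.card < 2 * (PS.filter fun p => p ∣ b - 1).card).card : ℝ) ≤ ε * X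

/-- `b` has a solution of the middle range with two admissible divisors of `c`. -/
def MidB (n S0 L0 : ℕ) (κ : ℝ) (X b : ℕ) : Prop :=
  ∃ c m m' u s u' t : ℕ, Pool.Agent.Cohn.Sol n b c m m' u s u' t ∧ s ≤ S0 ∧
    (X : ℝ) ^ (2 / 5 : ℝ) ≤ u ∧ ∃ d1 d2 l1 l2 : ℕ, d1 * d2 ∣ c ∧ 1 ≤ l1 ∧ l1 ≤ L0 ∧ 1 ≤ l2 ∧ l2 ≤ L0 ∧
      Adm κ l1 u d1 ∧ Adm κ l2 u d2

/-- (C6) Local lemma: for a solution and a prime `p ∣ u`, `p ∤ n`, `p` does not divide `c`.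
PROOF.  Suppose `p ∣ c`.  `a = c m' + 1`, `b = c m + 1`, `m = s² u`, `v_p(m)` is odd
(`Pool.Agent.Cohn.odd_val_of_dvd`), `p ∤ m'` (`hco`, `p ∣ m`).  `a^n - 1 = (a - 1)(1 + a + ... + a^{n-1})` and
`p ∤ 1 + ... + a^{n-1}` by `Pool.Agent.Cohn.geom_mod` (`p ∣ a - 1`, `p ∤ n`), so
`v_p(a^n - 1) = v_p(c m') = v_p(c)`; in the same way `v_p(b^n - 1) = v_p(c) + v_p(m)`.  The sum
`2 v_p(c) + v_p(m)` is odd, but the product is a square (and not `0`). -/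
def NotDvdC : Prop :=
  ∀ n b c m m' u s u' t p : ℕ, 1 ≤ n → Pool.Agent.Cohn.Sol n b c m m' u s u' t → p.Prime →
    p ∣ u → ¬ p ∣ n → ¬ p ∣ c

/-- (C7) The combinatorial part of the main count; from (C4), (C6).
PROOF.  Let `b` be in the set, with `Sol`, `d1, d2, l1, l2`.  `v = u / gcd(u, n)`: since `u` is squarefree
`v = ∏_{p ∣ u, p ∤ n} p` is squarefree, `v ∣ u`, `u = gcd(u, n) v ≤ n v`.  Every prime `p ∣ v` satisfies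
`Hn n p` (`Sol.hp`), that is `gcd(p - 1, n) > 1` (`Pool.Agent.Cohn.Hn_iff`), so `p ∉ PS`; and `p ∤ c` by (C6),
`p ∤ m'` (`hco`, `p ∣ u ∣ m`).  `ζ = (c m' + 1 : ZMod v)` satisfies `ζ^n = 1` (`v` squarefree, all its primes
divide `(c m' + 1)^n - 1`) and `w = ζ - 1 = c m'` is a unit.  `D_i = 2^{⌊log₂ d_i⌋}` (`d_i ≥ 1` since `c > 0`),
`D_i ≤ d_i < 2 D_i`, so the four inequalities between `u` and `D_i` follow from `Adm`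
(`2 l - 1 + κ ≥ 0`, `2 l - κ ≥ 0`).  `k = c / (d1 d2)`.  Then `((d1, d2), m') ∈ ZSet n v k D1 D2 (s²u) PS w`:
`m' < m = s² u`, `k d1 d2 m' = c m'`, the number of `p ∈ PS` dividing `c m = b - 1` is at most half,
`((c m' + 1)^n - 1)((c m + 1)^n - 1)` is a square.  `k D1 D2 s² u ≤ c m ≤ X`.
`b = k d1 d2 s² u + 1` is determined by `s, u, k, d1, d2`.  So the number of `b` is at most the sum over
`s ≤ S0` (`s ≥ 1`), `u ∈ [1, X]` squarefree, `ζ` (at most `n^{ω(u)}` by (C4)), `D1, D2` (at most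
`(log₂ X + 1)^2`), `l1, l2`, `k ≤ X/(s² u D1 D2)` of `|ZSet| ≤ D1 D2 s² Φ`, that is
`S0 L0² (log₂ X + 1)² X Φ ∑ n^{ω(u)}/u`.  (`ZSet` is finite; `ω(v) ≤ ω(u)`.) -/
def MidIneq : Prop :=
  ∀ (n S0 L0 X : ℕ) (κ Φ : ℝ) (PS : Finset ℕ), 1 ≤ n → 1 ≤ L0 → 0 < κ → κ < 1 → 2 ≤ X → 0 ≤ Φ →
    (∀ p ∈ PS, p.Prime ∧ 3 ≤ p ∧ Nat.Coprime (p - 1) n) →
    (∀ (u v s k D1 D2 l1 l2 : ℕ) (w : ZMod v),
      (X : ℝ) ^ (2 / 5 : ℝ) ≤ u → u ≤ X → v ∣ u → u ≤ n * v → 1 ≤ s →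
      (∀ p ∈ PS, ¬ p ∣ v) → Nat.Coprime k v →
      1 ≤ l1 → l1 ≤ L0 → 1 ≤ l2 → l2 ≤ L0 →
      (D1 : ℝ) ^ (2 * (l1 : ℝ) - 1 + κ) ≤ u → (u : ℝ) ≤ (2 * (D1 : ℝ)) ^ (2 * (l1 : ℝ) - κ) →
      (D2 : ℝ) ^ (2 * (l2 : ℝ) - 1 + κ) ≤ u → (u : ℝ) ≤ (2 * (D2 : ℝ)) ^ (2 * (l2 : ℝ) - κ) →
      IsUnit w →
      ((ZSet n v k D1 D2 (s ^ 2 * u) PS w).ncard : ℝ) ≤ (D1 : ℝ) * D2 * ((s : ℝ) ^ 2 * Φ)) →
    (({b ∈ Set.Icc 2 X | MidB n S0 L0 κ X b ∧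
      2 * (PS.filter fun p => p ∣ b - 1).card ≤ PS.card}.ncard : ℕ) : ℝ) ≤
      S0 * (L0 : ℝ) ^ 2 * (Real.log X / Real.log 2 + 1) ^ 2 * X * Φ *
        ∑ u ∈ Icc 1 X, (n : ℝ) ^ u.primeFactors.card / (u : ℝ)

/-- (C8) The main count; from (C2), (C3), (C5), (C7).
PROOF.  `η` from (C2), `C, A` from (C3), `PS` from (C5) with `A' = (A + 4) * 2 / log (3/2)`, `η`, `ε/2`.
`Φ = 16 n (2/3)^{|PS|/2} + X^{-η}`: (C2) gives the hypothesis of (C7) (`X^{-η} ≤ s² X^{-η}`).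
`(2/3)^{|PS|/2} ≤ exp(-(A + 4) log log X) = (log X)^{-A-4}`.  So the number of `b` with at most half of
the `p ∈ PS` dividing `b - 1` is at most
`C' (log X + 1)^{A + 2} X (16 n (log X)^{-A-4} + X^{-η}) ≤ (ε/2) X` for large `X`, and the others are at
most `(ε/2) X` by (C5). -/
def MidCount : Prop :=
  ∀ (n S0 L0 : ℕ) (κ ε : ℝ), 3 ≤ n → Odd n → 1 ≤ L0 → 0 < κ → κ < 1 → 0 < ε →
    ∀ᶠ X : ℕ in atTop, (({b ∈ Set.Icc 2 X | MidB n S0 L0 κ X b}.ncard : ℕ) : ℝ) ≤ ε * X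

end Pool.Agent.CDZ
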