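import Pool.Agent.CDZ.Defs

/-!
# CDZ, statements W: windows, parities, good divisors

Every docstring contains a complete proof.
-/

set_option autoImplicit false

open Finset Filter Topology

namespace Pool.Agent.CDZ

/-- (W1) The primes `2 mod n` in a window whose exponents have the ratio `2 ^ K`.
PROOF.  Split `(b / 2^K, b]` into the `K` pieces `(b 2^{-i-1}, b 2^{-i}]`.  With `H = Hc n 2`
(`Pool.Agent.Cohn.Hc n 2 p ↔ p.Prime ∧ p % n = 2 % n`, that is `Gp n p`), `S1 H Y = ∑_{p ≤ Y, H} log p / p`: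
`Pool.Agent.Cohn.th_class_tendsto` and `Pool.Agent.Cohn.S1_pow_tendsto` give
`S1 H ⌊X^t⌋ / log X → t / φ(n)` for `t ≥ 0`.  In the piece `(t/2, t]` we have `log p ≤ t log X`, so
`∑ 1/p ≥ (S1 ⌊X^t⌋ - S1 ⌊X^{t/2}⌋) / (t log X) → (t - t/2)/(t φ(n)) = 1/(2 φ(n)) > 1/(8 φ(n))`. -/
def GWin : Prop :=
  ∀ n : ℕ, 3 ≤ n → Odd n → ∀ (b : ℝ) (K : ℕ), 0 < b → ∀ᶠ X : ℕ in atTop,
    (K : ℝ) / (8 * Nat.totient n) ≤
      ∑ p ∈ (pw X (b / 2 ^ K) b).filter (Gp n), (1 : ℝ) / p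

/-- (W2) Upper bound for all primes in short windows, uniformly in the window.
PROOF.  `Pool.Agent.CU.ling_mert1 (a0/2) (ρ/2)` (or any form of the second theorem of Mertens):
for `⌊X^{a0/2}⌋ ≤ u ≤ v ≤ X`, `∑_{u < p ≤ v} 1/p ≤ log (log v / log u) + ρ/2`.  Take
`u = ⌈X^α⌉ - 1`, `v = ⌊X^β⌋` (so `u ≥ X^α - 1`); if `v ≤ u` there is no prime.  `log v ≤ β log X`,
`log u ≥ α log X + log (1 - X^{-α}) ≥ α log X - 2 X^{-a0}`, so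
`log (log v / log u) ≤ log (β/α) + ρ/2 ≤ (β - α)/α + ρ/2` for large `X`.  Primes `p` with
`α ≤ log p / log X ≤ β` satisfy `X^α ≤ p ≤ X^β`. -/
def AllWin : Prop :=
  ∀ (a0 ρ : ℝ), 0 < a0 → a0 < 1 → 0 < ρ → ∀ᶠ X : ℕ in atTop, ∀ (α β : ℝ) (Q : Finset ℕ),
    a0 ≤ α → α ≤ β → β ≤ 1 → (∀ q ∈ Q, q.Prime ∧ α ≤ lg X q ∧ lg X q ≤ β) →
    ∑ q ∈ Q, (1 : ℝ) / q ≤ (β - α) / a0 + ρ

/-- (W3) Numbers without prime factors from `Q` (second moment).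
PROOF.  `E = ∑ 1/p > 0`, `f(N) = #{p ∈ Q : p ∣ N}`.  `∑_{N ≤ X} f = ∑_p ⌊X/p⌋ ≥ X E - |Q|`, and
`∑ f² = ∑_{p ≠ q} ⌊X/(pq)⌋ + ∑_p ⌊X/p⌋ ≤ X E² + X E`.  So
`∑ (f - E)² ≤ X E² + X E - 2 E (X E - |Q|) + X E² = X E + 2 E |Q| ≤ 3 X E` (`|Q| ≤ X`).  The `N` with
`f(N) = 0` contribute `E²` each. -/
def Miss : Prop :=
  ∀ (X : ℕ) (Q : Finset ℕ), (∀ p ∈ Q, p.Prime ∧ p ≤ X) → 0 < ∑ p ∈ Q, (1 : ℝ) / p →
    (((Icc 1 X).filter fun N => ∀ p ∈ Q, ¬ p ∣ N).card : ℝ) ≤ 3 * X / ∑ p ∈ Q, (1 : ℝ) / p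

/-- (W4) Parities at lacunary frequencies.
PROOF.  By `Finset.induction_on_min` on `A`, for all `T` and all `α ≤ β`.  `A = ∅`: the hypothesis on
intervals, and `ρ ≤ T`.  Step: `A = insert i A'`, `i < j` for all `j ∈ A'`.  Let
`s = lam / (a i + x1)²` and `f(x) = lam / (a i + x)`.  For `x, y ∈ [x0, x1]`:
`|f x - f y| = lam |x - y| / ((a i + x)(a i + y))` lies between `s |x - y|` and `(21/20) s |x - y|`.
Let `Q1` = the `q ∈ Q` with `α ≤ x q ≤ β` which are bad for all indices in `A`.  If it is empty the sum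
is `0`.  All values `f (x q)`, `q ∈ Q1`, lie in an interval of length `≤ (21/20) s (β - α)`, so the
integers `t` with `2 t - 1/40 ≤ f (x q) ≤ 2 t + 1 + 1/40` for some `q ∈ Q1` are at most
`((21/20) s (β - α) + 1 + 1/20)/2 + 1 ≤ (21/40) s (β - α) + 2` many.  For a fixed `t` the `x q` lie in an
interval `[α', β']` (minimum and maximum) of length `≤ (1 + 1/20)/s`.  By induction, with
`T' = 1/(25 s)` (`ρ ≤ T'` by hypothesis; `4 (a j + x1)²/lam ≤ 4 (a i + x1)²/(100 lam) = T'` for `j ∈ A'`),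
the sum over these `q` is at most `K (3/4)^{|A'|} (21/20 + 1/25)/s`.  Total
`≤ K (3/4)^{|A'|} ((21/40)(β - α) + 2/s)(109/100) ≤ K (3/4)^{|A'|} (3/4) ((β - α) + 4/s)` since
`(21/40)(109/100) < 3/4` and `2 * 109/100 ≤ 3`; and `4/s ≤ T`. -/
def Nest : Prop :=
  ∀ (Q : Finset ℕ) (x w : ℕ → ℝ) (K ρ lam x0 x1 : ℝ) (a : ℕ → ℝ) (A : Finset ℕ) (T : ℝ),
    0 ≤ K → 0 ≤ ρ → 0 < lam → 0 ≤ x0 →
    (∀ q ∈ Q, x0 ≤ x q ∧ x q ≤ x1 ∧ 0 ≤ w q) →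
    (∀ (α β : ℝ) (R : Finset ℕ), R ⊆ Q → α ≤ β → (∀ q ∈ R, α ≤ x q ∧ x q ≤ β) →
      ∑ q ∈ R, w q ≤ K * (β - α + ρ)) →
    (∀ i ∈ A, 0 < a i ∧ (a i + x1) ^ 2 ≤ 21 / 20 * (a i + x0) ^ 2 ∧
      25 * ρ * lam ≤ (a i + x1) ^ 2 ∧ 4 * (a i + x1) ^ 2 / lam ≤ T) →
    (∀ i ∈ A, ∀ j ∈ A, i < j → 100 * (a j + x1) ^ 2 ≤ (a i + x1) ^ 2) →
    ρ ≤ T → ∀ (α β : ℝ) (R : Finset ℕ), R ⊆ Q → α ≤ β →
      (∀ q ∈ R, α ≤ x q ∧ x q ≤ β ∧ ∀ i ∈ A, BadR (1 / 40) (lam / (a i + x q))) →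
      ∑ q ∈ R, w q ≤ K * (3 / 4) ^ A.card * (β - α + T)

/-- (W5) The bad primes of a window of the second family; from (W2), (W4).
PROOF.  `lg X (p i) ∈ (aU i / M, aU i]` for `p i ∈ WA i`, and `lg X q ∈ [x0, x1]` for `q ∈ WB j`, with
`x1 = bU j`, `x0 = x1 / M` (`X^a < p ≤ X^b` for `p ∈ pw X a b`).  Apply (W4) with `x = lg X`, `w q = 1/q`,
`a i = lg X (p i)`, `K = 1/x0`, `T = x0`, `ρ = 1/(400 M^(12 J + 4))`, `α = x0`, `β = x1`.  The hypothesis on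
intervals is (W2) with `a0 = x0`, `ρ' = ρ / x0`: `(β - α)/x0 + ρ/x0`; (clip `[α, β]` to `[x0, x1]`).
Checks (`M ≥ 32`): `x1 ≤ bU 0 = M^{-(6J+2)}` and `a i ≥ aU (J-1) / M = M^{-(6J)}`, so
`x1 ≤ a i / M² ≤ a i / 1000` and `(a i + x1)² ≤ (1 + 1/1000)² (a i)² ≤ (21/20)(a i + x0)²`.
Lacunary: for `i < j`, `a j ≤ aU j ≤ aU i / M² ≤ a i / M` and `x1 ≤ a j / 1000`, so
`100 (a j + x1)² ≤ 101 (a j)² ≤ 101 (a i)² / 32² ≤ (a i)²`.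
`25 ρ lam ≤ 50 ρ ≤ M^{-12 J} ≤ (a i)²`.  `4 (a i + x1)²/lam ≤ 12 * 1.01 (aU 0)² ≤ 13 M^{-(8J+2)}` and
`T = x0 ≥ bU (J-1) / M = M^{-(8J+1)}`; `13 ≤ M`.  `ρ ≤ T`.
Result: `∑ ≤ (1/x0)(3/4)^m (x1 - x0 + x0) = M (3/4)^m`. -/
def SigB : Prop :=
  ∀ (M J m : ℕ), 32 ≤ M → 1 ≤ J → ∀ᶠ X : ℕ in atTop, ∀ (lam : ℝ) (A : Finset ℕ) (p : ℕ → ℕ) (j : ℕ)
    (R : Finset ℕ), 1 / 3 ≤ lam → lam ≤ 2 → A ⊆ range J → A.card = m → (∀ i ∈ A, p i ∈ WA M J X i) →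
    j < J → R ⊆ WB M J X j →
    (∀ q ∈ R, ∀ i ∈ A, BadR (1 / 40) (lam / (lg X (p i) + lg X q))) →
    ∑ q ∈ R, (1 : ℝ) / q ≤ M * (3 / 4) ^ m

/-- (W6) The numbers which are bad for a given `lam`; from (W2), (W5).
PROOF.  The windows `WA i`, `WB j` (`i, j < J`) are pairwise disjoint (the exponent intervals
`(M^{-(4J+2+2i)}, M^{-(4J+1+2i)}]` and `(M^{-(6J+3+2j)}, M^{-(6J+2+2j)}]` are disjoint).  If `N ≤ X` is bad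
with `A, B, p, q`, the primes `p i` (`i ∈ A`), `q j` (`j ∈ B`) are different, so their product divides `N`;
the number of such `N ≤ X` is at most `X / (∏ p i ∏ q j)`.  Sum over `A, B` (at most `4^J` pairs), over
`p ∈ ∏_{i ∈ A} WA i` and, for given `p`, over `q ∈ ∏_{j ∈ B} R_j(p)`, `R_j(p)` = the `q ∈ WB j` that are bad with
all `p i`: `∑_q ∏ 1/q j = ∏_j ∑_{q ∈ R_j} 1/q ≤ (M (3/4)^m)^m` by (W5), and
`∑_p ∏ 1/p i ≤ ∏_i ∑_{p ∈ WA i} 1/p ≤ M^m` ((W2) with `α = aU i / M`, `β = aU i`: at most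
`(β - α)/α + 1 = M`).  So the number is at most `X 4^J M^m M^m (3/4)^{m m}`. -/
def BadCount : Prop :=
  ∀ (M J m : ℕ), 32 ≤ M → 1 ≤ J → ∀ᶠ X : ℕ in atTop, ∀ lam : ℝ, 1 / 3 ≤ lam → lam ≤ 2 →
    (({N ∈ Set.Icc 1 X | BadN M J m X lam N}.ncard : ℕ) : ℝ) ≤
      4 ^ J * (M : ℝ) ^ (2 * m) * (3 / 4) ^ (m * m) * X

/-- (W7) The numbers which are bad for some point of a grid; from (W6).
PROOF.  `J = 2 m + 1`.  The grid `lam_k = 1/3 + k / (80 M^(6 J))`, `k ≤ 80 M^(6J) * 5/3`, all in `[1/3, 2]`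
and at most `200 M^(6J)` points.  Union bound: `200 M^(12 m + 6) 4^(2m+1) M^(2m) (3/4)^(m m) ≤ ε` for large
`m`. -/
def GridBad : Prop :=
  ∀ (M : ℕ) (ε : ℝ), 32 ≤ M → 0 < ε → ∀ᶠ m : ℕ in atTop, ∀ᶠ X : ℕ in atTop,
    (({N ∈ Set.Icc 1 X | ∃ k : ℕ, 1 / 3 + (k : ℝ) / (80 * (M : ℝ) ^ (6 * (2 * m + 1))) ≤ 2 ∧
      BadN M (2 * m + 1) m X (1 / 3 + (k : ℝ) / (80 * (M : ℝ) ^ (6 * (2 * m + 1)))) N}.ncard : ℕ) : ℝ)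
      ≤ ε * X

/-- (W8) Most numbers have a prime factor `2 mod n` in most windows; from (W1), (W3).
PROOF.  `M = 2^K`.  For each of the `2 J` windows `W` (`J = 2 m + 1`) let `Q = W.filter (Gp n)`; by (W1) (with
`b = aU i` or `bU j`) `∑_{p ∈ Q} 1/p ≥ K/(8 φ(n))`, and by (W3) the number of `N ≤ X` without a prime factor in
`Q` is at most `24 φ(n) X / K`.  Let `f(N)` be the number of windows without such a prime factor: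
`∑_{N ≤ X} f(N) ≤ 2 J * 24 φ(n) X / K`, so `#{N : f(N) ≥ m + 1} ≤ 2 (2 m + 1) 24 φ(n) X / (K (m + 1)) ≤
96 φ(n) X / K ≤ ε X` for `K ≥ 96 φ(n)/ε`.  If `f(N) ≤ m`, each family has at least `m + 1` windows with
such a prime factor. -/
def Hits : Prop :=
  ∀ (n : ℕ) (ε : ℝ), 3 ≤ n → Odd n → 0 < ε → ∃ K : ℕ, 5 ≤ K ∧ ∀ m : ℕ, ∀ᶠ X : ℕ in atTop,
    (({N ∈ Set.Icc 1 X | ¬ ((∃ A ⊆ range (2 * m + 1), A.card = m + 1 ∧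
        ∀ i ∈ A, ∃ p ∈ WA (2 ^ K) (2 * m + 1) X i, Gp n p ∧ p ∣ N) ∧
      (∃ B ⊆ range (2 * m + 1), B.card = m + 1 ∧
        ∀ j ∈ B, ∃ q ∈ WB (2 ^ K) (2 * m + 1) X j, Gp n q ∧ q ∣ N))}.ncard : ℕ) : ℝ) ≤ ε * X

/-- (W9) Good divisors, for one number `N`; no other statement is used.
PROOF.  Choose `p i` (`i ∈ A`), `q j` (`j ∈ B`) in the windows (`|A| = |B| = m + 1`), all `2 mod n`.  Let
`X^{2/5} ≤ u ≤ X`, `lam = log u / log X ∈ [2/5, 1]`, and let `lam' = 1/3 + k/(80 M^(6J))` be the largest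
grid point `≤ lam`: `0 ≤ lam - lam' ≤ 1/(80 M^(6J))` (and `lam' ≤ 2`).  Since `m ≥ 1`, pick any
`i0 ∈ A`, `j0 ∈ B`, and so on: claim: there are `i1 ≠ i2` in `A`, `j1 ≠ j2` in `B` such that
`(i1, j1)` and `(i2, j2)` are not bad for `lam'` (`¬ BadR (1/40) (lam'/(lg p + lg q))`).  If some pair
`(i1, j1)` is not bad, `A \ {i1}`, `B \ {j1}` have `m` elements and, as `N` is not bad for `lam'`, they contain
a pair that is not bad.  If all pairs of `A × B` were bad, `N` would be bad (subsets of size `m`).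
For such a pair let `d = p q`, `D = lg p + lg q = log d / log X`, `r' = lam'/D`, `r = lam/D`.
`D ≥ aU (J-1)/M = M^{-6J}` so `|r - r'| ≤ 1/80`.  `r'` is not near an interval `[2t, 2t+1]` (margin `1/40`),
so with `t = ⌊(r' + 1/40)/2⌋`: `2 t + 1 + 1/40 < r' < 2 t + 2 - 1/40`, and
`2 t + 1 + 1/80 ≤ r ≤ 2 t + 2 - 1/80`.  `l = t + 1`: `r > 0` gives `l ≥ 1`; `r ≤ 1/D ≤ M^(6J)` gives
`l ≤ M^(6J)` (`2 l - 1 ≤ r`).  `r = log u / log d`, so `Adm (1/80) l u d`.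
`d1 = p_{i1} q_{j1}`, `d2 = p_{i2} q_{j2}`: products of four different primes dividing `N` (windows are
disjoint), so `d1 d2 ∣ N`; their primes are `2 mod n` and `> X^{bU(J-1)/M} ≥ S`. -/
def GoodOne : Prop :=
  ∀ (n S M m : ℕ), 32 ≤ M → 1 ≤ m → ∀ᶠ X : ℕ in atTop, ∀ N u : ℕ, 1 ≤ N → N ≤ X →
    (X : ℝ) ^ (2 / 5 : ℝ) ≤ u → u ≤ X →
    (∃ A ⊆ range (2 * m + 1), A.card = m + 1 ∧
        ∀ i ∈ A, ∃ p ∈ WA M (2 * m + 1) X i, Gp n p ∧ p ∣ N) →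
    (∃ B ⊆ range (2 * m + 1), B.card = m + 1 ∧
        ∀ j ∈ B, ∃ q ∈ WB M (2 * m + 1) X j, Gp n q ∧ q ∣ N) →
    (¬ ∃ k : ℕ, 1 / 3 + (k : ℝ) / (80 * (M : ℝ) ^ (6 * (2 * m + 1))) ≤ 2 ∧
      BadN M (2 * m + 1) m X (1 / 3 + (k : ℝ) / (80 * (M : ℝ) ^ (6 * (2 * m + 1)))) N) →
    GoodDiv n S (M ^ (6 * (2 * m + 1))) (1 / 80) N u

/-- (W10) Almost all `N` have good divisors for all `u`; from (W7), (W8), (W9).
PROOF.  `K` from (W8) with `ε/2`, `M = 2^K ≥ 32`, `m ≥ 1` from (W7) with `ε/2`, `L = M^(6(2m+1))`. -/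
def GoodAll : Prop :=
  ∀ (n S : ℕ) (ε : ℝ), 3 ≤ n → Odd n → 0 < ε → ∃ L : ℕ, 1 ≤ L ∧ ∀ᶠ X : ℕ in atTop,
    (({N ∈ Set.Icc 1 X | ¬ ∀ u : ℕ, (X : ℝ) ^ (2 / 5 : ℝ) ≤ u → u ≤ X →
      GoodDiv n S L (1 / 80) N u}.ncard : ℕ) : ℝ) ≤ ε * X

end Pool.Agent.CDZ
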