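import Pool.Agent.CDZ.StK
import Pool.Agent.CDZ.StC
import Pool.Agent.CDZ.StW

/-!
# CDZ, statements E: even exponents, and the final theorem

Every docstring contains a complete proof.
-/

set_option autoImplicit false

open Finset Filter Topology

namespace Pool.Agent.CDZ

/-- (E1) Pell equations: if `(A² - 1)(B² - 1)` is a square and `2 ≤ A < B` then `B = T_l(y)` for a prime
`l` and some `y ≥ 2`.
PROOF.  Write `A² - 1 = D y0²`, `D` squarefree (`Nat.sq_mul_squarefree`); `D` is not a square (`A² - 1` is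
not a square for `A ≥ 2`), and `D z² = B² - 1` for some `z > 0`: `D y0² (B² - 1) = x²`, so
`y0 ∣ x` and `D (B² - 1)` is a square, `D ∣ B² - 1` since `D` is squarefree, and so on.  By
`Pell.exists_of_not_isSquare`/`Pell.IsFundamental.exists_of_not_isSquare` there is a fundamental
solution `a₁ : Pell.Solution₁ D`; the solutions `(A, y0)` and `(B, z)` have `x > 1`, `y > 0`, so
`(B, z) = a₁ ^ s` (`Pell.IsFundamental.eq_pow_of_nonneg`), and `s ≠ 0` (`B > 1`), `s ≠ 1` since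
`a₁.x ≤ A < B` (minimality).  Let `l` be a prime factor of `s`, `s = l t`, `y = (a₁ ^ t).x ≥ a₁.x ≥ 2`
(`t ≥ 1`).  `B = ((a₁ ^ t) ^ l).x = T_l(y)`: for a solution `a`, `(a ^ 0).x = 1`, `(a ^ 1).x = a.x`,
`(a ^ (k + 2)).x = 2 a.x (a ^ (k + 1)).x - (a ^ k).x` (because `a + a⁻¹ = 2 a.x`, i.e. from
`x_mul`, `y_mul` and `a.x² - D a.y² = 1`), the recursion of `Polynomial.Chebyshev.T`. -/
def PellChain : Prop :=
  ∀ A B x : ℕ, 2 ≤ A → A < B → (A ^ 2 - 1) * (B ^ 2 - 1) = x ^ 2 →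
    ∃ l y : ℕ, l.Prime ∧ 2 ≤ y ∧ (B : ℤ) = Tv l y

/-- (E2) `T_l` for odd `l`.
PROOF.  Recursion `Tv (k+2) y = 2 y Tv (k+1) y - Tv k y`, `Tv 0 = 1`, `Tv 1 = y`.  (a) `Tv (k+1) y ≥ y Tv k y`
and `Tv k y ≥ 1` for `y ≥ 1`, by induction (`Tv (k+2) = y Tv (k+1) + (y Tv (k+1) - Tv k)`,
`y Tv (k+1) ≥ Tv (k+1) ≥ Tv k`), so `Tv l y ≥ y^l`.  (b) By induction on `j`:
`Tv (2 j) y ≡ (-1)^j mod y²` and `Tv (2 j + 1) y ≡ (-1)^j (2 j + 1) y mod y³`.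
(`Tv (2j+2) = 2 y Tv (2j+1) - Tv (2j)`: `≡ -(-1)^j mod y²`; `Tv (2j+3) = 2 y Tv (2j+2) - Tv (2j+1) ≡
2 y (-1)^{j+1} - (-1)^j (2j+1) y = (-1)^{j+1} (2 j + 3) y mod y³`.)  So for odd `l`: `y ∣ Tv l y` and
`Tv l y / y ≡ ± l mod y²`; a prime `p` dividing `y` and `Tv l y / y` divides `l`. -/
def ChebProp : Prop :=
  ∀ l y : ℕ, Odd l → 2 ≤ y → (y : ℤ) ^ l ≤ Tv l y ∧
    ∃ U : ℤ, Tv l y = y * U ∧ ∀ p : ℕ, p.Prime → p ∣ y → (p : ℤ) ∣ U → p ∣ l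

/-- (E3) The numbers `b` with `b^m = T_l(y)`, `l` an odd prime; from (E2).
PROOF.  `1 ≤ m`.  `b^m = y U` with `U > 0`.  For a prime `p ≠ l`, `p ∣ y`: `p ∤ U`, so `v_p(y) = m v_p(b)` is
divisible by `m`.  So `y = l^j w^m` with `0 ≤ j < m` (`j = v_l(y) mod m`).  `y^l ≤ T_l(y) = b^m ≤ X^m` gives
`w^l ≤ X` (`w^{m l} ≤ y^l`), so `w ≤ X^{1/3}` (`w^3 ≤ X`), and `2^l ≤ X^m`, so `l ≤ m log X / log 2`.
`b` is determined by `(l, j, w)`.  The number of `b` is at most `(m log X/log 2) m X^{1/3} ≤ ε X`. -/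
def OddCount : Prop :=
  ∀ (m : ℕ) (ε : ℝ), 1 ≤ m → 0 < ε → ∀ᶠ X : ℕ in atTop,
    (({b ∈ Set.Icc 2 X | ∃ l y : ℕ, l.Prime ∧ Odd l ∧ 2 ≤ y ∧ ((b ^ m : ℕ) : ℤ) = Tv l y}.ncard : ℕ) : ℝ)
      ≤ ε * X

/-- (E4) The numbers `b` with `b^m + 1 = 2 y²`.
PROOF.  (a) `m` odd.  `(b + 1) V = 2 y²`, `V = b^{m-1} - b^{m-2} + ... + 1 ≡ m mod b + 1`, so
`gcd(b + 1, V) ∣ m`.  For a prime `p` not dividing `2 m`, `v_p(b + 1)` is even (`p ∤ V` if `p ∣ b + 1`).  So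
`b + 1 = κ v²` with `κ` squarefree and all primes of `κ` dividing `2 m`, so `κ ∣ 2 m`.  The number of `b` is at
most `2 m √(X + 1)`.
(b) `m = 2 m'`: `z = b^{m'}` satisfies `z² + 1 = 2 y²`.  If `z < z'` are two such numbers (with `y, y'`) then
`δ = z' y - z y'` satisfies `δ (z' y + z y') = z'² y² - z² y'² = (z'² - z²)/2 > 0`, so `δ ≥ 1` and
`z'² > 2 (z' y + z y') > 2 z' y > √2 z' z`... more precisely `2 y² > z²`, `y > z/√2`, so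
`z'² - z² ≥ 2 (z' y + z y') ≥ 2 √2 z z'`, hence `z' ≥ 2 z`.  So the number of such `z ≤ X^{m'}` is at most
`m' log X/log 2 + 1`.
In both cases at most `ε X` for large `X`. -/
def TwoCount : Prop :=
  ∀ (m : ℕ) (ε : ℝ), 1 ≤ m → 0 < ε → ∀ᶠ X : ℕ in atTop,
    (({b ∈ Set.Icc 2 X | ∃ y : ℕ, b ^ m + 1 = 2 * y ^ 2}.ncard : ℕ) : ℝ) ≤ ε * X

/-- (E5) Even exponents; from (E1), (E3), (E4).
PROOF.  `n = 2 m`: `(a^n - 1)(b^n - 1) = ((a^m)² - 1)((b^m)² - 1)`, so by (E1) `b^m = T_l(y)`; `l = 2`: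
`T_2(y) = 2 y² - 1`, (E4); `l` odd: (E3). -/
def EvenCase : Prop :=
  ∀ (n : ℕ) (ε : ℝ), 2 ≤ n → Even n → 0 < ε → ∀ᶠ X : ℕ in atTop,
    (({b ∈ Set.Icc 2 X | ∃ a x : ℕ, 2 ≤ a ∧ a < b ∧ (a ^ n - 1) * (b ^ n - 1) = x ^ 2}.ncard : ℕ) : ℝ)
      ≤ ε * X

/-- (F1) Odd exponents; from (W10), (C8) and the library `Pool.Agent.Cohn`.
PROOF.  `n ≥ 3` odd.  Choose `S0` with `2/(S0 + 1) ≤ ε/6`.  `Pool.Agent.Cohn.exists_sol` gives `Sol` for every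
`b` in the set.  `s > S0`: `A_bound`.  `s ≤ S0`, `u ≤ X^{2/5} = X^{1/2 - 1/10}`: `C_bound` (`δ = 1/10`) gives
`U0` and the bound for `u > U0`, `B_bound` for `u ≤ U0`.  `s ≤ S0`, `u > X^{2/5}`: `N = b - 1 = c s² u`.  Let
`L0` be the `L` of (W10) (`GoodAll`) for `S = S0 + n`, `ε/6`.  If `N` has good divisors `d1, d2` for `u`: their
prime factors `p` satisfy `Gp n p`, `p > S0 + n`, so `p ∤ s` (`s ≥ 1`, `s ≤ S0`), and `p ∤ u`: otherwise (as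
`p ∤ n`) `Sol.hp` gives `Hn n p`, i.e. `gcd(p - 1, n) > 1` (`Hn_iff`), but `p = 2 mod n` gives
`gcd(p - 1, n) = gcd(1, n) = 1`.  So `d1 d2` is coprime to `s² u` and divides `c`: `MidB n S0 L0 (1/80) X b`,
at most `(ε/6) X` such `b` by (C8).  The other `N` are at most `(ε/6) X` (`b ↦ b - 1` injective). -/
def OddCase : Prop :=
  ∀ (n : ℕ) (ε : ℝ), 3 ≤ n → Odd n → 0 < ε → ∀ᶠ X : ℕ in atTop,
    (({b ∈ Set.Icc 2 X | ∃ a x : ℕ, 2 ≤ a ∧ a < b ∧ (a ^ n - 1) * (b ^ n - 1) = x ^ 2}.ncard : ℕ) : ℝ)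
      ≤ ε * X

/-- (F2) The final theorem; from (E5), (F1). -/
def Final : Prop :=
  ∀ n : ℕ, 2 ≤ n → Tendsto (fun X : ℕ =>
    ((({b : ℕ | b ≤ X ∧ ∃ a x : ℕ, 2 ≤ a ∧ a < b ∧ 1 ≤ x ∧
      (a ^ n - 1) * (b ^ n - 1) = x ^ 2} : Set ℕ).ncard : ℕ) : ℝ) / X) atTop (𝓝 0)

end Pool.Agent.CDZ
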